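import Pool.Agent.Lib_MP_2c424f_lo.Defs

/-!
# MP_2c424f_pr, free boxes: definitions

Torus of side `2M = 2^(k+2)`, `M = 2^(k+1) = 2m`, `m = 2^k`; the free box `{0..M}^D` is the closed orthant
`(x j).val ≤ M`; its proper colourings correspond to the proper colourings of the torus which are invariant
under all the reflections `x j ↦ - x j`.
-/

set_option autoImplicit false

open Finset

namespace Pool.Agent.LO

/-- admissible values of `q`, constant `2000` -/
def Adm2 (d q : ℕ) : Prop := 2 ≤ q ∧ (Even q ∨ 41 ≤ q) ∧ (q : ℝ) * (2000 * Real.log d) ≤ d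

/-- admissible values of `q`, constant `4000` -/
def Adm4 (d q : ℕ) : Prop := 2 ≤ q ∧ (Even q ∨ 41 ≤ q) ∧ (q : ℝ) * (4000 * Real.log d) ≤ d

/-- the reflection `x j ↦ - x j` -/
def th {d k : ℕ} (j : Fin d) (x : Site d k) : Site d k := Function.update x j (-(x j))

open scoped Classical in
/-- the proper colourings which are symmetric in the directions of `S` -/
noncomputable def sys (d k q : ℕ) (S : Finset (Fin d)) : Finset (Site d k → Fin q) :=
  (prps d k q).filter fun f => ∀ j ∈ S, ∀ x, f (th j x) = f x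

/-- number of proper colourings of the free box -/
noncomputable def NB (d k q : ℕ) : ℝ := ((sys d k q univ).card : ℝ)

/-- folding of one coordinate of a torus of side `2^(k+1)` onto `{0..2^k}` (`true`) or onto
`{2^k..2^(k+1)-1} ∪ {0}` (`false`) -/
def ph {k : ℕ} (b : Bool) (a : ZMod (2 ^ (k + 1))) : ZMod (2 ^ (k + 1)) :=
  if decide (a.val ≤ 2 ^ k) = b then a else -a

/-- folding of all coordinates -/
def fld {d k : ℕ} (β : Bt d) (x : Site d (k + 1)) : Site d (k + 1) := fun j => ph (β j) (x j)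

/-! ## The grid of blocks of the orthant -/

/-- grid -/
abbrev Gr (D m : ℕ) := Fin D → Fin m

/-- block number `s` of the orthant (`m = 2^k`) -/
def bk {D k : ℕ} (s : Gr D (2 ^ k)) : Blk D (k + 1) := fun j => (((s j).val : ℕ) : ZMod (2 ^ (k + 1)))

/-- `s' = s + e_j` -/
def gnb {D m : ℕ} (j : Fin D) (s s' : Gr D m) : Prop := (s' j).val = (s j).val + 1 ∧ ∀ i, i ≠ j → s' i = s i

/-- star adjacency (or equality) -/
def gst {D m : ℕ} (s s' : Gr D m) : Prop := ∀ j, (s j).val ≤ (s' j).val + 1 ∧ (s' j).val ≤ (s j).val + 1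

/-- star-connected finite sets -/
inductive gcn {D m : ℕ} : Finset (Gr D m) → Prop
  | one (s : Gr D m) : gcn {s}
  | ins (C : Finset (Gr D m)) (s t : Gr D m) (hC : gcn C) (ht : t ∈ C) (hst : gst t s) : gcn (insert s C)

/-- `𝒞` is the set of the star-components of `B` -/
structure GComp {D m : ℕ} (B : Finset (Gr D m)) (𝒞 : Finset (Finset (Gr D m))) : Prop where
  cn : ∀ C ∈ 𝒞, gcn C
  sub : ∀ C ∈ 𝒞, C ⊆ B
  cov : ∀ s ∈ B, ∃ C ∈ 𝒞, s ∈ C
  sep : ∀ C ∈ 𝒞, ∀ C' ∈ 𝒞, ∀ s ∈ C, ∀ s' ∈ C', gst s s' → C = C'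

end Pool.Agent.LO
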