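import Pool.Agent.Lib_MP_2c424f_fb.Fold
import Pool.Agent.Lib_MP_2c424f_lo.Lab

/-!
# Mirror images of the blocks of the orthant (piece MIR)

`fld β` on the orthant (`fld true` there is the identity) is the composition of the reflections `rs j 0`,
`β j = false`; the block `bk s` is mapped to `mir β s`.  Locality of `mb`, `bad` (they depend on the values at the
points `pt t a b` of the closed block) and `rs_pt`, `rs_step` (as in the proof of `bad_sym` in `Lab.lean`; there
`rb j 0 t = update t j (-1 - t j)`), induction on the set of the directions with `β j = false`.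
-/

set_option autoImplicit false

open Finset

namespace Pool.Agent.LO

variable {D k q : ℕ}

/-- the mirror image of the block `s` in the orthant `β` -/
def mir (β : Bt D) (s : Gr D (2 ^ k)) : Blk D (k + 1) := fun j => if β j = true then bk s j else -1 - bk s j

theorem bk_val (s : Gr D (2 ^ k)) (j : Fin D) : (bk s j).val = (s j).val := by
  unfold bk
  apply ZMod.val_natCast_of_lt
  have h1 := (s j).isLt
  have h2 : 2 ^ (k + 1) = 2 * 2 ^ k := pow_succ' 2 k
  omega

/-! ### The blocks -/

private theorem Mir_val_neg (n : ℕ) [NeZero n] (u : ZMod n) : (-1 - u).val = n - 1 - u.val := by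
  have hu := ZMod.val_lt u
  have h1 : (-1 - u : ZMod n) = ((n - 1 - u.val : ℕ) : ZMod n) := by
    have h2 : ((n - 1 - u.val : ℕ) : ZMod n) + ((u.val + 1 : ℕ) : ZMod n) = 0 := by
      rw [← Nat.cast_add]
      have h3 : n - 1 - u.val + (u.val + 1) = n := by omega
      rw [h3, ZMod.natCast_self]
    rw [Nat.cast_add, Nat.cast_one, ZMod.natCast_zmod_val] at h2
    linear_combination -h2
  rw [h1, ZMod.val_natCast_of_lt (by omega)]

private theorem Mir_val_true (β : Bt D) (s : Gr D (2 ^ k)) (j : Fin D) (h : β j = true) :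
    (mir β s j).val = (s j).val := by
  unfold mir
  rw [if_pos h, bk_val]

private theorem Mir_val_false (β : Bt D) (s : Gr D (2 ^ k)) (j : Fin D) (h : β j = false) :
    (mir β s j).val = 2 ^ (k + 1) - 1 - (s j).val := by
  unfold mir
  rw [if_neg (by rw [h]; exact Bool.false_ne_true), Mir_val_neg, bk_val]

private theorem Mir_inj : Function.Injective (fun p : Bt D × Gr D (2 ^ k) => mir p.1 p.2) := by
  rintro ⟨β, s⟩ ⟨β', s'⟩ h
  have h0 : ∀ j, (mir β s j).val = (mir β' s' j).val := fun j => by
    have h1 : mir β s = mir β' s' := h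
    rw [h1]
  have key : ∀ j, β j = β' j ∧ s j = s' j := by
    intro j
    have h1 := h0 j
    have h2 : 2 ^ (k + 1) = 2 * 2 ^ k := pow_succ' 2 k
    have h3 := (s j).isLt
    have h4 := (s' j).isLt
    cases hb : β j <;> cases hb' : β' j
    · rw [Mir_val_false β s j hb, Mir_val_false β' s' j hb'] at h1
      exact ⟨rfl, Fin.ext (by omega)⟩
    · rw [Mir_val_false β s j hb, Mir_val_true β' s' j hb'] at h1
      omega
    · rw [Mir_val_true β s j hb, Mir_val_false β' s' j hb'] at h1
      omega
    · rw [Mir_val_true β s j hb, Mir_val_true β' s' j hb'] at h1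
      exact ⟨rfl, Fin.ext (by omega)⟩
  exact Prod.ext (funext fun j => (key j).1) (funext fun j => (key j).2)

/-- every block is in exactly one orthant -/
theorem mir_bij : Function.Bijective (fun p : Bt D × Gr D (2 ^ k) => mir p.1 p.2) := by
  rw [Fintype.bijective_iff_injective_and_card]
  refine ⟨Mir_inj, ?_⟩
  rw [Fintype.card_prod]
  simp only [Fintype.card_fun, Fintype.card_bool, Fintype.card_fin, ZMod.card]
  rw [pow_succ' 2 k, mul_pow]

theorem sum_mir (F : Blk D (k + 1) → ℝ) : ∑ t, F t = ∑ β : Bt D, ∑ s : Gr D (2 ^ k), F (mir β s) := by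
  rw [← Fintype.sum_prod_type' (fun (β : Bt D) (s : Gr D (2 ^ k)) => F (mir β s))]
  exact ((mir_bij (D := D) (k := k)).sum_comp F).symm

/-! ### The folding on the orthant -/

/-- reflection in all directions with `β j = false` -/
private def Mir_R {n : ℕ} (β : Bt D) (x : Site D n) : Site D n := fun j => if β j = true then x j else - x j

private theorem Mir_R_add {n : ℕ} (β : Bt D) (x y : Site D n) :
    Mir_R β (x + y) = Mir_R β x + Mir_R β y := by
  funext j
  show (if β j = true then (x + y) j else -(x + y) j) =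
    (if β j = true then x j else -x j) + (if β j = true then y j else -y j)
  rw [Pi.add_apply]
  by_cases h : β j = true
  · rw [if_pos h, if_pos h, if_pos h]
  · rw [if_neg h, if_neg h, if_neg h]
    ring

private theorem Mir_fld (β : Bt D) (y : Site D (k + 2)) (h : ∀ j, (y j).val ≤ 2 ^ (k + 1)) :
    fld β y = Mir_R β y := by
  funext j
  unfold fld Mir_R
  cases hb : β j
  · rw [if_neg Bool.false_ne_true, ph_false, ph_true_of_le (h j)]
  · rw [if_pos rfl, ph_true_of_le (h j)]

/-- flip all bits with `β j = false` -/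
private def Mir_F (β a : Bt D) : Bt D := fun j => if β j = true then a j else !a j

private theorem Mir_F_F (β a : Bt D) : Mir_F β (Mir_F β a) = a := by
  funext j
  unfold Mir_F
  cases β j <;> simp

private theorem Mir_pt (β : Bt D) (s : Gr D (2 ^ k)) (a b : Bt D) :
    Mir_R β (pt (bk s) a b) = pt (mir β s) (Mir_F β a) (Mir_F β b) := by
  funext j
  have h2 : 2 ^ (k + 1) = 2 * 2 ^ k := pow_succ' 2 k
  have h3 := (s j).isLt
  have e0 : ∀ (t : Blk D (k + 1)) (a b : Bt D), pt t a b j =
      ((2 * (t j).val : ℕ) : ZMod (2 ^ (k + 1 + 1))) + (if a j then 1 else 0) + (if b j then 1 else 0) :=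
    fun _ _ _ => rfl
  unfold Mir_R
  rw [e0, e0]
  cases hb : β j
  · rw [if_neg Bool.false_ne_true, Mir_val_false β s j hb, bk_val]
    have e1 : ((2 * (2 ^ (k + 1) - 1 - (s j).val) : ℕ) : ZMod (2 ^ (k + 1 + 1))) =
        - ((2 * (s j).val : ℕ) : ZMod (2 ^ (k + 1 + 1))) - 2 := by
      have e2 : ((2 * (2 ^ (k + 1) - 1 - (s j).val) : ℕ) : ZMod (2 ^ (k + 1 + 1))) +
          ((2 * (s j).val + 2 : ℕ) : ZMod (2 ^ (k + 1 + 1))) = 0 := by
        rw [← Nat.cast_add]
        have e3 : 2 * (2 ^ (k + 1) - 1 - (s j).val) + (2 * (s j).val + 2) = 2 ^ (k + 1 + 1) := by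
          have h4 : 2 ^ (k + 1 + 1) = 2 * 2 ^ (k + 1) := pow_succ' 2 (k + 1)
          omega
        rw [e3, ZMod.natCast_self]
      push_cast at e2 ⊢
      linear_combination e2
    rw [e1]
    have e4 : ∀ c : Bt D, Mir_F β c j = !c j := by
      intro c
      unfold Mir_F
      rw [hb, if_neg Bool.false_ne_true]
    rw [e4, e4]
    cases a j <;> cases b j <;> simp <;> ring
  · rw [if_pos rfl, Mir_val_true β s j hb, bk_val]
    have e4 : ∀ c : Bt D, Mir_F β c j = c j := by
      intro c
      unfold Mir_F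
      rw [hb, if_pos rfl]
    rw [e4, e4]

/-- the mirror image of a step -/
private def Mir_S (β : Bt D) (σ : Stp D) : Stp D := (σ.1, if β σ.1 = true then σ.2 else !σ.2)

private theorem Mir_S_S (β : Bt D) (σ : Stp D) : Mir_S β (Mir_S β σ) = σ := by
  obtain ⟨i, c⟩ := σ
  unfold Mir_S
  cases h : β i <;> simp [h]

private theorem Mir_sv {n : ℕ} (β : Bt D) (σ : Stp D) : Mir_R β (sv σ : Site D n) = sv (Mir_S β σ) := by
  obtain ⟨i, c⟩ := σ
  funext j
  unfold Mir_R
  by_cases h : j = i
  · subst h
    have e : ∀ c : Bool, (sv (j, c) : Site D n) j = if c then 1 else -1 := by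
      intro c
      unfold sv
      exact Pi.single_eq_same _ _
    unfold Mir_S
    rw [e, e]
    cases β j <;> cases c <;> simp
  · have e : ∀ c : Bool, (sv (i, c) : Site D n) j = 0 := by
      intro c
      unfold sv
      exact Pi.single_eq_of_ne h _
    unfold Mir_S
    rw [e, e]
    simp

private theorem Mir_alw (β a b : Bt D) (σ : Stp D) :
    alw (Mir_F β a) (Mir_F β b) (Mir_S β σ) ↔ alw a b σ := by
  obtain ⟨i, c⟩ := σ
  unfold alw Mir_F Mir_S
  cases β i <;> cases c <;> cases a i <;> cases b i <;> simp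

private theorem Mir_od (β a b : Bt D) : od (Mir_F β a) (Mir_F β b) ↔ od a b := by
  unfold od
  have h : (univ.filter fun i => Mir_F β a i ≠ Mir_F β b i) = univ.filter fun i => a i ≠ b i := by
    apply Finset.filter_congr
    intro i _
    unfold Mir_F
    cases β i <;> simp
  rw [h]

private theorem Mir_val_pt (s : Gr D (2 ^ k)) (a b : Bt D) (j : Fin D) :
    (pt (bk s) a b j).val ≤ 2 ^ (k + 1) := by
  have h2 : 2 ^ (k + 1) = 2 * 2 ^ k := pow_succ' 2 k
  have h4 : 2 ^ (k + 1 + 1) = 2 * 2 ^ (k + 1) := pow_succ' 2 (k + 1)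
  have h3 := (s j).isLt
  have e0 : pt (bk s) a b j = ((2 * (s j).val + ((if a j then 1 else 0) + (if b j then 1 else 0)) : ℕ) :
      ZMod (2 ^ (k + 1 + 1))) := by
    have e1 : pt (bk s) a b j = ((2 * (bk s j).val : ℕ) : ZMod (2 ^ (k + 1 + 1))) +
        (if a j then 1 else 0) + (if b j then 1 else 0) := rfl
    rw [e1, bk_val]
    push_cast
    ring
  have h5 : ((if a j then 1 else 0) + (if b j then 1 else 0) : ℕ) ≤ 2 := by
    cases a j <;> cases b j <;> simp
  rw [e0, ZMod.val_natCast_of_lt (by omega)]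
  omega

private theorem Mir_val_pt_step (s : Gr D (2 ^ k)) (a b : Bt D) (σ : Stp D) (hσ : alw a b σ) (j : Fin D) :
    ((pt (bk s) a b + sv σ : Site D (k + 2)) j).val ≤ 2 ^ (k + 1) := by
  obtain ⟨i, c⟩ := σ
  by_cases h : j = i
  · subst h
    have h2 : 2 ^ (k + 1) = 2 * 2 ^ k := pow_succ' 2 k
    have h4 : 2 ^ (k + 1 + 1) = 2 * 2 ^ (k + 1) := pow_succ' 2 (k + 1)
    have h3 := (s j).isLt
    have e1 : pt (bk s) a b j = ((2 * (s j).val : ℕ) : ZMod (2 ^ (k + 1 + 1))) +
        (if a j then 1 else 0) + (if b j then 1 else 0) := by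
      have e1' : pt (bk s) a b j = ((2 * (bk s j).val : ℕ) : ZMod (2 ^ (k + 1 + 1))) +
        (if a j then 1 else 0) + (if b j then 1 else 0) := rfl
      rw [e1', bk_val]
    have e2 : (sv (j, c) : Site D (k + 2)) j = if c then 1 else -1 := by
      unfold sv
      exact Pi.single_eq_same _ _
    obtain ⟨e, he, hv⟩ : ∃ e : ℕ, e ≤ 2 ∧ (pt (bk s) a b + sv (j, c) : Site D (k + 2)) j =
        ((2 * (s j).val + e : ℕ) : ZMod (2 ^ (k + 1 + 1))) := by
      rw [Pi.add_apply, e1, e2]
      unfold alw at hσ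
      cases c
      · cases ha : a j <;> cases hb : b j
        · exfalso
          simp [ha, hb] at hσ
        · refine ⟨0, by norm_num, ?_⟩
          push_cast
          simp
        · refine ⟨0, by norm_num, ?_⟩
          push_cast
          simp
        · refine ⟨1, by norm_num, ?_⟩
          push_cast
          simp
      · cases ha : a j <;> cases hb : b j
        · refine ⟨1, by norm_num, ?_⟩
          push_cast
          simp
        · refine ⟨2, by norm_num, ?_⟩
          push_cast
          simp only [if_true]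
          simp
          ring
        · refine ⟨2, by norm_num, ?_⟩
          push_cast
          simp only [if_true]
          simp
          ring
        · exfalso
          simp [ha, hb] at hσ
    have h5 : 2 ^ (k + 2) = 2 * 2 ^ (k + 1) := pow_succ' 2 (k + 1)
    rw [hv, ZMod.val_natCast_of_lt (by omega)]
    omega
  · have e : (sv (i, c) : Site D (k + 2)) j = 0 := by
      unfold sv
      exact Pi.single_eq_of_ne h _
    rw [Pi.add_apply, e, add_zero]
    exact Mir_val_pt s a b j

/-! ### Locality and the mirror images -/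

private theorem Mir_val (β : Bt D) (s : Gr D (2 ^ k)) (f : Site D (k + 2) → Fin q) (a b : Bt D) (σ : Stp D)
    (hσ : alw a b σ) : f (fld β (pt (bk s) a b + sv σ)) =
      f (pt (mir β s) (Mir_F β a) (Mir_F β b) + sv (Mir_S β σ)) := by
  rw [Mir_fld β _ (Mir_val_pt_step s a b σ hσ), Mir_R_add, Mir_pt, Mir_sv]

private theorem Mir_zb (β : Bt D) (s : Gr D (2 ^ k)) (f : Site D (k + 2) → Fin q) (a b : Bt D) (c : Fin q) :
    zb (fun x => f (fld β x)) (bk s) a b c = zb f (mir β s) (Mir_F β a) (Mir_F β b) c := by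
  unfold zb
  have h : (∀ σ : Stp D, alw a b σ → f (fld β (pt (bk s) a b + sv σ)) ≠ c) ↔
      ∀ σ : Stp D, alw (Mir_F β a) (Mir_F β b) σ →
        f (pt (mir β s) (Mir_F β a) (Mir_F β b) + sv σ) ≠ c := by
    constructor
    · intro H σ hσ
      have h1 : alw a b (Mir_S β σ) := by
        rw [← Mir_alw β, Mir_S_S]
        exact hσ
      have h2 := H (Mir_S β σ) h1
      rw [Mir_val β s f a b _ h1, Mir_S_S] at h2
      exact h2
    · intro H σ hσ
      rw [Mir_val β s f a b _ hσ]
      exact H (Mir_S β σ) ((Mir_alw β a b σ).mpr hσ)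
  by_cases h1 : ∀ σ : Stp D, alw a b σ → f (fld β (pt (bk s) a b + sv σ)) ≠ c
  · rw [if_pos h1, if_pos (h.mp h1)]
  · rw [if_neg h1, if_neg (fun h2 => h1 (h.mpr h2))]

private theorem Mir_zj (β : Bt D) (s : Gr D (2 ^ k)) (f : Site D (k + 2) → Fin q) (a b : Bt D) (c : Fin q)
    (j : Fin D) :
    zj (fun x => f (fld β x)) (bk s) a b c j = zj f (mir β s) (Mir_F β a) (Mir_F β b) c j := by
  unfold zj
  have h : (∀ σ : Stp D, σ.1 ≠ j → alw a b σ → f (fld β (pt (bk s) a b + sv σ)) ≠ c) ↔
      ∀ σ : Stp D, σ.1 ≠ j → alw (Mir_F β a) (Mir_F β b) σ →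
        f (pt (mir β s) (Mir_F β a) (Mir_F β b) + sv σ) ≠ c := by
    constructor
    · intro H σ hj hσ
      have h1 : alw a b (Mir_S β σ) := by
        rw [← Mir_alw β, Mir_S_S]
        exact hσ
      have h2 := H (Mir_S β σ) hj h1
      rw [Mir_val β s f a b _ h1, Mir_S_S] at h2
      exact h2
    · intro H σ hj hσ
      rw [Mir_val β s f a b _ hσ]
      exact H (Mir_S β σ) hj ((Mir_alw β a b σ).mpr hσ)
  by_cases h1 : ∀ σ : Stp D, σ.1 ≠ j → alw a b σ → f (fld β (pt (bk s) a b + sv σ)) ≠ c
  · rw [if_pos h1, if_pos (h.mp h1)]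
  · rw [if_neg h1, if_neg (fun h2 => h1 (h.mpr h2))]

open scoped Classical in
private theorem Mir_EB (β : Bt D) (F G : Bt D → Bt D → ℝ)
    (h : ∀ a b, F a b = G (Mir_F β a) (Mir_F β b)) : EB F = EB G := by
  unfold EB
  have hinv : Function.Involutive (Mir_F β) := Mir_F_F β
  have h1 : (∑ a, ∑ b, if od a b then F a b else 0) = ∑ a, ∑ b, if od a b then G a b else 0 := by
    rw [← hinv.bijective.sum_comp (fun a => ∑ b, if od a b then G a b else 0)]
    refine Finset.sum_congr rfl fun a _ => ?_
    rw [← hinv.bijective.sum_comp (fun b => if od (Mir_F β a) b then G (Mir_F β a) b else 0)]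
    refine Finset.sum_congr rfl fun b _ => ?_
    by_cases h2 : od a b
    · rw [if_pos h2, if_pos ((Mir_od β a b).mpr h2), h]
    · rw [if_neg h2, if_neg (fun h3 => h2 ((Mir_od β a b).mp h3))]
  rw [h1]

theorem mb_mir (β : Bt D) (s : Gr D (2 ^ k)) (f : Site D (k + 2) → Fin q) (c : Fin q) :
    mb (fun x => f (fld β x)) (bk s) c = mb f (mir β s) c := by
  unfold mb
  exact Mir_EB β _ _ fun a b => Mir_zb β s f a b c

private theorem Mir_mj (β : Bt D) (s : Gr D (2 ^ k)) (f : Site D (k + 2) → Fin q) (c : Fin q) (j : Fin D) :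
    mj (fun x => f (fld β x)) (bk s) c j = mj f (mir β s) c j := by
  unfold mj
  exact Mir_EB β _ _ fun a b => Mir_zj β s f a b c j

theorem bad_mir (β : Bt D) (s : Gr D (2 ^ k)) (f : Site D (k + 2) → Fin q) (c : Fin q) :
    bad c (bk s) (fun x => f (fld β x)) → bad c (mir β s) f := by
  unfold bad lab1 lab0
  rw [mb_mir]
  simp_rw [Mir_mj]
  exact id

end Pool.Agent.LO
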