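import Pool.Agent.Lib_MP_2c424f_fb.FF
import Pool.Agent.Lib_MP_2c424f_fb.Mir
import Pool.Agent.Lib_MP_2c424f_lo.Mean

/-!
# Available colours in the free box (piece AVF)

`ff` for `E f = (53/100 q m^D ≤ ∑ s, ∑ c, mb f (bk s) c)`, `m = 2^k`, and `ρ = exp (-(2m)^D/10000)`.
If all folded versions of `f` satisfy `E` then (`mb_mir`, `sum_mir`)
`∑ t, ∑ c, mb f t c ≥ 53/100 q (2m)^D`, so by `sum_mb`, `sum_EB` (as in the proof of `mean_mb`)
`∑_v av + ∑_c QQ ≥ 53/100 q N/2`, `N = NN D (k+2)`; either `∑_c QQ ≥ 5/1000 q N/2` or `∑_v av ≥ 525/1000 q N/2` and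
then, by convexity of `ell - log` (tangent of the logarithm at the mean value, `log x ≤ log a + (x-a)/a`),
`∑_v (ell (av) - log (av)) ≥ (N/2) (ell a - log a) ≥ 4/10000 N/2` at `a = 525/1000 q` (`q` even, or `q ≥ 41` odd; the
slope `sl q` is at least `2/q ≥ 1/a`).  So `Loss ≥ 2 N/10000`; `pbd`: `3N/D^4` is much smaller.
`N / 2^D = (2m)^D`.  Finally `exp (SF D k - (2m)^D/10000) ≤ ε` for large `k`.
-/

set_option autoImplicit false

open Finset

namespace Pool.Agent.LO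

private theorem AvF_q {q : ℕ} (h : Even q ∨ 41 ≤ q) : (Even q ∧ (q : ℝ) = 2 * (q1 q : ℝ)) ∨
    (¬ Even q ∧ (q : ℝ) = 2 * (q1 q : ℝ) + 1 ∧ (q2 q : ℝ) = (q1 q : ℝ) + 1 ∧ 41 ≤ (q : ℝ)) := by
  by_cases he : Even q
  · left
    refine ⟨he, ?_⟩
    have h1 : q = 2 * q1 q := by
      unfold q1
      obtain ⟨m, rfl⟩ := he
      omega
    exact_mod_cast h1
  · right
    have ho : Odd q := Nat.not_even_iff_odd.1 he
    have h41 : 41 ≤ q := h.resolve_left he
    have h1 : q = 2 * q1 q + 1 := by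
      unfold q1
      obtain ⟨m, rfl⟩ := ho
      omega
    have h2 : q2 q = q1 q + 1 := by
      unfold q2 q1
      obtain ⟨m, rfl⟩ := ho
      omega
    refine ⟨he, by exact_mod_cast h1, by exact_mod_cast h2, by exact_mod_cast h41⟩

private theorem AvF_sl {q : ℕ} (hq : 2 ≤ q) (h : Even q ∨ 41 ≤ q) : 2 / (q : ℝ) ≤ sl q := by
  have h1 : (1 : ℝ) ≤ q1 q := by exact_mod_cast q1_pos hq
  rcases AvF_q h with ⟨he, h2⟩ | ⟨he, h2, h3, _⟩
  · unfold sl
    rw [if_pos he, h2]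
    apply le_of_eq
    field_simp
  · unfold sl
    rw [if_neg he, h3, h2]
    have h4 := Real.le_log_one_add_of_nonneg (show (0 : ℝ) ≤ 1 / (q1 q : ℝ) by positivity)
    have h5 : 1 + 1 / (q1 q : ℝ) = ((q1 q : ℝ) + 1) / (q1 q : ℝ) := by field_simp
    rw [h5] at h4
    refine le_trans (le_of_eq ?_) h4
    field_simp
    ring

private theorem AvF_log : Real.log (105 / 100) ≤ 489 / 10000 := by
  rw [Real.log_le_iff_le_exp (by norm_num)]
  have h := Real.quadratic_le_exp_of_nonneg (show (0 : ℝ) ≤ 489 / 10000 by norm_num)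
  refine le_trans ?_ h
  norm_num

private theorem AvF_ell {q : ℕ} (hq : 2 ≤ q) (h : Even q ∨ 41 ≤ q) :
    4 / 10000 ≤ ell q (525 / 1000 * q) - Real.log (525 / 1000 * q) := by
  have h1 : (1 : ℝ) ≤ q1 q := by exact_mod_cast q1_pos hq
  have hq0 : (0 : ℝ) < q := by
    have : 0 < q := by omega
    exact_mod_cast this
  have hs := AvF_sl hq h
  have hle : 2 * (q1 q : ℝ) ≤ q := by
    rcases AvF_q h with ⟨_, h2⟩ | ⟨_, h2, _, _⟩ <;> linarith
  have hd : 0 ≤ 525 / 1000 * (q : ℝ) - q1 q := by linarith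
  have h3 : 2 / (q : ℝ) * (525 / 1000 * (q : ℝ) - q1 q) ≤ sl q * (525 / 1000 * (q : ℝ) - q1 q) :=
    mul_le_mul_of_nonneg_right hs hd
  have hr0 : (0 : ℝ) < q1 q := by linarith
  have h4 : Real.log (525 / 1000 * q) =
      Real.log (q1 q) + (Real.log (105 / 100) + Real.log ((q : ℝ) / (2 * q1 q))) := by
    rw [← Real.log_mul (by norm_num) (by positivity), ← Real.log_mul hr0.ne' (by positivity)]
    congr 1
    field_simp
    ring
  have h5 := Real.log_le_sub_one_of_pos (show 0 < (q : ℝ) / (2 * q1 q) by positivity)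
  have h6 := AvF_log
  have h7 : 2 / (q : ℝ) * (525 / 1000 * (q : ℝ) - q1 q) = 105 / 100 - 2 * (q1 q : ℝ) / q := by
    field_simp
    ring
  have h8 : 2 * (q1 q : ℝ) / q + (q : ℝ) / (2 * q1 q) ≤ 2 + 7 / 10000 := by
    have h9 : 2 * (q1 q : ℝ) / q + (q : ℝ) / (2 * q1 q) =
        2 + ((q : ℝ) - 2 * q1 q) ^ 2 / (2 * q1 q * q) := by
      field_simp
      ring
    rw [h9]
    have h10 : ((q : ℝ) - 2 * q1 q) ^ 2 / (2 * q1 q * q) ≤ 7 / 10000 := by
      rw [div_le_iff₀ (by positivity)]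
      rcases AvF_q h with ⟨_, h2⟩ | ⟨_, h2, _, h41⟩
      · rw [h2]
        have : (0 : ℝ) ≤ 7 / 10000 * (2 * q1 q * (2 * q1 q)) := by positivity
        nlinarith
      · have e1 : (q : ℝ) - 2 * q1 q = 1 := by linarith
        have e2 : 2 * (q1 q : ℝ) = q - 1 := by linarith
        rw [e1, e2]
        nlinarith
    linarith
  unfold ell
  linarith

/-- convexity -/
private theorem AvF_gap {q : ℕ} (hq : 2 ≤ q) (h : Even q ∨ 41 ≤ q) {ι : Type*} (A : Finset ι) (x : ι → ℕ)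
    (hx : ∀ v ∈ A, 1 ≤ x v) (hs : (525 / 1000 : ℝ) * q * A.card ≤ ∑ v ∈ A, (x v : ℝ)) :
    (4 / 10000 : ℝ) * A.card ≤ ∑ v ∈ A, (ell q (x v) - Real.log (x v)) := by
  have hq0 : (0 : ℝ) < q := by
    have : 0 < q := by omega
    exact_mod_cast this
  have hE := AvF_ell hq h
  have hsl := AvF_sl hq h
  set a : ℝ := 525 / 1000 * q with ha
  have ha0 : 0 < a := by positivity
  have hsa : 1 / a ≤ sl q := by
    refine le_trans ?_ hsl
    rw [div_le_div_iff₀ ha0 hq0, ha]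
    linarith
  have hterm : ∀ v ∈ A, 4 / 10000 + (sl q - 1 / a) * ((x v : ℝ) - a) ≤ ell q (x v) - Real.log (x v) := by
    intro v hv
    have hx0 : (0 : ℝ) < x v := by exact_mod_cast hx v hv
    have h1 := Real.log_le_sub_one_of_pos (show 0 < (x v : ℝ) / a by positivity)
    rw [Real.log_div hx0.ne' ha0.ne'] at h1
    have h2 : ell q (x v) = ell q a + sl q * ((x v : ℝ) - a) := by
      unfold ell
      ring
    have h3 : (sl q - 1 / a) * ((x v : ℝ) - a) = sl q * ((x v : ℝ) - a) - ((x v : ℝ) / a - 1) := by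
      field_simp
    linarith
  have h1 := Finset.sum_le_sum hterm
  rw [Finset.sum_add_distrib, Finset.sum_const, nsmul_eq_mul, ← Finset.mul_sum,
    Finset.sum_sub_distrib, Finset.sum_const, nsmul_eq_mul] at h1
  have h2 : 0 ≤ (sl q - 1 / a) * (∑ v ∈ A, (x v : ℝ) - (A.card : ℝ) * a) := by
    apply mul_nonneg
    · linarith
    · linarith
  linarith

private theorem AvF_QQ_nonneg {d k q : ℕ} (f : Site d k → Fin q) (c : Fin q) : 0 ≤ QQ f c := by
  unfold QQ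
  refine sum_nonneg fun v _ => ?_
  split_ifs
  · exact le_rfl
  · positivity

private theorem AvF_II_nonneg {d k q : ℕ} (f : Site d k → Fin q) (c : Fin q) : 0 ≤ II f c := by
  unfold II
  refine sum_nonneg fun u _ => ?_
  exact mul_nonneg (mm_nonneg f u c) (by linarith [mm_le_one f u c])

private theorem AvF_loss {d k q : ℕ} (hq : 2 ≤ q) (hq' : Even q ∨ 41 ≤ q)
    {f : Site d k → Fin q} (hf : Prp f)
    (h : 53 / 100 * (q * ((ods d k).card : ℝ)) ≤ ∑ v ∈ ods d k, (av f v : ℝ) + ∑ c, QQ f c) :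
    4 / 10000 * ((ods d k).card : ℝ) ≤ Loss f := by
  have hq0 : (0 : ℝ) < q := by
    have : 0 < q := by omega
    exact_mod_cast this
  have hgap : 0 ≤ ∑ v ∈ ods d k, (ell q (av f v) - Real.log (av f v)) :=
    sum_nonneg fun v _ => sub_nonneg.2 (log_le_ell hq _ (av_pos hf v))
  have hI : 0 ≤ ∑ c, II f c := sum_nonneg fun c _ => AvF_II_nonneg f c
  have hQ : 0 ≤ ∑ c, QQ f c := sum_nonneg fun c _ => AvF_QQ_nonneg f c
  have hL : Loss f = 1 / (6 * (q : ℝ)) * (∑ c, II f c + ∑ c, QQ f c) +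
      ∑ v ∈ ods d k, (ell q (av f v) - Real.log (av f v)) := by
    unfold Loss
    rw [sum_add_distrib]
  have hn : (0 : ℝ) ≤ ((ods d k).card : ℝ) := Nat.cast_nonneg _
  by_cases h6 : (525 / 1000 : ℝ) * q * (ods d k).card ≤ ∑ v ∈ ods d k, (av f v : ℝ)
  · have hg := AvF_gap hq hq' (ods d k) (fun v => av f v) (fun v _ => av_pos hf v) h6
    have hp : 0 ≤ 1 / (6 * (q : ℝ)) * (∑ c, II f c + ∑ c, QQ f c) := by positivity
    rw [hL]
    linarith
  · have h6' := not_le.1 h6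
    have hQ1 : 5 / 1000 * (q * ((ods d k).card : ℝ)) ≤ ∑ c, QQ f c := by
      have e1 : (525 / 1000 : ℝ) * q * (ods d k).card = 525 / 1000 * (q * ((ods d k).card : ℝ)) := by
        ring
      rw [e1] at h6'
      linarith
    have hp : 1 / (6 * (q : ℝ)) * (5 / 1000 * (q * ((ods d k).card : ℝ))) ≤
        1 / (6 * (q : ℝ)) * (∑ c, II f c + ∑ c, QQ f c) := by
      apply mul_le_mul_of_nonneg_left _ (by positivity)
      linarith
    have e2 : 1 / (6 * (q : ℝ)) * (5 / 1000 * (q * ((ods d k).card : ℝ))) =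
        ((ods d k).card : ℝ) / 1200 := by
      field_simp
      ring
    rw [e2] at hp
    rw [hL]
    linarith

/-- all blocks and colours -/
private theorem AvF_sum {d k q : ℕ} (hd : 1 ≤ d) (f : Site d (k + 1) → Fin q) :
    ∑ t' : Blk d k, ∑ c' : Fin q, mb f t' c' ≤
      2 / 2 ^ d * (∑ v ∈ ods d (k + 1), (av f v : ℝ) + ∑ c, QQ f c) := by
  rw [sum_comm]
  have h3 : ∀ c' : Fin q, ∑ t' : Blk d k, mb f t' c' ≤
      2 / 2 ^ d * (∑ v ∈ ods d (k + 1), zz f v c') + 2 / 2 ^ d * QQ f c' := by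
    intro c'
    have h4 := sum_mb f c'
    rw [sum_sub_distrib] at h4
    have h5 : ∑ t' : Blk d k, mt f t' c' = 2 / 2 ^ d * ∑ v ∈ ods d (k + 1), zz f v c' := by
      unfold mt
      exact sum_EB hd (fun v => zz f v c')
    rw [h5] at h4
    linarith
  refine (sum_le_sum fun c' _ => h3 c').trans ?_
  rw [sum_add_distrib, ← mul_sum, ← mul_sum, sum_comm, mul_add]
  have h6 : ∀ v ∈ ods d (k + 1), ∑ c' : Fin q, zz f v c' = (av f v : ℝ) := fun v _ => (av_eq f v).symm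
  rw [sum_congr rfl h6]

/-- the symmetric event is unlikely -/
private theorem AvF_loss' {D k q : ℕ} (hD : 1 ≤ D) (hq : 2 ≤ q) (hq' : Even q ∨ 41 ≤ q)
    {f : Site D (k + 2) → Fin q} (hf : Prp f)
    (h : ∀ β : Bt D, 53 / 100 * (q : ℝ) * ((2 : ℝ) ^ k) ^ D ≤
      ∑ s : Gr D (2 ^ k), ∑ c, mb (fun x => f (fld β x)) (bk s) c) :
    2 / 10000 * NN D (k + 2) ≤ Loss f := by
  have hcard : ((ods D (k + 2)).card : ℝ) = NN D (k + 2) / 2 := card_ods hD (by omega)
  have hNN : NN D (k + 2) = 2 ^ D * (2 ^ D * ((2 : ℝ) ^ k) ^ D) := by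
    unfold NN
    rw [pow_add, mul_pow]
    have : ((2 : ℝ) ^ 2) ^ D = 2 ^ D * 2 ^ D := by
      rw [← mul_pow]
      norm_num
    rw [this]
    ring
  have h1 : 2 ^ D * (53 / 100 * (q : ℝ) * ((2 : ℝ) ^ k) ^ D) ≤
      ∑ t : Blk D (k + 1), ∑ c : Fin q, mb f t c := by
    rw [sum_mir (fun t => ∑ c : Fin q, mb f t c)]
    have h2 : ∑ _β : Bt D, (53 / 100 * (q : ℝ) * ((2 : ℝ) ^ k) ^ D) =
        2 ^ D * (53 / 100 * (q : ℝ) * ((2 : ℝ) ^ k) ^ D) := by
      rw [sum_const, nsmul_eq_mul, card_univ, Fintype.card_fun, Fintype.card_bool, Fintype.card_fin]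
      push_cast
      ring
    rw [← h2]
    apply sum_le_sum
    intro β _
    refine (h β).trans (le_of_eq ?_)
    apply sum_congr rfl
    intro s _
    apply sum_congr rfl
    intro c _
    exact mb_mir β s f c
  have h2 := AvF_sum hD f
  have h3 : 53 / 100 * (q * ((ods D (k + 2)).card : ℝ)) ≤
      ∑ v ∈ ods D (k + 2), (av f v : ℝ) + ∑ c, QQ f c := by
    have h4 := h1.trans h2
    have hp : (0 : ℝ) < 2 ^ D := by positivity
    rw [hcard, hNN]
    have h5 : (2 : ℝ) ^ D / 2 * (2 ^ D * (53 / 100 * (q : ℝ) * ((2 : ℝ) ^ k) ^ D)) ≤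
        2 ^ D / 2 * (2 / 2 ^ D * (∑ v ∈ ods D (k + 1 + 1), (av f v : ℝ) + ∑ c, QQ f c)) :=
      mul_le_mul_of_nonneg_left h4 (by positivity)
    have h6 : (2 : ℝ) ^ D / 2 * (2 / 2 ^ D * (∑ v ∈ ods D (k + 1 + 1), (av f v : ℝ) + ∑ c, QQ f c)) =
        ∑ v ∈ ods D (k + 1 + 1), (av f v : ℝ) + ∑ c, QQ f c := by
      field_simp
    rw [h6] at h5
    refine le_trans (le_of_eq ?_) h5
    ring
  have h4 := AvF_loss hq hq' hf h3
  rw [hcard] at h4
  linarith

open scoped Classical in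
theorem avF : ∃ D₀ : ℕ, ∀ D : ℕ, D₀ ≤ D → ∀ q : ℕ, Adm4 D q → ∀ ε : ℝ, 0 < ε → ∃ k₀ : ℕ, ∀ k : ℕ, k₀ ≤ k →
    (((sys D (k + 2) q univ).filter fun f =>
      53 / 100 * (q : ℝ) * ((2 : ℝ) ^ k) ^ D ≤ ∑ s : Gr D (2 ^ k), ∑ c, mb f (bk s) c).card : ℝ) ≤
      ε * NB D (k + 2) q := by
  obtain ⟨D₁, hff⟩ := ff
  obtain ⟨D₂, hpbd⟩ := pbd
  refine ⟨max (max D₁ D₂) 20, fun D hD q hA ε hε => ?_⟩
  have hD1 : D₁ ≤ D := ((le_max_left _ _).trans (le_max_left _ _)).trans hD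
  have hD2 : D₂ ≤ D := ((le_max_right _ _).trans (le_max_left _ _)).trans hD
  have hD20 : 20 ≤ D := (le_max_right _ _).trans hD
  have hDR : (20 : ℝ) ≤ D := by exact_mod_cast hD20
  obtain ⟨k₁, hk₁⟩ := hff D hD1 q hA
  obtain ⟨hq, hq', hqd⟩ := hA
  have hq0 : (0 : ℝ) < q := by
    have : 0 < q := by omega
    exact_mod_cast this
  have hlog : 0 ≤ Real.log D := Real.log_nonneg (by linarith)
  have hAdm : Adm D q := by
    refine ⟨hq, hq', le_trans ?_ hqd⟩
    apply mul_le_mul_of_nonneg_left _ hq0.le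
    linarith
  obtain ⟨k₂, hk₂⟩ := exists_nat_ge (20000 * (3 + |Real.log ε|))
  refine ⟨max (max k₁ k₂) (D ^ 5), fun k hk => ?_⟩
  have hkk1 : k₁ ≤ k := ((le_max_left _ _).trans (le_max_left _ _)).trans hk
  have hkk2 : k₂ ≤ k := ((le_max_right _ _).trans (le_max_left _ _)).trans hk
  have hkk3 : D ^ 5 ≤ k := (le_max_right _ _).trans hk
  have hk2 : k ≤ 2 ^ k := Nat.lt_two_pow_self.le
  have hk5 : D ^ 5 ≤ 2 ^ (k + 2) :=
    (hkk3.trans hk2).trans (Nat.pow_le_pow_right (by norm_num) (by omega))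
  have hK : 20000 * (3 + |Real.log ε|) ≤ (2 : ℝ) ^ k := by
    have h1 : (k : ℝ) ≤ (2 : ℝ) ^ k := by exact_mod_cast hk2
    have h2 : (k₂ : ℝ) ≤ k := by exact_mod_cast hkk2
    linarith
  set m : ℝ := (2 : ℝ) ^ k with hm
  have hm0 : 0 < m := by rw [hm]; positivity
  have hm1 : 1 ≤ m := by
    have : 0 ≤ |Real.log ε| := abs_nonneg _
    linarith
  set ρ : ℝ := Real.exp (-((2 * m) ^ D / 10000)) with hρ
  have hN : NN D (k + 2) = 2 ^ D * (2 * m) ^ D := by
    unfold NN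
    rw [← mul_pow, hm]
    congr 1
    ring
  have hNp : 0 < NN D (k + 2) := by
    rw [hN]
    positivity
  have hZ : 0 ≤ ZZ D (k + 2) q := by
    unfold ZZ
    exact Nat.cast_nonneg _
  -- the symmetric event
  have hsym := hpbd D hD2 q hAdm (k + 2) hk5
    ((prps D (k + 2) q).filter fun f => ∀ β : Bt D, 53 / 100 * (q : ℝ) * m ^ D ≤
      ∑ s : Gr D (2 ^ k), ∑ c, mb (fun x => f (fld β x)) (bk s) c)
    (by
      intro f hf
      have := (mem_filter.1 hf).1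
      unfold prps at this
      exact (mem_filter.1 this).2)
    (2 / 10000 * NN D (k + 2))
    (by
      intro f hf
      have h1 := (mem_filter.1 hf).1
      unfold prps at h1
      exact AvF_loss' (by omega) hq hq' (mem_filter.1 h1).2 (mem_filter.1 hf).2)
  have hexp : Real.exp (-(2 / 10000 * NN D (k + 2)) + 3 * NN D (k + 2) / (D : ℝ) ^ 4) ≤
      ρ ^ (2 ^ D) := by
    have hd4 : (160000 : ℝ) ≤ (D : ℝ) ^ 4 := by
      have := pow_le_pow_left₀ (by norm_num : (0 : ℝ) ≤ 20) hDR 4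
      norm_num at this
      exact this
    have h4 : 3 * NN D (k + 2) / (D : ℝ) ^ 4 ≤ 3 * NN D (k + 2) / 160000 := by
      apply div_le_div_of_nonneg_left _ (by norm_num) hd4
      linarith
    rw [hρ, ← Real.exp_nat_mul]
    apply Real.exp_le_exp.2
    have h5 : ((2 ^ D : ℕ) : ℝ) * -((2 * m) ^ D / 10000) = -(NN D (k + 2) / 10000) := by
      rw [hN]
      push_cast
      ring
    rw [h5]
    linarith
  have h1 := hk₁ k hkk1 (fun f => 53 / 100 * (q : ℝ) * m ^ D ≤ ∑ s : Gr D (2 ^ k), ∑ c, mb f (bk s) c)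
    ρ (Real.exp_pos _).le (le_trans (by convert hsym using 1) (mul_le_mul_of_nonneg_left hexp hZ))
  have hNB : 0 ≤ NB D (k + 2) q := by
    unfold NB
    exact Nat.cast_nonneg _
  have hfin : ρ * Real.exp (SF D k) ≤ ε := by
    rw [hρ, ← Real.exp_add]
    have h2 : -((2 * m) ^ D / 10000) + SF D k ≤ Real.log ε := by
      unfold SF
      rw [← hm]
      obtain ⟨e, rfl⟩ : ∃ e, D = e + 1 := ⟨D - 1, by omega⟩
      have h3 : (e + 1 - 1 : ℕ) = e := by omega
      rw [h3]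
      have h4 : (1 : ℝ) ≤ ((e + 1 : ℕ) : ℝ) ^ 7 := one_le_pow₀ (by linarith)
      have h5 : 3 * 2 ^ (e + 1) * m ^ e / ((e + 1 : ℕ) : ℝ) ^ 7 ≤ 3 * 2 ^ (e + 1) * m ^ e :=
        div_le_self (by positivity) h4
      have h6 : (2 * m) ^ (e + 1) / 10000 = 2 ^ (e + 1) * m ^ e * (m / 10000) := by
        rw [mul_pow, pow_succ m e]
        ring
      rw [h6]
      have h7 : (1 : ℝ) ≤ 2 ^ (e + 1) * m ^ e := one_le_mul_of_one_le_of_one_le
        (one_le_pow₀ (by norm_num)) (one_le_pow₀ hm1)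
      have h8 : 3 + |Real.log ε| ≤ m / 10000 := by
        have : 0 ≤ |Real.log ε| := abs_nonneg _
        linarith
      have h9 : -|Real.log ε| ≤ Real.log ε := neg_abs_le _
      have h10 : 2 ^ (e + 1) * m ^ e * (3 + |Real.log ε|) ≤ 2 ^ (e + 1) * m ^ e * (m / 10000) :=
        mul_le_mul_of_nonneg_left h8 (by linarith)
      have h11 : 1 * |Real.log ε| ≤ 2 ^ (e + 1) * m ^ e * |Real.log ε| :=
        mul_le_mul_of_nonneg_right h7 (abs_nonneg _)
      linarith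
    calc Real.exp (-((2 * m) ^ D / 10000) + SF D k) ≤ Real.exp (Real.log ε) := Real.exp_le_exp.2 h2
      _ = ε := Real.exp_log hε
  have h2 : NB D (k + 2) q * ρ * Real.exp (SF D k) ≤ ε * NB D (k + 2) q := by
    have h3 := mul_le_mul_of_nonneg_left hfin hNB
    linarith
  refine le_trans ?_ (h1.trans h2)
  apply le_of_eq
  congr 2

end Pool.Agent.LO
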