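import Pool.Agent.Lib_MP_2c424f_fb.FF
import Pool.Agent.Lib_MP_2c424f_fb.Mir
import Pool.Agent.Lib_MP_2c424f_lo.Mean
import Pool.Agent.Lib_MP_2c424f_lo.GapI
import Pool.Agent.Lib_MP_2c424f_lo.Expec

/-!
# Available colours in the free box, sharp form (piece AVG)

Two applications of `ff` (upper and lower deviation), `m = 2^k`, `N = NN D (k+2)`, `ρ = exp (-(2m)^D/(3000 q^3))`,
`ρ^(2^D) = exp (-N/(3000 q^3))`.

Upper: if all folded versions of `f` satisfy `(q2 + 1/50) m^D ≤ ∑ s, ∑ c, mb f (bk s) c` then (`mb_mir`, `sum_mir`)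
`∑ t, ∑ c, mb f t c ≥ (q2 + 1/50) (2m)^D`, and (as in the proof of `mean_mb`: `sum_mb`, `sum_EB`)
`∑_v av + ∑_c QQ ≥ (q2 + 1/50) N/2`.  Either `∑_c QQ ≥ N/200`, `Loss ≥ N/(1200 q)`, or `∑_v av ≥ (q2 + 1/100) N/2`; since
`av ≤ q`, at least `N/(200 q)` odd sites have `av > q2`, and `gap_int` gives `Loss ≥ N/(800 q^3)`.
Lower: `mb ≥ mt` (`mt_le_mb`), `∑ t, ∑ c, mt = (2/2^D) ∑_v av` (`sum_EB`, `av = ∑_c zz`), so `∑_v av ≤ (q1 - 1/50) N/2` and at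
least `N/(100 q)` odd sites have `av < q1`, `Loss ≥ N/(400 q^3)`.
`pbd` or `pbd8`: the error `3N/D^4` is much smaller than `N/(1200 q^3)` because `4000 q ≤ D` (`Adm4`, `1 ≤ log D`).
-/

set_option autoImplicit false

open Finset

namespace Pool.Agent.LO

private theorem AvG_av_le {d k q : ℕ} (f : Site d k → Fin q) (v : Site d k) : av f v ≤ q := by
  unfold av
  exact Nat.sub_le _ _

open scoped Classical in
/-- the upper deviation -/
private theorem AvG_loss_up {d k q : ℕ} (hq : 2 ≤ q) {f : Site d k → Fin q} (hf : Prp f)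
    (h : ((q2 q : ℝ) + 1 / 50) * ((ods d k).card : ℝ) ≤
      ∑ v ∈ ods d k, (av f v : ℝ) + ∑ c, QQ f c) :
    ((ods d k).card : ℝ) / (600 * (q : ℝ) ^ 3) ≤ Loss f := by
  have hqR : (2 : ℝ) ≤ q := by exact_mod_cast hq
  have hq0 : (0 : ℝ) < q := by linarith
  have hn : (0 : ℝ) ≤ ((ods d k).card : ℝ) := Nat.cast_nonneg _
  set n : ℝ := ((ods d k).card : ℝ) with hn'
  have h1 := IQ_le_Loss hq hf
  rw [sum_add_distrib] at h1
  have hI : 0 ≤ ∑ c, II f c := sum_nonneg fun c _ => II_nonneg' f c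
  have h2 := avn_le_Loss hq hf
  have hL : 0 ≤ Loss f := by
    have h3 : 0 ≤ ∑ c, QQ f c := sum_nonneg fun c _ => QQ_nonneg' f c
    have h4 : 0 ≤ 6 * (q : ℝ) * Loss f := by linarith
    exact nonneg_of_mul_nonneg_right h4 (by positivity)
  have h3 : ∑ v ∈ ods d k, (av f v : ℝ) ≤ (q2 q : ℝ) * n +
      q * ∑ v ∈ ods d k, (if ¬ (av f v = q1 q ∨ av f v = q2 q) then (1 : ℝ) else 0) := by
    have h4 : ∀ v ∈ ods d k, (av f v : ℝ) ≤ (q2 q : ℝ) +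
        q * (if ¬ (av f v = q1 q ∨ av f v = q2 q) then (1 : ℝ) else 0) := by
      intro v _
      by_cases h5 : av f v = q1 q ∨ av f v = q2 q
      · rw [if_neg (not_not.2 h5), mul_zero, add_zero]
        have h6 : av f v ≤ q2 q := by
          rcases h5 with h5 | h5
          · rw [h5]; unfold q1 q2; omega
          · rw [h5]
        exact_mod_cast h6
      · rw [if_pos h5, mul_one]
        have h6 : av f v ≤ q2 q + q := (AvG_av_le f v).trans (Nat.le_add_left _ _)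
        exact_mod_cast h6
    refine (sum_le_sum h4).trans (le_of_eq ?_)
    rw [sum_add_distrib, ← mul_sum, sum_const, nsmul_eq_mul]
    ring
  have hq3 : (0 : ℝ) < 600 * (q : ℝ) ^ 3 := by positivity
  rw [div_le_iff₀ hq3]
  by_cases h6 : n / 100 ≤ ∑ c, QQ f c
  · have h7 : n ≤ 600 * q * Loss f := by linarith
    refine h7.trans ?_
    have h8 : (q : ℝ) ≤ (q : ℝ) ^ 3 := le_self_pow₀ (by linarith) (by norm_num)
    have h9 : (q : ℝ) * Loss f ≤ (q : ℝ) ^ 3 * Loss f := mul_le_mul_of_nonneg_right h8 hL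
    linarith
  · rw [not_le] at h6
    have h7 : (q : ℝ) * ∑ v ∈ ods d k, (if ¬ (av f v = q1 q ∨ av f v = q2 q) then (1 : ℝ) else 0) ≤
        q * (4 * (q : ℝ) ^ 2 * Loss f) := mul_le_mul_of_nonneg_left h2 hq0.le
    have h8 : (q : ℝ) * (4 * (q : ℝ) ^ 2 * Loss f) = 4 * ((q : ℝ) ^ 3 * Loss f) := by ring
    have h9 : 0 ≤ (q : ℝ) ^ 3 * Loss f := by positivity
    linarith

open scoped Classical in
/-- the lower deviation -/
private theorem AvG_loss_lo {d k q : ℕ} (hq : 2 ≤ q) {f : Site d k → Fin q} (hf : Prp f)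
    (h : ∑ v ∈ ods d k, (av f v : ℝ) ≤ ((q1 q : ℝ) - 1 / 50) * ((ods d k).card : ℝ)) :
    ((ods d k).card : ℝ) / (600 * (q : ℝ) ^ 3) ≤ Loss f := by
  have hqR : (2 : ℝ) ≤ q := by exact_mod_cast hq
  have hq0 : (0 : ℝ) < q := by linarith
  have hn : (0 : ℝ) ≤ ((ods d k).card : ℝ) := Nat.cast_nonneg _
  set n : ℝ := ((ods d k).card : ℝ) with hn'
  have h1 := IQ_le_Loss hq hf
  rw [sum_add_distrib] at h1
  have hI : 0 ≤ ∑ c, II f c := sum_nonneg fun c _ => II_nonneg' f c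
  have h2 := avn_le_Loss hq hf
  have hL : 0 ≤ Loss f := by
    have h3 : 0 ≤ ∑ c, QQ f c := sum_nonneg fun c _ => QQ_nonneg' f c
    have h4 : 0 ≤ 6 * (q : ℝ) * Loss f := by linarith
    exact nonneg_of_mul_nonneg_right h4 (by positivity)
  have h3 : (q1 q : ℝ) * n ≤ ∑ v ∈ ods d k, (av f v : ℝ) +
      q * ∑ v ∈ ods d k, (if ¬ (av f v = q1 q ∨ av f v = q2 q) then (1 : ℝ) else 0) := by
    have h4 : ∀ v ∈ ods d k, (q1 q : ℝ) ≤ (av f v : ℝ) +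
        q * (if ¬ (av f v = q1 q ∨ av f v = q2 q) then (1 : ℝ) else 0) := by
      intro v _
      by_cases h5 : av f v = q1 q ∨ av f v = q2 q
      · rw [if_neg (not_not.2 h5), mul_zero, add_zero]
        have h6 : q1 q ≤ av f v := by
          rcases h5 with h5 | h5
          · rw [h5]
          · rw [h5]; unfold q1 q2; omega
        exact_mod_cast h6
      · rw [if_pos h5, mul_one]
        have h6 : q1 q ≤ av f v + q := by unfold q1; omega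
        exact_mod_cast h6
    have h5 := sum_le_sum h4
    rw [sum_add_distrib, ← mul_sum, sum_const, nsmul_eq_mul] at h5
    linarith
  have hq3 : (0 : ℝ) < 600 * (q : ℝ) ^ 3 := by positivity
  rw [div_le_iff₀ hq3]
  have h7 : (q : ℝ) * ∑ v ∈ ods d k, (if ¬ (av f v = q1 q ∨ av f v = q2 q) then (1 : ℝ) else 0) ≤
      q * (4 * (q : ℝ) ^ 2 * Loss f) := mul_le_mul_of_nonneg_left h2 hq0.le
  have h8 : (q : ℝ) * (4 * (q : ℝ) ^ 2 * Loss f) = 4 * ((q : ℝ) ^ 3 * Loss f) := by ring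
  have h9 : 0 ≤ (q : ℝ) ^ 3 * Loss f := by positivity
  linarith

/-- all blocks and colours, from above -/
private theorem AvG_sum_up {d k q : ℕ} (hd : 1 ≤ d) (f : Site d (k + 1) → Fin q) :
    ∑ t' : Blk d k, ∑ c' : Fin q, mb f t' c' ≤
      2 / 2 ^ d * (∑ v ∈ ods d (k + 1), (av f v : ℝ) + ∑ c, QQ f c) := by
  rw [sum_comm]
  have h3 : ∀ c' : Fin q, ∑ t' : Blk d k, mb f t' c' ≤
      2 / 2 ^ d * (∑ v ∈ ods d (k + 1), zz f v c') + 2 / 2 ^ d * QQ f c' := by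
    intro c'
    have h4 := sum_mb f c'
    rw [sum_sub_distrib] at h4
    have h5 : ∑ t' : Blk d k, mt f t' c' = 2 / 2 ^ d * ∑ v ∈ ods d (k + 1), zz f v c' := by
      unfold mt
      exact sum_EB hd (fun v => zz f v c')
    rw [h5] at h4
    linarith
  refine (sum_le_sum fun c' _ => h3 c').trans ?_
  rw [sum_add_distrib, ← mul_sum, ← mul_sum, sum_comm, mul_add]
  have h6 : ∀ v ∈ ods d (k + 1), ∑ c' : Fin q, zz f v c' = (av f v : ℝ) := fun v _ => (av_eq f v).symm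
  rw [sum_congr rfl h6]

/-- all blocks and colours, from below -/
private theorem AvG_sum_lo {d k q : ℕ} (hd : 1 ≤ d) (f : Site d (k + 1) → Fin q) :
    2 / 2 ^ d * (∑ v ∈ ods d (k + 1), (av f v : ℝ)) ≤
      ∑ t' : Blk d k, ∑ c' : Fin q, mb f t' c' := by
  rw [sum_comm (s := (univ : Finset (Blk d k)))]
  have h3 : ∀ c' : Fin q, 2 / 2 ^ d * (∑ v ∈ ods d (k + 1), zz f v c') ≤
      ∑ t' : Blk d k, mb f t' c' := by
    intro c'
    have h5 : ∑ t' : Blk d k, mt f t' c' = 2 / 2 ^ d * ∑ v ∈ ods d (k + 1), zz f v c' := by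
      unfold mt
      exact sum_EB hd (fun v => zz f v c')
    rw [← h5]
    exact sum_le_sum fun t _ => mt_le_mb f t c'
  refine le_trans ?_ (sum_le_sum fun c' _ => h3 c')
  rw [← mul_sum, sum_comm]
  have h6 : ∀ v ∈ ods d (k + 1), ∑ c' : Fin q, zz f v c' = (av f v : ℝ) := fun v _ => (av_eq f v).symm
  rw [sum_congr rfl h6]

private theorem AvG_mir {D k q : ℕ} (f : Site D (k + 2) → Fin q) (β : Bt D) :
    ∑ s : Gr D (2 ^ k), ∑ c, mb (fun x => f (fld β x)) (bk s) c =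
      ∑ s : Gr D (2 ^ k), ∑ c, mb f (mir β s) c :=
  sum_congr rfl fun s _ => sum_congr rfl fun c _ => mb_mir β s f c

private theorem AvG_const {D : ℕ} (x : ℝ) : ∑ _β : Bt D, x = 2 ^ D * x := by
  rw [sum_const, nsmul_eq_mul, card_univ, Fintype.card_fun, Fintype.card_bool, Fintype.card_fin]
  push_cast
  ring

private theorem AvG_NN (D k : ℕ) : NN D (k + 2) = 2 ^ D * (2 ^ D * ((2 : ℝ) ^ k) ^ D) := by
  unfold NN
  rw [pow_add, mul_pow]
  have : ((2 : ℝ) ^ 2) ^ D = 2 ^ D * 2 ^ D := by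
    rw [← mul_pow]
    norm_num
  rw [this]
  ring

private theorem AvG_up {D k q : ℕ} (hD : 1 ≤ D) (hq : 2 ≤ q)
    {f : Site D (k + 2) → Fin q} (hf : Prp f)
    (h : ∀ β : Bt D, ((q2 q : ℝ) + 1 / 50) * ((2 : ℝ) ^ k) ^ D ≤
      ∑ s : Gr D (2 ^ k), ∑ c, mb (fun x => f (fld β x)) (bk s) c) :
    NN D (k + 2) / (1200 * (q : ℝ) ^ 3) ≤ Loss f := by
  have hcard : ((ods D (k + 2)).card : ℝ) = NN D (k + 2) / 2 := card_ods hD (by omega)
  have h1 : 2 ^ D * (((q2 q : ℝ) + 1 / 50) * ((2 : ℝ) ^ k) ^ D) ≤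
      ∑ t : Blk D (k + 1), ∑ c : Fin q, mb f t c := by
    rw [sum_mir (fun t => ∑ c : Fin q, mb f t c), ← AvG_const]
    exact sum_le_sum fun β _ => (h β).trans (le_of_eq (AvG_mir f β))
  have h2 := h1.trans (AvG_sum_up hD f)
  have h3 : ((q2 q : ℝ) + 1 / 50) * ((ods D (k + 2)).card : ℝ) ≤
      ∑ v ∈ ods D (k + 2), (av f v : ℝ) + ∑ c, QQ f c := by
    rw [hcard, AvG_NN]
    have h5 := mul_le_mul_of_nonneg_left h2 (show (0 : ℝ) ≤ 2 ^ D / 2 by positivity)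
    have h6 : (2 : ℝ) ^ D / 2 * (2 / 2 ^ D * (∑ v ∈ ods D (k + 1 + 1), (av f v : ℝ) + ∑ c, QQ f c)) =
        ∑ v ∈ ods D (k + 1 + 1), (av f v : ℝ) + ∑ c, QQ f c := by
      field_simp
    rw [h6] at h5
    refine le_trans (le_of_eq ?_) h5
    ring
  have h4 := AvG_loss_up hq hf h3
  rw [hcard] at h4
  refine le_trans (le_of_eq ?_) h4
  rw [div_div]
  congr 1
  ring

private theorem AvG_lo {D k q : ℕ} (hD : 1 ≤ D) (hq : 2 ≤ q)
    {f : Site D (k + 2) → Fin q} (hf : Prp f)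
    (h : ∀ β : Bt D, ∑ s : Gr D (2 ^ k), ∑ c, mb (fun x => f (fld β x)) (bk s) c ≤
      ((q1 q : ℝ) - 1 / 50) * ((2 : ℝ) ^ k) ^ D) :
    NN D (k + 2) / (1200 * (q : ℝ) ^ 3) ≤ Loss f := by
  have hcard : ((ods D (k + 2)).card : ℝ) = NN D (k + 2) / 2 := card_ods hD (by omega)
  have h1 : ∑ t : Blk D (k + 1), ∑ c : Fin q, mb f t c ≤
      2 ^ D * (((q1 q : ℝ) - 1 / 50) * ((2 : ℝ) ^ k) ^ D) := by
    rw [sum_mir (fun t => ∑ c : Fin q, mb f t c), ← AvG_const]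
    exact sum_le_sum fun β _ => (le_of_eq (AvG_mir f β).symm).trans (h β)
  have h2 := (AvG_sum_lo hD f).trans h1
  have h3 : ∑ v ∈ ods D (k + 2), (av f v : ℝ) ≤
      ((q1 q : ℝ) - 1 / 50) * ((ods D (k + 2)).card : ℝ) := by
    rw [hcard, AvG_NN]
    have h5 := mul_le_mul_of_nonneg_left h2 (show (0 : ℝ) ≤ 2 ^ D / 2 by positivity)
    have h6 : (2 : ℝ) ^ D / 2 * (2 / 2 ^ D * (∑ v ∈ ods D (k + 1 + 1), (av f v : ℝ))) =
        ∑ v ∈ ods D (k + 1 + 1), (av f v : ℝ) := by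
      field_simp
    rw [h6] at h5
    refine le_trans h5 (le_of_eq ?_)
    ring
  have h4 := AvG_loss_lo hq hf h3
  rw [hcard] at h4
  refine le_trans (le_of_eq ?_) h4
  rw [div_div]
  congr 1
  ring

open scoped Classical in
private theorem AvG_gen : ∃ D₀ : ℕ, ∀ D : ℕ, D₀ ≤ D → ∀ q : ℕ, Adm4 D q → ∀ ε : ℝ, 0 < ε →
    ∃ k₀ : ℕ, ∀ k : ℕ, k₀ ≤ k → ∀ E : (Site D (k + 2) → Fin q) → Prop,
    (∀ f, Prp f → (∀ β : Bt D, E (fun x => f (fld β x))) →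
      NN D (k + 2) / (1200 * (q : ℝ) ^ 3) ≤ Loss f) →
    (((sys D (k + 2) q univ).filter E).card : ℝ) ≤ ε * NB D (k + 2) q := by
  obtain ⟨D₁, hff⟩ := ff
  obtain ⟨D₂, hpbd⟩ := pbd
  refine ⟨max (max D₁ D₂) 20, fun D hD q hA ε hε => ?_⟩
  have hD1 : D₁ ≤ D := ((le_max_left _ _).trans (le_max_left _ _)).trans hD
  have hD2 : D₂ ≤ D := ((le_max_right _ _).trans (le_max_left _ _)).trans hD
  have hD20 : 20 ≤ D := (le_max_right _ _).trans hD
  have hDR : (20 : ℝ) ≤ D := by exact_mod_cast hD20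
  obtain ⟨k₁, hk₁⟩ := hff D hD1 q hA
  obtain ⟨hq, hq', hqd⟩ := hA
  have hqR : (2 : ℝ) ≤ q := by exact_mod_cast hq
  have hq0 : (0 : ℝ) < q := by linarith
  have hlog : 1 ≤ Real.log D := by
    rw [Real.le_log_iff_exp_le (by linarith)]
    have := Real.exp_one_lt_d9
    linarith
  have hqD : 4000 * (q : ℝ) ≤ D := by
    refine le_trans ?_ hqd
    nlinarith
  have hAdm : Adm D q := by
    refine ⟨hq, hq', le_trans ?_ hqd⟩
    apply mul_le_mul_of_nonneg_left _ hq0.le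
    linarith
  have hq3 : (0 : ℝ) < (q : ℝ) ^ 3 := by positivity
  have hD4 : 6000 * (q : ℝ) ^ 3 ≤ (D : ℝ) ^ 4 := by
    have h1 : (4000 * (q : ℝ)) ^ 3 ≤ (D : ℝ) ^ 3 := pow_le_pow_left₀ (by positivity) hqD 3
    have h2 : (D : ℝ) ^ 3 ≤ (D : ℝ) ^ 4 := pow_le_pow_right₀ (by linarith) (by norm_num)
    rw [mul_pow] at h1
    have h3 : 6000 * (q : ℝ) ^ 3 ≤ 4000 ^ 3 * (q : ℝ) ^ 3 :=
      mul_le_mul_of_nonneg_right (by norm_num) hq3.le
    linarith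
  obtain ⟨k₂, hk₂⟩ := exists_nat_ge (3000 * (q : ℝ) ^ 3 * (3 + |Real.log ε|))
  refine ⟨max (max k₁ k₂) (D ^ 5), fun k hk E hE => ?_⟩
  have hkk1 : k₁ ≤ k := ((le_max_left _ _).trans (le_max_left _ _)).trans hk
  have hkk2 : k₂ ≤ k := ((le_max_right _ _).trans (le_max_left _ _)).trans hk
  have hkk3 : D ^ 5 ≤ k := (le_max_right _ _).trans hk
  have hk2 : k ≤ 2 ^ k := Nat.lt_two_pow_self.le
  have hk5 : D ^ 5 ≤ 2 ^ (k + 2) :=
    (hkk3.trans hk2).trans (Nat.pow_le_pow_right (by norm_num) (by omega))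
  have hK : 3000 * (q : ℝ) ^ 3 * (3 + |Real.log ε|) ≤ (2 : ℝ) ^ k := by
    have h1 : (k : ℝ) ≤ (2 : ℝ) ^ k := by exact_mod_cast hk2
    have h2 : (k₂ : ℝ) ≤ k := by exact_mod_cast hkk2
    linarith
  set m : ℝ := (2 : ℝ) ^ k with hm
  have hm1 : 1 ≤ m := by rw [hm]; exact one_le_pow₀ (by norm_num)
  have hm0 : 0 < m := by linarith
  set ρ : ℝ := Real.exp (-((2 * m) ^ D / (3000 * (q : ℝ) ^ 3))) with hρ
  have hN : NN D (k + 2) = 2 ^ D * (2 * m) ^ D := by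
    unfold NN
    rw [← mul_pow, hm]
    congr 1
    ring
  have hNp : 0 < NN D (k + 2) := by
    rw [hN]
    positivity
  have hZ : 0 ≤ ZZ D (k + 2) q := by
    unfold ZZ
    exact Nat.cast_nonneg _
  -- the symmetric event
  have hsym := hpbd D hD2 q hAdm (k + 2) hk5
    ((prps D (k + 2) q).filter fun f => ∀ β : Bt D, E (fun x => f (fld β x)))
    (by
      intro f hf
      have := (mem_filter.1 hf).1
      unfold prps at this
      exact (mem_filter.1 this).2)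
    (NN D (k + 2) / (1200 * (q : ℝ) ^ 3))
    (by
      intro f hf
      have h1 := (mem_filter.1 hf).1
      unfold prps at h1
      exact hE f (mem_filter.1 h1).2 (mem_filter.1 hf).2)
  have hexp : Real.exp (-(NN D (k + 2) / (1200 * (q : ℝ) ^ 3)) + 3 * NN D (k + 2) / (D : ℝ) ^ 4) ≤
      ρ ^ (2 ^ D) := by
    have h4 : 3 * NN D (k + 2) / (D : ℝ) ^ 4 ≤ 3 * NN D (k + 2) / (6000 * (q : ℝ) ^ 3) :=
      div_le_div_of_nonneg_left (by linarith) (by positivity) hD4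
    rw [hρ, ← Real.exp_nat_mul]
    apply Real.exp_le_exp.2
    have h5 : ((2 ^ D : ℕ) : ℝ) * -((2 * m) ^ D / (3000 * (q : ℝ) ^ 3)) =
        -(NN D (k + 2) / (3000 * (q : ℝ) ^ 3)) := by
      rw [hN]
      push_cast
      ring
    rw [h5]
    have h6 : -(NN D (k + 2) / (1200 * (q : ℝ) ^ 3)) + 3 * NN D (k + 2) / (6000 * (q : ℝ) ^ 3) =
        -(NN D (k + 2) / (3000 * (q : ℝ) ^ 3)) := by
      field_simp
      ring
    linarith
  have h1 := hk₁ k hkk1 E ρ (Real.exp_pos _).le (hsym.trans (mul_le_mul_of_nonneg_left hexp hZ))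
  have hNB : 0 ≤ NB D (k + 2) q := by
    unfold NB
    exact Nat.cast_nonneg _
  have hfin : ρ * Real.exp (SF D k) ≤ ε := by
    rw [hρ, ← Real.exp_add]
    have h2 : -((2 * m) ^ D / (3000 * (q : ℝ) ^ 3)) + SF D k ≤ Real.log ε := by
      unfold SF
      rw [← hm]
      obtain ⟨e, rfl⟩ : ∃ e, D = e + 1 := ⟨D - 1, by omega⟩
      have h3 : (e + 1 - 1 : ℕ) = e := by omega
      rw [h3]
      have h4 : (1 : ℝ) ≤ ((e + 1 : ℕ) : ℝ) ^ 7 := one_le_pow₀ (by linarith)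
      have h5 : 3 * 2 ^ (e + 1) * m ^ e / ((e + 1 : ℕ) : ℝ) ^ 7 ≤ 3 * 2 ^ (e + 1) * m ^ e :=
        div_le_self (by positivity) h4
      have h6 : (2 * m) ^ (e + 1) / (3000 * (q : ℝ) ^ 3) =
          2 ^ (e + 1) * m ^ e * (m / (3000 * (q : ℝ) ^ 3)) := by
        rw [mul_pow, pow_succ m e]
        ring
      rw [h6]
      have h7 : (1 : ℝ) ≤ 2 ^ (e + 1) * m ^ e := one_le_mul_of_one_le_of_one_le
        (one_le_pow₀ (by norm_num)) (one_le_pow₀ hm1)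
      have h8 : 3 + |Real.log ε| ≤ m / (3000 * (q : ℝ) ^ 3) := by
        rw [le_div_iff₀ (by positivity)]
        linarith
      have h9 : -|Real.log ε| ≤ Real.log ε := neg_abs_le _
      have h10 : 2 ^ (e + 1) * m ^ e * (3 + |Real.log ε|) ≤
          2 ^ (e + 1) * m ^ e * (m / (3000 * (q : ℝ) ^ 3)) :=
        mul_le_mul_of_nonneg_left h8 (by linarith)
      have h11 : 1 * |Real.log ε| ≤ 2 ^ (e + 1) * m ^ e * |Real.log ε| :=
        mul_le_mul_of_nonneg_right h7 (abs_nonneg _)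
      linarith
    calc Real.exp (-((2 * m) ^ D / (3000 * (q : ℝ) ^ 3)) + SF D k) ≤ Real.exp (Real.log ε) :=
          Real.exp_le_exp.2 h2
      _ = ε := Real.exp_log hε
  have h2 : NB D (k + 2) q * ρ * Real.exp (SF D k) ≤ ε * NB D (k + 2) q := by
    have h3 := mul_le_mul_of_nonneg_left hfin hNB
    linarith
  exact h1.trans h2

open scoped Classical in
theorem avG : ∃ D₀ : ℕ, ∀ D : ℕ, D₀ ≤ D → ∀ q : ℕ, Adm4 D q → ∀ ε : ℝ, 0 < ε → ∃ k₀ : ℕ, ∀ k : ℕ, k₀ ≤ k →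
    (((sys D (k + 2) q univ).filter fun f =>
      ((q2 q : ℝ) + 1 / 50) * ((2 : ℝ) ^ k) ^ D ≤ ∑ s : Gr D (2 ^ k), ∑ c, mb f (bk s) c ∨
      ∑ s : Gr D (2 ^ k), ∑ c, mb f (bk s) c ≤ ((q1 q : ℝ) - 1 / 50) * ((2 : ℝ) ^ k) ^ D).card : ℝ) ≤
      ε * NB D (k + 2) q := by
  obtain ⟨D₁, h₁⟩ := AvG_gen
  refine ⟨max D₁ 1, fun D hD q hA ε hε => ?_⟩
  have hD1 : D₁ ≤ D := (le_max_left _ _).trans hD
  have hD0 : 1 ≤ D := (le_max_right _ _).trans hD
  obtain ⟨k₁, hk₁⟩ := h₁ D hD1 q hA (ε / 2) (by linarith)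
  refine ⟨k₁, fun k hk => ?_⟩
  have hu := hk₁ k hk (fun f => ((q2 q : ℝ) + 1 / 50) * ((2 : ℝ) ^ k) ^ D ≤
    ∑ s : Gr D (2 ^ k), ∑ c, mb f (bk s) c) (fun f hf h => AvG_up hD0 hA.1 hf h)
  have hl := hk₁ k hk (fun f => ∑ s : Gr D (2 ^ k), ∑ c, mb f (bk s) c ≤
    ((q1 q : ℝ) - 1 / 50) * ((2 : ℝ) ^ k) ^ D) (fun f hf h => AvG_lo hD0 hA.1 hf h)
  rw [filter_or]
  have hc := card_union_le
    ((sys D (k + 2) q univ).filter fun f => ((q2 q : ℝ) + 1 / 50) * ((2 : ℝ) ^ k) ^ D ≤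
      ∑ s : Gr D (2 ^ k), ∑ c, mb f (bk s) c)
    ((sys D (k + 2) q univ).filter fun f => ∑ s : Gr D (2 ^ k), ∑ c, mb f (bk s) c ≤
      ((q1 q : ℝ) - 1 / 50) * ((2 : ℝ) ^ k) ^ D)
  have hc' : (((sys D (k + 2) q univ).filter fun f => ((q2 q : ℝ) + 1 / 50) * ((2 : ℝ) ^ k) ^ D ≤
      ∑ s : Gr D (2 ^ k), ∑ c, mb f (bk s) c) ∪
    ((sys D (k + 2) q univ).filter fun f => ∑ s : Gr D (2 ^ k), ∑ c, mb f (bk s) c ≤
      ((q1 q : ℝ) - 1 / 50) * ((2 : ℝ) ^ k) ^ D)).card ≤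
      ((((sys D (k + 2) q univ).filter fun f => ((q2 q : ℝ) + 1 / 50) * ((2 : ℝ) ^ k) ^ D ≤
      ∑ s : Gr D (2 ^ k), ∑ c, mb f (bk s) c).card : ℝ) +
      ((sys D (k + 2) q univ).filter fun f => ∑ s : Gr D (2 ^ k), ∑ c, mb f (bk s) c ≤
      ((q1 q : ℝ) - 1 / 50) * ((2 : ℝ) ^ k) ^ D).card) := by exact_mod_cast hc
  refine le_trans ?_ (le_trans (add_le_add hu hl) (le_of_eq (by ring)))
  convert hc' using 2

end Pool.Agent.LO
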