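import Pool.Agent.Lib_MP_2c424f_fb.FF
import Pool.Agent.Lib_MP_2c424f_fb.Mir
import Pool.Agent.Lib_MP_2c424f_lo.PBad

/-!
# Bad blocks in the free box (piece BADF)

`ff` for `E f = ∀ s ∈ Γ, bad c (bk s) f` and `ρ = rr D ^ |Γ|`: if all folded versions of `f` satisfy `E` then
(`bad_mir`) all the `2^D |Γ|` blocks `mir β s`, `s ∈ Γ`, are bad for `f` (`mir_bij`), so `pbad` applies
(`k + 1` for `k`).  `Adm4 D q → Adm D q`.
-/

set_option autoImplicit false

open Finset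

namespace Pool.Agent.LO

private theorem BadF_adm {D q : ℕ} (h : Adm4 D q) : Adm D q := by
  refine ⟨h.1, h.2.1, le_trans ?_ h.2.2⟩
  have hl : 0 ≤ Real.log (D : ℝ) := Real.log_natCast_nonneg D
  have hq : (0 : ℝ) ≤ q := Nat.cast_nonneg q
  exact mul_le_mul_of_nonneg_left (by linarith) hq

open scoped Classical in
/-- all the mirror images of the blocks of `Γ` -/
private noncomputable def BadF_im {D k : ℕ} (Γ : Finset (Gr D (2 ^ k))) : Finset (Blk D (k + 1)) :=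
  ((univ : Finset (Bt D)) ×ˢ Γ).image fun p => mir p.1 p.2

private theorem BadF_card {D k : ℕ} (Γ : Finset (Gr D (2 ^ k))) : (BadF_im Γ).card = Γ.card * 2 ^ D := by
  classical
  unfold BadF_im
  rw [Finset.card_image_of_injective _ mir_bij.injective, Finset.card_product]
  simp [mul_comm]

private theorem BadF_mem {D k q : ℕ} (c : Fin q) (Γ : Finset (Gr D (2 ^ k))) (f : Site D (k + 2) → Fin q)
    (h : ∀ β : Bt D, ∀ s ∈ Γ, bad c (bk s) (fun x => f (fld β x))) : ∀ t ∈ BadF_im Γ, bad c t f := by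
  classical
  intro t ht
  unfold BadF_im at ht
  obtain ⟨p, hp, rfl⟩ := Finset.mem_image.1 ht
  exact bad_mir p.1 p.2 f c (h p.1 p.2 (Finset.mem_product.1 hp).2)

private theorem BadF_pow (a Z : ℝ) (m n N : ℕ) (h : N = m * n) : Z * a ^ N = Z * (a ^ m) ^ n := by
  rw [h, pow_mul]

open scoped Classical in
theorem badF : ∃ D₀ : ℕ, ∀ D : ℕ, D₀ ≤ D → ∀ q : ℕ, Adm4 D q → ∃ k₀ : ℕ, ∀ k : ℕ, k₀ ≤ k →
    ∀ (c : Fin q) (Γ : Finset (Gr D (2 ^ k))),
    (((sys D (k + 2) q univ).filter fun f => ∀ s ∈ Γ, bad c (bk s) f).card : ℝ) ≤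
      NB D (k + 2) q * Real.exp (SF D k) * rr D ^ Γ.card := by
  obtain ⟨D₁, hff⟩ := ff
  obtain ⟨D₂, hpb⟩ := pbad
  refine ⟨max D₁ D₂, fun D hD q hA => ?_⟩
  have hA' : Adm D q := BadF_adm hA
  obtain ⟨k₁, hk₁⟩ := hff D (le_trans (le_max_left _ _) hD) q hA
  refine ⟨max k₁ (D ^ 5), fun k hk c Γ => ?_⟩
  have hk5 : D ^ 5 ≤ 2 ^ (k + 1) := by
    have h1 : D ^ 5 ≤ k := le_trans (le_max_right _ _) hk
    have h2 : k + 1 < 2 ^ (k + 1) := Nat.lt_two_pow_self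
    omega
  have hr : 0 ≤ rr D ^ Γ.card := pow_nonneg (Real.exp_pos _).le _
  have h1 := hpb D (le_trans (le_max_right _ _) hD) q hA' (k + 1) hk5 c (BadF_im Γ)
  have h3 : (((prps D (k + 2) q).filter
      fun f => ∀ β : Bt D, (fun f => ∀ s ∈ Γ, bad c (bk s) f) (fun x => f (fld β x))).card : ℝ) ≤
      ZZ D (k + 2) q * (rr D ^ Γ.card) ^ (2 ^ D) := by
    rw [← BadF_pow (rr D) (ZZ D (k + 2) q) Γ.card (2 ^ D) (BadF_im Γ).card (BadF_card Γ)]
    refine le_trans ?_ h1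
    unfold cE
    refine Nat.cast_le.2 (Finset.card_le_card fun f hf => ?_)
    obtain ⟨h1, h2⟩ := Finset.mem_filter.1 hf
    exact Finset.mem_filter.2 ⟨h1, BadF_mem c Γ f h2⟩
  have h2 := hk₁ k (le_trans (le_max_left _ _) hk) (fun f => ∀ s ∈ Γ, bad c (bk s) f) (rr D ^ Γ.card) hr
    (by convert h3)
  rw [mul_right_comm]
  convert h2

end Pool.Agent.LO
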