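import Pool.Agent.Lib_MP_2c424f_fb.Comp

/-!
# Counting star-connected sets (piece CNT)

`gcn_box`: by induction, two elements of a `gcn` set of `n` elements differ by at most `n - 1` in every coordinate.
`gcn_card`: every `gcn` set with `n` elements is the set of the members of a list of length `2n - 1` with
consecutive members star-adjacent (induction: replace an occurrence of `t` by `t, s, t`; pad); there are at most
`m^D * (3^D)^(2n-2)` such lists (`3^D` possible differences).
-/

set_option autoImplicit false

open Finset

namespace Pool.Agent.LO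

variable {D m : ℕ}

theorem gcn_box {C : Finset (Gr D m)} (h : gcn C) (j : Fin D) (s s' : Gr D m) (hs : s ∈ C) (hs' : s' ∈ C) :
    (s' j).val < (s j).val + C.card := by
  revert s s'
  induction h with
  | one a =>
    intro s s' hs hs'
    rw [Finset.mem_singleton] at hs hs'
    rw [hs, hs', Finset.card_singleton]
    omega
  | ins C a t hC ht hst ih =>
    intro s s' hs hs'
    by_cases ha : a ∈ C
    · have hs3 : s ∈ C := by
        rcases Finset.mem_insert.1 hs with h | h
        · rw [h]; exact ha
        · exact h
      have hs4 : s' ∈ C := by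
        rcases Finset.mem_insert.1 hs' with h | h
        · rw [h]; exact ha
        · exact h
      rw [Finset.card_insert_of_mem ha]
      exact ih s s' hs3 hs4
    · have hcard : (insert a C).card = C.card + 1 := Finset.card_insert_of_notMem ha
      have hj := hst j
      rcases Finset.mem_insert.1 hs with hs1 | hs1 <;> rcases Finset.mem_insert.1 hs' with hs2 | hs2
      · subst hs1; subst hs2
        omega
      · subst hs1
        have h1 := ih t s' ht hs2
        omega
      · subst hs2
        have h1 := ih s t hs1 ht
        omega
      · have h1 := ih s s' hs1 hs2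
        omega

private theorem Cnt_gst_refl (s : Gr D m) : gst s s := fun _ => ⟨by omega, by omega⟩

private theorem Cnt_gst_symm {s t : Gr D m} (h : gst s t) : gst t s := fun j => ⟨(h j).2, (h j).1⟩

open scoped Classical in
/-- walks of length `L` starting at `s` -/
private noncomputable def Cnt_wk : ℕ → Gr D m → Finset (List (Gr D m))
  | 0, s => {[s]}
  | L + 1, s => ((univ : Finset (Gr D m)).filter fun t => gst s t).biUnion
      fun t => (Cnt_wk L t).image fun l => s :: l

open scoped Classical in
private theorem Cnt_nbr (s : Gr D m) :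
    ((univ : Finset (Gr D m)).filter fun t => gst s t).card ≤ 3 ^ D := by
  have h1 : ((univ : Finset (Gr D m)).filter fun t => gst s t).card ≤
      (univ : Finset (Fin D → Fin 3)).card := by
    refine Finset.card_le_card_of_injOn
      (fun t j => (⟨((t j).val + 1 - (s j).val) % 3, Nat.mod_lt _ (by omega)⟩ : Fin 3))
      (fun t _ => Finset.mem_coe.2 (Finset.mem_univ _)) ?_
    intro t ht t' ht' h
    have ht1 : gst s t := (Finset.mem_filter.1 (Finset.mem_coe.1 ht)).2
    have ht2 : gst s t' := (Finset.mem_filter.1 (Finset.mem_coe.1 ht')).2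
    funext j
    have h2 := congrFun h j
    have h3 : ((t j).val + 1 - (s j).val) % 3 = ((t' j).val + 1 - (s j).val) % 3 := by
      have := congrArg Fin.val h2
      exact this
    have h4 := ht1 j
    have h5 := ht2 j
    apply Fin.ext
    omega
  refine h1.trans (le_of_eq ?_)
  rw [Finset.card_univ, Fintype.card_fun, Fintype.card_fin, Fintype.card_fin]

private theorem Cnt_wk_card (L : ℕ) : ∀ s : Gr D m, (Cnt_wk L s).card ≤ (3 ^ D) ^ L := by
  classical
  induction L with
  | zero =>
    intro s
    simp [Cnt_wk]
  | succ L ih =>
    intro s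
    have h1 : (Cnt_wk (L + 1) s).card ≤
        ((univ : Finset (Gr D m)).filter fun t => gst s t).card * (3 ^ D) ^ L := by
      unfold Cnt_wk
      refine Finset.card_biUnion_le_card_mul _ _ _ fun t _ => ?_
      exact Finset.card_image_le.trans (ih t)
    refine h1.trans ?_
    rw [pow_succ, mul_comm]
    have h2 := Nat.mul_le_mul_left ((3 ^ D) ^ L) (Cnt_nbr s)
    convert h2 using 2

private theorem Cnt_mem_wk (l : List (Gr D m)) : ∀ s : Gr D m, List.IsChain gst (s :: l) →
    (s :: l) ∈ Cnt_wk l.length s := by
  classical
  induction l with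
  | nil =>
    intro s _
    simp [Cnt_wk]
  | cons t l ih =>
    intro s h
    rw [List.isChain_cons_cons] at h
    have h1 := ih t h.2
    rw [List.length_cons]
    unfold Cnt_wk
    rw [Finset.mem_biUnion]
    refine ⟨t, Finset.mem_filter.2 ⟨Finset.mem_univ _, h.1⟩, ?_⟩
    exact Finset.mem_image_of_mem _ h1

private theorem Cnt_list {C : Finset (Gr D m)} (h : gcn C) :
    ∃ l : List (Gr D m), List.IsChain gst l ∧ l.length + 1 = 2 * C.card ∧ ∀ x, x ∈ l ↔ x ∈ C := by
  classical
  induction h with
  | one a =>
    refine ⟨[a], List.isChain_singleton _, ?_, ?_⟩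
    · simp
    · intro x
      simp
  | ins C a t hC ht hst ih =>
    obtain ⟨l, hl, hlen, hmem⟩ := ih
    by_cases ha : a ∈ C
    · refine ⟨l, hl, ?_, ?_⟩
      · rw [Finset.card_insert_of_mem ha]
        exact hlen
      · intro x
        rw [hmem x, Finset.mem_insert]
        constructor
        · exact fun h => Or.inr h
        · rintro (h | h)
          · rw [h]; exact ha
          · exact h
    · obtain ⟨l1, l2, rfl⟩ := List.append_of_mem ((hmem t).2 ht)
      refine ⟨l1 ++ t :: a :: t :: l2, ?_, ?_, ?_⟩
      · rw [List.isChain_append] at hl ⊢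
        refine ⟨hl.1, ?_, ?_⟩
        · rw [List.isChain_cons_cons, List.isChain_cons_cons]
          exact ⟨hst, Cnt_gst_symm hst, hl.2.1⟩
        · intro x hx y hy
          refine hl.2.2 x hx y ?_
          simpa using hy
      · rw [Finset.card_insert_of_notMem ha]
        simp only [List.length_append, List.length_cons] at hlen ⊢
        omega
      · intro x
        have h1 := hmem x
        rw [Finset.mem_insert, ← h1]
        simp only [List.mem_append, List.mem_cons]
        tauto

private theorem Cnt_pos {C : Finset (Gr D m)} (h : gcn C) : 1 ≤ C.card := by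
  classical
  cases h with
  | one a => simp
  | ins C a t hC ht hst =>
    exact Finset.card_pos.2 ⟨a, Finset.mem_insert_self _ _⟩

open scoped Classical in
theorem gcn_card (n : ℕ) :
    (((univ : Finset (Finset (Gr D m))).filter fun C => gcn C ∧ C.card = n).card : ℝ) ≤
      (m : ℝ) ^ D * ((9 : ℝ) ^ D) ^ n := by
  have hkey : ((univ : Finset (Finset (Gr D m))).filter fun C => gcn C ∧ C.card = n).card ≤
      m ^ D * (9 ^ D) ^ n := by
    rcases Nat.eq_zero_or_pos n with hn | hn
    · have h1 : ((univ : Finset (Finset (Gr D m))).filter fun C => gcn C ∧ C.card = n) = ∅ := by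
        refine Finset.filter_eq_empty_iff.2 ?_
        rintro C _ ⟨hC, hc⟩
        have := Cnt_pos hC
        omega
      rw [h1, Finset.card_empty]
      exact Nat.zero_le _
    · have hsub : ((univ : Finset (Finset (Gr D m))).filter fun C => gcn C ∧ C.card = n) ⊆
          ((univ : Finset (Gr D m)).biUnion fun s => Cnt_wk (2 * n - 2) s).image
            List.toFinset := by
        intro C hC
        obtain ⟨hC1, hC2⟩ := (Finset.mem_filter.1 hC).2
        obtain ⟨l, hl, hlen, hmem⟩ := Cnt_list hC1
        rw [hC2] at hlen
        cases l with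
        | nil =>
          simp only [List.length_nil] at hlen
          omega
        | cons s l =>
          refine Finset.mem_image.2 ⟨s :: l, ?_, ?_⟩
          · refine Finset.mem_biUnion.2 ⟨s, Finset.mem_univ _, ?_⟩
            have h1 := Cnt_mem_wk l s hl
            have h2 : l.length = 2 * n - 2 := by
              rw [List.length_cons] at hlen
              omega
            rwa [h2] at h1
          · ext x
            rw [List.mem_toFinset]
            exact hmem x
      have h2 : (((univ : Finset (Gr D m)).biUnion fun s => Cnt_wk (2 * n - 2) s).image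
          List.toFinset).card ≤ (univ : Finset (Gr D m)).card * (3 ^ D) ^ (2 * n - 2) :=
        Finset.card_image_le.trans
          (Finset.card_biUnion_le_card_mul _ _ _ fun s _ => Cnt_wk_card _ s)
      refine (Finset.card_le_card hsub).trans (h2.trans ?_)
      have h3 : (univ : Finset (Gr D m)).card = m ^ D := by
        rw [Finset.card_univ, Fintype.card_fun, Fintype.card_fin, Fintype.card_fin]
      rw [h3]
      refine Nat.mul_le_mul_left _ ?_
      have h4 : (9 : ℕ) ^ D = (3 ^ D) ^ 2 := by
        rw [← pow_mul, mul_comm, pow_mul]
        norm_num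
      have h6 : (1 : ℕ) ≤ 3 ^ D := Nat.one_le_pow _ _ (by norm_num)
      have h7 : ((3 : ℕ) ^ D) ^ (2 * n - 2) ≤ (3 ^ D) ^ (2 * n) :=
        Nat.pow_le_pow_right h6 (by omega)
      have h8 : (((3 : ℕ) ^ D) ^ 2) ^ n = (3 ^ D) ^ (2 * n) := (pow_mul _ _ _).symm
      rw [h4, h8]
      exact h7
  have h5 : ((((univ : Finset (Finset (Gr D m))).filter fun C => gcn C ∧ C.card = n).card : ℕ) : ℝ) ≤
      ((m ^ D * (9 ^ D) ^ n : ℕ) : ℝ) := by exact_mod_cast hkey
  refine h5.trans (le_of_eq ?_)
  push_cast
  ring

end Pool.Agent.LO
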