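import Pool.Agent.Lib_MP_2c424f_fb.Defs

/-!
# Star-components (piece COMP)

Take the set of the maximal `gcn` subsets of `B` (the union of two `gcn` sets which contain star-adjacent or equal
elements is `gcn`: add the elements of the second one one after the other; a `gcn` set can be built from any of its
elements, or use a walk characterisation).
-/

set_option autoImplicit false

open Finset

namespace Pool.Agent.LO

variable {D m : ℕ}

theorem gst_refl (s : Gr D m) : gst s s := fun _ => ⟨Nat.le_succ _, Nat.le_succ _⟩

theorem gst_symm {s s' : Gr D m} (h : gst s s') : gst s' s := fun j => ⟨(h j).2, (h j).1⟩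

/-- neighbours are star-neighbours -/
theorem gst_of_gnb {j : Fin D} {s s' : Gr D m} (h : gnb j s s') : gst s s' := by
  intro i
  by_cases hi : i = j
  · subst hi
    have := h.1
    omega
  · rw [h.2 i hi]
    omega

theorem gcn_nonempty {C : Finset (Gr D m)} (h : gcn C) : C.Nonempty := by
  cases h with
  | one s => exact Finset.singleton_nonempty s
  | ins C s t _ _ _ => exact Finset.insert_nonempty s C

/-- one step inside `B` -/
private def stp (B : Finset (Gr D m)) (a b : Gr D m) : Prop := a ∈ B ∧ b ∈ B ∧ gst a b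

private theorem reach_symm (B : Finset (Gr D m)) {a b : Gr D m}
    (h : Relation.ReflTransGen (stp B) a b) : Relation.ReflTransGen (stp B) b a := by
  induction h with
  | refl => exact Relation.ReflTransGen.refl
  | @tail b c _ hbc ih => exact Relation.ReflTransGen.head ⟨hbc.2.1, hbc.1, gst_symm hbc.2.2⟩ ih

/-- the set of the elements reachable from `s` is star-connected -/
private theorem gcn_reach (B R : Finset (Gr D m)) (s : Gr D m) (hs : s ∈ R)
    (hR : ∀ t, t ∈ R ↔ Relation.ReflTransGen (stp B) s t) : gcn R := by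
  classical
  let P : Finset (Finset (Gr D m)) := R.powerset.filter fun C => gcn C ∧ s ∈ C
  have hP : P.Nonempty := ⟨{s}, by
    simp only [P, Finset.mem_filter, Finset.mem_powerset, Finset.singleton_subset_iff,
      Finset.mem_singleton]
    exact ⟨hs, gcn.one s, trivial⟩⟩
  obtain ⟨C, hC, hmax⟩ := P.exists_max_image Finset.card hP
  simp only [P, Finset.mem_filter, Finset.mem_powerset] at hC hmax
  obtain ⟨hCR, hCg, hsC⟩ := hC
  have hall : ∀ t, Relation.ReflTransGen (stp B) s t → t ∈ C := by
    intro t ht
    induction ht with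
    | refl => exact hsC
    | @tail b c hb hbc ih =>
      by_contra hc
      have hcR : c ∈ R := (hR c).2 (hb.tail hbc)
      have h1 := hmax (insert c C) ⟨Finset.insert_subset hcR hCR,
        gcn.ins C c b hCg ih hbc.2.2, Finset.mem_insert_of_mem hsC⟩
      rw [Finset.card_insert_of_notMem hc] at h1
      omega
  have hEq : C = R := Finset.Subset.antisymm hCR fun t ht => hall t ((hR t).1 ht)
  rw [← hEq]
  exact hCg

theorem gcomp_exists (B : Finset (Gr D m)) : ∃ 𝒞 : Finset (Finset (Gr D m)), GComp B 𝒞 := by
  classical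
  let cp : Gr D m → Finset (Gr D m) := fun s =>
    B.filter fun t => Relation.ReflTransGen (stp B) s t
  have hcp : ∀ s ∈ B, ∀ t, t ∈ cp s ↔ Relation.ReflTransGen (stp B) s t := by
    intro s hs t
    simp only [cp, Finset.mem_filter]
    refine ⟨fun h => h.2, fun h => ⟨?_, h⟩⟩
    rcases Relation.ReflTransGen.cases_tail h with h1 | ⟨b, _, h2⟩
    · rw [h1]
      exact hs
    · exact h2.2.1
  refine ⟨B.image cp, ?_, ?_, ?_, ?_⟩
  · intro C hC
    obtain ⟨s, hs, rfl⟩ := Finset.mem_image.1 hC
    exact gcn_reach B (cp s) s ((hcp s hs s).2 Relation.ReflTransGen.refl) (hcp s hs)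
  · intro C hC
    obtain ⟨s, hs, rfl⟩ := Finset.mem_image.1 hC
    exact Finset.filter_subset _ _
  · intro s hs
    exact ⟨cp s, Finset.mem_image_of_mem cp hs, (hcp s hs s).2 Relation.ReflTransGen.refl⟩
  · intro C hC C' hC' s hs s' hs' hst
    obtain ⟨a, ha, rfl⟩ := Finset.mem_image.1 hC
    obtain ⟨a', ha', rfl⟩ := Finset.mem_image.1 hC'
    have hsB : s ∈ B := (Finset.mem_filter.1 hs).1
    have hsB' : s' ∈ B := (Finset.mem_filter.1 hs').1
    have h1 : Relation.ReflTransGen (stp B) a s := (hcp a ha s).1 hs
    have h2 : Relation.ReflTransGen (stp B) a' s' := (hcp a' ha' s').1 hs'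
    have h3 : Relation.ReflTransGen (stp B) a s' := h1.tail ⟨hsB, hsB', hst⟩
    have h4 : Relation.ReflTransGen (stp B) a a' :=
      h3.trans (reach_symm B h2)
    ext t
    rw [hcp a ha, hcp a' ha']
    exact ⟨fun h => (reach_symm B h4).trans h,
      fun h => h4.trans h⟩

end Pool.Agent.LO
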