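import Pool.Agent.Lib_MP_2c424f_fb.Defs
import Pool.Agent.Lib_MP_2c424f_lo.Lab

/-!
# Densities at the even points of a block (piece EVB)

`Me f t c` = density of the colour `c` at the even points of the block.  `Me ≤ 1 - mb`: the bijection
`(a, b) ↦ (flp a j, b)` maps the even pairs to the odd pairs; `pt t (flp a j) b = pt t a b ± e_j` (`pt_flp`), and if
`f (pt t a b) = c` then the odd point `pt t (flp a j) b` sees `c` inside the block (the step back is allowed), so
`zb f t (flp a j) b c = 0`.  Sum over the colours: each point has exactly one colour, `card_od`, and the same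
bijection for the number of the even pairs.
-/

set_option autoImplicit false

open Finset

namespace Pool.Agent.LO

variable {d k q : ℕ}

open scoped Classical in
/-- twice the average over the even points of the block -/
noncomputable def EBe (F : Bt d → Bt d → ℝ) : ℝ :=
  2 * (∑ a, ∑ b, if od a b then 0 else F a b) / 4 ^ d

open scoped Classical in
/-- block density of the colour `c` on even points -/
noncomputable def Me (f : Site d (k + 1) → Fin q) (t : Blk d k) (c : Fin q) : ℝ :=
  EBe fun a b => if f (pt t a b) = c then 1 else 0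

private theorem EvB_flp_flp (a : Bt d) (i : Fin d) : flp (flp a i) i = a := by
  unfold flp
  simp

private theorem EvB_od_flp (a b : Bt d) (i : Fin d) : od (flp a i) b ↔ ¬ od a b := by
  unfold od
  by_cases h : a i = b i
  · have h1 : (univ.filter fun r => flp a i r ≠ b r) = insert i (univ.filter fun r => a r ≠ b r) := by
      ext r
      simp only [Finset.mem_filter, Finset.mem_univ, true_and, Finset.mem_insert]
      by_cases hr : r = i
      · subst hr
        simp [flp, h]
      · simp [flp, hr]
    rw [h1, Finset.card_insert_of_notMem (by simp [h]), Nat.odd_add_one]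
  · have h1 : (univ.filter fun r => a r ≠ b r) = insert i (univ.filter fun r => flp a i r ≠ b r) := by
      ext r
      simp only [Finset.mem_filter, Finset.mem_univ, true_and, Finset.mem_insert]
      by_cases hr : r = i
      · subst hr
        simp [h]
      · simp [flp, hr]
    have h2 : flp a i i = b i := by
      simp only [flp, Function.update_self]
      cases ha : a i <;> cases hb : b i <;> simp_all
    rw [h1, Finset.card_insert_of_notMem (by simp [h2]), Nat.odd_add_one, not_not]

/-- the even points of the block are the neighbours of the odd points in direction `j` -/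
private theorem EvB_EBe (j : Fin d) (F : Bt d → Bt d → ℝ) :
    EBe F = EB fun a b => F (flp a j) b := by
  classical
  unfold EBe EB
  congr 2
  have e : ∀ H : Bt d → ℝ, ∑ a, H (flp a j) = ∑ a, H a := fun H =>
    Fintype.sum_equiv ⟨fun a => flp a j, fun a => flp a j, fun a => EvB_flp_flp a j,
      fun a => EvB_flp_flp a j⟩ _ _ fun a => rfl
  rw [← e (fun a => ∑ b, if od a b then 0 else F a b)]
  refine Finset.sum_congr rfl fun a _ => Finset.sum_congr rfl fun b _ => ?_
  by_cases h : od a b
  · rw [if_pos h, if_neg (by rw [EvB_od_flp]; exact not_not.2 h)]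
  · rw [if_neg h, if_pos (by rw [EvB_od_flp]; exact h)]

private theorem EvB_zb01 (f : Site d (k + 1) → Fin q) (t : Blk d k) (a b : Bt d) (c : Fin q) :
    0 ≤ zb f t a b c ∧ zb f t a b c ≤ 1 := by
  unfold zb
  split_ifs <;> norm_num

private theorem EvB_zero : EB (fun _ _ : Bt d => (0 : ℝ)) = 0 := by
  classical
  unfold EB
  simp

theorem Me_nonneg (f : Site d (k + 1) → Fin q) (t : Blk d k) (c : Fin q) : 0 ≤ Me f t c := by
  classical
  unfold Me EBe
  refine div_nonneg (mul_nonneg (by norm_num) ?_) (by positivity)
  refine Finset.sum_nonneg fun a _ => Finset.sum_nonneg fun b _ => ?_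
  by_cases h : od a b
  · rw [if_pos h]
  · rw [if_neg h]
    show (0 : ℝ) ≤ if f (pt t a b) = c then (1 : ℝ) else 0
    split_ifs <;> norm_num

theorem Me_le (hd : 1 ≤ d) (f : Site d (k + 1) → Fin q) (t : Blk d k) (c : Fin q) :
    Me f t c ≤ 1 - mb f t c := by
  classical
  have h1 : Me f t c ≤ EB (fun a b => 1 + (-1) * zb f t a b c) := by
    unfold Me
    rw [EvB_EBe (⟨0, hd⟩ : Fin d)]
    refine EB_mono fun a b _ => ?_
    by_cases h : f (pt t (flp a ⟨0, hd⟩) b) = c
    · have h2 : zb f t a b c = 0 := by
        unfold zb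
        rw [if_neg]
        intro hall
        refine hall ((⟨0, hd⟩ : Fin d), !a ⟨0, hd⟩) ?_ ?_
        · unfold alw
          cases ha : a ⟨0, hd⟩ with
          | true => simp
          | false => simp
        · rw [← (pt_flp t a b ⟨0, hd⟩).1]
          exact h
      rw [if_pos h, h2]
      norm_num
    · rw [if_neg h]
      have := (EvB_zb01 f t a b c).2
      linarith
  rw [EB_add, EB_mul, card_od hd] at h1
  unfold mb
  linarith

theorem sum_Me (hd : 1 ≤ d) (f : Site d (k + 1) → Fin q) (t : Blk d k) : ∑ c, Me f t c = 1 := by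
  classical
  have h1 : ∀ c, Me f t c = EB (fun a b => if f (pt t (flp a ⟨0, hd⟩) b) = c then 1 else 0) := by
    intro c
    unfold Me
    rw [EvB_EBe (⟨0, hd⟩ : Fin d)]
  rw [Finset.sum_congr rfl fun c _ => h1 c, ← EB_sum]
  have h2 : (fun a b : Bt d => ∑ c : Fin q, if f (pt t (flp a ⟨0, hd⟩) b) = c then (1 : ℝ) else 0) =
      fun _ _ => (1 : ℝ) := by
    funext a b
    rw [Finset.sum_ite_eq, if_pos (Finset.mem_univ _)]
  rw [h2]
  exact card_od hd

theorem sum_Mb (hd : 1 ≤ d) (f : Site d (k + 1) → Fin q) (t : Blk d k) : ∑ c, Mb f t c = 1 := by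
  classical
  have h1 : ∀ c, Mb f t c = EB (fun a b => if f (pt t a b) = c then 1 else 0) := by
    intro c
    unfold Mb
    rfl
  rw [Finset.sum_congr rfl fun c _ => h1 c, ← EB_sum]
  have h2 : (fun a b : Bt d => ∑ c : Fin q, if f (pt t a b) = c then (1 : ℝ) else 0) =
      fun _ _ => (1 : ℝ) := by
    funext a b
    rw [Finset.sum_ite_eq, if_pos (Finset.mem_univ _)]
  rw [h2]
  exact card_od hd

theorem mb_nonneg' (f : Site d (k + 1) → Fin q) (t : Blk d k) (c : Fin q) : 0 ≤ mb f t c := by
  have h := EB_mono (F := fun _ _ : Bt d => (0 : ℝ)) (G := fun a b => zb f t a b c)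
    fun a b _ => (EvB_zb01 f t a b c).1
  rw [EvB_zero] at h
  exact h

theorem mb_le_one' (hd : 1 ≤ d) (f : Site d (k + 1) → Fin q) (t : Blk d k) (c : Fin q) : mb f t c ≤ 1 := by
  have h := EB_mono (F := fun a b => zb f t a b c) (G := fun _ _ : Bt d => (1 : ℝ))
    fun a b _ => (EvB_zb01 f t a b c).2
  rw [card_od hd] at h
  exact h

end Pool.Agent.LO
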