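import Pool.Agent.Lib_MP_2c424f_fb.LabF
import Pool.Agent.Lib_MP_2c424f_fb.AvG
import Pool.Agent.Lib_MP_2c424f_fb.EvB

/-!
# Order in the free box, sharp block form (piece CONG)

`n = m^D`, `m = 2^k`, `U_c = ∑_s Mb f (bk s) c`, `W_c = ∑_s Me f (bk s) c`, `V_c = ∑_s mb f (bk s) c`, `η = dl q + 5/D^2`.
Exceptional set: `labF` for every colour (with `ε/(2q)`) and `avG` (with `ε/2`).  Off it, deterministic: for each
colour there is `ℓ_c`, all but `5n/D^2` blocks are good with label `ℓ_c`.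
`ℓ_c` true: `V_c ≥ (1 - dl)(1 - 5/D^2) n ≥ (1 - η) n`, `W_c ≤ n - V_c ≤ η n` (`Me_le`).
`ℓ_c` false: on the good blocks `mb ≤ mj ≤ dl` and `Mb ≤ mb`, so `V_c ≤ η n`, `U_c ≤ η n` (`Mb_lab0`, `mb_le_mj`).
`K = #{c : ℓ_c}`: `K (1 - η) n ≤ ∑ V_c ≤ K n + q η n`, `q η ≤ 1/100 + 1/1000`, and `avG` give `K = q1` or `K = q2`
(so `K ≤ q2` and `q - K ≤ q2`).
`∑ U_c = ∑ W_c = n` (`sum_Mb`, `sum_Me`).  `∑ U_c^2 ≥ (∑_{ℓ_c} U_c)^2/K ≥ (1 - q η)^2 n^2/q2 ≥ 97/100 n^2/q2`, the same for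
`W_c` over the colours with `ℓ_c` false, and `∑ U_c W_c ≤ 2 η n^2 ≤ n^2/(40 q)` (`4000 q ≤ D`).
-/

set_option autoImplicit false

open Finset

namespace Pool.Agent.LO

/-- the real analysis -/
private theorem ConG_abs {q : ℕ} (n η : ℝ) (hn : 0 < n) (V U W : Fin q → ℝ) (ℓ : Fin q → Prop)
    (hU0 : ∀ c, 0 ≤ U c) (hW0 : ∀ c, 0 ≤ W c) (hUV : ∀ c, U c ≤ V c) (hWV : ∀ c, W c ≤ n - V c)
    (hVt : ∀ c, ℓ c → (1 - η) * n ≤ V c) (hVf : ∀ c, ¬ ℓ c → V c ≤ η * n)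
    (hVn : ∀ c, V c ≤ n) (hη : 0 ≤ η)
    (sU : ∑ c, U c = n) (sW : ∑ c, W c = n) (hq : (q : ℝ) * η ≤ 11 / 1000)
    (h2 : 2 * η ≤ 1 / (40 * (q : ℝ))) (hA1 : ((q1 q : ℝ) - 1 / 50) * n < ∑ c, V c)
    (hA2 : ∑ c, V c < ((q2 q : ℝ) + 1 / 50) * n) (hq2 : 1 ≤ q2 q) :
    97 / (100 * (q2 q : ℝ)) * n ^ 2 ≤ ∑ c, U c ^ 2 ∧
      97 / (100 * (q2 q : ℝ)) * n ^ 2 ≤ ∑ c, W c ^ 2 ∧
      ∑ c, U c * W c ≤ 1 / (40 * (q : ℝ)) * n ^ 2 := by
  classical
  obtain ⟨K, hK⟩ : ∃ K, K = (univ.filter fun c => ℓ c).card := ⟨_, rfl⟩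
  obtain ⟨J, hJ⟩ : ∃ J, J = (univ.filter fun c => ¬ ℓ c).card := ⟨_, rfl⟩
  have hKJ : K + J = q := by
    rw [hK, hJ, Finset.card_filter_add_card_filter_not, Finset.card_univ, Fintype.card_fin]
  have hKJr : (K : ℝ) + J = q := by exact_mod_cast hKJ
  have hsp : ∀ F : Fin q → ℝ, ∑ c, F c = ∑ c ∈ univ.filter (fun c => ℓ c), F c +
      ∑ c ∈ univ.filter (fun c => ¬ ℓ c), F c := fun F =>
    (Finset.sum_filter_add_sum_filter_not univ (fun c => ℓ c) F).symm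
  have hηn : 0 ≤ η * n := mul_nonneg hη hn.le
  have hJη : (J : ℝ) * (η * n) ≤ 11 / 1000 * n := by
    have h1 : (J : ℝ) ≤ q := by
      have : (0 : ℝ) ≤ K := Nat.cast_nonneg _
      linarith
    calc (J : ℝ) * (η * n) ≤ q * (η * n) := mul_le_mul_of_nonneg_right h1 hηn
      _ = q * η * n := by ring
      _ ≤ 11 / 1000 * n := mul_le_mul_of_nonneg_right hq hn.le
  have hKη : (K : ℝ) * (η * n) ≤ 11 / 1000 * n := by
    have h1 : (K : ℝ) ≤ q := by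
      have : (0 : ℝ) ≤ J := Nat.cast_nonneg _
      linarith
    calc (K : ℝ) * (η * n) ≤ q * (η * n) := mul_le_mul_of_nonneg_right h1 hηn
      _ = q * η * n := by ring
      _ ≤ 11 / 1000 * n := mul_le_mul_of_nonneg_right hq hn.le
  have hV0 : ∀ c, 0 ≤ V c := fun c => (hU0 c).trans (hUV c)
  -- lower and upper bounds for the total
  have hlow : (K : ℝ) * ((1 - η) * n) ≤ ∑ c, V c := by
    rw [hsp V]
    have h1 : (K : ℝ) * ((1 - η) * n) ≤ ∑ c ∈ univ.filter (fun c => ℓ c), V c := by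
      rw [hK, ← nsmul_eq_mul]
      exact Finset.card_nsmul_le_sum _ _ _ fun c hc => hVt c (Finset.mem_filter.1 hc).2
    have h3 : 0 ≤ ∑ c ∈ univ.filter (fun c => ¬ ℓ c), V c :=
      Finset.sum_nonneg fun c _ => hV0 c
    linarith
  have hup : ∑ c, V c ≤ (K : ℝ) * n + (J : ℝ) * (η * n) := by
    rw [hsp V]
    have h1 : ∑ c ∈ univ.filter (fun c => ℓ c), V c ≤ (K : ℝ) * n := by
      rw [hK, ← nsmul_eq_mul]
      exact Finset.sum_le_card_nsmul _ _ _ fun c _ => hVn c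
    have h3 : ∑ c ∈ univ.filter (fun c => ¬ ℓ c), V c ≤ (J : ℝ) * (η * n) := by
      rw [hJ, ← nsmul_eq_mul]
      exact Finset.sum_le_card_nsmul _ _ _ fun c hc => hVf c (Finset.mem_filter.1 hc).2
    linarith
  have hq12 : q1 q + q2 q = q := by unfold q1 q2; omega
  have hK2 : K ≤ q2 q := by
    by_contra h
    push Not at h
    have h1 : (q2 q : ℝ) + 1 ≤ K := by exact_mod_cast h
    have h3 : ((q2 q : ℝ) + 1) * n ≤ K * n := mul_le_mul_of_nonneg_right h1 hn.le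
    nlinarith
  have hJ2 : J ≤ q2 q := by
    by_contra h
    push Not at h
    have h0 : K + 1 ≤ q1 q := by omega
    have h1 : (K : ℝ) + 1 ≤ q1 q := by exact_mod_cast h0
    have h3 : ((K : ℝ) + 1) * n ≤ q1 q * n := mul_le_mul_of_nonneg_right h1 hn.le
    nlinarith
  have hq2r : (1 : ℝ) ≤ q2 q := by exact_mod_cast hq2
  have hCS : ∀ (P : Fin q → Prop) [DecidablePred P] (F : Fin q → ℝ) (M : ℕ),
      (univ.filter fun c => P c).card = M → M ≤ q2 q →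
      989 / 1000 * n ≤ ∑ c ∈ univ.filter (fun c => P c), F c →
      97 / (100 * (q2 q : ℝ)) * n ^ 2 ≤ ∑ c, F c ^ 2 := by
    intro P _ F M hM hM2 hF
    have h1 : (∑ c ∈ univ.filter (fun c => P c), F c) ^ 2 ≤
        (q2 q : ℝ) * ∑ c, F c ^ 2 := by
      calc (∑ c ∈ univ.filter (fun c => P c), F c) ^ 2
          ≤ ((univ.filter fun c => P c).card : ℝ) * ∑ c ∈ univ.filter (fun c => P c), F c ^ 2 :=
            sq_sum_le_card_mul_sum_sq
        _ ≤ (q2 q : ℝ) * ∑ c, F c ^ 2 := by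
            apply mul_le_mul
            · rw [hM]; exact_mod_cast hM2
            · exact Finset.sum_le_sum_of_subset_of_nonneg (Finset.filter_subset _ _)
                fun c _ _ => sq_nonneg _
            · exact Finset.sum_nonneg fun c _ => sq_nonneg _
            · linarith
    have h3 : (989 / 1000 * n) ^ 2 ≤ (∑ c ∈ univ.filter (fun c => P c), F c) ^ 2 :=
      pow_le_pow_left₀ (by positivity) hF 2
    have h4 : 97 / 100 * n ^ 2 ≤ (q2 q : ℝ) * ∑ c, F c ^ 2 := by nlinarith [sq_nonneg n]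
    have h5 : 97 / (100 * (q2 q : ℝ)) * n ^ 2 = (97 / 100 * n ^ 2) / (q2 q : ℝ) := by
      field_simp
    rw [h5, div_le_iff₀ (by linarith)]
    linarith
  refine ⟨?_, ?_, ?_⟩
  · refine hCS (fun c => ℓ c) U K hK.symm hK2 ?_
    have h1 := hsp U
    rw [sU] at h1
    have h3 : ∑ c ∈ univ.filter (fun c => ¬ ℓ c), U c ≤ (J : ℝ) * (η * n) := by
      rw [hJ, ← nsmul_eq_mul]
      exact Finset.sum_le_card_nsmul _ _ _ fun c hc =>
        (hUV c).trans (hVf c (Finset.mem_filter.1 hc).2)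
    linarith
  · refine hCS (fun c => ¬ ℓ c) W J hJ.symm hJ2 ?_
    have h1 := hsp W
    rw [sW] at h1
    have h3 : ∑ c ∈ univ.filter (fun c => ℓ c), W c ≤ (K : ℝ) * (η * n) := by
      rw [hK, ← nsmul_eq_mul]
      exact Finset.sum_le_card_nsmul _ _ _ fun c hc => by
        have h4 := hVt c (Finset.mem_filter.1 hc).2
        have h5 := hWV c
        linarith
    linarith
  · have h1 : ∀ c, U c * W c ≤ η * n * U c + η * n * W c := by
      intro c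
      have hu := hU0 c
      have hw := hW0 c
      by_cases hc : ℓ c
      · have h4 := hVt c hc
        have h5 := hWV c
        have h6 : W c ≤ η * n := by linarith
        have h7 := mul_le_mul_of_nonneg_left h6 hu
        have h8 := mul_nonneg hηn hw
        linarith
      · have h4 := hVf c hc
        have h5 := hUV c
        have h6 : U c ≤ η * n := by linarith
        have h7 := mul_le_mul_of_nonneg_right h6 hw
        have h8 := mul_nonneg hηn hu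
        linarith
    calc ∑ c, U c * W c ≤ ∑ c, (η * n * U c + η * n * W c) := Finset.sum_le_sum fun c _ => h1 c
      _ = 2 * η * n ^ 2 := by
          rw [Finset.sum_add_distrib, ← Finset.mul_sum, ← Finset.mul_sum, sU, sW]
          ring
      _ ≤ 1 / (40 * (q : ℝ)) * n ^ 2 := mul_le_mul_of_nonneg_right h2 (sq_nonneg n)

/-- a sum of numbers of `[0,1]` which are at least `1 - δ` off a small set -/
private theorem ConG_lo {S : Type} [Fintype S] (F : S → ℝ) (B : Finset S) (δ e : ℝ)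
    (h0 : ∀ s, 0 ≤ F s) (h : ∀ s, s ∉ B → 1 - δ ≤ F s) (hδ : 0 ≤ δ) (hδ1 : δ ≤ 1)
    (hB : (B.card : ℝ) ≤ e * Fintype.card S) (he : 0 ≤ e) :
    (1 - (δ + e)) * Fintype.card S ≤ ∑ s, F s := by
  classical
  have h1 : ((Bᶜ : Finset S).card : ℝ) * (1 - δ) ≤ ∑ s ∈ Bᶜ, F s := by
    rw [← nsmul_eq_mul]
    exact Finset.card_nsmul_le_sum _ _ _ fun s hs => h s (Finset.mem_compl.1 hs)
  have h2 : ∑ s ∈ Bᶜ, F s ≤ ∑ s, F s :=
    Finset.sum_le_sum_of_subset_of_nonneg (Finset.subset_univ _) fun s _ _ => h0 s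
  have h3 : ((Bᶜ : Finset S).card : ℝ) = Fintype.card S - B.card := by
    have h4 := Finset.card_compl_add_card B
    have h5 : ((Bᶜ : Finset S).card : ℝ) + B.card = Fintype.card S := by exact_mod_cast h4
    linarith
  rw [h3] at h1
  have h6 : (0 : ℝ) ≤ Fintype.card S := Nat.cast_nonneg _
  have h7 : (B.card : ℝ) * (1 - δ) ≤ e * Fintype.card S := by
    calc (B.card : ℝ) * (1 - δ) ≤ B.card * 1 :=
          mul_le_mul_of_nonneg_left (by linarith) (Nat.cast_nonneg _)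
      _ ≤ e * Fintype.card S := by rw [mul_one]; exact hB
  nlinarith

/-- a sum of numbers of `[0,1]` which are at most `δ` off a small set -/
private theorem ConG_up {S : Type} [Fintype S] (F : S → ℝ) (B : Finset S) (δ e : ℝ)
    (h1 : ∀ s, F s ≤ 1) (h : ∀ s, s ∉ B → F s ≤ δ) (hδ : 0 ≤ δ)
    (hB : (B.card : ℝ) ≤ e * Fintype.card S) :
    ∑ s, F s ≤ (δ + e) * Fintype.card S := by
  classical
  have h2 : ∑ s ∈ Bᶜ, F s ≤ ((Bᶜ : Finset S).card : ℝ) * δ := by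
    rw [← nsmul_eq_mul]
    exact Finset.sum_le_card_nsmul _ _ _ fun s hs => h s (Finset.mem_compl.1 hs)
  have h3 : ∑ s ∈ B, F s ≤ (B.card : ℝ) * 1 := by
    rw [← nsmul_eq_mul]
    exact Finset.sum_le_card_nsmul _ _ _ fun s _ => h1 s
  have h4 : ((Bᶜ : Finset S).card : ℝ) ≤ Fintype.card S := by
    exact_mod_cast Finset.card_le_univ _
  have h5 : ((Bᶜ : Finset S).card : ℝ) * δ ≤ Fintype.card S * δ :=
    mul_le_mul_of_nonneg_right h4 hδ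
  rw [← Finset.sum_add_sum_compl B]
  linarith

open scoped Classical in
/-- the three inequalities off the exceptional sets -/
private theorem ConG_det {D k q : ℕ} (hD : 3 ≤ D) (hA : Adm4 D q) {f : Site D (k + 2) → Fin q}
    (hf : Prp f)
    (hl : ∀ c : Fin q, ∃ ℓ : Prop,
      ((univ.filter fun s : Gr D (2 ^ k) => bad c (bk s) f ∨ ¬ (lab1 f (bk s) c ↔ ℓ)).card : ℝ) ≤
        5 * ((2 : ℝ) ^ k) ^ D / (D : ℝ) ^ 2)
    (ha : ¬ (((q2 q : ℝ) + 1 / 50) * ((2 : ℝ) ^ k) ^ D ≤ ∑ s : Gr D (2 ^ k), ∑ c, mb f (bk s) c ∨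
      ∑ s : Gr D (2 ^ k), ∑ c, mb f (bk s) c ≤ ((q1 q : ℝ) - 1 / 50) * ((2 : ℝ) ^ k) ^ D)) :
      97 / (100 * (q2 q : ℝ)) * (((2 : ℝ) ^ k) ^ D) ^ 2 ≤ ∑ c, (∑ s : Gr D (2 ^ k), Mb f (bk s) c) ^ 2 ∧
      97 / (100 * (q2 q : ℝ)) * (((2 : ℝ) ^ k) ^ D) ^ 2 ≤ ∑ c, (∑ s : Gr D (2 ^ k), Me f (bk s) c) ^ 2 ∧
      ∑ c, (∑ s : Gr D (2 ^ k), Mb f (bk s) c) * (∑ s : Gr D (2 ^ k), Me f (bk s) c) ≤
        1 / (40 * (q : ℝ)) * (((2 : ℝ) ^ k) ^ D) ^ 2 := by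
  have hD1 : 1 ≤ D := by omega
  have hn : (0 : ℝ) < ((2 : ℝ) ^ k) ^ D := by positivity
  have hcard : (Fintype.card (Gr D (2 ^ k)) : ℝ) = ((2 : ℝ) ^ k) ^ D := by
    rw [Fintype.card_fun, Fintype.card_fin, Fintype.card_fin]
    push_cast
    ring
  have hq2 : 2 ≤ q := hA.1
  have hqr : (2 : ℝ) ≤ q := by exact_mod_cast hq2
  have hDr : (3 : ℝ) ≤ D := by exact_mod_cast hD
  have hlog : 1 ≤ Real.log D := by
    rw [Real.le_log_iff_exp_le (by linarith)]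
    exact (Real.exp_one_lt_d9.le.trans (by norm_num)).trans hDr
  have hqD : 4000 * (q : ℝ) ≤ D := by
    have h1 := hA.2.2
    nlinarith
  have hdl0 : 0 < dl q := by unfold dl; positivity
  have hdlq : (q : ℝ) * dl q = 1 / 100 := by unfold dl; field_simp
  have hdl1 : dl q ≤ 1 := by nlinarith
  have he0 : 0 ≤ 5 / (D : ℝ) ^ 2 := by positivity
  have heq : (q : ℝ) * (5 / (D : ℝ) ^ 2) ≤ 1 / 1000 := by
    rw [mul_div_assoc', div_le_iff₀ (by positivity)]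
    nlinarith
  choose ℓ hℓ using hl
  have hB : ∀ c : Fin q, ((univ.filter fun s : Gr D (2 ^ k) =>
      bad c (bk s) f ∨ ¬ (lab1 f (bk s) c ↔ ℓ c)).card : ℝ) ≤
        5 / (D : ℝ) ^ 2 * Fintype.card (Gr D (2 ^ k)) := by
    intro c
    rw [hcard]
    refine (hℓ c).trans (le_of_eq ?_)
    ring
  have hη0 : 0 ≤ dl q + 5 / (D : ℝ) ^ 2 := by linarith
  have hsumV : ∑ s : Gr D (2 ^ k), ∑ c, mb f (bk s) c = ∑ c, ∑ s : Gr D (2 ^ k), mb f (bk s) c :=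
    Finset.sum_comm
  rw [hsumV] at ha
  push Not at ha
  refine ConG_abs (((2 : ℝ) ^ k) ^ D) (dl q + 5 / (D : ℝ) ^ 2) hn
    (fun c => ∑ s : Gr D (2 ^ k), mb f (bk s) c) _ _ ℓ ?_ ?_ ?_ ?_ ?_ ?_ ?_ hη0 ?_ ?_ ?_ ?_
    ha.2 ha.1 ?_
  · exact fun c => Finset.sum_nonneg fun s _ => Mb_nonneg _ _ _
  · exact fun c => Finset.sum_nonneg fun s _ => Me_nonneg _ _ _
  · exact fun c => Finset.sum_le_sum fun s _ => Mb_le_mb hf _ _
  · intro c
    have h1 : ∑ s : Gr D (2 ^ k), Me f (bk s) c ≤ ∑ s : Gr D (2 ^ k), (1 - mb f (bk s) c) :=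
      Finset.sum_le_sum fun s _ => Me_le hD1 _ _ _
    rw [Finset.sum_sub_distrib, Finset.sum_const, Finset.card_univ, nsmul_eq_mul, hcard,
      mul_one] at h1
    exact h1
  · intro c hc
    rw [← hcard]
    refine ConG_lo _ _ _ _ (fun s => mb_nonneg' _ _ _) (fun s hs => ?_) hdl0.le hdl1 (hB c) he0
    rw [Finset.mem_filter] at hs
    by_contra h
    exact hs ⟨Finset.mem_univ _, Or.inr fun h' => h (h'.2 hc)⟩
  · intro c hc
    rw [← hcard]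
    refine ConG_up _ _ _ _ (fun s => mb_le_one' hD1 _ _ _) (fun s hs => ?_) hdl0.le (hB c)
    rw [Finset.mem_filter] at hs
    push Not at hs
    obtain ⟨h1, h3⟩ := hs (Finset.mem_univ _)
    have h4 : ¬ lab1 f (bk s) c := fun h => hc (h3.1 h)
    have h5 : lab0 f (bk s) c := by
      by_contra h
      exact h1 ⟨h4, h⟩
    exact (mb_le_mj f (bk s) c ⟨0, by omega⟩).trans (h5 ⟨0, by omega⟩)
  · intro c
    have h1 : ∑ s : Gr D (2 ^ k), mb f (bk s) c ≤ ∑ _s : Gr D (2 ^ k), (1 : ℝ) :=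
      Finset.sum_le_sum fun s _ => mb_le_one' hD1 _ _ _
    rw [Finset.sum_const, Finset.card_univ, nsmul_eq_mul, hcard, mul_one] at h1
    exact h1
  · rw [Finset.sum_comm]
    have h1 : ∀ s : Gr D (2 ^ k), ∑ c, Mb f (bk s) c = 1 := fun s => sum_Mb hD1 _ _
    simp only [h1]
    rw [Finset.sum_const, Finset.card_univ, nsmul_eq_mul, hcard, mul_one]
  · rw [Finset.sum_comm]
    have h1 : ∀ s : Gr D (2 ^ k), ∑ c, Me f (bk s) c = 1 := fun s => sum_Me hD1 _ _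
    simp only [h1]
    rw [Finset.sum_const, Finset.card_univ, nsmul_eq_mul, hcard, mul_one]
  · rw [mul_add]
    linarith
  · have h1 : 10 / (D : ℝ) ^ 2 ≤ 1 / (200 * (q : ℝ)) := by
      rw [div_le_div_iff₀ (by positivity) (by positivity)]
      nlinarith
    have h3 : 1 / (40 * (q : ℝ)) = 2 * dl q + 1 / (200 * (q : ℝ)) := by
      unfold dl
      field_simp
      norm_num
    rw [h3]
    have h4 : 2 * (5 / (D : ℝ) ^ 2) = 10 / (D : ℝ) ^ 2 := by ring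
    linarith
  · unfold q2
    omega

open scoped Classical in
theorem conG : ∃ D₀ : ℕ, ∀ D : ℕ, D₀ ≤ D → ∀ q : ℕ, Adm4 D q → ∀ ε : ℝ, 0 < ε → ∃ k₀ : ℕ, ∀ k : ℕ, k₀ ≤ k →
    (((sys D (k + 2) q univ).filter fun f => ¬ (
      97 / (100 * (q2 q : ℝ)) * (((2 : ℝ) ^ k) ^ D) ^ 2 ≤ ∑ c, (∑ s : Gr D (2 ^ k), Mb f (bk s) c) ^ 2 ∧
      97 / (100 * (q2 q : ℝ)) * (((2 : ℝ) ^ k) ^ D) ^ 2 ≤ ∑ c, (∑ s : Gr D (2 ^ k), Me f (bk s) c) ^ 2 ∧
      ∑ c, (∑ s : Gr D (2 ^ k), Mb f (bk s) c) * (∑ s : Gr D (2 ^ k), Me f (bk s) c) ≤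
        1 / (40 * (q : ℝ)) * (((2 : ℝ) ^ k) ^ D) ^ 2)).card : ℝ) ≤ ε * NB D (k + 2) q := by
  obtain ⟨D₁, h₁⟩ := labF
  obtain ⟨D₂, h₂⟩ := avG
  refine ⟨max (max D₁ D₂) 3, fun D hD q hA ε hε => ?_⟩
  have hD1 : D₁ ≤ D := le_trans (le_trans (le_max_left _ _) (le_max_left _ _)) hD
  have hD2 : D₂ ≤ D := le_trans (le_trans (le_max_right _ _) (le_max_left _ _)) hD
  have hD3 : 3 ≤ D := le_trans (le_max_right _ _) hD
  have hq : 2 ≤ q := hA.1
  have hq0 : (0 : ℝ) < q := by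
    have : 0 < q := by omega
    exact_mod_cast this
  obtain ⟨k₁, hk₁⟩ := h₁ D hD1 q hA (ε / (2 * q)) (by positivity)
  obtain ⟨k₂, hk₂⟩ := h₂ D hD2 q hA (ε / 2) (by positivity)
  refine ⟨max k₁ k₂, fun k hk => ?_⟩
  have hk1 : k₁ ≤ k := le_trans (le_max_left _ _) hk
  have hk2 : k₂ ≤ k := le_trans (le_max_right _ _) hk
  obtain ⟨E, hE⟩ : ∃ E : Fin q → Finset (Site D (k + 2) → Fin q), ∀ c, E c =
      ((sys D (k + 2) q univ).filter fun f => ¬ ∃ ℓ : Prop,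
      ((univ.filter fun s : Gr D (2 ^ k) => bad c (bk s) f ∨ ¬ (lab1 f (bk s) c ↔ ℓ)).card : ℝ) ≤
        5 * ((2 : ℝ) ^ k) ^ D / (D : ℝ) ^ 2) := ⟨_, fun _ => rfl⟩
  have hEc : ∀ c, ((E c).card : ℝ) ≤ ε / (2 * q) * NB D (k + 2) q := by
    intro c
    rw [hE]
    exact hk₁ k hk1 c
  have hAv := hk₂ k hk2
  obtain ⟨E0, hE0⟩ : ∃ E0 : Finset (Site D (k + 2) → Fin q), E0 =
    ((sys D (k + 2) q univ).filter fun f =>
      ((q2 q : ℝ) + 1 / 50) * ((2 : ℝ) ^ k) ^ D ≤ ∑ s : Gr D (2 ^ k), ∑ c, mb f (bk s) c ∨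
      ∑ s : Gr D (2 ^ k), ∑ c, mb f (bk s) c ≤ ((q1 q : ℝ) - 1 / 50) * ((2 : ℝ) ^ k) ^ D) :=
    ⟨_, rfl⟩
  rw [← hE0] at hAv
  have hNB : 0 ≤ NB D (k + 2) q := Nat.cast_nonneg _
  have hsub : ((sys D (k + 2) q univ).filter fun f => ¬ (
      97 / (100 * (q2 q : ℝ)) * (((2 : ℝ) ^ k) ^ D) ^ 2 ≤ ∑ c, (∑ s : Gr D (2 ^ k), Mb f (bk s) c) ^ 2 ∧
      97 / (100 * (q2 q : ℝ)) * (((2 : ℝ) ^ k) ^ D) ^ 2 ≤ ∑ c, (∑ s : Gr D (2 ^ k), Me f (bk s) c) ^ 2 ∧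
      ∑ c, (∑ s : Gr D (2 ^ k), Mb f (bk s) c) * (∑ s : Gr D (2 ^ k), Me f (bk s) c) ≤
        1 / (40 * (q : ℝ)) * (((2 : ℝ) ^ k) ^ D) ^ 2)) ⊆ univ.biUnion E ∪ E0 := by
    intro f hf
    rw [Finset.mem_filter] at hf
    obtain ⟨hfs, hfn⟩ := hf
    have hfP : Prp f := by
      unfold sys prps at hfs
      rw [Finset.mem_filter, Finset.mem_filter] at hfs
      exact hfs.1.2
    by_contra hno
    rw [Finset.mem_union, Finset.mem_biUnion] at hno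
    push Not at hno
    obtain ⟨hno1, hno2⟩ := hno
    apply hfn
    refine ConG_det hD3 hA hfP (fun c => ?_) (fun h => ?_)
    · by_contra h
      exact hno1 c (Finset.mem_univ _) (by rw [hE, Finset.mem_filter]; exact ⟨hfs, h⟩)
    · exact hno2 (by rw [hE0, Finset.mem_filter]; exact ⟨hfs, h⟩)
  have hle := Finset.card_le_card hsub
  have h3 : (univ.biUnion E ∪ E0).card ≤ ∑ c, (E c).card + E0.card :=
    (Finset.card_union_le _ _).trans (Nat.add_le_add_right Finset.card_biUnion_le _)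
  have h4 : ((univ.biUnion E ∪ E0).card : ℝ) ≤ ∑ c, ((E c).card : ℝ) + E0.card := by
    exact_mod_cast h3
  have h5 : ∑ c, ((E c).card : ℝ) ≤ ε / 2 * NB D (k + 2) q := by
    calc ∑ c, ((E c).card : ℝ) ≤ ∑ _c : Fin q, ε / (2 * q) * NB D (k + 2) q :=
          Finset.sum_le_sum fun c _ => hEc c
      _ = ε / 2 * NB D (k + 2) q := by
          rw [Finset.sum_const, Finset.card_univ, Fintype.card_fin, nsmul_eq_mul]
          field_simp
  have h6 : (((sys D (k + 2) q univ).filter fun f => ¬ (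
      97 / (100 * (q2 q : ℝ)) * (((2 : ℝ) ^ k) ^ D) ^ 2 ≤ ∑ c, (∑ s : Gr D (2 ^ k), Mb f (bk s) c) ^ 2 ∧
      97 / (100 * (q2 q : ℝ)) * (((2 : ℝ) ^ k) ^ D) ^ 2 ≤ ∑ c, (∑ s : Gr D (2 ^ k), Me f (bk s) c) ^ 2 ∧
      ∑ c, (∑ s : Gr D (2 ^ k), Mb f (bk s) c) * (∑ s : Gr D (2 ^ k), Me f (bk s) c) ≤
        1 / (40 * (q : ℝ)) * (((2 : ℝ) ^ k) ^ D) ^ 2)).card : ℝ) ≤
      ((univ.biUnion E ∪ E0).card : ℝ) := by exact_mod_cast hle
  linarith

end Pool.Agent.LO
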