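import Pool.Agent.Lib_MP_2c424f_fb.Defs
import Pool.Agent.Lib_MP_2c424f_lo.Sym

/-!
# Permutations of the colours in the free box (piece SYMF)

As in `Lib_MP_2c424f_lo/Sym.lean` (`sum_perm`, `mb_const`, `Mb_mean`), for `sys` instead of `prps`.
-/

set_option autoImplicit false

open Finset

namespace Pool.Agent.LO

variable {D k q : ℕ}

private theorem SymF_sum (S : Finset (Fin D)) (π : Equiv.Perm (Fin q))
    (F : (Site D k → Fin q) → ℝ) :
    ∑ f ∈ sys D k q S, F (fun x => π (f x)) = ∑ f ∈ sys D k q S, F f := by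
  classical
  have key : ∀ (ρ : Equiv.Perm (Fin q)) (f : Site D k → Fin q), f ∈ sys D k q S →
      (fun x => ρ (f x)) ∈ sys D k q S := by
    intro ρ f hf
    simp only [sys, prps, mem_filter, mem_univ, true_and] at hf ⊢
    refine ⟨?_, ?_⟩
    · intro x σ h
      exact hf.1 x σ (ρ.injective h)
    · intro j hj x
      rw [hf.2 j hj x]
  refine Finset.sum_bij' (fun f _ => fun x => π (f x)) (fun f _ => fun x => π.symm (f x)) ?_ ?_ ?_ ?_ ?_
  · intro f hf
    exact key π f hf
  · intro f hf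
    exact key π.symm f hf
  · intro f _
    funext x
    simp
  · intro f _
    funext x
    simp
  · intro f _
    rfl

private theorem SymF_ite {P Q : Prop} (hP : Decidable P) (hQ : Decidable Q) (h : P ↔ Q) :
    (@ite ℝ P hP 1 0) = (@ite ℝ Q hQ 1 0) := by
  by_cases hp : P
  · rw [if_pos hp, if_pos (h.1 hp)]
  · rw [if_neg hp, if_neg (fun hq => hp (h.2 hq))]

private theorem SymF_mb_perm (f : Site D (k + 1) → Fin q) (t : Blk D k) (c : Fin q)
    (π : Equiv.Perm (Fin q)) : mb (fun x => π (f x)) t (π c) = mb f t c := by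
  unfold mb
  congr 1
  funext a b
  unfold zb
  refine SymF_ite _ _ ?_
  simp only [ne_eq, EmbeddingLike.apply_eq_iff_eq]

private theorem SymF_Mb_perm (f : Site D (k + 1) → Fin q) (t : Blk D k) (c : Fin q)
    (π : Equiv.Perm (Fin q)) : Mb (fun x => π (f x)) t (π c) = Mb f t c := by
  unfold Mb
  congr 1
  funext a b
  simp only [EmbeddingLike.apply_eq_iff_eq]

theorem symF_mb (S : Finset (Fin D)) (t : Blk D k) (c c' : Fin q) :
    ∑ f ∈ sys D (k + 1) q S, mb f t c = ∑ f ∈ sys D (k + 1) q S, mb f t c' := by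
  have h3 := SymF_sum (D := D) (k := k + 1) (q := q) S (Equiv.swap c c') (fun f => mb f t c')
  rw [← h3]
  refine sum_congr rfl fun f _ => ?_
  have h4 := SymF_mb_perm f t c (Equiv.swap c c')
  rw [Equiv.swap_apply_left] at h4
  exact h4.symm

theorem symF_Mb (hD : 1 ≤ D) (hq : 1 ≤ q) (S : Finset (Fin D)) (t : Blk D k) (c : Fin q) :
    ∑ f ∈ sys D (k + 1) q S, Mb f t c = ((sys D (k + 1) q S).card : ℝ) / q := by
  classical
  have hconst : ∀ c' : Fin q, ∑ f ∈ sys D (k + 1) q S, Mb f t c' =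
      ∑ f ∈ sys D (k + 1) q S, Mb f t c := by
    intro c'
    have h3 := SymF_sum (D := D) (k := k + 1) (q := q) S (Equiv.swap c' c) (fun f => Mb f t c)
    rw [← h3]
    refine sum_congr rfl fun f _ => ?_
    have h4 := SymF_Mb_perm f t c' (Equiv.swap c' c)
    rw [Equiv.swap_apply_left] at h4
    exact h4.symm
  have hone : ∀ f : Site D (k + 1) → Fin q, ∑ c' : Fin q, Mb f t c' = 1 := by
    intro f
    rw [← card_od hD]
    unfold Mb EB
    rw [← Finset.sum_div, ← Finset.mul_sum]
    congr 2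
    rw [Finset.sum_comm]
    refine sum_congr rfl fun a _ => ?_
    rw [Finset.sum_comm]
    refine sum_congr rfl fun b _ => ?_
    by_cases h : od a b
    · simp [h]
    · simp [h]
  have hsum : ∑ c' : Fin q, ∑ f ∈ sys D (k + 1) q S, Mb f t c' =
      ((sys D (k + 1) q S).card : ℝ) := by
    rw [Finset.sum_comm]
    rw [sum_congr rfl fun f _ => hone f]
    simp
  rw [sum_congr rfl fun c' _ => hconst c'] at hsum
  rw [sum_const, card_univ, Fintype.card_fin, nsmul_eq_mul] at hsum
  have hq0 : (0 : ℝ) < q := by exact_mod_cast hq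
  rw [eq_div_iff hq0.ne', mul_comm]
  exact hsum

end Pool.Agent.LO
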