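import Pool.Agent.Lib_MP_2c424f_fb.LabF
import Pool.Agent.Lib_MP_2c424f_fb.AvF
import Pool.Agent.Lib_MP_2c424f_fb.SymF

/-!
# Order in the free box, block form (piece CONC)

`n = m^D`, `m = 2^k`, `U_c f = ∑_s Mb f (bk s) c`, `V_c f = ∑_s mb f (bk s) c`, `A_c = {f : V_c f ≥ (1 - dl q)(1 - 5/D^2) n}`.
For `f ∉ A_c` outside the exceptional set of `labF` the label `ℓ` is not `1` (`ℓ` true gives `V_c ≥ (1-dl)(n - 5n/D^2)`),
so `U_c f ≤ (dl q + 5/D^2) n` (`Mb_lab0`, `Mb_le_one`).  `∑_f U_c = n NB/q` (`symF_Mb`), so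
`∑_{f ∈ A_c} U_c ≥ n NB (1/q - dl q - 5/D^2 - ε) ≥ 989/1000 n NB/q` with `ε = 1/(2000 q)`, and
`|A_c| (1 - dl q)(1 - 5/D^2) n ≤ ∑_f V_c ≤ n (53/100 + ε') NB` (`symF_mb`, `avF`, `∑_c V_c ≤ q n`), so
`|A_c| ≤ 534/1000 NB`.  Cauchy-Schwarz: `∑_f U_c^2 ≥ (989/1000)^2/(534/1000) n^2 NB/q^2 ≥ 183/100 n^2 NB/q^2`
(`0.9781/0.534 = 1.8317`); sum over `c`.
-/

set_option autoImplicit false

open Finset

namespace Pool.Agent.LO

private theorem mb_le_one_Conc {D k q : ℕ} (hD : 1 ≤ D) (f : Site D (k + 1) → Fin q) (t : Blk D k)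
    (c : Fin q) : mb f t c ≤ 1 := by
  classical
  have h1 : mb f t c ≤ EB fun (_ : Bt D) (_ : Bt D) => (1 : ℝ) := by
    unfold mb
    refine EB_mono fun a b _ => ?_
    unfold zb
    split_ifs <;> norm_num
  exact h1.trans (card_od hD).le

/-- Cauchy-Schwarz for one colour -/
private theorem one_Conc {F : Type} [DecidableEq F] (Om A W : Finset F) (U V : F → ℝ) (n N q ε ε' δ e : ℝ)
    (hn : 0 < n) (hq : 2 ≤ q) (hN : (Om.card : ℝ) = N)
    (hδ : δ = 1 / (100 * q)) (he0 : 0 ≤ e) (he : e ≤ 1 / (2000 * q)) (hε : ε = 1 / (2000 * q))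
    (hε' : ε' = 1 / 10000)
    (hA : A = Om.filter fun f => (1 - δ) * (1 - e) * n ≤ V f)
    (hW : (W.card : ℝ) ≤ ε * N)
    (hUn : ∀ f ∈ Om, U f ≤ n) (hV0 : ∀ f ∈ Om, 0 ≤ V f)
    (hUs : ∀ f ∈ Om, f ∉ A → f ∉ W → U f ≤ (δ + e) * n)
    (hUsum : ∑ f ∈ Om, U f = n * (N / q)) (hVsum : ∑ f ∈ Om, V f ≤ (53 / 100 + ε') * n * N) :
    183 / (100 * q ^ 2) * n ^ 2 * N ≤ ∑ f ∈ Om, U f ^ 2 := by
  have hq0 : 0 < q := by linarith
  have hN0 : 0 ≤ N := by rw [← hN]; positivity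
  have hAO : A ⊆ Om := by rw [hA]; exact Finset.filter_subset _ _
  have hδ0 : 0 ≤ δ := by rw [hδ]; positivity
  have hδ1 : δ ≤ 1 / 200 := by
    rw [hδ]
    apply one_div_le_one_div_of_le (by norm_num)
    linarith
  have he1 : e ≤ 1 / 4000 := by
    refine he.trans ?_
    apply one_div_le_one_div_of_le (by norm_num)
    linarith
  -- size of A
  have hcard : (A.card : ℝ) ≤ 534 / 1000 * N := by
    have h1 : ∑ f ∈ A, ((1 - δ) * (1 - e) * n) ≤ ∑ f ∈ Om, V f := by
      refine le_trans (Finset.sum_le_sum (f := fun _ => (1 - δ) * (1 - e) * n) (g := V) ?_)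
        (Finset.sum_le_sum_of_subset_of_nonneg hAO fun f hf _ => hV0 f hf)
      intro f hf
      rw [hA] at hf
      exact (Finset.mem_filter.1 hf).2
    rw [Finset.sum_const, nsmul_eq_mul] at h1
    have h2 : 99475 / 100000 ≤ (1 - δ) * (1 - e) := by nlinarith
    have h3 : (A.card : ℝ) * (99475 / 100000 * n) ≤ (A.card : ℝ) * ((1 - δ) * (1 - e) * n) := by
      apply mul_le_mul_of_nonneg_left _ (by positivity)
      exact mul_le_mul_of_nonneg_right h2 hn.le
    have h4 : ((A.card : ℝ) * (99475 / 100000)) * n ≤ ((53 / 100 + 1 / 10000) * N) * n := by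
      rw [hε'] at hVsum
      linarith
    have h5 := le_of_mul_le_mul_right h4 hn
    linarith
  -- the sum over A
  have hsum : 989 / 1000 * (n * (N / q)) ≤ ∑ f ∈ A, U f := by
    have h1 : ∑ f ∈ Om \ A, U f ≤ ∑ f ∈ Om, ((δ + e) * n) + ∑ f ∈ W, n := by
      have h2 : ∀ f ∈ Om \ A, U f ≤ (δ + e) * n + (if f ∈ W then n else 0) := by
        intro f hf
        rw [Finset.mem_sdiff] at hf
        split_ifs with hw
        · have h3 := hUn f hf.1
          have h4 : 0 ≤ (δ + e) * n := by positivity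
          linarith
        · have := hUs f hf.1 hf.2 hw
          linarith
      refine (Finset.sum_le_sum h2).trans ?_
      refine (Finset.sum_le_sum_of_subset_of_nonneg (Finset.sdiff_subset) ?_).trans ?_
      · intro f _ _
        have h4 : 0 ≤ (δ + e) * n := by positivity
        split_ifs <;> linarith
      · rw [Finset.sum_add_distrib]
        gcongr
        rw [← Finset.sum_filter, Finset.filter_mem_eq_inter]
        exact Finset.sum_le_sum_of_subset_of_nonneg Finset.inter_subset_right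
          fun f _ _ => hn.le
    have h2 : ∑ f ∈ Om \ A, U f + ∑ f ∈ A, U f = ∑ f ∈ Om, U f := Finset.sum_sdiff hAO
    rw [Finset.sum_const, Finset.sum_const, nsmul_eq_mul, nsmul_eq_mul, hN] at h1
    have h3 : (W.card : ℝ) * n ≤ ε * N * n := mul_le_mul_of_nonneg_right hW hn.le
    have h4 : N * (e * n) ≤ N * (1 / (2000 * q) * n) := by gcongr
    have h5 : N * ((δ + e) * n) = N * (δ * n) + N * (e * n) := by ring
    have h6 : N * (δ * n) + N * (1 / (2000 * q) * n) + ε * N * n = 11 / 1000 * (n * (N / q)) := by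
      rw [hδ, hε]
      field_simp
      ring
    linarith
  -- Cauchy-Schwarz
  have hCS : (∑ f ∈ A, U f) ^ 2 ≤ A.card * ∑ f ∈ A, U f ^ 2 := sq_sum_le_card_mul_sum_sq
  have hAsub : ∑ f ∈ A, U f ^ 2 ≤ ∑ f ∈ Om, U f ^ 2 :=
    Finset.sum_le_sum_of_subset_of_nonneg hAO fun f _ _ => sq_nonneg _
  set S2 := ∑ f ∈ Om, U f ^ 2 with hS2
  have hl0 : 0 ≤ 989 / 1000 * (n * (N / q)) := by positivity
  have h5 : (989 / 1000 * (n * (N / q))) ^ 2 ≤ (534 / 1000 * N) * S2 := by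
    calc (989 / 1000 * (n * (N / q))) ^ 2 ≤ (∑ f ∈ A, U f) ^ 2 := pow_le_pow_left₀ hl0 hsum 2
      _ ≤ A.card * ∑ f ∈ A, U f ^ 2 := hCS
      _ ≤ (534 / 1000 * N) * S2 :=
          mul_le_mul hcard hAsub (Finset.sum_nonneg fun f _ => sq_nonneg _) (by positivity)
  have hS20 : 0 ≤ S2 := Finset.sum_nonneg fun f _ => sq_nonneg _
  rcases hN0.eq_or_lt with hz | hp
  · rw [← hz]
    simpa using hS20
  · have h6 : 978121 / 1000000 * (n ^ 2 * (N / q ^ 2)) ≤ 534 / 1000 * S2 := by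
      have h7 : (989 / 1000 * (n * (N / q))) ^ 2 = N * (978121 / 1000000 * (n ^ 2 * (N / q ^ 2))) := by
        field_simp
        ring
      have h8 : 534 / 1000 * N * S2 = N * (534 / 1000 * S2) := by ring
      rw [h7, h8] at h5
      exact le_of_mul_le_mul_left h5 hp
    have h9 : 183 / (100 * q ^ 2) * n ^ 2 * N = 183 / 100 * (n ^ 2 * (N / q ^ 2)) := by
      field_simp
    rw [h9]
    have h11 : 0 ≤ n ^ 2 * (N / q ^ 2) := by positivity
    nlinarith

private theorem mb_nonneg_Conc {D k q : ℕ} (f : Site D (k + 1) → Fin q) (t : Blk D k) (c : Fin q) :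
    0 ≤ mb f t c := by
  classical
  have h1 : EB (fun (_ : Bt D) (_ : Bt D) => (0 : ℝ)) ≤ mb f t c := by
    unfold mb
    refine EB_mono fun a b _ => ?_
    unfold zb
    split_ifs <;> norm_num
  refine le_trans ?_ h1
  unfold EB
  simp

private theorem card_Gr_Conc (D k : ℕ) : (Fintype.card (Gr D (2 ^ k)) : ℝ) = ((2 : ℝ) ^ k) ^ D := by
  simp [Fintype.card_pi]

/-- the number of blocks in the exceptional set as a sum -/
private theorem sumB_Conc {D k : ℕ} (P : Gr D (2 ^ k) → Prop) [DecidablePred P] :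
    ∑ s : Gr D (2 ^ k), (if P s then (1 : ℝ) else 0) = ((univ.filter P).card : ℝ) := by
  rw [Finset.card_filter, Nat.cast_sum]
  apply Finset.sum_congr rfl
  intro s _
  split_ifs <;> simp

private theorem e_Conc {D q : ℕ} (hD : 3 ≤ D) (h : Adm4 D q) : 5 / (D : ℝ) ^ 2 ≤ 1 / (2000 * (q : ℝ)) := by
  have hD' : (3 : ℝ) ≤ D := by exact_mod_cast hD
  have hq : (2 : ℝ) ≤ q := by exact_mod_cast h.1
  have hlog : 1 ≤ Real.log D := by
    rw [Real.le_log_iff_exp_le (by linarith)]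
    have := Real.exp_one_lt_d9
    linarith
  have h1 : (q : ℝ) * 4000 ≤ D := by
    refine le_trans ?_ h.2.2
    have : (4000 : ℝ) ≤ 4000 * Real.log D := by linarith
    exact mul_le_mul_of_nonneg_left this (by linarith)
  rw [div_le_div_iff₀ (by positivity) (by positivity)]
  nlinarith

open scoped Classical in
theorem conc : ∃ D₀ : ℕ, ∀ D : ℕ, D₀ ≤ D → ∀ q : ℕ, Adm4 D q → ∃ k₀ : ℕ, ∀ k : ℕ, k₀ ≤ k →
    183 / (100 * (q : ℝ)) * (((2 : ℝ) ^ k) ^ D) ^ 2 * NB D (k + 2) q ≤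
      ∑ f ∈ sys D (k + 2) q univ, ∑ c, (∑ s : Gr D (2 ^ k), Mb f (bk s) c) ^ 2 := by
  obtain ⟨D1, hD1⟩ := labF
  obtain ⟨D2, hD2⟩ := avF
  refine ⟨max (max D1 D2) 3, ?_⟩
  intro D hD q hq
  have e1 : D1 ≤ D := le_trans (le_trans (le_max_left _ _) (le_max_left _ _)) hD
  have e2 : D2 ≤ D := le_trans (le_trans (le_max_right _ _) (le_max_left _ _)) hD
  have e3 : 3 ≤ D := le_trans (le_max_right _ _) hD
  have hD0 : 1 ≤ D := by omega
  have hq2 : (2 : ℝ) ≤ q := by exact_mod_cast hq.1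
  have hq0 : (0 : ℝ) < q := by linarith
  have hq1 : 1 ≤ q := le_trans (by norm_num) hq.1
  obtain ⟨k1, hk1⟩ := hD1 D e1 q hq (1 / (2000 * q)) (by positivity)
  obtain ⟨k2, hk2⟩ := hD2 D e2 q hq (1 / 10000) (by norm_num)
  refine ⟨max k1 k2, ?_⟩
  intro k hk
  have hlab := hk1 k (le_trans (le_max_left _ _) hk)
  have hav := hk2 k (le_trans (le_max_right _ _) hk)
  have hn : 0 < ((2 : ℝ) ^ k) ^ D := by positivity
  have hcard := card_Gr_Conc D k
  have he := e_Conc e3 hq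
  have hprp : ∀ f ∈ sys D (k + 2) q univ, Prp f := by
    intro f hf
    unfold sys at hf
    have := (Finset.mem_filter.1 hf).1
    simpa [prps] using this
  have hconst : ∀ x : ℝ, ∑ _s : Gr D (2 ^ k), x = ((2 : ℝ) ^ k) ^ D * x := by
    intro x
    rw [Finset.sum_const, nsmul_eq_mul, Finset.card_univ, hcard]
  have hVtot : ∀ c : Fin q, ∑ f ∈ sys D (k + 2) q univ, ∑ s : Gr D (2 ^ k), mb f (bk s) c ≤
      (53 / 100 + 1 / 10000) * ((2 : ℝ) ^ k) ^ D * NB D (k + 2) q := by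
    intro c
    have h1 : ∀ c' : Fin q, ∑ f ∈ sys D (k + 2) q univ, ∑ s : Gr D (2 ^ k), mb f (bk s) c' =
        ∑ f ∈ sys D (k + 2) q univ, ∑ s : Gr D (2 ^ k), mb f (bk s) c := by
      intro c'
      rw [Finset.sum_comm, Finset.sum_comm (s := sys D (k + 2) q univ)]
      exact Finset.sum_congr rfl fun s _ => symF_mb univ (bk s) c' c
    have h2 : (q : ℝ) * ∑ f ∈ sys D (k + 2) q univ, ∑ s : Gr D (2 ^ k), mb f (bk s) c =
        ∑ f ∈ sys D (k + 2) q univ, ∑ s : Gr D (2 ^ k), ∑ c', mb f (bk s) c' := by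
      have h3 : ∑ c' : Fin q, ∑ f ∈ sys D (k + 2) q univ, ∑ s : Gr D (2 ^ k), mb f (bk s) c' =
          (q : ℝ) * ∑ f ∈ sys D (k + 2) q univ, ∑ s : Gr D (2 ^ k), mb f (bk s) c := by
        rw [Finset.sum_congr rfl fun c' _ => h1 c', Finset.sum_const, nsmul_eq_mul,
          Finset.card_univ, Fintype.card_fin]
      rw [← h3, Finset.sum_comm]
      refine Finset.sum_congr rfl fun f _ => ?_
      rw [Finset.sum_comm]
    have h4 : ∑ f ∈ sys D (k + 2) q univ, ∑ s : Gr D (2 ^ k), ∑ c', mb f (bk s) c' ≤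
        ∑ f ∈ sys D (k + 2) q univ, (53 / 100 * (q : ℝ) * ((2 : ℝ) ^ k) ^ D +
          (if 53 / 100 * (q : ℝ) * ((2 : ℝ) ^ k) ^ D ≤ ∑ s : Gr D (2 ^ k), ∑ c', mb f (bk s) c'
            then (q : ℝ) * ((2 : ℝ) ^ k) ^ D else 0)) := by
      refine Finset.sum_le_sum fun f _ => ?_
      split_ifs with h
      · have h5 : ∑ s : Gr D (2 ^ k), ∑ c', mb f (bk s) c' ≤ ∑ _s : Gr D (2 ^ k), (q : ℝ) := by
          refine Finset.sum_le_sum fun s _ => ?_
          refine (Finset.sum_le_sum fun c' _ => mb_le_one_Conc hD0 f (bk s) c').trans ?_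
          simp
        rw [hconst] at h5
        have h6 : 0 ≤ 53 / 100 * (q : ℝ) * ((2 : ℝ) ^ k) ^ D := by positivity
        linarith
      · linarith [not_le.1 h]
    rw [Finset.sum_add_distrib, Finset.sum_const, nsmul_eq_mul, ← Finset.sum_filter,
      Finset.sum_const, nsmul_eq_mul] at h4
    have h7 : (((sys D (k + 2) q univ).filter fun f =>
        53 / 100 * (q : ℝ) * ((2 : ℝ) ^ k) ^ D ≤ ∑ s : Gr D (2 ^ k), ∑ c, mb f (bk s) c).card : ℝ) *
        ((q : ℝ) * ((2 : ℝ) ^ k) ^ D) ≤ 1 / 10000 * NB D (k + 2) q * ((q : ℝ) * ((2 : ℝ) ^ k) ^ D) :=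
      mul_le_mul_of_nonneg_right hav (by positivity)
    have h8 : (q : ℝ) * ∑ f ∈ sys D (k + 2) q univ, ∑ s : Gr D (2 ^ k), mb f (bk s) c ≤
        q * ((53 / 100 + 1 / 10000) * ((2 : ℝ) ^ k) ^ D * NB D (k + 2) q) := by
      rw [h2]
      refine h4.trans ?_
      have h9 : ((sys D (k + 2) q univ).card : ℝ) = NB D (k + 2) q := rfl
      rw [h9]
      refine (add_le_add_right h7 _).trans (le_of_eq ?_)
      ring
    exact le_of_mul_le_mul_left h8 hq0
  have key : ∀ c : Fin q, 183 / (100 * (q : ℝ) ^ 2) * (((2 : ℝ) ^ k) ^ D) ^ 2 * NB D (k + 2) q ≤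
      ∑ f ∈ sys D (k + 2) q univ, (∑ s : Gr D (2 ^ k), Mb f (bk s) c) ^ 2 := by
    intro c
    refine one_Conc (sys D (k + 2) q univ) _ _
      (fun f => ∑ s : Gr D (2 ^ k), Mb f (bk s) c) (fun f => ∑ s : Gr D (2 ^ k), mb f (bk s) c)
      (((2 : ℝ) ^ k) ^ D) (NB D (k + 2) q) q (1 / (2000 * q)) (1 / 10000) (dl q) (5 / (D : ℝ) ^ 2)
      hn hq2 rfl rfl (by positivity) he rfl rfl rfl (hlab c) ?_ ?_ ?_ ?_ (hVtot c)
    · intro f _
      refine (Finset.sum_le_sum fun s _ => Mb_le_one hD0 f (bk s) c).trans ?_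
      rw [hconst, mul_one]
    · intro f _
      exact Finset.sum_nonneg fun s _ => mb_nonneg_Conc f (bk s) c
    · intro f hf hfA hfW
      have h1 : ∃ ℓ : Prop,
          ((univ.filter fun s : Gr D (2 ^ k) => bad c (bk s) f ∨ ¬ (lab1 f (bk s) c ↔ ℓ)).card : ℝ) ≤
          5 * ((2 : ℝ) ^ k) ^ D / (D : ℝ) ^ 2 := by
        by_contra h
        exact hfW (Finset.mem_filter.2 ⟨hf, h⟩)
      obtain ⟨ℓ, hℓ⟩ := h1
      have hdl0 : 0 ≤ dl q := by unfold dl; positivity
      have hdl1 : dl q ≤ 1 := by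
        unfold dl
        rw [div_le_one (by positivity)]
        linarith
      by_cases hl : ℓ
      · exfalso
        apply hfA
        rw [Finset.mem_filter]
        refine ⟨hf, ?_⟩
        have h2 : ∑ s : Gr D (2 ^ k), ((1 - dl q) - (1 - dl q) *
            (if bad c (bk s) f ∨ ¬ (lab1 f (bk s) c ↔ ℓ) then (1 : ℝ) else 0)) ≤
            ∑ s : Gr D (2 ^ k), mb f (bk s) c := by
          refine Finset.sum_le_sum fun s _ => ?_
          split_ifs with h
          · have := mb_nonneg_Conc f (bk s) c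
            linarith
          · rw [not_or, not_not] at h
            have h3 : lab1 f (bk s) c := h.2.2 hl
            unfold lab1 at h3
            linarith
        rw [Finset.sum_sub_distrib, ← Finset.mul_sum, sumB_Conc, hconst] at h2
        have h4 := mul_le_mul_of_nonneg_left hℓ (by linarith : 0 ≤ 1 - dl q)
        refine le_trans (le_of_eq ?_) (le_trans (sub_le_sub_left h4 _) h2)
        ring
      · have h2 : ∑ s : Gr D (2 ^ k), Mb f (bk s) c ≤ ∑ s : Gr D (2 ^ k), (dl q +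
            (if bad c (bk s) f ∨ ¬ (lab1 f (bk s) c ↔ ℓ) then (1 : ℝ) else 0)) := by
          refine Finset.sum_le_sum fun s _ => ?_
          split_ifs with h
          · have := Mb_le_one hD0 f (bk s) c
            linarith
          · rw [not_or, not_not] at h
            have h3 : ¬ lab1 f (bk s) c := fun h3 => hl (h.2.1 h3)
            have := Mb_lab0 hD0 (hprp f hf) (bk s) c h3 h.1
            linarith
        rw [Finset.sum_add_distrib, sumB_Conc, hconst] at h2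
        refine h2.trans ((add_le_add_right hℓ _).trans (le_of_eq ?_))
        ring
    · rw [Finset.sum_comm, Finset.sum_congr rfl fun s _ => symF_Mb hD0 hq1 univ (bk s) c, hconst]
      rfl
  have hfin : ∑ _c : Fin q, (183 / (100 * (q : ℝ) ^ 2) * (((2 : ℝ) ^ k) ^ D) ^ 2 * NB D (k + 2) q) =
      183 / (100 * (q : ℝ)) * (((2 : ℝ) ^ k) ^ D) ^ 2 * NB D (k + 2) q := by
    rw [Finset.sum_const, nsmul_eq_mul, Finset.card_univ, Fintype.card_fin]
    field_simp
  rw [← hfin, Finset.sum_comm]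
  exact Finset.sum_le_sum fun c _ => key c

end Pool.Agent.LO
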