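import Pool.Agent.Lib_MP_2c424f_fb.Fold

/-!
# Doubling, one step (piece DBLA)

`AU E U` = the colourings which are symmetric in the directions outside `U` and whose `2^d` folded versions all
satisfy `E`.  For `i ∉ U`: if `g₁, g₂ ∈ AU E U` agree on the planes `x i = 0`, `x i = 2^k` then the gluing
`x ↦ if (x i).val ≤ 2^k then g₁ x else g₂ x` is in `AU E (insert i U)`; it determines `g₁` and `g₂` (both are
symmetric in the direction `i`).  So `∑_h a_h^2 ≤ |AU E (insert i U)|`, `a_h` = number of the elements of `AU E U`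
with restriction `h` to the planes; Cauchy-Schwarz.
For `g` the gluing: `g ∘ fld β = g₁ ∘ fld β` if `β i = true` and `g₂ ∘ fld β` if `β i = false`.
-/

set_option autoImplicit false

open Finset

namespace Pool.Agent.LO

variable {d k q : ℕ}

open scoped Classical in
/-- see the header -/
noncomputable def AU (E : (Site d (k + 1) → Fin q) → Prop) (U : Finset (Fin d)) :
    Finset (Site d (k + 1) → Fin q) :=
  (sys d (k + 1) q Uᶜ).filter fun f => ∀ β : Bt d, E (fun x => f (fld β x))

/-- the sites of the two planes -/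
abbrev Pls (d k : ℕ) (i : Fin d) : Type := {x : Site d (k + 1) // x i = 0 ∨ x i = ((2 ^ k : ℕ) : ZMod (2 ^ (k + 1)))}

/-- restriction to the planes -/
def rpl (i : Fin d) (f : Site d (k + 1) → Fin q) : Pls d k i → Fin q := fun x => f x.1

/-! ### The halves -/

private def Dbl_L (i : Fin d) (x : Site d (k + 1)) : Prop := (x i).val ≤ 2 ^ k
private def Dbl_R (i : Fin d) (x : Site d (k + 1)) : Prop := (x i).val = 0 ∨ 2 ^ k ≤ (x i).val

private theorem Dbl_or (i : Fin d) (x : Site d (k + 1)) : Dbl_L i x ∨ Dbl_R i x := by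
  unfold Dbl_L Dbl_R
  omega

private theorem Dbl_step (hk : 1 ≤ k) (i : Fin d) (x : Site d (k + 1)) (σ : Stp d) :
    (Dbl_L i x ∧ Dbl_L i (x + sv σ)) ∨ (Dbl_R i x ∧ Dbl_R i (x + sv σ)) := by
  have h := step_half hk i 0 x σ
  have e : (((2 * (0 : ZMod (2 ^ k)).val : ℕ)) : ZMod (2 ^ (k + 1))) = 0 := by
    rw [ZMod.val_zero, mul_zero, Nat.cast_zero]
  rw [e, sub_zero, sub_zero] at h
  exact h

private theorem Dbl_th (i : Fin d) (x : Site d (k + 1)) :
    (th i x i).val = if x i = 0 then 0 else 2 ^ (k + 1) - (x i).val := by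
  have e : th i x i = -(x i) := by
    unfold th
    rw [Function.update_self]
  rw [e, ZMod.neg_val]

private theorem Dbl_L_th (i : Fin d) (x : Site d (k + 1)) (h : Dbl_R i x) : Dbl_L i (th i x) := by
  unfold Dbl_L
  unfold Dbl_R at h
  rw [Dbl_th]
  have h1 := ZMod.val_lt (x i)
  have h2 : 2 ^ (k + 1) = 2 * 2 ^ k := pow_succ' 2 k
  split_ifs with h0
  · exact Nat.zero_le _
  · have h3 : (x i).val ≠ 0 := fun h4 => h0 ((ZMod.val_eq_zero _).1 h4)
    omega

private theorem Dbl_R_th (i : Fin d) (x : Site d (k + 1)) (h : Dbl_L i x) : Dbl_R i (th i x) := by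
  unfold Dbl_R
  unfold Dbl_L at h
  rw [Dbl_th]
  have h1 := ZMod.val_lt (x i)
  have h2 : 2 ^ (k + 1) = 2 * 2 ^ k := pow_succ' 2 k
  split_ifs with h0
  · exact Or.inl rfl
  · right
    omega

private theorem Dbl_planes (i : Fin d) (x : Site d (k + 1)) (h : Dbl_L i x) (h' : Dbl_R i x) :
    x i = 0 ∨ x i = ((2 ^ k : ℕ) : ZMod (2 ^ (k + 1))) := by
  unfold Dbl_L at h
  unfold Dbl_R at h'
  rcases h' with h' | h'
  · exact Or.inl ((ZMod.val_eq_zero _).1 h')
  · right
    have h3 : (x i).val = 2 ^ k := le_antisymm h h'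
    rw [← h3, ZMod.natCast_zmod_val]

/-! ### Gluing -/

open scoped Classical in
private noncomputable def Dbl_G (i : Fin d) (f g : Site d (k + 1) → Fin q) :
    Site d (k + 1) → Fin q := fun x => if Dbl_L i x then f x else g x

private theorem Dbl_G_L {i : Fin d} {f g : Site d (k + 1) → Fin q} {x : Site d (k + 1)}
    (h : Dbl_L i x) : Dbl_G i f g x = f x := if_pos h

private theorem Dbl_G_R {i : Fin d} {f g : Site d (k + 1) → Fin q} (hfg : rpl i f = rpl i g)
    {x : Site d (k + 1)} (h : Dbl_R i x) : Dbl_G i f g x = g x := by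
  by_cases hL : Dbl_L i x
  · rw [Dbl_G_L hL]
    exact congrFun hfg ⟨x, Dbl_planes i x hL h⟩
  · exact if_neg hL

private theorem Dbl_G_prp (hk : 1 ≤ k) {i : Fin d} {f g : Site d (k + 1) → Fin q} (hf : Prp f)
    (hg : Prp g) (hfg : rpl i f = rpl i g) : Prp (Dbl_G i f g) := by
  intro x σ
  rcases Dbl_step hk i x σ with ⟨h, h'⟩ | ⟨h, h'⟩
  · rw [Dbl_G_L h, Dbl_G_L h']
    exact hf x σ
  · rw [Dbl_G_R hfg h, Dbl_G_R hfg h']
    exact hg x σ

private theorem Dbl_th_ne {i j : Fin d} (hij : j ≠ i) (x : Site d (k + 1)) :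
    th j x i = x i := by
  unfold th
  rw [Function.update_of_ne hij.symm]

private theorem Dbl_G_th {i j : Fin d} (hij : j ≠ i) {f g : Site d (k + 1) → Fin q}
    (hf : ∀ x, f (th j x) = f x) (hg : ∀ x, g (th j x) = g x) (x : Site d (k + 1)) :
    Dbl_G i f g (th j x) = Dbl_G i f g x := by
  have h1 : Dbl_L i (th j x) ↔ Dbl_L i x := by
    unfold Dbl_L
    rw [Dbl_th_ne hij]
  by_cases h : Dbl_L i x
  · rw [Dbl_G_L h, Dbl_G_L (h1.2 h), hf]
  · have e1 : Dbl_G i f g x = g x := if_neg h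
    have e2 : Dbl_G i f g (th j x) = g (th j x) := if_neg fun h2 => h (h1.1 h2)
    rw [e1, e2, hg]

/-- the gluing determines the two colourings -/
private theorem Dbl_G_inj {i : Fin d} {f g f' g' : Site d (k + 1) → Fin q}
    (hf : ∀ x, f (th i x) = f x) (hg : ∀ x, g (th i x) = g x)
    (hf' : ∀ x, f' (th i x) = f' x) (hg' : ∀ x, g' (th i x) = g' x)
    (hfg : rpl i f = rpl i g) (hfg' : rpl i f' = rpl i g')
    (h : Dbl_G i f g = Dbl_G i f' g') : f = f' ∧ g = g' := by
  constructor
  · funext x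
    rcases Dbl_or i x with hx | hx
    · have := congrFun h x
      rw [Dbl_G_L hx, Dbl_G_L hx] at this
      exact this
    · have h1 := Dbl_L_th i x hx
      have := congrFun h (th i x)
      rw [Dbl_G_L h1, Dbl_G_L h1, hf, hf'] at this
      exact this
  · funext x
    rcases Dbl_or i x with hx | hx
    · have h1 := Dbl_R_th i x hx
      have := congrFun h (th i x)
      rw [Dbl_G_R hfg h1, Dbl_G_R hfg' h1, hg, hg'] at this
      exact this
    · have := congrFun h x
      rw [Dbl_G_R hfg hx, Dbl_G_R hfg' hx] at this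
      exact this

private theorem Dbl_G_fld {i : Fin d} {f g : Site d (k + 1) → Fin q} (hfg : rpl i f = rpl i g)
    (β : Bt d) : (fun x => Dbl_G i f g (fld β x)) =
      if β i = true then fun x => f (fld β x) else fun x => g (fld β x) := by
  have e : ∀ x : Site d (k + 1), fld β x i = ph (β i) (x i) := fun x => rfl
  split_ifs with h
  · funext x
    apply Dbl_G_L
    unfold Dbl_L
    rw [e, h]
    exact ph_true_le _
  · funext x
    apply Dbl_G_R hfg
    have h' : β i = false := by
      cases hb : β i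
      · rfl
      · exact absurd hb h
    unfold Dbl_R
    rw [e, h', ph_false, ZMod.neg_val]
    have h1 := ph_true_le (x i)
    have h2 : 2 ^ (k + 1) = 2 * 2 ^ k := pow_succ' 2 k
    split_ifs with h0
    · exact Or.inl rfl
    · right
      omega

open scoped Classical in
private theorem Dbl_mem {E : (Site d (k + 1) → Fin q) → Prop} {U : Finset (Fin d)}
    {f : Site d (k + 1) → Fin q} : f ∈ AU E U ↔ Prp f ∧ (∀ j, j ∉ U → ∀ x, f (th j x) = f x) ∧
      ∀ β : Bt d, E (fun x => f (fld β x)) := by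
  unfold AU sys prps
  rw [mem_filter, mem_filter, mem_filter]
  constructor
  · rintro ⟨⟨⟨_, h1⟩, h2⟩, h3⟩
    exact ⟨h1, fun j hj => h2 j (mem_compl.2 hj), h3⟩
  · rintro ⟨h1, h2, h3⟩
    exact ⟨⟨⟨mem_univ _, h1⟩, fun j hj => h2 j (mem_compl.1 hj)⟩, h3⟩

open scoped Classical in
private theorem Dbl_glue (hk : 1 ≤ k) (E : (Site d (k + 1) → Fin q) → Prop) (U : Finset (Fin d))
    (i : Fin d) {f g : Site d (k + 1) → Fin q} (hf : f ∈ AU E U) (hg : g ∈ AU E U)
    (hfg : rpl i f = rpl i g) : Dbl_G i f g ∈ AU E (insert i U) := by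
  rw [Dbl_mem] at hf hg ⊢
  refine ⟨Dbl_G_prp hk hf.1 hg.1 hfg, fun j hj => ?_, fun β => ?_⟩
  · have h1 : j ≠ i := fun h => hj (by rw [h]; exact mem_insert_self _ _)
    have h2 : j ∉ U := fun h => hj (mem_insert_of_mem h)
    exact Dbl_G_th h1 (hf.2.1 j h2) (hg.2.1 j h2)
  · rw [Dbl_G_fld hfg]
    split_ifs
    · exact hf.2.2 β
    · exact hg.2.2 β

open scoped Classical in
theorem dbl_step (hk : 1 ≤ k) (E : (Site d (k + 1) → Fin q) → Prop) (U : Finset (Fin d)) (i : Fin d)
    (hi : i ∉ U) :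
    (AU E U).card ^ 2 ≤ ((AU E U).image (rpl i)).card * (AU E (insert i U)).card := by
  have h1 : (AU E U).card = ∑ h ∈ (AU E U).image (rpl i),
      ((AU E U).filter fun f => rpl i f = h).card :=
    Finset.card_eq_sum_card_image _ _
  have h2 : (((AU E U) ×ˢ (AU E U)).filter fun p => rpl i p.1 = rpl i p.2).card =
      ∑ h ∈ (AU E U).image (rpl i), ((AU E U).filter fun f => rpl i f = h).card ^ 2 := by
    rw [Finset.card_eq_sum_card_fiberwise (f := fun p => rpl i p.1)
      (t := (AU E U).image (rpl i))]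
    · apply Finset.sum_congr rfl
      intro h _
      rw [sq, ← Finset.card_product]
      congr 1
      ext p
      simp only [mem_filter, mem_product]
      constructor
      · rintro ⟨⟨⟨h1, h2⟩, h3⟩, h4⟩
        exact ⟨⟨h1, h4⟩, ⟨h2, by rw [← h3]; exact h4⟩⟩
      · rintro ⟨⟨h1, h4⟩, ⟨h2, h5⟩⟩
        exact ⟨⟨⟨h1, h2⟩, by rw [h4, h5]⟩, h4⟩
    · intro p hp
      rw [mem_coe, mem_filter, mem_product] at hp
      rw [mem_coe]
      exact mem_image_of_mem _ hp.1.1
  have h3 : (((AU E U) ×ˢ (AU E U)).filter fun p => rpl i p.1 = rpl i p.2).card ≤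
      (AU E (insert i U)).card := by
    apply Finset.card_le_card_of_injOn (fun p => Dbl_G i p.1 p.2)
    · intro p hp
      rw [mem_coe, mem_filter, mem_product] at hp
      rw [mem_coe]
      exact Dbl_glue hk E U i hp.1.1 hp.1.2 hp.2
    · intro p hp p' hp' h
      rw [mem_coe, mem_filter, mem_product] at hp hp'
      have a1 := (Dbl_mem.1 hp.1.1).2.1 i hi
      have a2 := (Dbl_mem.1 hp.1.2).2.1 i hi
      have a3 := (Dbl_mem.1 hp'.1.1).2.1 i hi
      have a4 := (Dbl_mem.1 hp'.1.2).2.1 i hi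
      obtain ⟨b1, b2⟩ := Dbl_G_inj a1 a2 a3 a4 hp.2 hp'.2 h
      exact Prod.ext b1 b2
  calc (AU E U).card ^ 2 = (∑ h ∈ (AU E U).image (rpl i),
        ((AU E U).filter fun f => rpl i f = h).card) ^ 2 := by rw [← h1]
    _ ≤ ((AU E U).image (rpl i)).card * ∑ h ∈ (AU E U).image (rpl i),
        ((AU E U).filter fun f => rpl i f = h).card ^ 2 := sq_sum_le_card_mul_sum_sq
    _ ≤ _ := by
        rw [← h2]
        exact Nat.mul_le_mul_left _ h3

open scoped Classical in
theorem AU_empty (E : (Site d (k + 1) → Fin q) → Prop) :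
    AU E ∅ = (sys d (k + 1) q univ).filter E := by
  unfold AU
  rw [compl_empty]
  apply Finset.filter_congr
  intro f hf
  have h : ∀ β : Bt d, (fun x => f (fld β x)) = f := fun β => funext fun x => sys_fld_true hf β x
  constructor
  · intro h1
    have := h1 (fun _ => true)
    rwa [h] at this
  · intro h1 β
    rw [h]
    exact h1

open scoped Classical in
theorem AU_univ (E : (Site d (k + 1) → Fin q) → Prop) :
    AU E univ = (prps d (k + 1) q).filter fun f => ∀ β : Bt d, E (fun x => f (fld β x)) := by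
  unfold AU
  rw [compl_univ, sys_empty]

open scoped Classical in
theorem AU_true (U : Finset (Fin d)) :
    AU (fun _ : Site d (k + 1) → Fin q => True) U = sys d (k + 1) q Uᶜ := by
  ext f
  rw [Dbl_mem]
  unfold sys prps
  rw [mem_filter, mem_filter]
  constructor
  · rintro ⟨h1, h2, _⟩
    exact ⟨⟨mem_univ _, h1⟩, fun j hj => h2 j (mem_compl.1 hj)⟩
  · rintro ⟨⟨_, h1⟩, h2⟩
    exact ⟨h1, fun j hj => h2 j (mem_compl.2 hj), fun _ => trivial⟩

end Pool.Agent.LO
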