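import Pool.Agent.Lib_MP_2c424f_fb.Dbl

/-!
# Doubling, the planes (piece DBLB)

`rpl_card`: there are `2 (2^(k+1))^(d-1)` sites on the two planes (`k ≥ 0`, `0 ≠ 2^k` in `ZMod (2^(k+1))`).
`rpl_sys`: in dimension `d + 1` the restriction of `f ∈ sys S` to each plane `x i = a` is, read through
`Fin.insertNth i a`, an element of `sys d (k+1) q S'`, `S' = {j | i.succAbove j ∈ S}`; the pair of the two
restrictions determines the restriction to the planes.
-/

set_option autoImplicit false

open Finset

namespace Pool.Agent.LO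

variable {d k q : ℕ}

private theorem dblB_card {d : ℕ} (k : ℕ) (i : Fin (d + 1)) :
    Fintype.card (Pls (d + 1) k i) ≤ 2 * (2 ^ (k + 1)) ^ d := by
  classical
  let F : Pls (d + 1) k i → Bool × (Fin d → ZMod (2 ^ (k + 1))) := fun x =>
    (decide (x.1 i = 0), fun j => x.1 (i.succAbove j))
  have hF : Function.Injective F := by
    rintro ⟨x, hx⟩ ⟨y, hy⟩ h
    have h1 : decide (x i = 0) = decide (y i = 0) := congrArg Prod.fst h
    have h2 : (fun j => x (i.succAbove j)) = fun j => y (i.succAbove j) := congrArg Prod.snd h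
    apply Subtype.ext
    funext j
    change x j = y j
    rcases Fin.eq_self_or_eq_succAbove i j with h3 | ⟨l, h3⟩
    · subst h3
      by_cases h4 : x j = 0
      · have h5 : y j = 0 := by
          rw [decide_eq_true h4] at h1
          exact of_decide_eq_true h1.symm
        rw [h4, h5]
      · have h5 : ¬ y j = 0 := by
          intro h6
          rw [decide_eq_true h6] at h1
          exact h4 (of_decide_eq_true h1)
        have h6 := hx.resolve_left h4
        have h7 := hy.resolve_left h5
        rw [h6, h7]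
    · subst h3
      exact congrFun h2 l
  have h1 := Fintype.card_le_of_injective F hF
  have h2 : Fintype.card (Bool × (Fin d → ZMod (2 ^ (k + 1)))) = 2 * (2 ^ (k + 1)) ^ d := by
    rw [Fintype.card_prod, Fintype.card_bool, Fintype.card_fun, ZMod.card, Fintype.card_fin]
  rw [h2] at h1
  exact h1

private theorem dblB_add {d : ℕ} {R : Type*} [AddCommMonoid R] (i : Fin (d + 1)) (a : R)
    (y : Fin d → R) (j : Fin d) (v : R) :
    i.insertNth (α := fun _ => R) a (y + Pi.single j v) =
      i.insertNth (α := fun _ => R) a y + Pi.single (i.succAbove j) v := by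
  funext l
  rcases Fin.eq_self_or_eq_succAbove i l with h3 | ⟨m, h3⟩
  · subst h3
    rw [Pi.add_apply, Fin.insertNth_apply_same, Fin.insertNth_apply_same,
      Pi.single_eq_of_ne (Fin.succAbove_ne l j).symm, add_zero]
  · subst h3
    rw [Pi.add_apply, Fin.insertNth_apply_succAbove, Fin.insertNth_apply_succAbove, Pi.add_apply]
    by_cases h4 : m = j
    · subst h4
      rw [Pi.single_eq_same, Pi.single_eq_same]
    · rw [Pi.single_eq_of_ne h4,
        Pi.single_eq_of_ne (fun h => h4 (Fin.succAbove_right_injective h))]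

private theorem dblB_upd {d : ℕ} {R : Type*} (i : Fin (d + 1)) (a : R)
    (y : Fin d → R) (j : Fin d) (v : R) :
    i.insertNth (α := fun _ => R) a (Function.update y j v) =
      Function.update (i.insertNth (α := fun _ => R) a y) (i.succAbove j) v := by
  funext l
  rcases Fin.eq_self_or_eq_succAbove i l with h3 | ⟨m, h3⟩
  · subst h3
    rw [Fin.insertNth_apply_same, Function.update_of_ne (Fin.succAbove_ne l j).symm,
      Fin.insertNth_apply_same]
  · subst h3
    rw [Fin.insertNth_apply_succAbove]
    by_cases h4 : m = j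
    · subst h4
      rw [Function.update_self, Function.update_self]
    · rw [Function.update_of_ne h4,
        Function.update_of_ne (fun h => h4 (Fin.succAbove_right_injective h)),
        Fin.insertNth_apply_succAbove]

open scoped Classical in
private theorem dblB_mem {i : Fin (d + 1)} {S : Finset (Fin (d + 1))}
    {f : Site (d + 1) (k + 1) → Fin q} (hf : f ∈ sys (d + 1) (k + 1) q S)
    (a : ZMod (2 ^ (k + 1))) :
    (fun y : Site d (k + 1) => f (i.insertNth (α := fun _ => ZMod (2 ^ (k + 1))) a y)) ∈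
      sys d (k + 1) q (univ.filter fun j => i.succAbove j ∈ S) := by
  unfold sys at hf ⊢
  rw [Finset.mem_filter] at hf ⊢
  obtain ⟨h1, h2⟩ := hf
  constructor
  · unfold prps at h1 ⊢
    rw [Finset.mem_filter] at h1 ⊢
    refine ⟨Finset.mem_univ _, fun y σ => ?_⟩
    have h3 := h1.2 (i.insertNth (α := fun _ => ZMod (2 ^ (k + 1))) a y) (i.succAbove σ.1, σ.2)
    have h4 : i.insertNth (α := fun _ => ZMod (2 ^ (k + 1))) a (y + sv σ) =
        i.insertNth (α := fun _ => ZMod (2 ^ (k + 1))) a y + sv (i.succAbove σ.1, σ.2) :=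
      dblB_add i a y σ.1 _
    change f (i.insertNth (α := fun _ => ZMod (2 ^ (k + 1))) a (y + sv σ)) ≠ _
    rw [h4]
    exact h3
  · intro j hj y
    have hj' : i.succAbove j ∈ S := (Finset.mem_filter.1 hj).2
    have h3 := h2 _ hj' (i.insertNth (α := fun _ => ZMod (2 ^ (k + 1))) a y)
    have h4 : i.insertNth (α := fun _ => ZMod (2 ^ (k + 1))) a (th j y) =
        th (i.succAbove j) (i.insertNth (α := fun _ => ZMod (2 ^ (k + 1))) a y) := by
      unfold th
      rw [dblB_upd, Fin.insertNth_apply_succAbove]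
    change f (i.insertNth (α := fun _ => ZMod (2 ^ (k + 1))) a (th j y)) = _
    rw [h4]
    exact h3

open scoped Classical in
theorem rpl_card (hd : 1 ≤ d) (hq : 1 ≤ q) (i : Fin d) (A : Finset (Site d (k + 1) → Fin q)) :
    (A.image (rpl i)).card ≤ q ^ (2 * (2 ^ (k + 1)) ^ (d - 1)) := by
  obtain ⟨d', rfl⟩ : ∃ d', d = d' + 1 := ⟨d - 1, by omega⟩
  have h1 : (A.image (rpl i)).card ≤ Fintype.card (Pls (d' + 1) k i → Fin q) :=
    Finset.card_le_univ _
  have h2 : Fintype.card (Pls (d' + 1) k i → Fin q) = q ^ Fintype.card (Pls (d' + 1) k i) := by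
    rw [Fintype.card_fun, Fintype.card_fin]
  rw [h2] at h1
  refine h1.trans (Nat.pow_le_pow_right hq ?_)
  have h3 := dblB_card k i
  rw [Nat.add_sub_cancel]
  convert h3

open scoped Classical in
theorem rpl_sys (i : Fin (d + 1)) (S : Finset (Fin (d + 1)))
    (A : Finset (Site (d + 1) (k + 1) → Fin q)) (hA : A ⊆ sys (d + 1) (k + 1) q S) :
    (A.image (rpl i)).card ≤ (sys d (k + 1) q (univ.filter fun j => i.succAbove j ∈ S)).card ^ 2 := by
  set T := sys d (k + 1) q (univ.filter fun j => i.succAbove j ∈ S) with hT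
  let φ : (Pls (d + 1) k i → Fin q) → (Site d (k + 1) → Fin q) × (Site d (k + 1) → Fin q) :=
    fun g => (fun y => g ⟨i.insertNth (α := fun _ => ZMod (2 ^ (k + 1))) 0 y,
        Or.inl (Fin.insertNth_apply_same i _ _)⟩,
      fun y => g ⟨i.insertNth (α := fun _ => ZMod (2 ^ (k + 1))) ((2 ^ k : ℕ) : ZMod (2 ^ (k + 1))) y,
        Or.inr (Fin.insertNth_apply_same i _ _)⟩)
  have hφ : Function.Injective φ := by
    intro g g' h
    have h1 : (φ g).1 = (φ g').1 := congrArg Prod.fst h
    have h2 : (φ g).2 = (φ g').2 := congrArg Prod.snd h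
    funext x
    obtain ⟨x, hx⟩ := x
    have h3 : ∀ a : ZMod (2 ^ (k + 1)), x i = a →
        i.insertNth (α := fun _ => ZMod (2 ^ (k + 1))) a (fun j => x (i.succAbove j)) = x := by
      intro a ha
      funext l
      rcases Fin.eq_self_or_eq_succAbove i l with h3 | ⟨m, h3⟩
      · subst h3
        rw [Fin.insertNth_apply_same, ha]
      · subst h3
        rw [Fin.insertNth_apply_succAbove]
    rcases hx with hx | hx
    · have h4 := congrFun h1 (fun j => x (i.succAbove j))
      change g _ = g' _ at h4
      have h5 := h3 0 hx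
      have h6 : (⟨i.insertNth (α := fun _ => ZMod (2 ^ (k + 1))) 0 (fun j => x (i.succAbove j)),
          Or.inl (Fin.insertNth_apply_same i _ _)⟩ : Pls (d + 1) k i) = ⟨x, Or.inl hx⟩ :=
        Subtype.ext h5
      rw [h6] at h4
      exact h4
    · have h4 := congrFun h2 (fun j => x (i.succAbove j))
      change g _ = g' _ at h4
      have h5 := h3 _ hx
      have h6 : (⟨i.insertNth (α := fun _ => ZMod (2 ^ (k + 1))) ((2 ^ k : ℕ) : ZMod (2 ^ (k + 1)))
          (fun j => x (i.succAbove j)),
          Or.inr (Fin.insertNth_apply_same i _ _)⟩ : Pls (d + 1) k i) = ⟨x, Or.inr hx⟩ :=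
        Subtype.ext h5
      rw [h6] at h4
      exact h4
  have h1 : (A.image (rpl i)).card = ((A.image (rpl i)).image φ).card :=
    (Finset.card_image_of_injective _ hφ).symm
  have h2 : (A.image (rpl i)).image φ ⊆ T ×ˢ T := by
    intro p hp
    obtain ⟨g, hg, rfl⟩ := Finset.mem_image.1 hp
    obtain ⟨f, hf, rfl⟩ := Finset.mem_image.1 hg
    rw [Finset.mem_product]
    exact ⟨dblB_mem (hA hf) 0, dblB_mem (hA hf) _⟩
  rw [h1]
  refine (Finset.card_le_card h2).trans (le_of_eq ?_)
  rw [Finset.card_product, sq]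

end Pool.Agent.LO
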