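import Pool.Agent.Lib_MP_2c424f_fb.DblB

/-!
# Doubling, iteration (piece DBLC)

`sys_pow`: `|sys S|^(2^|S|) ≤ ZZ * q^(2 (2^(k+1))^(d-1) 2^|S|)` by induction on `S` (`dbl_step` with `E = True`,
`U = (insert i S)ᶜ`, and `rpl_card`).
`dbl`: with `B = ZZ d (k+1) q * q^(2^(d+1) (2^(k+1))^(d-1))`: for all `U`,
`|AU E ∅|^(2^(d+1)) ≤ |AU E U|^(2^(d+1-|U|)) * B^(2|U|)`, by induction on `U`; step: `dbl_step` and `rpl_sys`
with `S = Uᶜ`, `|S'| = d - |U|` (`S' = {j | i.succAbove j ∉ U}`), and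
`(|sys S'|^2)^(2^(d-|U|)) = (|sys S'|^(2^|S'|))^2 ≤ B^2` by `sys_pow`.
-/

set_option autoImplicit false

open Finset

namespace Pool.Agent.LO

variable {d k q : ℕ}

theorem sys_pow (hk : 1 ≤ k) (hd : 1 ≤ d) (hq : 1 ≤ q) (S : Finset (Fin d)) :
    (sys d (k + 1) q S).card ^ (2 ^ S.card) ≤
      (prps d (k + 1) q).card * q ^ (2 * (2 ^ (k + 1)) ^ (d - 1) * 2 ^ S.card) := by
  induction S using Finset.induction_on with
  | empty =>
    rw [sys_empty, Finset.card_empty, pow_zero, pow_one]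
    exact Nat.le_mul_of_pos_right _ (Nat.pow_pos hq)
  | insert i S hi ih =>
    have h1 := dbl_step hk (fun _ : Site d (k + 1) → Fin q => True) (insert i S)ᶜ i (by simp)
    have h2 : insert i (insert i S)ᶜ = Sᶜ := by
      ext j
      simp only [Finset.mem_insert, Finset.mem_compl, not_or]
      by_cases hj : j = i
      · subst hj
        simp [hi]
      · simp [hj]
    rw [h2, AU_true, AU_true, compl_compl, compl_compl] at h1
    have h3 := rpl_card (k := k) (q := q) hd hq i (sys d (k + 1) q (insert i S))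
    have h4 : (sys d (k + 1) q (insert i S)).card ^ 2 ≤
        q ^ (2 * (2 ^ (k + 1)) ^ (d - 1)) * (sys d (k + 1) q S).card :=
      h1.trans (Nat.mul_le_mul_right _ h3)
    rw [Finset.card_insert_of_notMem hi]
    calc (sys d (k + 1) q (insert i S)).card ^ 2 ^ (S.card + 1)
        = ((sys d (k + 1) q (insert i S)).card ^ 2) ^ 2 ^ S.card := by
          rw [← pow_mul, pow_succ, Nat.mul_comm]
      _ ≤ (q ^ (2 * (2 ^ (k + 1)) ^ (d - 1)) * (sys d (k + 1) q S).card) ^ 2 ^ S.card :=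
          Nat.pow_le_pow_left h4 _
      _ = q ^ (2 * (2 ^ (k + 1)) ^ (d - 1) * 2 ^ S.card) *
            (sys d (k + 1) q S).card ^ 2 ^ S.card := by
          rw [mul_pow, ← pow_mul]
      _ ≤ q ^ (2 * (2 ^ (k + 1)) ^ (d - 1) * 2 ^ S.card) *
            ((prps d (k + 1) q).card * q ^ (2 * (2 ^ (k + 1)) ^ (d - 1) * 2 ^ S.card)) :=
          Nat.mul_le_mul_left _ ih
      _ = (prps d (k + 1) q).card * q ^ (2 * (2 ^ (k + 1)) ^ (d - 1) * 2 ^ (S.card + 1)) := by
          have h5 : 2 * (2 ^ (k + 1)) ^ (d - 1) * 2 ^ (S.card + 1) =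
              2 * (2 ^ (k + 1)) ^ (d - 1) * 2 ^ S.card + 2 * (2 ^ (k + 1)) ^ (d - 1) * 2 ^ S.card := by
            ring
          rw [h5, pow_add]
          ring

private theorem DblC_card {d : ℕ} (U : Finset (Fin (d + 1))) (i : Fin (d + 1)) (hi : i ∉ U) :
    (univ.filter fun j : Fin d => i.succAbove j ∈ Uᶜ).card = d - U.card := by
  have h1 : (univ.filter fun j : Fin d => i.succAbove j ∈ Uᶜ).map
      ⟨i.succAbove, Fin.succAbove_right_injective⟩ = (insert i U)ᶜ := by
    ext l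
    simp only [Finset.mem_map, Finset.mem_filter, Finset.mem_univ, true_and, Finset.mem_compl,
      Function.Embedding.coeFn_mk, Finset.mem_insert, not_or]
    constructor
    · rintro ⟨j, h2, rfl⟩
      exact ⟨Fin.succAbove_ne i j, h2⟩
    · rintro ⟨h2, h3⟩
      obtain ⟨j, hj⟩ := Fin.exists_succAbove_eq h2
      exact ⟨j, by rw [hj]; exact h3, hj⟩
  rw [← Finset.card_map, h1, Finset.card_compl, Fintype.card_fin, Finset.card_insert_of_notMem hi]
  omega

open scoped Classical in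
private theorem DblC_iter (hk : 1 ≤ k) (hd : 1 ≤ d) (hq : 1 ≤ q)
    (E : (Site (d + 1) (k + 1) → Fin q) → Prop) (U : Finset (Fin (d + 1))) :
    (AU E ∅).card ^ (2 ^ (d + 1)) ≤ (AU E U).card ^ (2 ^ (d + 1 - U.card)) *
      ((prps d (k + 1) q).card * q ^ (2 ^ (d + 1) * (2 ^ (k + 1)) ^ (d - 1))) ^ (2 * U.card) := by
  set B := (prps d (k + 1) q).card * q ^ (2 ^ (d + 1) * (2 ^ (k + 1)) ^ (d - 1)) with hB
  induction U using Finset.induction_on with
  | empty => simp
  | insert i U hi ih =>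
    have hcU : U.card + 1 ≤ d + 1 := by
      have h1 := Finset.card_le_univ (insert i U)
      rw [Finset.card_insert_of_notMem hi, Fintype.card_fin] at h1
      exact h1
    have h1 := dbl_step hk E U i hi
    have h2 := rpl_sys (q := q) i Uᶜ (AU E U) (by
      unfold AU
      exact Finset.filter_subset _ _)
    set S' := univ.filter fun j : Fin d => i.succAbove j ∈ Uᶜ with hS'
    have hc : S'.card = d - U.card := DblC_card U i hi
    have h3 : (AU E U).card ^ 2 ≤ (sys d (k + 1) q S').card ^ 2 * (AU E (insert i U)).card :=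
      h1.trans (Nat.mul_le_mul_right _ h2)
    have h4 : (sys d (k + 1) q S').card ^ (2 ^ S'.card) ≤ B := by
      refine (sys_pow hk hd hq S').trans (Nat.mul_le_mul_left _ (Nat.pow_le_pow_right hq ?_))
      have h5 : 2 ^ S'.card ≤ 2 ^ d := Nat.pow_le_pow_right (by norm_num) (by omega)
      calc 2 * (2 ^ (k + 1)) ^ (d - 1) * 2 ^ S'.card
          ≤ 2 * (2 ^ (k + 1)) ^ (d - 1) * 2 ^ d := Nat.mul_le_mul_left _ h5
        _ = 2 ^ (d + 1) * (2 ^ (k + 1)) ^ (d - 1) := by ring
    rw [Finset.card_insert_of_notMem hi]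
    have e1 : d + 1 - U.card = (d - U.card) + 1 := by omega
    have e2 : d + 1 - (U.card + 1) = d - U.card := by omega
    rw [e2]
    rw [e1] at ih
    refine ih.trans ?_
    calc (AU E U).card ^ 2 ^ (d - U.card + 1) * B ^ (2 * U.card)
        = ((AU E U).card ^ 2) ^ 2 ^ (d - U.card) * B ^ (2 * U.card) := by
          rw [← pow_mul, pow_succ (2 : ℕ) (d - U.card), Nat.mul_comm (2 ^ (d - U.card)) 2]
      _ ≤ ((sys d (k + 1) q S').card ^ 2 * (AU E (insert i U)).card) ^ 2 ^ (d - U.card) *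
            B ^ (2 * U.card) :=
          Nat.mul_le_mul_right _ (Nat.pow_le_pow_left h3 _)
      _ = ((sys d (k + 1) q S').card ^ (2 ^ S'.card)) ^ 2 *
            (AU E (insert i U)).card ^ 2 ^ (d - U.card) * B ^ (2 * U.card) := by
          rw [mul_pow, ← pow_mul, ← pow_mul, hc, Nat.mul_comm 2 (2 ^ (d - U.card))]
      _ ≤ B ^ 2 * (AU E (insert i U)).card ^ 2 ^ (d - U.card) * B ^ (2 * U.card) :=
          Nat.mul_le_mul_right _ (Nat.mul_le_mul_right _ (Nat.pow_le_pow_left h4 _))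
      _ = (AU E (insert i U)).card ^ 2 ^ (d - U.card) * B ^ (2 * (U.card + 1)) := by
          rw [Nat.mul_add, pow_add]
          ring

open scoped Classical in
theorem dbl (hk : 1 ≤ k) (hd : 1 ≤ d) (hq : 1 ≤ q) (E : (Site (d + 1) (k + 1) → Fin q) → Prop) :
    ((sys (d + 1) (k + 1) q univ).filter E).card ^ (2 ^ (d + 1)) ≤
      ((prps (d + 1) (k + 1) q).filter fun f => ∀ β : Bt (d + 1), E (fun x => f (fld β x))).card *
        ((prps d (k + 1) q).card * q ^ (2 ^ (d + 1) * (2 ^ (k + 1)) ^ (d - 1))) ^ (2 * (d + 1)) := by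
  have h1 := DblC_iter hk hd hq E univ
  rw [Finset.card_univ, Fintype.card_fin, Nat.sub_self, pow_zero, pow_one, AU_empty, AU_univ] at h1
  exact h1

end Pool.Agent.LO
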