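import Mathlib

/-!
# Shearer's inequality for counts (piece SHR)

Generalised Hölder inequality.  For nonnegative `g i : (V → X) → ℝ`, `g i` depending only on the coordinates in
`A i`, every coordinate in exactly `t` of the sets `A i`:
`(∑ x, ∏ i, g i x) ^ t ≤ ∏ i, ∑ y, (g i y)^t`, the inner sum over the configurations on `A i`.
Induction on the finset `S` of the coordinates which are summed: for `x₀ : V → X` let `Y S x₀` be the finset of
the functions which agree with `x₀` off `S`; claim
`(∑ x ∈ Y S x₀, ∏ i, g i x)^t ≤ ∏ i, ∑ x ∈ Y (S ∩ A i) x₀, (g i x)^t`; the step is Hölder for `t` functions of one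
coordinate (`a_1 ⋯ a_t ≤ (∑ a_i^t)/t` after normalisation, or `Real.inner_le_Lp_mul_Lq` by induction).
Then take for `g i` the indicator function of the restriction of `F` to `A i`.
-/

set_option autoImplicit false

open Finset

namespace Pool.Agent.LO

/-- Hölder's inequality for `t` functions -/
private theorem Shr_holder {ι Y : Type} (s : Finset ι) (t : ℕ) (ht : 1 ≤ t) (hs : s.card = t)
    (T : Finset Y) (a : ι → Y → ℝ) (ha : ∀ i y, 0 ≤ a i y) :
    (∑ y ∈ T, ∏ i ∈ s, a i y) ^ t ≤ ∏ i ∈ s, ∑ y ∈ T, (a i y) ^ t := by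
  have ht0 : t ≠ 0 := by omega
  have htR : (t : ℝ) ≠ 0 := by exact_mod_cast ht0
  have hN : ∀ i, 0 ≤ ∑ y ∈ T, (a i y) ^ t := fun i => sum_nonneg fun y _ => pow_nonneg (ha i y) t
  by_cases h0 : ∃ i ∈ s, ∑ y ∈ T, (a i y) ^ t = 0
  · obtain ⟨i, hi, h⟩ := h0
    have h1 : ∀ y ∈ T, a i y = 0 := by
      intro y hy
      have := (sum_eq_zero_iff_of_nonneg fun y _ => pow_nonneg (ha i y) t).1 h y hy
      exact pow_eq_zero_iff ht0 |>.1 this
    have h2 : ∑ y ∈ T, ∏ i ∈ s, a i y = 0 :=
      sum_eq_zero fun y hy => prod_eq_zero hi (h1 y hy)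
    rw [h2, zero_pow ht0]
    exact prod_nonneg fun i _ => hN i
  · push Not at h0
    have hpos : ∀ i ∈ s, 0 < ∑ y ∈ T, (a i y) ^ t := fun i hi =>
      lt_of_le_of_ne (hN i) (Ne.symm (h0 i hi))
    -- `n i` is the norm
    have hn : ∀ i, ((∑ y ∈ T, (a i y) ^ t) ^ ((t : ℝ)⁻¹)) ^ t = ∑ y ∈ T, (a i y) ^ t :=
      fun i => Real.rpow_inv_natCast_pow (hN i) ht0
    set n : ι → ℝ := fun i => (∑ y ∈ T, (a i y) ^ t) ^ ((t : ℝ)⁻¹) with hndef
    have hnpos : ∀ i ∈ s, 0 < n i := fun i hi => Real.rpow_pos_of_pos (hpos i hi) _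
    have key : ∀ y, ∏ i ∈ s, (a i y / n i) ≤ ∑ i ∈ s, (t : ℝ)⁻¹ * (a i y / n i) ^ t := by
      intro y
      have h1 := Real.geom_mean_le_arith_mean_weighted s (fun _ => (t : ℝ)⁻¹)
        (fun i => (a i y / n i) ^ t) (fun i _ => by positivity)
        (by rw [sum_const, hs, nsmul_eq_mul, mul_inv_cancel₀ htR])
        (fun i hi => pow_nonneg (div_nonneg (ha i y) (hnpos i hi).le) t)
      refine le_trans (le_of_eq ?_) h1
      refine prod_congr rfl fun i hi => ?_
      rw [Real.pow_rpow_inv_natCast (div_nonneg (ha i y) (hnpos i hi).le) ht0]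
    have h3 : ∑ y ∈ T, ∏ i ∈ s, (a i y / n i) ≤ 1 := by
      refine (sum_le_sum fun y _ => key y).trans ?_
      rw [sum_comm]
      have h4 : ∀ i ∈ s, ∑ y ∈ T, (t : ℝ)⁻¹ * (a i y / n i) ^ t = (t : ℝ)⁻¹ := by
        intro i hi
        rw [← mul_sum]
        have h5 : ∑ y ∈ T, (a i y / n i) ^ t = 1 := by
          simp_rw [div_pow]
          rw [← sum_div, hn i]
          exact div_self (hpos i hi).ne'
        rw [h5, mul_one]
      rw [sum_congr rfl h4, sum_const, hs, nsmul_eq_mul, mul_inv_cancel₀ htR]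
    have h6 : ∑ y ∈ T, ∏ i ∈ s, a i y ≤ ∏ i ∈ s, n i := by
      have h7 : ∑ y ∈ T, ∏ i ∈ s, (a i y / n i) =
          (∑ y ∈ T, ∏ i ∈ s, a i y) / ∏ i ∈ s, n i := by
        rw [sum_div]
        exact sum_congr rfl fun y _ => prod_div_distrib _ _
      rw [h7, div_le_one (prod_pos hnpos)] at h3
      exact h3
    calc (∑ y ∈ T, ∏ i ∈ s, a i y) ^ t ≤ (∏ i ∈ s, n i) ^ t :=
          pow_le_pow_left₀ (sum_nonneg fun y _ => prod_nonneg fun i _ => ha i y) h6 t
      _ = ∏ i ∈ s, ∑ y ∈ T, (a i y) ^ t := by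
          rw [← prod_pow]
          exact prod_congr rfl fun i _ => hn i

section
variable {V X ι : Type} [Fintype V] [DecidableEq V] [Fintype X] [DecidableEq X] [Fintype ι]

/-- the functions which agree with `x₀` off `S` -/
private def Shr_Y (S : Finset V) (x₀ : V → X) : Finset (V → X) :=
  univ.filter fun x => ∀ w, w ∉ S → x w = x₀ w

private theorem Shr_mem {S : Finset V} {x₀ x : V → X} :
    x ∈ Shr_Y S x₀ ↔ ∀ w, w ∉ S → x w = x₀ w := by
  simp [Shr_Y]

private theorem Shr_sum_insert {S : Finset V} {v : V} (hv : v ∉ S) (x₀ : V → X)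
    (f : (V → X) → ℝ) :
    ∑ x ∈ Shr_Y (insert v S) x₀, f x = ∑ a : X, ∑ x ∈ Shr_Y S (Function.update x₀ v a), f x := by
  rw [← sum_fiberwise (Shr_Y (insert v S) x₀) (fun x => x v) f]
  refine sum_congr rfl fun a _ => ?_
  refine sum_congr ?_ fun _ _ => rfl
  ext x
  rw [mem_filter, Shr_mem, Shr_mem]
  constructor
  · rintro ⟨h1, h2⟩ w hw
    by_cases hwv : w = v
    · subst hwv
      rw [Function.update_self]
      exact h2
    · rw [Function.update_of_ne hwv]
      exact h1 w (by simp [hwv, hw])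
  · intro h
    refine ⟨fun w hw => ?_, ?_⟩
    · rw [mem_insert, not_or] at hw
      rw [h w hw.2, Function.update_of_ne hw.1]
    · rw [h v hv, Function.update_self]

/-- a sum which does not depend on the coordinate `v` -/
private theorem Shr_sum_update {S B : Finset V} {v : V} (hvS : v ∉ S) (hv : v ∉ B) (x₀ : V → X)
    (a : X) (f : (V → X) → ℝ) (hf : ∀ x x' : V → X, (∀ w ∈ B, x w = x' w) → f x = f x') :
    ∑ x ∈ Shr_Y S (Function.update x₀ v a), f x = ∑ x ∈ Shr_Y S x₀, f x := by
  refine sum_bij' (fun x _ => Function.update x v (x₀ v)) (fun x _ => Function.update x v a)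
    ?_ ?_ ?_ ?_ ?_
  · intro x hx
    rw [Shr_mem] at hx ⊢
    intro w hw
    by_cases hwv : w = v
    · rw [hwv, Function.update_self]
    · rw [Function.update_of_ne hwv, hx w hw, Function.update_of_ne hwv]
  · intro x hx
    rw [Shr_mem] at hx ⊢
    intro w hw
    by_cases hwv : w = v
    · rw [hwv, Function.update_self, Function.update_self]
    · rw [Function.update_of_ne hwv, hx w hw, Function.update_of_ne hwv]
  · intro x hx
    rw [Shr_mem] at hx
    have := hx v hvS
    rw [Function.update_self] at this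
    rw [Function.update_idem, ← this, Function.update_eq_self]
  · intro x hx
    rw [Shr_mem] at hx
    rw [Function.update_idem, ← hx v hvS, Function.update_eq_self]
  · intro x hx
    refine hf _ _ fun w hw => ?_
    have hwv : w ≠ v := fun h => hv (h ▸ hw)
    rw [Function.update_of_ne hwv]

private theorem Shr_main (A : ι → Finset V) (t : ℕ) (ht : 1 ≤ t)
    (hcov : ∀ v, (univ.filter fun i => v ∈ A i).card = t) (g : ι → (V → X) → ℝ)
    (hg : ∀ i x, 0 ≤ g i x)
    (hdep : ∀ i (x x' : V → X), (∀ w ∈ A i, x w = x' w) → g i x = g i x') (S : Finset V) :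
    ∀ x₀ : V → X, (∑ x ∈ Shr_Y S x₀, ∏ i, g i x) ^ t ≤
      ∏ i, ∑ x ∈ Shr_Y (S ∩ A i) x₀, (g i x) ^ t := by
  have ht0 : t ≠ 0 := by omega
  induction S using Finset.induction_on with
  | empty =>
    intro x₀
    have h : Shr_Y (∅ : Finset V) x₀ = {x₀} := by
      ext x
      rw [Shr_mem, mem_singleton]
      constructor
      · intro h
        funext w
        exact h w (by simp)
      · rintro rfl w _
        rfl
    simp only [empty_inter, h, sum_singleton, prod_pow, le_refl]
  | insert v S hv ih =>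
    intro x₀
    -- the inner sums
    set R : ι → (V → X) → ℝ := fun i x₁ => ∑ x ∈ Shr_Y (S ∩ A i) x₁, (g i x) ^ t with hR
    have hR0 : ∀ i x₁, 0 ≤ R i x₁ := fun i x₁ => sum_nonneg fun x _ => pow_nonneg (hg i x) t
    have h1 : ∀ x₁, ∑ x ∈ Shr_Y S x₁, ∏ i, g i x ≤ ∏ i, (R i x₁) ^ ((t : ℝ)⁻¹) := by
      intro x₁
      refine le_of_pow_le_pow_left₀ ht0 (prod_nonneg fun i _ => Real.rpow_nonneg (hR0 i x₁) _) ?_
      refine (ih x₁).trans (le_of_eq ?_)
      rw [← prod_pow]
      exact prod_congr rfl fun i _ => (Real.rpow_inv_natCast_pow (hR0 i x₁) ht0).symm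
    rw [Shr_sum_insert hv]
    have h2 : ∑ a : X, ∑ x ∈ Shr_Y S (Function.update x₀ v a), ∏ i, g i x ≤
        ∑ a : X, ∏ i, (R i (Function.update x₀ v a)) ^ ((t : ℝ)⁻¹) :=
      sum_le_sum fun a _ => h1 _
    have h3 : ∀ i, v ∉ A i → ∀ a, R i (Function.update x₀ v a) = R i x₀ := by
      intro i hi a
      refine Shr_sum_update (B := A i) ?_ hi x₀ a _ ?_
      · simp [hv]
      · intro x x' h
        rw [hdep i x x' h]
    have h4 : ∑ a : X, ∏ i, (R i (Function.update x₀ v a)) ^ ((t : ℝ)⁻¹) =
        (∏ i ∈ univ.filter fun i => v ∉ A i, (R i x₀) ^ ((t : ℝ)⁻¹)) *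
        ∑ a : X, ∏ i ∈ univ.filter fun i => v ∈ A i,
          (R i (Function.update x₀ v a)) ^ ((t : ℝ)⁻¹) := by
      rw [mul_sum]
      refine sum_congr rfl fun a _ => ?_
      rw [← prod_filter_mul_prod_filter_not univ (fun i => v ∈ A i), mul_comm]
      congr 1
      refine prod_congr rfl fun i hi => ?_
      rw [mem_filter] at hi
      rw [h3 i hi.2 a]
    have h5 := Shr_holder (univ.filter fun i => v ∈ A i) t ht (hcov v) (univ : Finset X)
      (fun i a => (R i (Function.update x₀ v a)) ^ ((t : ℝ)⁻¹))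
      (fun i a => Real.rpow_nonneg (hR0 _ _) _)
    calc (∑ a : X, ∑ x ∈ Shr_Y S (Function.update x₀ v a), ∏ i, g i x) ^ t
        ≤ (∑ a : X, ∏ i, (R i (Function.update x₀ v a)) ^ ((t : ℝ)⁻¹)) ^ t :=
          pow_le_pow_left₀ (sum_nonneg fun a _ => sum_nonneg fun x _ =>
            prod_nonneg fun i _ => hg i x) h2 t
      _ = (∏ i ∈ univ.filter fun i => v ∉ A i, R i x₀) *
          (∑ a : X, ∏ i ∈ univ.filter fun i => v ∈ A i,
            (R i (Function.update x₀ v a)) ^ ((t : ℝ)⁻¹)) ^ t := by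
          rw [h4, mul_pow, ← prod_pow]
          congr 1
          exact prod_congr rfl fun i _ => Real.rpow_inv_natCast_pow (hR0 i x₀) ht0
      _ ≤ (∏ i ∈ univ.filter fun i => v ∉ A i, R i x₀) *
          ∏ i ∈ univ.filter fun i => v ∈ A i, ∑ a : X, R i (Function.update x₀ v a) := by
          refine mul_le_mul_of_nonneg_left (h5.trans (le_of_eq ?_))
            (prod_nonneg fun i _ => hR0 i x₀)
          refine prod_congr rfl fun i _ => sum_congr rfl fun a _ => ?_
          exact Real.rpow_inv_natCast_pow (hR0 _ _) ht0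
      _ = ∏ i, ∑ x ∈ Shr_Y (insert v S ∩ A i) x₀, (g i x) ^ t := by
          rw [← prod_filter_mul_prod_filter_not univ (fun i => v ∈ A i), mul_comm]
          congr 1
          · refine prod_congr rfl fun i hi => ?_
            rw [mem_filter] at hi
            rw [insert_inter_of_mem hi.2, Shr_sum_insert (by simp [hv])]
          · refine prod_congr rfl fun i hi => ?_
            rw [mem_filter] at hi
            rw [insert_inter_of_notMem hi.2]

end

theorem shearer_count {V X ι : Type} [Fintype V] [DecidableEq V] [Fintype X] [DecidableEq X] [Fintype ι]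
    (A : ι → Finset V) (t : ℕ) (ht : 1 ≤ t) (hcov : ∀ v, (univ.filter fun i => v ∈ A i).card = t)
    (F : Finset (V → X)) :
    F.card ^ t ≤ ∏ i, (F.image fun f => fun v : A i => f v).card := by
  classical
  rcases F.eq_empty_or_nonempty with rfl | ⟨x₀, hx₀⟩
  · rw [card_empty, zero_pow (by omega)]
    exact Nat.zero_le _
  · set g : ι → (V → X) → ℝ := fun i x =>
      if (fun v : A i => x v) ∈ (F.image fun f => fun v : A i => f v) then 1 else 0 with hg
    have h1 := Shr_main A t ht hcov g (fun i x => by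
        simp only [hg]
        split_ifs <;> norm_num)
      (fun i x x' h => by
        have : (fun v : A i => x v) = (fun v : A i => x' v) := by
          funext v
          exact h v.1 v.2
        simp only [hg, this]) univ x₀
    have h2 : (F.card : ℝ) ≤ ∑ x ∈ Shr_Y univ x₀, ∏ i, g i x := by
      have h3 : (F.card : ℝ) = ∑ x ∈ F, ∏ i, g i x := by
        rw [card_eq_sum_ones, Nat.cast_sum]
        refine sum_congr rfl fun x hx => ?_
        rw [Nat.cast_one]
        refine (prod_eq_one fun i _ => ?_).symm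
        simp only [hg]
        exact if_pos (mem_image_of_mem _ hx)
      rw [h3]
      refine sum_le_sum_of_subset_of_nonneg (fun x _ => Shr_mem.2 fun w hw =>
        absurd (mem_univ w) hw) fun x _ _ => prod_nonneg fun i _ => ?_
      simp only [hg]
      split_ifs <;> norm_num
    have h4 : ∀ i, ∑ x ∈ Shr_Y (univ ∩ A i) x₀, (g i x) ^ t ≤
        ((F.image fun f => fun v : A i => f v).card : ℝ) := by
      intro i
      rw [univ_inter]
      have h5 : ∀ x, (g i x) ^ t =
          if (fun v : A i => x v) ∈ (F.image fun f => fun v : A i => f v) then (1 : ℝ) else 0 := by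
        intro x
        simp only [hg]
        split_ifs
        · exact one_pow t
        · exact zero_pow (by omega)
      simp_rw [h5]
      rw [sum_boole]
      norm_cast
      refine card_le_card_of_injOn (fun x => fun v : A i => x v) ?_ ?_
      · intro x hx
        rw [mem_coe, mem_filter] at hx
        exact hx.2
      · intro x hx x' hx' h
        rw [mem_coe, mem_filter, Shr_mem] at hx hx'
        funext w
        by_cases hw : w ∈ A i
        · exact congrFun h ⟨w, hw⟩
        · rw [hx.1 w hw, hx'.1 w hw]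
    have h6 : ((F.card : ℝ)) ^ t ≤ ∏ i, ((F.image fun f => fun v : A i => f v).card : ℝ) :=
      (pow_le_pow_left₀ (Nat.cast_nonneg _) h2 t).trans (h1.trans
        (prod_le_prod (fun i _ => sum_nonneg fun x _ => by
          simp only [hg]
          split_ifs <;> positivity) fun i _ => h4 i))
    exact_mod_cast h6

end Pool.Agent.LO
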