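import Pool.Agent.Lib_MP_2c424f_fb.Fold
import Pool.Agent.Lib_MP_2c424f_fb.Shr

/-!
# Lower bound for the number of free colourings (piece NBL)

`shearer_count` for `F = prps`, `ι` = the sites `τ`, `A τ = {x | ∀ j, (x j - τ j).val ≤ 2^k}`: every site is in
`(2^k+1)^d` of the sets; `f|_{A τ}` is determined by the symmetric colouring
`x ↦ f (τ + fld true x) ∈ sys univ` (translation and `fld_sys`), so each image has at most `|sys univ|` elements.
-/

set_option autoImplicit false

open Finset

namespace Pool.Agent.LO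

variable {d k q : ℕ}

/-- number of residues with a small value -/
private theorem Nbl_one (k : ℕ) :
    (univ.filter fun a : ZMod (2 ^ (k + 1)) => a.val ≤ 2 ^ k).card = 2 ^ k + 1 := by
  have hk : 2 ^ (k + 1) = 2 ^ k * 2 := pow_succ 2 k
  have h0 : 0 < 2 ^ k := pow_pos (by norm_num) k
  rw [← card_range (2 ^ k + 1)]
  refine card_bij (fun a _ => a.val) ?_ ?_ ?_
  · intro a ha
    rw [mem_filter] at ha
    rw [mem_range]
    omega
  · intro a _ b _ h
    exact ZMod.val_injective _ h
  · intro b hb
    rw [mem_range] at hb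
    have hv : ((b : ℕ) : ZMod (2 ^ (k + 1))).val = b := by
      rw [ZMod.val_natCast]
      exact Nat.mod_eq_of_lt (by omega)
    exact ⟨(b : ZMod (2 ^ (k + 1))), mem_filter.2 ⟨mem_univ _, by rw [hv]; omega⟩, hv⟩

/-- every site is in the same number of translates -/
private theorem Nbl_cov (v : Site d (k + 1)) :
    (univ.filter fun τ : Site d (k + 1) => ∀ j, (v j - τ j).val ≤ 2 ^ k).card = (2 ^ k + 1) ^ d := by
  classical
  have h1 : (Fintype.piFinset fun _ : Fin d =>
      univ.filter fun a : ZMod (2 ^ (k + 1)) => a.val ≤ 2 ^ k).card = (2 ^ k + 1) ^ d := by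
    rw [Fintype.card_piFinset, prod_const, card_univ, Fintype.card_fin, Nbl_one]
  rw [← h1]
  refine card_bij (fun τ _ => v - τ) ?_ ?_ ?_
  · intro τ hτ
    rw [mem_filter] at hτ
    rw [Fintype.mem_piFinset]
    intro j
    exact mem_filter.2 ⟨mem_univ _, hτ.2 j⟩
  · intro a _ b _ h
    exact sub_right_injective h
  · intro b hb
    rw [Fintype.mem_piFinset] at hb
    refine ⟨v - b, mem_filter.2 ⟨mem_univ _, fun j => ?_⟩, sub_sub_cancel v b⟩
    have := (mem_filter.1 (hb j)).2
    rwa [Pi.sub_apply, sub_sub_cancel]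

/-- the restrictions to a translate of the box -/
private theorem Nbl_img (τ : Site d (k + 1)) (B : Finset (Site d (k + 1)))
    (hB : ∀ v ∈ B, ∀ j, (v j - τ j).val ≤ 2 ^ k) :
    ((prps d (k + 1) q).image fun f => fun v : B => f v).card ≤ (sys d (k + 1) q univ).card := by
  classical
  have h1 : ((prps d (k + 1) q).image fun f => fun v : B => f v) ⊆
      (sys d (k + 1) q univ).image fun g => fun v : B => g (v.1 - τ) := by
    intro y hy
    obtain ⟨f, hf, rfl⟩ := mem_image.1 hy
    have hf1 : Prp f := by
      simp only [prps, mem_filter, mem_univ, true_and] at hf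
      exact hf
    have hf' : (fun x => f (τ + x)) ∈ prps d (k + 1) q := by
      simp only [prps, mem_filter, mem_univ, true_and]
      intro x σ
      have h := hf1 (τ + x) σ
      rw [add_assoc] at h
      exact h
    refine mem_image.2 ⟨_, fld_sys hf' (fun _ => true), ?_⟩
    funext v
    have h2 : fld (fun _ => true) (v.1 - τ) = v.1 - τ := by
      funext j
      exact ph_true_of_le (hB v.1 v.2 j)
    simp only [h2, add_sub_cancel]
  exact (card_le_card h1).trans card_image_le

theorem nbl (hk : 1 ≤ k) :
    (prps d (k + 1) q).card ^ ((2 ^ k + 1) ^ d) ≤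
      (sys d (k + 1) q univ).card ^ ((2 ^ (k + 1)) ^ d) := by
  classical
  have h := shearer_count (V := Site d (k + 1)) (X := Fin q) (ι := Site d (k + 1))
    (fun τ => univ.filter fun x => ∀ j, (x j - τ j).val ≤ 2 ^ k) ((2 ^ k + 1) ^ d)
    (Nat.one_le_pow _ _ (Nat.succ_pos _))
    (fun v => by
      rw [← Nbl_cov v]
      congr 1
      ext τ
      simp)
    (prps d (k + 1) q)
  refine h.trans ((prod_le_prod' fun τ _ => Nbl_img τ _ fun v hv => (mem_filter.1 hv).2).trans ?_)
  rw [prod_const, card_univ, Fintype.card_fun, ZMod.card, Fintype.card_fin]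

end Pool.Agent.LO
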