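import Pool.Agent.Lib_MP_2c424f_fb.DblC
import Pool.Agent.Lib_MP_2c424f_fb.Nbl
import Pool.Agent.Lib_MP_2c424f_fb.Pbd8
import Pool.Agent.Lib_MP_2c424f_lo.Basic

/-!
# Free boxes versus the torus (piece FF)

`D = d + 1`, side `2^(k+2) = 2M`, `m = 2^k`.  `dbl` (with `k + 1` for `k`), `nbl`, `ZZ_ge` in dimension `D`,
`zz_le8` in dimension `d` (`Adm4 (d+1) q` implies `Adm2 d q`), Bernoulli `(1 + 1/M)^D ≥ 1 + D/M`:
with `n = |sys ∩ E|`, `Z = ZZ D (k+2) q`, `NB^(2M)^D ≥ Z^(M+1)^D`, so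
`NB^(2^D) ≥ Z^((1+1/M)^D) ≥ Z exp ((D/M) (2M)^D/2 log (q1 q2))` and
`n^(2^D) ≤ Z ρ^(2^D) (exp ((2M)^d/2 log (q1 q2) + 3 (2M)^d/d^8) q^(2^D (2M)^(d-1)))^(2D)`;
the terms with `log (q1 q2)` cancel exactly.  Total exponent divided by `2^D`:
`3 D M^d/d^8 + 2 D (2M)^(d-1) log q ≤ 3 2^D m^d/D^7` for `D ≥ D₀` and `k ≥ k₀(D, q)`.
-/

set_option autoImplicit false

open Finset

namespace Pool.Agent.LO

/-- the surface term -/
noncomputable def SF (D k : ℕ) : ℝ := 3 * 2 ^ D * ((2 : ℝ) ^ k) ^ (D - 1) / (D : ℝ) ^ 7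

/-- `Adm4 (d+1)` implies `Adm2 d` -/
private theorem FF_adm {d q : ℕ} (hd : 1 ≤ d) (h : Adm4 (d + 1) q) : Adm2 d q := by
  obtain ⟨h1, h2, h3⟩ := h
  refine ⟨h1, h2, ?_⟩
  have hd' : (1 : ℝ) ≤ d := by exact_mod_cast hd
  have hl : Real.log d ≤ Real.log ((d + 1 : ℕ) : ℝ) := by
    apply Real.log_le_log (by linarith)
    push_cast
    linarith
  have hq : (0 : ℝ) ≤ q := Nat.cast_nonneg _
  have h4 : (q : ℝ) * (2000 * Real.log d) ≤ (q : ℝ) * (2000 * Real.log ((d + 1 : ℕ) : ℝ)) := by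
    apply mul_le_mul_of_nonneg_left _ hq
    linarith
  have h5 : (((d + 1 : ℕ) : ℕ) : ℝ) = d + 1 := by push_cast; ring
  rw [h5] at h3 h4
  have h6 : (q : ℝ) * (2000 * Real.log ((d : ℝ) + 1)) =
      (q : ℝ) * (4000 * Real.log ((d : ℝ) + 1)) / 2 := by ring
  linarith

/-- the final numerical inequality -/
private theorem FF_num {d q k : ℕ} (hd : 20 ≤ d) (hq : 2 ≤ q)
    (hk : (d + 1) ^ 8 * 2 ^ (d + 1) * q ≤ 2 ^ k) :
    2 * ((d : ℝ) + 1) * (3 * ((2 : ℝ) ^ (k + 2)) ^ d / (d : ℝ) ^ 8 +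
      (2 : ℝ) ^ (d + 1) * ((2 : ℝ) ^ (k + 2)) ^ (d - 1) * Real.log q) ≤
      (2 : ℝ) ^ (d + 1) * (3 * 2 ^ (d + 1) * ((2 : ℝ) ^ k) ^ d / ((d : ℝ) + 1) ^ 7) := by
  have hd' : (20 : ℝ) ≤ d := by exact_mod_cast hd
  have hd0 : (0 : ℝ) < d := by linarith
  have hD0 : (0 : ℝ) < (d : ℝ) + 1 := by linarith
  set m : ℝ := (2 : ℝ) ^ k with hm
  have hm0 : 0 < m := by positivity
  have hk' : ((d : ℝ) + 1) ^ 8 * 2 ^ (d + 1) * q ≤ m := by
    have : (((d + 1) ^ 8 * 2 ^ (d + 1) * q : ℕ) : ℝ) ≤ ((2 ^ k : ℕ) : ℝ) := by exact_mod_cast hk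
    push_cast at this
    exact this
  have h4 : (2 : ℝ) ^ (k + 2) = 4 * m := by rw [hm, pow_add]; ring
  rw [h4]
  obtain ⟨e, rfl⟩ : ∃ e, d = e + 1 := ⟨d - 1, by omega⟩
  simp only [Nat.add_sub_cancel]
  set D : ℝ := (((e + 1 : ℕ) : ℝ) + 1) with hD
  set x : ℝ := ((e + 1 : ℕ) : ℝ) with hx
  set A : ℝ := (4 * m) ^ (e + 1) with hA
  have hA0 : 0 < A := by positivity
  have hA' : (4 * m) ^ e = A / (4 * m) := by
    rw [hA, pow_succ]
    field_simp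
  have hR : (2 : ℝ) ^ (e + 1 + 1) * (3 * 2 ^ (e + 1 + 1) * m ^ (e + 1) / D ^ 7) = 12 * A / D ^ 7 := by
    have h1 : A = (2 : ℝ) ^ (e + 1) * 2 ^ (e + 1) * m ^ (e + 1) := by
      have h2 : (4 : ℝ) = 2 * 2 := by norm_num
      rw [hA, mul_pow, h2, mul_pow]
    rw [h1, pow_succ (2 : ℝ) (e + 1)]
    ring
  rw [hR, hA']
  -- the first term
  have h8 : D ^ 8 ≤ 3 / 2 * x ^ 8 := by
    have h1 : D ≤ 21 / 20 * x := by rw [hD]; linarith
    have h2 : D ^ 8 ≤ (21 / 20 * x) ^ 8 := pow_le_pow_left₀ hD0.le h1 8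
    rw [mul_pow] at h2
    have h3 : ((21 : ℝ) / 20) ^ 8 ≤ 3 / 2 := by norm_num
    have h5 : 0 < x ^ 8 := pow_pos hd0 8
    nlinarith
  have hT1 : 2 * D * (3 * A / x ^ 8) ≤ 9 * A / D ^ 7 := by
    rw [mul_div_assoc', div_le_div_iff₀ (pow_pos hd0 8) (pow_pos hD0 7)]
    have h1 : 2 * D * (3 * A) * D ^ 7 = 6 * A * D ^ 8 := by ring
    rw [h1]
    nlinarith
  -- the second term
  have hlq : Real.log q ≤ q := by
    have hq0 : (0 : ℝ) < q := by exact_mod_cast (by omega : 0 < q)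
    have := Real.log_le_sub_one_of_pos hq0
    linarith
  have hT2 : 2 * D * ((2 : ℝ) ^ (e + 1 + 1) * (A / (4 * m)) * Real.log q) ≤ 3 * A / D ^ 7 := by
    have h1 : 2 * D * ((2 : ℝ) ^ (e + 1 + 1) * (A / (4 * m)) * Real.log q) ≤
        2 * D * ((2 : ℝ) ^ (e + 1 + 1) * (A / (4 * m)) * q) := by
      apply mul_le_mul_of_nonneg_left _ (by positivity)
      exact mul_le_mul_of_nonneg_left hlq (by positivity)
    refine h1.trans ?_
    have h2 : 2 * D * ((2 : ℝ) ^ (e + 1 + 1) * (A / (4 * m)) * q) =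
        (2 * D * 2 ^ (e + 1 + 1) * q * A) / (4 * m) := by ring
    rw [h2, div_le_div_iff₀ (by positivity) (pow_pos hD0 7)]
    have h3 : 2 * D * 2 ^ (e + 1 + 1) * (q : ℝ) * A * D ^ 7 =
        2 * A * (D ^ 8 * 2 ^ (e + 1 + 1) * q) := by ring
    rw [h3]
    have h5 : 2 * A * (D ^ 8 * 2 ^ (e + 1 + 1) * q) ≤ 2 * A * m :=
      mul_le_mul_of_nonneg_left hk' (by positivity)
    have h6 : 0 < A * m := by positivity
    nlinarith
  have hsum : 9 * A / D ^ 7 + 3 * A / D ^ 7 = 12 * A / D ^ 7 := by ring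
  rw [mul_add]
  linarith

open scoped Classical in
/-- logarithmic form of the comparison with the torus -/
private theorem FF_nb {D k q : ℕ} (hD : 1 ≤ D) (hq : 2 ≤ q) (hL : 0 ≤ Real.log ((q1 q : ℝ) * q2 q)) :
    0 < NB D (k + 2) q ∧ Real.log (ZZ D (k + 2) q) +
      2 * D * (((2 : ℝ) ^ (k + 2)) ^ (D - 1) / 2 * Real.log ((q1 q : ℝ) * q2 q)) ≤
      2 ^ D * Real.log (NB D (k + 2) q) := by
  have hge := ZZ_ge (d := D) (k := k + 2) hD (by omega) hq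
  have hZ1 : 1 ≤ ZZ D (k + 2) q := by
    refine le_trans ?_ hge
    rw [Real.one_le_exp_iff]
    have : 0 ≤ NN D (k + 2) := by unfold NN; positivity
    positivity
  have hZ0 : 0 < ZZ D (k + 2) q := by linarith
  have hlZ : 0 ≤ Real.log (ZZ D (k + 2) q) := Real.log_nonneg hZ1
  have hn := nbl (d := D) (k := k + 1) (q := q) (by omega)
  have hn' : (ZZ D (k + 2) q) ^ ((2 ^ (k + 1) + 1) ^ D) ≤ (NB D (k + 2) q) ^ ((2 ^ (k + 2)) ^ D) := by
    unfold ZZ NB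
    exact_mod_cast hn
  have hNB0 : 0 < NB D (k + 2) q := by
    by_contra hcon
    have h0 : NB D (k + 2) q = 0 := by
      have : 0 ≤ NB D (k + 2) q := by unfold NB; positivity
      linarith
    rw [h0, zero_pow (by positivity)] at hn'
    have : 0 < (ZZ D (k + 2) q) ^ ((2 ^ (k + 1) + 1) ^ D) := pow_pos hZ0 _
    linarith
  refine ⟨hNB0, ?_⟩
  have hlog := Real.log_le_log (pow_pos hZ0 _) hn'
  rw [Real.log_pow, Real.log_pow] at hlog
  push_cast at hlog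
  set M : ℝ := (2 : ℝ) ^ (k + 1) with hM
  have hM0 : 0 < M := by positivity
  have hM2 : (2 : ℝ) ^ (k + 2) = 2 * M := by rw [hM]; ring
  rw [hM2] at hlog ⊢
  have hb : 1 + (D : ℝ) * (1 / M) ≤ (1 + 1 / M) ^ D :=
    one_add_mul_le_pow (by have : (0 : ℝ) < 1 / M := by positivity
                           linarith) D
  have h1 : (M + 1) ^ D = M ^ D * (1 + 1 / M) ^ D := by
    rw [← mul_pow]
    congr 1
    field_simp
  have h2 : (2 * M) ^ D = M ^ D * 2 ^ D := by rw [mul_pow]; ring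
  rw [h1, h2, mul_assoc, mul_assoc] at hlog
  have h3 := le_of_mul_le_mul_left hlog (pow_pos hM0 D)
  refine le_trans ?_ h3
  have h4 : (1 + (D : ℝ) * (1 / M)) * Real.log (ZZ D (k + 2) q) ≤
      (1 + 1 / M) ^ D * Real.log (ZZ D (k + 2) q) := mul_le_mul_of_nonneg_right hb hlZ
  refine le_trans ?_ h4
  have h5 : (2 * M) ^ D / 2 * Real.log ((q1 q : ℝ) * q2 q) ≤ Real.log (ZZ D (k + 2) q) := by
    have := Real.log_le_log (Real.exp_pos _) hge
    rw [Real.log_exp] at this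
    unfold NN at this
    rw [hM2] at this
    exact this
  have h6 : (D : ℝ) * (1 / M) * ((2 * M) ^ D / 2 * Real.log ((q1 q : ℝ) * q2 q)) ≤
      (D : ℝ) * (1 / M) * Real.log (ZZ D (k + 2) q) :=
    mul_le_mul_of_nonneg_left h5 (by positivity)
  have h7 : (D : ℝ) * (1 / M) * ((2 * M) ^ D / 2 * Real.log ((q1 q : ℝ) * q2 q)) =
      2 * D * ((2 * M) ^ (D - 1) / 2 * Real.log ((q1 q : ℝ) * q2 q)) := by
    obtain ⟨e, rfl⟩ : ∃ e, D = e + 1 := ⟨D - 1, by omega⟩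
    simp only [Nat.add_sub_cancel]
    rw [pow_succ (2 * M) e]
    field_simp
  rw [← h7]
  linarith

open scoped Classical in
theorem ff : ∃ D₀ : ℕ, ∀ D : ℕ, D₀ ≤ D → ∀ q : ℕ, Adm4 D q → ∃ k₀ : ℕ, ∀ k : ℕ, k₀ ≤ k →
    ∀ (E : (Site D (k + 2) → Fin q) → Prop) (ρ : ℝ), 0 ≤ ρ →
    (((prps D (k + 2) q).filter fun f => ∀ β : Bt D, E (fun x => f (fld β x))).card : ℝ) ≤
      ZZ D (k + 2) q * ρ ^ (2 ^ D) →
    (((sys D (k + 2) q univ).filter E).card : ℝ) ≤ NB D (k + 2) q * ρ * Real.exp (SF D k) := by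
  obtain ⟨d₀, hd₀⟩ := zz_le8
  refine ⟨max (d₀ + 1) 21, fun D hD q hA => ?_⟩
  obtain ⟨d, rfl⟩ : ∃ d, D = d + 1 := ⟨D - 1, by have := le_max_right (d₀ + 1) 21; omega⟩
  have hd1 : d₀ ≤ d := by have := le_max_left (d₀ + 1) 21; omega
  have hd20 : 20 ≤ d := by have := le_max_right (d₀ + 1) 21; omega
  have hq : 2 ≤ q := hA.1
  have hA2 : Adm2 d q := FF_adm (by omega) hA
  refine ⟨d ^ 9 + (d + 1) ^ 8 * 2 ^ (d + 1) * q, fun k hk E ρ hρ hE => ?_⟩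
  have hk1 : d ^ 9 ≤ 2 ^ (k + 2) := by
    have h1 : k < 2 ^ k := Nat.lt_two_pow_self
    have h2 : 2 ^ k ≤ 2 ^ (k + 2) := Nat.pow_le_pow_right (by norm_num) (by omega)
    have h3 : d ^ 9 ≤ k := le_trans (Nat.le_add_right _ _) hk
    omega
  have hk2 : (d + 1) ^ 8 * 2 ^ (d + 1) * q ≤ 2 ^ k := by
    have h1 : k < 2 ^ k := Nat.lt_two_pow_self
    have h3 : (d + 1) ^ 8 * 2 ^ (d + 1) * q ≤ k := le_trans (Nat.le_add_left _ _) hk
    omega
  have hz := hd₀ d hd1 q hA2 (k + 2) hk1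
  have hL : 0 ≤ Real.log ((q1 q : ℝ) * q2 q) := by
    apply Real.log_nonneg
    have h1 : 1 ≤ q1 q := by unfold q1; omega
    have h2 : 1 ≤ q2 q := by unfold q2; omega
    have h3 : 1 ≤ q1 q * q2 q := Nat.one_le_iff_ne_zero.2 (Nat.mul_ne_zero (by omega) (by omega))
    exact_mod_cast h3
  obtain ⟨hNB0, hNB⟩ := FF_nb (D := d + 1) (k := k) (q := q) (by omega) hq hL
  have hdbl := dbl (d := d) (k := k + 1) (q := q) (by omega) (by omega) (by omega) E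
  rcases Nat.eq_zero_or_pos (((sys (d + 1) (k + 2) q univ).filter E).card) with hn0 | hn0
  · rw [hn0, Nat.cast_zero]
    positivity
  have hn0' : (0 : ℝ) < (((sys (d + 1) (k + 2) q univ).filter E).card : ℝ) := by exact_mod_cast hn0
  set n : ℝ := (((sys (d + 1) (k + 2) q univ).filter E).card : ℝ) with hn
  have hdbl' : n ^ (2 ^ (d + 1)) ≤
      (((prps (d + 1) (k + 2) q).filter fun f => ∀ β : Bt (d + 1), E (fun x => f (fld β x))).card : ℝ) *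
        (ZZ d (k + 2) q * (q : ℝ) ^ (2 ^ (d + 1) * (2 ^ (k + 2)) ^ (d - 1))) ^ (2 * (d + 1)) := by
    rw [hn]
    unfold ZZ
    exact_mod_cast hdbl
  have hZd0 : 0 < ZZ d (k + 2) q :=
    lt_of_lt_of_le (Real.exp_pos _) (ZZ_ge (d := d) (k := k + 2) (by omega) (by omega) hq)
  have hZD0 : 0 < ZZ (d + 1) (k + 2) q :=
    lt_of_lt_of_le (Real.exp_pos _) (ZZ_ge (d := d + 1) (k := k + 2) (by omega) (by omega) hq)
  have hq0 : (0 : ℝ) < q := by exact_mod_cast (by omega : 0 < q)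
  have hB0 : 0 < (ZZ d (k + 2) q * (q : ℝ) ^ (2 ^ (d + 1) * (2 ^ (k + 2)) ^ (d - 1))) ^ (2 * (d + 1)) := by
    positivity
  have h1 : n ^ (2 ^ (d + 1)) ≤ ZZ (d + 1) (k + 2) q * ρ ^ (2 ^ (d + 1)) *
      (ZZ d (k + 2) q * (q : ℝ) ^ (2 ^ (d + 1) * (2 ^ (k + 2)) ^ (d - 1))) ^ (2 * (d + 1)) :=
    hdbl'.trans (mul_le_mul_of_nonneg_right hE hB0.le)
  have hρ0 : 0 < ρ := by
    rcases hρ.lt_or_eq with h | h
    · exact h
    · exfalso
      rw [← h, zero_pow (by positivity), mul_zero, zero_mul] at h1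
      have := pow_pos hn0' (2 ^ (d + 1))
      linarith
  have hlog := Real.log_le_log (pow_pos hn0' _) h1
  rw [Real.log_mul (by positivity) hB0.ne', Real.log_mul hZD0.ne' (by positivity), Real.log_pow,
    Real.log_pow, Real.log_pow, Real.log_mul hZd0.ne' (by positivity), Real.log_pow] at hlog
  push_cast at hlog
  have hlz := Real.log_le_log hZd0 hz
  rw [Real.log_exp] at hlz
  unfold NN at hlz
  have hnum := FF_num (d := d) (q := q) (k := k) hd20 hq hk2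
  have hSF : SF (d + 1) k = 3 * 2 ^ (d + 1) * ((2 : ℝ) ^ k) ^ d / ((d : ℝ) + 1) ^ 7 := by
    unfold SF
    push_cast
    rfl
  rw [← hSF] at hnum
  have hDD : ((d + 1 : ℕ) : ℝ) = (d : ℝ) + 1 := by push_cast; ring
  rw [hDD] at hNB
  simp only [Nat.add_sub_cancel] at hNB
  have hfin : (2 : ℝ) ^ (d + 1) * Real.log n ≤
      (2 : ℝ) ^ (d + 1) * (Real.log (NB (d + 1) (k + 2) q) + Real.log ρ + SF (d + 1) k) := by
    have h2 : 2 * ((d : ℝ) + 1) * Real.log (ZZ d (k + 2) q) ≤ 2 * ((d : ℝ) + 1) *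
        (((2 : ℝ) ^ (k + 2)) ^ d / 2 * Real.log ((q1 q : ℝ) * q2 q) +
          3 * ((2 : ℝ) ^ (k + 2)) ^ d / (d : ℝ) ^ 8) :=
      mul_le_mul_of_nonneg_left hlz (by positivity)
    nlinarith [hlog, h2, hnum, hNB]
  have hfin' := le_of_mul_le_mul_left hfin (by positivity)
  have hR0 : 0 < NB (d + 1) (k + 2) q * ρ * Real.exp (SF (d + 1) k) := by positivity
  rw [← Real.log_le_log_iff hn0' hR0, Real.log_mul (by positivity) (Real.exp_pos _).ne',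
    Real.log_mul hNB0.ne' hρ0.ne', Real.log_exp]
  exact hfin'

end Pool.Agent.LO
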