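import Pool.Agent.Lib_MP_2c424f_fb.Defs
import Pool.Agent.Lib_MP_2c424f_lo.Refl

/-!
# Folding (piece FOLD)
-/

set_option autoImplicit false

open Finset

namespace Pool.Agent.LO

variable {d k q : ℕ}

theorem th_th {d k : ℕ} (j : Fin d) (x : Site d k) : th j (th j x) = x := by
  unfold th
  rw [Function.update_idem, Function.update_self, neg_neg, Function.update_eq_self]

theorem th_eq_rs (j : Fin d) (x : Site d (k + 1)) : th j x = rs j 0 x := by
  unfold th rs
  rw [ZMod.val_zero, Nat.mul_zero, Nat.cast_zero, zero_sub]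

theorem ph_or (b : Bool) (a : ZMod (2 ^ (k + 1))) : ph b a = a ∨ ph b a = -a := by
  unfold ph
  split_ifs with h
  · exact Or.inl rfl
  · exact Or.inr rfl

/-- the middle is its own opposite -/
private theorem Fold_mid {a : ZMod (2 ^ (k + 1))} (h : a.val = 2 ^ k) : -a = a := by
  have h1 : a = ((2 ^ k : ℕ) : ZMod (2 ^ (k + 1))) := by
    rw [← h, ZMod.natCast_zmod_val]
  have h2 : a + a = 0 := by
    have h3 : ((2 ^ k + 2 ^ k : ℕ) : ZMod (2 ^ (k + 1))) = 0 := by
      have : 2 ^ k + 2 ^ k = 2 ^ (k + 1) := by rw [pow_succ]; ring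
      rw [this]
      exact ZMod.natCast_self _
    rw [Nat.cast_add, ← h1] at h3
    exact h3
  exact (eq_neg_of_add_eq_zero_left h2).symm

private theorem Fold_val_neg {a : ZMod (2 ^ (k + 1))} (h : a ≠ 0) : (-a).val + a.val = 2 ^ k + 2 ^ k := by
  have h1 : (-a).val = 2 ^ (k + 1) - a.val := by
    rw [ZMod.neg_val, if_neg h]
  have h2 := ZMod.val_lt a
  have h3 : 2 ^ (k + 1) = 2 ^ k + 2 ^ k := by rw [pow_succ]; ring
  omega

private theorem Fold_pos {b : Bool} {a : ZMod (2 ^ (k + 1))} (h : decide (a.val ≤ 2 ^ k) = b) : ph b a = a := by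
  unfold ph
  rw [if_pos h]

private theorem Fold_neg {b : Bool} {a : ZMod (2 ^ (k + 1))} (h : ¬ decide (a.val ≤ 2 ^ k) = b) :
    ph b a = -a := by
  unfold ph
  rw [if_neg h]

theorem ph_neg (b : Bool) (a : ZMod (2 ^ (k + 1))) : ph b (-a) = ph b a := by
  by_cases h0 : a = 0
  · rw [h0, neg_zero]
  have h1 := Fold_val_neg h0
  rcases lt_trichotomy a.val (2 ^ k) with h | h | h
  · have h2 : ¬ (-a).val ≤ 2 ^ k := by omega
    cases b
    · rw [Fold_pos (by simpa using h2), Fold_neg (by simp; omega)]
    · rw [Fold_neg (by simpa using h2), Fold_pos (by simp; omega), neg_neg]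
  · rw [Fold_mid h]
  · have h2 : (-a).val ≤ 2 ^ k := by omega
    cases b
    · rw [Fold_neg (by simpa using h2), Fold_pos (by simp; omega), neg_neg]
    · rw [Fold_pos (by simpa using h2), Fold_neg (by simp; omega)]

theorem ph_true_le (a : ZMod (2 ^ (k + 1))) : (ph true a).val ≤ 2 ^ k := by
  by_cases h : a.val ≤ 2 ^ k
  · rw [Fold_pos (by simpa using h)]
    exact h
  · rw [Fold_neg (by simpa using h)]
    by_cases h0 : a = 0
    · rw [h0, neg_zero, ZMod.val_zero]
      exact Nat.zero_le _
    · have h1 := Fold_val_neg h0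
      omega

theorem ph_true_of_le {a : ZMod (2 ^ (k + 1))} (h : a.val ≤ 2 ^ k) : ph true a = a :=
  Fold_pos (by simpa using h)

theorem ph_false (a : ZMod (2 ^ (k + 1))) : ph false a = -ph true a := by
  by_cases h : a.val ≤ 2 ^ k
  · rw [Fold_pos (b := true) (by simpa using h), Fold_neg (by simpa using h)]
  · rw [Fold_neg (b := true) (by simpa using h), Fold_pos (b := false) (by simpa using h), neg_neg]

/-- the second half: `a = 0` or `2^k ≤ a.val` -/
theorem ph_false_of_ge {a : ZMod (2 ^ (k + 1))} (h : a = 0 ∨ 2 ^ k ≤ a.val) : ph false a = a := by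
  rcases h with h | h
  · rcases ph_or false a with h1 | h1
    · exact h1
    · rw [h1, h, neg_zero]
  · rcases h.eq_or_lt with h | h
    · rcases ph_or false a with h1 | h1
      · exact h1
      · rw [h1, Fold_mid h.symm]
    · exact Fold_pos (by simpa using h)

/-- a step is mapped to a step in the same direction -/
theorem ph_step (b : Bool) (a : ZMod (2 ^ (k + 1))) : ph b (a + 1) = ph b a + 1 ∨ ph b (a + 1) = ph b a - 1 := by
  have key : a.val = 2 ^ k ∨ a + 1 = 0 ∨ (a.val ≤ 2 ^ k ↔ (a + 1).val ≤ 2 ^ k) := by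
    by_cases h0 : a + 1 = 0
    · exact Or.inr (Or.inl h0)
    · have h1 : (a + 1).val = a.val + 1 := by
        have h2 : a.val + 1 < 2 ^ (k + 1) := by
          have h3 := ZMod.val_lt a
          rcases Nat.lt_or_ge (a.val + 1) (2 ^ (k + 1)) with h4 | h4
          · exact h4
          · exfalso
            apply h0
            have h5 : a.val + 1 = 2 ^ (k + 1) := by omega
            have h6 : ((a.val + 1 : ℕ) : ZMod (2 ^ (k + 1))) = 0 := by
              rw [h5]
              exact ZMod.natCast_self _
            rw [Nat.cast_add, ZMod.natCast_zmod_val, Nat.cast_one] at h6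
            exact h6
        have h3 : a + 1 = ((a.val + 1 : ℕ) : ZMod (2 ^ (k + 1))) := by
          rw [Nat.cast_add, ZMod.natCast_zmod_val, Nat.cast_one]
        rw [h3, ZMod.val_natCast, Nat.mod_eq_of_lt h2]
      by_cases h2 : a.val = 2 ^ k
      · exact Or.inl h2
      · refine Or.inr (Or.inr ?_)
        rw [h1]
        constructor
        · intro h; omega
        · intro h; omega
  rcases key with h | h | h
  · have h1 := Fold_mid h
    have h2 : ph b a = a := by
      rcases ph_or b a with h3 | h3
      · exact h3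
      · rw [h3, h1]
    rw [h2]
    rcases ph_or b (a + 1) with h3 | h3
    · exact Or.inl h3
    · right
      rw [h3, neg_add, h1]
      ring
  · have h1 : a = -1 := eq_neg_of_add_eq_zero_left h
    have h2 : ph b (a + 1) = 0 := by
      rcases ph_or b (a + 1) with h3 | h3
      · rw [h3, h]
      · rw [h3, h, neg_zero]
    rw [h2]
    rcases ph_or b a with h3 | h3
    · left
      rw [h3, h]
    · right
      rw [h3, h1]
      ring
  · have h1 : decide (a.val ≤ 2 ^ k) = decide ((a + 1).val ≤ 2 ^ k) := by
      rw [Bool.eq_iff_iff]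
      simpa using h
    by_cases h2 : decide (a.val ≤ 2 ^ k) = b
    · left
      rw [Fold_pos h2, Fold_pos (by rw [← h1]; exact h2)]
    · right
      rw [Fold_neg h2, Fold_neg (by rw [← h1]; exact h2), neg_add]
      ring

theorem fld_th (β : Bt d) (j : Fin d) (x : Site d (k + 1)) : fld β (th j x) = fld β x := by
  funext i
  unfold fld th
  by_cases hi : i = j
  · subst hi
    rw [Function.update_self, ph_neg]
  · rw [Function.update_of_ne hi]

private theorem Fold_step (b : Bool) (a : ZMod (2 ^ (k + 1))) (c : Bool) :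
    ∃ c' : Bool, ph b (a + (if c then 1 else -1)) = ph b a + (if c' then 1 else -1) := by
  cases c
  · have h := ph_step b (a + -1)
    rw [neg_add_cancel_right] at h
    rcases h with h | h
    · refine ⟨false, ?_⟩
      simp only [Bool.false_eq_true, if_false]
      rw [h]
      ring
    · refine ⟨true, ?_⟩
      simp only [Bool.false_eq_true, if_false, if_true]
      rw [h]
      ring
  · rcases ph_step b a with h | h
    · refine ⟨true, ?_⟩
      simp only [if_true]
      exact h
    · refine ⟨false, ?_⟩
      simp only [Bool.false_eq_true, if_false, if_true]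
      rw [h]
      ring

private theorem Fold_fld_step (β : Bt d) (x : Site d (k + 1)) (σ : Stp d) :
    ∃ τ : Stp d, fld β (x + sv σ) = fld β x + sv τ := by
  obtain ⟨j, c⟩ := σ
  obtain ⟨c', hc'⟩ := Fold_step (β j) (x j) c
  refine ⟨(j, c'), ?_⟩
  funext i
  show ph (β i) (x i + (sv (j, c) : Site d (k + 1)) i) = ph (β i) (x i) + (sv (j, c') : Site d (k + 1)) i
  by_cases hi : i = j
  · subst hi
    unfold sv
    rw [Pi.single_eq_same, Pi.single_eq_same]
    exact hc'
  · unfold sv
    rw [Pi.single_eq_of_ne hi, Pi.single_eq_of_ne hi, add_zero, add_zero]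

private theorem Fold_mem_sys {d k q : ℕ} {S : Finset (Fin d)} {f : Site d k → Fin q} :
    f ∈ sys d k q S ↔ Prp f ∧ ∀ j ∈ S, ∀ x, f (th j x) = f x := by
  unfold sys prps
  simp only [mem_filter, mem_univ, true_and]

/-- folding gives a symmetric proper colouring -/
theorem fld_sys {f : Site d (k + 1) → Fin q} (hf : f ∈ prps d (k + 1) q) (β : Bt d) :
    (fun x => f (fld β x)) ∈ sys d (k + 1) q univ := by
  rw [Fold_mem_sys]
  have hP : Prp f := by
    unfold prps at hf
    simpa using hf
  refine ⟨?_, ?_⟩
  · intro x σ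
    obtain ⟨τ, hτ⟩ := Fold_fld_step β x σ
    show f (fld β (x + sv σ)) ≠ f (fld β x)
    rw [hτ]
    exact hP _ _
  · intro j _ x
    show f (fld β (th j x)) = f (fld β x)
    rw [fld_th]

private theorem Fold_ind {d k q : ℕ} {S : Finset (Fin d)} {f : Site d k → Fin q}
    (hf : ∀ j ∈ S, ∀ x, f (th j x) = f x) (T : Finset (Fin d)) :
    T ⊆ S → ∀ y y' : Site d k, (∀ j ∈ T, y' j = -y j) → (∀ j, j ∉ T → y' j = y j) → f y' = f y := by
  classical
  induction T using Finset.induction_on with
  | empty =>
    intro _ y y' _ h2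
    have : y' = y := funext fun j => h2 j (Finset.notMem_empty j)
    rw [this]
  | insert i T hi ih =>
    intro hT y y' h1 h2
    have hiS : i ∈ S := hT (Finset.mem_insert_self i T)
    have h3 : f y' = f (th i y) := by
      apply ih (fun j hj => hT (Finset.mem_insert_of_mem hj))
      · intro j hj
        have hji : j ≠ i := fun h => hi (h ▸ hj)
        unfold th
        rw [Function.update_of_ne hji]
        exact h1 j (Finset.mem_insert_of_mem hj)
      · intro j hj
        unfold th
        by_cases hji : j = i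
        · subst hji
          rw [Function.update_self]
          exact h1 j (Finset.mem_insert_self j T)
        · rw [Function.update_of_ne hji]
          apply h2
          rw [Finset.mem_insert]
          rintro (h | h)
          · exact hji h
          · exact hj h
    rw [h3, hf i hiS]

private theorem Fold_rel {d k q : ℕ} {S : Finset (Fin d)} {f : Site d k → Fin q}
    (hf : ∀ j ∈ S, ∀ x, f (th j x) = f x) (y y' : Site d k)
    (h : ∀ j, y' j = y j ∨ (j ∈ S ∧ y' j = -y j)) : f y' = f y := by
  classical
  refine Fold_ind hf (S.filter fun j => y' j = -y j) (Finset.filter_subset _ _) y y' ?_ ?_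
  · intro j hj
    exact (Finset.mem_filter.mp hj).2
  · intro j hj
    rcases h j with h1 | ⟨h1, h2⟩
    · exact h1
    · exact absurd (Finset.mem_filter.mpr ⟨h1, h2⟩) hj

/-- symmetric colourings do not see the folding in the symmetric directions -/
theorem sys_fld {S : Finset (Fin d)} {f : Site d (k + 1) → Fin q} (hf : f ∈ sys d (k + 1) q S) (β β' : Bt d)
    (h : ∀ j, j ∉ S → β j = β' j) (x : Site d (k + 1)) : f (fld β x) = f (fld β' x) := by
  rw [Fold_mem_sys] at hf
  apply Fold_rel hf.2
  intro j
  show ph (β j) (x j) = ph (β' j) (x j) ∨ (j ∈ S ∧ ph (β j) (x j) = -ph (β' j) (x j))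
  by_cases hj : j ∈ S
  · rcases ph_or (β j) (x j) with h1 | h1 <;> rcases ph_or (β' j) (x j) with h2 | h2
    · left; rw [h1, h2]
    · right; refine ⟨hj, ?_⟩; rw [h1, h2, neg_neg]
    · right; refine ⟨hj, ?_⟩; rw [h1, h2]
    · left; rw [h1, h2]
  · left
    rw [h j hj]

/-- the restriction to the orthant determines a symmetric colouring -/
theorem sys_fld_true {f : Site d (k + 1) → Fin q} (hf : f ∈ sys d (k + 1) q univ) (β : Bt d)
    (x : Site d (k + 1)) : f (fld β x) = f x := by
  rw [Fold_mem_sys] at hf
  apply Fold_rel hf.2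
  intro j
  rcases ph_or (β j) (x j) with h1 | h1
  · left; exact h1
  · right; exact ⟨mem_univ _, h1⟩

theorem sys_mono {S S' : Finset (Fin d)} (h : S ⊆ S') : sys d k q S' ⊆ sys d k q S := by
  intro f hf
  rw [Fold_mem_sys] at hf ⊢
  exact ⟨hf.1, fun j hj => hf.2 j (h hj)⟩

theorem sys_empty : sys d k q ∅ = prps d k q := by
  ext f
  rw [Fold_mem_sys]
  unfold prps
  simp

end Pool.Agent.LO
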