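import Pool.Agent.Lib_MP_2c424f_fb.Defs

/-!
# Few edges imply almost constant (piece LINE)

Let `N₀, N₁` be the numbers of the points with `g = 0`, `g = 1`.  For a pair `s, s'` with `g s ≠ g s'` let
`h_j = (s'_1, …, s'_j, s_{j+1}, …, s_D)`; for some `j`, `g h_{j-1} ≠ g h_j`, and these two points are on one line in the
direction `j`, so this line contains an edge of `g`.  For each edge (line) and `j` there are at most `m * m^D` such
pairs.  So `2 N₀ N₁ ≤ n m^(D+1)`, and `max (N₀, N₁) ≥ m^D/2`.
-/

set_option autoImplicit false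

open Finset

namespace Pool.Agent.LO

variable {D m : ℕ}

/-- a nonconstant function on an interval has a step -/
private theorem Line_step {α : Type*} (φ : Fin m → α) (x y : Fin m) (h : φ x ≠ φ y) :
    ∃ v v' : Fin m, v'.val = v.val + 1 ∧ φ v ≠ φ v' := by
  by_contra hcon
  push Not at hcon
  have key : ∀ (a : ℕ) (ha : a < m), φ ⟨a, ha⟩ = φ ⟨0, by omega⟩ := by
    intro a
    induction a with
    | zero => intro ha; rfl
    | succ a ih =>
      intro ha
      rw [← ih (by omega)]
      exact (hcon ⟨a, by omega⟩ ⟨a + 1, ha⟩ rfl).symm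
  exact h ((key x.val x.isLt).trans (key y.val y.isLt).symm)

/-- the hybrid argument -/
private theorem Line_edge (g : Gr D m → ZMod 2) (s s' : Gr D m) (h : g s ≠ g s') :
    ∃ (j : Fin D) (t t' : Gr D m), gnb j t t' ∧ g t ≠ g t' ∧ (∀ i, i < j → t i = s' i) ∧
      ∀ i, j < i → t i = s i := by
  obtain ⟨H, hH⟩ : ∃ H : ℕ → Gr D m, ∀ a i, H a i = if i.val < a then s' i else s i :=
    ⟨fun a i => if i.val < a then s' i else s i, fun _ _ => rfl⟩
  have h0 : H 0 = s := by
    funext i
    rw [hH, if_neg (Nat.not_lt_zero _)]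
  have hD : H D = s' := by
    funext i
    rw [hH, if_pos i.isLt]
  have hex : ∃ a, a < D ∧ g (H a) ≠ g (H (a + 1)) := by
    by_contra hcon
    push Not at hcon
    have key : ∀ a, a ≤ D → g (H a) = g (H 0) := by
      intro a
      induction a with
      | zero => intro _; rfl
      | succ a ih =>
        intro ha
        rw [← ih (by omega)]
        exact (hcon a (by omega)).symm
    apply h
    rw [← h0, ← hD]
    exact (key D le_rfl).symm
  obtain ⟨a, ha, hga⟩ := hex
  obtain ⟨j, hj⟩ : ∃ j : Fin D, j = ⟨a, ha⟩ := ⟨_, rfl⟩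
  have hjv : j.val = a := by rw [hj]
  have e1 : H a = Function.update (H a) j (s j) := by
    funext i
    by_cases hi : i = j
    · subst hi
      rw [Function.update_self, hH, if_neg (by omega)]
    · rw [Function.update_of_ne hi]
  have e2 : H (a + 1) = Function.update (H a) j (s' j) := by
    funext i
    by_cases hi : i = j
    · subst hi
      rw [Function.update_self, hH, if_pos (by omega)]
    · rw [Function.update_of_ne hi, hH, hH]
      have hne : i.val ≠ a := fun h => hi (Fin.ext (by omega))
      by_cases hlt : i.val < a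
      · rw [if_pos (by omega), if_pos hlt]
      · rw [if_neg (by omega), if_neg hlt]
  obtain ⟨v, v', hv, hg⟩ := Line_step (fun v => g (Function.update (H a) j v)) (s j) (s' j) (by
    rw [← e1, ← e2]; exact hga)
  refine ⟨j, Function.update (H a) j v, Function.update (H a) j v', ⟨?_, ?_⟩, hg, ?_, ?_⟩
  · rw [Function.update_self, Function.update_self, hv]
  · intro i hi
    rw [Function.update_of_ne hi, Function.update_of_ne hi]
  · intro i hi
    rw [Function.update_of_ne (ne_of_lt hi), hH, if_pos]
    have : i.val < j.val := hi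
    omega
  · intro i hi
    rw [Function.update_of_ne (ne_of_gt hi), hH, if_neg]
    have : j.val < i.val := hi
    omega

open scoped Classical in
private theorem Line_pairs (g : Gr D m → ZMod 2) (n : ℕ)
    (hn : ((univ : Finset (Fin D × Gr D m × Gr D m)).filter fun p =>
      gnb p.1 p.2.1 p.2.2 ∧ g p.2.1 ≠ g p.2.2).card ≤ n) :
    ((univ : Finset (Gr D m × Gr D m)).filter fun p => g p.1 ≠ g p.2).card ≤
      n * (m ^ D * m) := by
  obtain ⟨ψ, hψ⟩ : ∃ ψ : (Fin D × Gr D m × Gr D m) × (Gr D m × Fin m) → Gr D m × Gr D m,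
      ∀ z, ψ z = (fun i => if i ≤ z.1.1 then z.2.1 i else z.1.2.1 i,
        fun i => if i < z.1.1 then z.1.2.1 i else if i = z.1.1 then z.2.2 else z.2.1 i) :=
    ⟨_, fun _ => rfl⟩
  have hsub : ((univ : Finset (Gr D m × Gr D m)).filter fun p => g p.1 ≠ g p.2) ⊆
      (((univ : Finset (Fin D × Gr D m × Gr D m)).filter fun p =>
        gnb p.1 p.2.1 p.2.2 ∧ g p.2.1 ≠ g p.2.2) ×ˢ
          (univ : Finset (Gr D m × Fin m))).image ψ := by
    rintro ⟨s, s'⟩ hp
    have hp' : g s ≠ g s' := (Finset.mem_filter.1 hp).2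
    obtain ⟨j, t, t', h1, h2, h3, h4⟩ := Line_edge g s s' hp'
    refine Finset.mem_image.2 ⟨((j, t, t'), (fun i => if i ≤ j then s i else s' i, s' j)), ?_, ?_⟩
    · rw [Finset.mem_product]
      exact ⟨Finset.mem_filter.2 ⟨Finset.mem_univ _, h1, h2⟩, Finset.mem_univ _⟩
    · rw [hψ]
      refine Prod.ext (funext fun i => ?_) (funext fun i => ?_)
      · by_cases hi : i ≤ j
        · simp [hi]
        · simp only [hi, if_false]
          exact h4 i (not_le.1 hi)
      · rcases lt_trichotomy i j with hi | hi | hi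
        · simp only [hi, if_true]
          exact h3 i hi
        · simp [hi]
        · simp only [not_lt.2 hi.le, if_false, ne_of_gt hi, not_le.2 hi]
  refine (Finset.card_le_card hsub).trans (Finset.card_image_le.trans ?_)
  rw [Finset.card_product]
  refine Nat.mul_le_mul hn (le_of_eq ?_)
  rw [Finset.card_univ, Fintype.card_prod, Fintype.card_fun, Fintype.card_fin, Fintype.card_fin]

private theorem Line_two (a : ZMod 2) : a ≠ 0 ↔ ¬ a ≠ 1 := by
  revert a
  decide

open scoped Classical in
theorem gline (g : Gr D m → ZMod 2) (n : ℕ)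
    (hn : ((univ : Finset (Fin D × Gr D m × Gr D m)).filter fun p =>
      gnb p.1 p.2.1 p.2.2 ∧ g p.2.1 ≠ g p.2.2).card ≤ n) :
    ∃ ℓ : ZMod 2, (univ.filter fun s => g s ≠ ℓ).card ≤ n * m := by
  have hP := Line_pairs g n hn
  obtain ⟨B, hB⟩ : ∃ B : ℕ, B = (univ.filter fun s => g s ≠ 0).card := ⟨_, rfl⟩
  obtain ⟨B', hB'⟩ : ∃ B' : ℕ, B' = (univ.filter fun s => g s ≠ 1).card := ⟨_, rfl⟩
  have hsum : B + B' = m ^ D := by
    have h1 := Finset.card_filter_add_card_filter_not (s := (univ : Finset (Gr D m)))
      (fun s => g s ≠ 1)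
    have h2 : (univ.filter fun s => g s ≠ 0) = (univ.filter fun s => ¬ g s ≠ 1) :=
      Finset.filter_congr fun s _ => Line_two _
    rw [hB, hB', h2, add_comm, h1, Finset.card_univ, Fintype.card_fun, Fintype.card_fin,
      Fintype.card_fin]
  have h2 : B * B' + B' * B ≤ ((univ : Finset (Gr D m × Gr D m)).filter
      fun p => g p.1 ≠ g p.2).card := by
    rw [hB, hB', ← Finset.card_product, ← Finset.card_product, ← Finset.card_union_of_disjoint]
    · refine Finset.card_le_card ?_
      rintro ⟨s, s'⟩ hp
      rw [Finset.mem_filter]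
      refine ⟨Finset.mem_univ _, ?_⟩
      rcases Finset.mem_union.1 hp with h | h
      · rw [Finset.mem_product, Finset.mem_filter, Finset.mem_filter] at h
        intro heq
        have h3 := (Line_two _).1 h.1.2
        rw [not_not] at h3
        exact h.2.2 (heq ▸ h3)
      · rw [Finset.mem_product, Finset.mem_filter, Finset.mem_filter] at h
        intro heq
        have h3 := (Line_two _).1 h.2.2
        rw [not_not] at h3
        exact h.1.2 (heq ▸ h3)
    · rw [Finset.disjoint_left]
      rintro ⟨s, s'⟩ h1 h3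
      rw [Finset.mem_product, Finset.mem_filter, Finset.mem_filter] at h1 h3
      exact (Line_two _).1 h1.1.2 h3.1.2
  have h3 : 2 * (B * B') ≤ n * (m ^ D * m) := by
    have h4 := h2.trans hP
    have h5 : B' * B = B * B' := mul_comm _ _
    omega
  have key : ∀ a b : ℕ, a + b = m ^ D → a ≤ b → 2 * (a * b) ≤ n * (m ^ D * m) → a ≤ n * m := by
    intro a b hab hle h
    rcases Nat.eq_zero_or_pos (m ^ D) with h0 | h0
    · have : a = 0 := by omega
      rw [this]
      exact Nat.zero_le _
    · have h4 : a * m ^ D ≤ 2 * (a * b) := by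
        rw [← hab, mul_add]
        have : a * a ≤ a * b := Nat.mul_le_mul_left a hle
        omega
      have h5 : a * m ^ D ≤ (n * m) * m ^ D := by
        calc a * m ^ D ≤ n * (m ^ D * m) := h4.trans h
          _ = (n * m) * m ^ D := by ring
      exact Nat.le_of_mul_le_mul_right h5 h0
  rcases le_total B B' with hle | hle
  · exact ⟨0, by rw [← hB]; exact key B B' hsum hle h3⟩
  · refine ⟨1, ?_⟩
    rw [← hB']
    refine key B' B (by omega) hle ?_
    rw [mul_comm B' B]
    exact h3

end Pool.Agent.LO
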