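import Pool.Agent.Lib_MP_2c424f_fb.Ray
import Pool.Agent.Lib_MP_2c424f_fb.Line

/-!
# Good blocks have almost the same label (piece TOPO)

`lam' = lam + ∑ φ_C` over the components with `|C| < K ≤ m` (`ray`).  For an edge `e` with `δ lam e ≠ 0` one end is
in `B`; two ends in `B` are in the same component; so `δ lam' e ≠ 0` only if an end is in a component with
`|C| ≥ K`: at most `2 D n_large` edges, `gline`.  `lam' = lam` off `∑_small |C|^D` points, `|B| ≤ n_large + ∑_small |C|`.
-/

set_option autoImplicit false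

open Finset

namespace Pool.Agent.LO

variable {D m : ℕ}

private lemma topo_gst_refl (s : Gr D m) : gst s s := fun j => ⟨Nat.le_succ _, Nat.le_succ _⟩

private lemma topo_gst_symm {s s' : Gr D m} (h : gst s s') : gst s' s := fun j => ⟨(h j).2, (h j).1⟩

private lemma topo_gst_of_gnb {j : Fin D} {s s' : Gr D m} (h : gnb j s s') : gst s s' := by
  intro i
  by_cases hi : i = j
  · subst hi
    have := h.1
    constructor <;> omega
  · rw [h.2 i hi]
    constructor <;> omega

private lemma topo_gnb_right {j : Fin D} {s t t' : Gr D m} (h : gnb j s t) (h' : gnb j s t') : t = t' := by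
  funext i
  by_cases hi : i = j
  · subst hi
    apply Fin.ext
    rw [h.1, h'.1]
  · rw [h.2 i hi, h'.2 i hi]

private lemma topo_gnb_left {j : Fin D} {s t t' : Gr D m} (h : gnb j t s) (h' : gnb j t' s) : t = t' := by
  funext i
  by_cases hi : i = j
  · subst hi
    apply Fin.ext
    have := h.1
    have := h'.1
    omega
  · rw [← h.2 i hi, ← h'.2 i hi]

private lemma topo_two (a : ZMod 2) : a + a = 0 := CharTwo.add_self_eq_zero a

private lemma topo_eq {a b : ZMod 2} (h : a + b = 0) : a = b := by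
  have := eq_neg_of_add_eq_zero_left h
  rw [CharTwo.neg_eq] at this
  exact this

open scoped Classical in
/-- number of edges with an end in `L` -/
private lemma topo_edges (L : Finset (Gr D m)) :
    ((univ : Finset (Fin D × Gr D m × Gr D m)).filter fun p =>
      gnb p.1 p.2.1 p.2.2 ∧ (p.2.1 ∈ L ∨ p.2.2 ∈ L)).card ≤ 2 * D * L.card := by
  have h1 : ((univ : Finset (Fin D × Gr D m × Gr D m)).filter fun p =>
      gnb p.1 p.2.1 p.2.2 ∧ p.2.1 ∈ L).card ≤ D * L.card := by
    have : ((univ : Finset (Fin D × Gr D m × Gr D m)).filter fun p =>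
        gnb p.1 p.2.1 p.2.2 ∧ p.2.1 ∈ L).card ≤ ((univ : Finset (Fin D)) ×ˢ L).card := by
      apply Finset.card_le_card_of_injOn (fun p => (p.1, p.2.1))
      · intro p hp
        have hp' := (Finset.mem_filter.1 (Finset.mem_coe.1 hp)).2
        exact Finset.mem_coe.2 (Finset.mem_product.2 ⟨Finset.mem_univ _, hp'.2⟩)
      · rintro ⟨j, s, t⟩ hp ⟨j', s', t'⟩ hp' heq
        have hp1 := (Finset.mem_filter.1 (Finset.mem_coe.1 hp)).2
        have hp2 := (Finset.mem_filter.1 (Finset.mem_coe.1 hp')).2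
        simp only [Prod.mk.injEq] at heq
        obtain ⟨rfl, rfl⟩ := heq
        have := topo_gnb_right hp1.1 hp2.1
        simp only at this
        rw [this]
    simpa [Finset.card_product] using this
  have h2 : ((univ : Finset (Fin D × Gr D m × Gr D m)).filter fun p =>
      gnb p.1 p.2.1 p.2.2 ∧ p.2.2 ∈ L).card ≤ D * L.card := by
    have : ((univ : Finset (Fin D × Gr D m × Gr D m)).filter fun p =>
        gnb p.1 p.2.1 p.2.2 ∧ p.2.2 ∈ L).card ≤ ((univ : Finset (Fin D)) ×ˢ L).card := by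
      apply Finset.card_le_card_of_injOn (fun p => (p.1, p.2.2))
      · intro p hp
        have hp' := (Finset.mem_filter.1 (Finset.mem_coe.1 hp)).2
        exact Finset.mem_coe.2 (Finset.mem_product.2 ⟨Finset.mem_univ _, hp'.2⟩)
      · rintro ⟨j, s, t⟩ hp ⟨j', s', t'⟩ hp' heq
        have hp1 := (Finset.mem_filter.1 (Finset.mem_coe.1 hp)).2
        have hp2 := (Finset.mem_filter.1 (Finset.mem_coe.1 hp')).2
        simp only [Prod.mk.injEq] at heq
        obtain ⟨rfl, rfl⟩ := heq
        have := topo_gnb_left hp1.1 hp2.1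
        simp only at this
        rw [this]
    simpa [Finset.card_product] using this
  have h3 : ((univ : Finset (Fin D × Gr D m × Gr D m)).filter fun p =>
      gnb p.1 p.2.1 p.2.2 ∧ (p.2.1 ∈ L ∨ p.2.2 ∈ L)) ⊆
      ((univ : Finset (Fin D × Gr D m × Gr D m)).filter fun p =>
      gnb p.1 p.2.1 p.2.2 ∧ p.2.1 ∈ L) ∪ ((univ : Finset (Fin D × Gr D m × Gr D m)).filter fun p =>
      gnb p.1 p.2.1 p.2.2 ∧ p.2.2 ∈ L) := by
    intro p hp
    have hp' := (Finset.mem_filter.1 hp).2
    rw [Finset.mem_union, Finset.mem_filter, Finset.mem_filter]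
    rcases hp'.2 with h | h
    · exact Or.inl ⟨Finset.mem_univ _, hp'.1, h⟩
    · exact Or.inr ⟨Finset.mem_univ _, hp'.1, h⟩
  calc _ ≤ _ := Finset.card_le_card h3
    _ ≤ _ := Finset.card_union_le _ _
    _ ≤ D * L.card + D * L.card := Nat.add_le_add h1 h2
    _ = 2 * D * L.card := by ring

open scoped Classical in
theorem gtopo (hD : 2 ≤ D) (B : Finset (Gr D m)) (𝒞 : Finset (Finset (Gr D m))) (h𝒞 : GComp B 𝒞)
    (K : ℕ) (hK : K ≤ m) (lam : Gr D m → ZMod 2)
    (hlam : ∀ (j : Fin D) (s s' : Gr D m), gnb j s s' → s ∉ B → s' ∉ B → lam s = lam s') :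
    ∃ ℓ : ZMod 2, (univ.filter fun s => s ∈ B ∨ lam s ≠ ℓ).card ≤
      3 * D * m * ∑ C ∈ 𝒞.filter (fun C => K ≤ C.card), C.card +
        2 * ∑ C ∈ 𝒞.filter (fun C => C.card < K), C.card ^ D := by
  -- the case `m = 0`
  rcases Nat.eq_zero_or_pos m with hm0 | hmpos
  · subst hm0
    refine ⟨0, ?_⟩
    have : (univ.filter fun s : Gr D 0 => s ∈ B ∨ lam s ≠ 0) = ∅ := by
      apply Finset.filter_eq_empty_iff.2
      intro s
      exact (Fin.elim0 (s ⟨0, by omega⟩))
    rw [this]
    simp
  -- the functions `φ_C`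
  have hray : ∀ C : Finset (Gr D m), ∃ φ : Gr D m → ZMod 2, C ∈ 𝒞 → C.card < K →
      (∀ (j : Fin D) (s s' : Gr D m), gnb j s s' →
        φ s + φ s' = if s ∈ C ∨ s' ∈ C then lam s + lam s' else 0) ∧
      (univ.filter fun s => φ s ≠ 0).card ≤ C.card ^ D := by
    intro C
    by_cases hC : C ∈ 𝒞 ∧ C.card < K
    · obtain ⟨φ, h1, h2⟩ := ray hD B C (h𝒞.cn C hC.1) (h𝒞.sub C hC.1) (lt_of_lt_of_le hC.2 hK)
        (by
          intro s hs s' hs' hss
          obtain ⟨C', hC', hsC'⟩ := h𝒞.cov s' hs'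
          have := h𝒞.sep C hC.1 C' hC' s hs s' hsC' hss
          rw [this]; exact hsC') lam hlam
      exact ⟨φ, fun _ _ => ⟨h1, h2⟩⟩
    · exact ⟨0, fun h1 h2 => absurd ⟨h1, h2⟩ hC⟩
  choose φ hφ using hray
  set S : Finset (Finset (Gr D m)) := 𝒞.filter (fun C => C.card < K) with hS
  set T : Finset (Finset (Gr D m)) := 𝒞.filter (fun C => K ≤ C.card) with hT
  set L : Finset (Gr D m) := T.biUnion id with hL
  set lam' : Gr D m → ZMod 2 := fun s => lam s + ∑ C ∈ S, φ C s with hlam'
  have hLcard : L.card ≤ ∑ C ∈ T, C.card := by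
    rw [hL]
    exact Finset.card_biUnion_le
  -- edges of `lam'`
  have hedge : ∀ (j : Fin D) (s s' : Gr D m), gnb j s s' → s ∉ L → s' ∉ L → lam' s = lam' s' := by
    intro j s s' hj hs hs'
    apply topo_eq
    have hsum : lam' s + lam' s' = (lam s + lam s') +
        ∑ C ∈ S, (if s ∈ C ∨ s' ∈ C then lam s + lam s' else 0) := by
      have : ∑ C ∈ S, (if s ∈ C ∨ s' ∈ C then lam s + lam s' else 0) =
          ∑ C ∈ S, φ C s + ∑ C ∈ S, φ C s' := by
        rw [← Finset.sum_add_distrib]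
        apply Finset.sum_congr rfl
        intro C hC
        have hC' := Finset.mem_filter.1 hC
        exact ((hφ C hC'.1 hC'.2).1 j s s' hj).symm
      rw [this, hlam']
      ring
    rw [hsum]
    by_cases hB : s ∈ B ∨ s' ∈ B
    · -- the unique component which contains `s` or `s'`
      have hex : ∃ C ∈ 𝒞, s ∈ C ∨ s' ∈ C := by
        rcases hB with h | h
        · obtain ⟨C, hC, hsC⟩ := h𝒞.cov s h
          exact ⟨C, hC, Or.inl hsC⟩
        · obtain ⟨C, hC, hsC⟩ := h𝒞.cov s' h
          exact ⟨C, hC, Or.inr hsC⟩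
      obtain ⟨C₀, hC₀, hmem⟩ := hex
      have huniq : ∀ C ∈ 𝒞, (s ∈ C ∨ s' ∈ C) → C = C₀ := by
        intro C hC hCm
        rcases hCm with h | h <;> rcases hmem with h' | h'
        · exact h𝒞.sep C hC C₀ hC₀ s h s h' (topo_gst_refl s)
        · exact h𝒞.sep C hC C₀ hC₀ s h s' h' (topo_gst_of_gnb hj)
        · exact h𝒞.sep C hC C₀ hC₀ s' h s h' (topo_gst_symm (topo_gst_of_gnb hj))
        · exact h𝒞.sep C hC C₀ hC₀ s' h s' h' (topo_gst_refl s')
      have hC₀S : C₀ ∈ S := by
        rw [hS, Finset.mem_filter]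
        refine ⟨hC₀, ?_⟩
        by_contra hcon
        have hC₀T : C₀ ∈ T := by
          rw [hT, Finset.mem_filter]
          exact ⟨hC₀, not_lt.1 hcon⟩
        rcases hmem with h | h
        · exact hs (Finset.mem_biUnion.2 ⟨C₀, hC₀T, h⟩)
        · exact hs' (Finset.mem_biUnion.2 ⟨C₀, hC₀T, h⟩)
      have : ∑ C ∈ S, (if s ∈ C ∨ s' ∈ C then lam s + lam s' else 0) = lam s + lam s' := by
        rw [Finset.sum_eq_single C₀]
        · rw [if_pos hmem]
        · intro C hC hne
          rw [if_neg]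
          intro h
          exact hne (huniq C (Finset.mem_filter.1 hC).1 h)
        · intro h
          exact absurd hC₀S h
      rw [this]
      exact topo_two _
    · push Not at hB
      have h0 : ∑ C ∈ S, (if s ∈ C ∨ s' ∈ C then lam s + lam s' else 0) = 0 := by
        apply Finset.sum_eq_zero
        intro C hC
        rw [if_neg]
        rintro (h | h)
        · exact hB.1 (h𝒞.sub C (Finset.mem_filter.1 hC).1 h)
        · exact hB.2 (h𝒞.sub C (Finset.mem_filter.1 hC).1 h)
      rw [h0, add_zero, hlam j s s' hj hB.1 hB.2]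
      exact topo_two _
  -- number of edges
  have hcount : ((univ : Finset (Fin D × Gr D m × Gr D m)).filter fun p =>
      gnb p.1 p.2.1 p.2.2 ∧ lam' p.2.1 ≠ lam' p.2.2).card ≤ 2 * D * ∑ C ∈ T, C.card := by
    calc ((univ : Finset (Fin D × Gr D m × Gr D m)).filter fun p =>
        gnb p.1 p.2.1 p.2.2 ∧ lam' p.2.1 ≠ lam' p.2.2).card
        ≤ ((univ : Finset (Fin D × Gr D m × Gr D m)).filter fun p =>
          gnb p.1 p.2.1 p.2.2 ∧ (p.2.1 ∈ L ∨ p.2.2 ∈ L)).card := by
          apply Finset.card_le_card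
          intro p hp
          have hp' := (Finset.mem_filter.1 hp).2
          rw [Finset.mem_filter]
          refine ⟨Finset.mem_univ _, hp'.1, ?_⟩
          by_contra hcon
          push Not at hcon
          exact hp'.2 (hedge p.1 p.2.1 p.2.2 hp'.1 hcon.1 hcon.2)
      _ ≤ 2 * D * L.card := topo_edges L
      _ ≤ 2 * D * ∑ C ∈ T, C.card := Nat.mul_le_mul_left _ hLcard
  obtain ⟨ℓ, hℓ⟩ := gline lam' _ hcount
  refine ⟨ℓ, ?_⟩
  -- the final count
  have hBcard : B.card ≤ ∑ C ∈ T, C.card + ∑ C ∈ S, C.card := by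
    have hsub : B ⊆ T.biUnion id ∪ S.biUnion id := by
      intro s hs
      obtain ⟨C, hC, hsC⟩ := h𝒞.cov s hs
      rw [Finset.mem_union, Finset.mem_biUnion, Finset.mem_biUnion]
      rcases le_or_gt K C.card with h | h
      · exact Or.inl ⟨C, Finset.mem_filter.2 ⟨hC, h⟩, hsC⟩
      · exact Or.inr ⟨C, Finset.mem_filter.2 ⟨hC, h⟩, hsC⟩
    calc B.card ≤ (T.biUnion id ∪ S.biUnion id).card := Finset.card_le_card hsub
      _ ≤ (T.biUnion id).card + (S.biUnion id).card := Finset.card_union_le _ _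
      _ ≤ _ := Nat.add_le_add Finset.card_biUnion_le Finset.card_biUnion_le
  have hsupp : (S.biUnion fun C => univ.filter fun s => φ C s ≠ 0).card ≤ ∑ C ∈ S, C.card ^ D := by
    refine le_trans Finset.card_biUnion_le ?_
    apply Finset.sum_le_sum
    intro C hC
    have hC' := Finset.mem_filter.1 hC
    exact (hφ C hC'.1 hC'.2).2
  have hsub : (univ.filter fun s => s ∈ B ∨ lam s ≠ ℓ) ⊆
      B ∪ ((univ.filter fun s => lam' s ≠ ℓ) ∪ (S.biUnion fun C => univ.filter fun s => φ C s ≠ 0)) := by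
    intro s hs
    rw [Finset.mem_filter] at hs
    rw [Finset.mem_union, Finset.mem_union]
    rcases hs.2 with h | h
    · exact Or.inl h
    · right
      by_contra hcon
      push Not at hcon
      apply h
      have h1 : lam' s = ℓ := by
        by_contra hne
        exact hcon.1 (Finset.mem_filter.2 ⟨Finset.mem_univ _, hne⟩)
      have h2 : ∑ C ∈ S, φ C s = 0 := by
        apply Finset.sum_eq_zero
        intro C hC
        by_contra hne
        exact hcon.2 (Finset.mem_biUnion.2 ⟨C, hC, Finset.mem_filter.2 ⟨Finset.mem_univ _, hne⟩⟩)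
      rw [← h1, hlam']
      simp only
      rw [h2, add_zero]
  have hDm : 1 ≤ D * m := Nat.mul_pos (by omega) hmpos
  have hpow : ∑ C ∈ S, C.card ≤ ∑ C ∈ S, C.card ^ D := by
    apply Finset.sum_le_sum
    intro C _
    exact Nat.le_self_pow (by omega) _
  calc (univ.filter fun s => s ∈ B ∨ lam s ≠ ℓ).card
      ≤ (B ∪ ((univ.filter fun s => lam' s ≠ ℓ) ∪
          (S.biUnion fun C => univ.filter fun s => φ C s ≠ 0))).card := Finset.card_le_card hsub
    _ ≤ B.card + ((univ.filter fun s => lam' s ≠ ℓ).card +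
          (S.biUnion fun C => univ.filter fun s => φ C s ≠ 0).card) :=
        le_trans (Finset.card_union_le _ _) (Nat.add_le_add_left (Finset.card_union_le _ _) _)
    _ ≤ (∑ C ∈ T, C.card + ∑ C ∈ S, C.card) + ((2 * D * ∑ C ∈ T, C.card) * m + ∑ C ∈ S, C.card ^ D) :=
        Nat.add_le_add hBcard (Nat.add_le_add hℓ hsupp)
    _ ≤ 3 * D * m * ∑ C ∈ T, C.card + 2 * ∑ C ∈ S, C.card ^ D := by
        have h1 : ∑ C ∈ T, C.card ≤ (D * m) * ∑ C ∈ T, C.card := Nat.le_mul_of_pos_left _ hDm
        have h2 : (2 * D * ∑ C ∈ T, C.card) * m = 2 * ((D * m) * ∑ C ∈ T, C.card) := by ring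
        have h3 : 3 * D * m * ∑ C ∈ T, C.card = 3 * ((D * m) * ∑ C ∈ T, C.card) := by ring
        rw [h2, h3]
        omega

end Pool.Agent.LO
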