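import Pool.Agent.Lib_MP_2c424f_fb.Tail
import Pool.Agent.Lib_MP_2c424f_fb.Topo
import Pool.Agent.Lib_MP_2c424f_fb.BadF

/-!
# One label per colour in the free box (piece LABF)

`gtail` for `Om = sys univ`, `Bf f = {s | bad c (bk s) f}`, `N = NB` (hypothesis: `badF`); off the exceptional set
take the components (`gcomp_exists`) and `gtopo` with `K = D (k+1) ≤ 2^k`, `lam s = 1` iff `lab1 f (bk s) c`
(`lab_adj`: `gnb j s s'` gives `bk s' = nxt (bk s) j`).
-/

set_option autoImplicit false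

open Finset

namespace Pool.Agent.LO

/-- the blocks of two neighbours of the grid are neighbours -/
private theorem LabF_bk_nxt {D k : ℕ} (j : Fin D) (s s' : Gr D (2 ^ k)) (h : gnb j s s') :
    bk s' = nxt (bk s) j := by
  funext i
  unfold nxt
  by_cases hi : i = j
  · subst hi
    rw [Function.update_self]
    unfold bk
    rw [h.1]
    push_cast
    rfl
  · rw [Function.update_of_ne hi]
    unfold bk
    rw [h.2 i hi]

/-- `D (k+1) ≤ 2^k` for large `k` -/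
private theorem LabF_pow (D : ℕ) : ∃ k₀ : ℕ, ∀ k : ℕ, k₀ ≤ k → D * (k + 1) ≤ 2 ^ k := by
  have h : Filter.Tendsto (fun k : ℕ => ((k : ℝ) ^ 1) / (2 : ℝ) ^ k) Filter.atTop (nhds 0) :=
    tendsto_pow_const_div_const_pow_of_one_lt 1 (by norm_num)
  have hD : (0 : ℝ) < 1 / (2 * D + 2) := by positivity
  have h1 := (h.eventually (gt_mem_nhds hD)).and (Filter.eventually_ge_atTop 1)
  obtain ⟨k₀, hk₀⟩ := Filter.eventually_atTop.1 h1
  refine ⟨k₀, fun k hk => ?_⟩
  obtain ⟨h2, h3⟩ := hk₀ k hk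
  rw [pow_one, div_lt_div_iff₀ (by positivity) (by positivity)] at h2
  have h4 : ((D * (k + 1) : ℕ) : ℝ) ≤ ((2 ^ k : ℕ) : ℝ) := by
    push_cast
    have h5 : (1 : ℝ) ≤ k := by exact_mod_cast h3
    have h6 : (0 : ℝ) ≤ D := Nat.cast_nonneg _
    nlinarith
  exact_mod_cast h4

open scoped Classical in
theorem labF : ∃ D₀ : ℕ, ∀ D : ℕ, D₀ ≤ D → ∀ q : ℕ, Adm4 D q → ∀ ε : ℝ, 0 < ε → ∃ k₀ : ℕ, ∀ k : ℕ, k₀ ≤ k →
    ∀ c : Fin q,
    (((sys D (k + 2) q univ).filter fun f => ¬ ∃ ℓ : Prop,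
      ((univ.filter fun s : Gr D (2 ^ k) => bad c (bk s) f ∨ ¬ (lab1 f (bk s) c ↔ ℓ)).card : ℝ) ≤
        5 * ((2 : ℝ) ^ k) ^ D / (D : ℝ) ^ 2).card : ℝ) ≤ ε * NB D (k + 2) q := by
  obtain ⟨D₁, h₁⟩ := gtail
  obtain ⟨D₂, h₂⟩ := badF
  refine ⟨max (max D₁ D₂) 2, fun D hD q hA ε hε => ?_⟩
  have hD1 : D₁ ≤ D := le_trans (le_trans (le_max_left _ _) (le_max_left _ _)) hD
  have hD2 : D₂ ≤ D := le_trans (le_trans (le_max_right _ _) (le_max_left _ _)) hD
  have hD3 : 2 ≤ D := le_trans (le_max_right _ _) hD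
  obtain ⟨k₁, hk₁⟩ := h₁ D hD1 ε hε
  obtain ⟨k₂, hk₂⟩ := h₂ D hD2 q hA
  obtain ⟨k₃, hk₃⟩ := LabF_pow D
  refine ⟨max (max k₁ k₂) k₃, fun k hk c => ?_⟩
  have hk1 : k₁ ≤ k := le_trans (le_trans (le_max_left _ _) (le_max_left _ _)) hk
  have hk2 : k₂ ≤ k := le_trans (le_trans (le_max_right _ _) (le_max_left _ _)) hk
  have hk3 : k₃ ≤ k := le_trans (le_max_right _ _) hk
  have hq1 : 1 ≤ q := by
    have := hA.1
    omega
  have hNB : 0 ≤ NB D (k + 2) q := Nat.cast_nonneg _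
  have hm := hk₁ k hk1 (sys D (k + 2) q univ)
    (fun f => univ.filter fun s : Gr D (2 ^ k) => bad c (bk s) f) (NB D (k + 2) q) hNB (by
      intro Γ
      refine le_trans (le_of_eq ?_) (hk₂ k hk2 c Γ)
      congr 2
      ext f
      simp only [Finset.mem_filter, and_congr_right_iff]
      intro _
      constructor
      · intro h s hs
        exact (Finset.mem_filter.1 (h hs)).2
      · intro h s hs
        exact Finset.mem_filter.2 ⟨Finset.mem_univ _, h s hs⟩)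
  refine le_trans ?_ hm
  have hsub : ((sys D (k + 2) q univ).filter fun f => ¬ ∃ ℓ : Prop,
      ((univ.filter fun s : Gr D (2 ^ k) => bad c (bk s) f ∨ ¬ (lab1 f (bk s) c ↔ ℓ)).card : ℝ) ≤
        5 * ((2 : ℝ) ^ k) ^ D / (D : ℝ) ^ 2) ⊆
      ((sys D (k + 2) q univ).filter fun f => ∃ 𝒞,
        GComp (univ.filter fun s : Gr D (2 ^ k) => bad c (bk s) f) 𝒞 ∧
        5 * ((2 : ℝ) ^ k) ^ D / (D : ℝ) ^ 2 <
        ((3 * D * 2 ^ k * ∑ C ∈ 𝒞.filter (fun C => D * (k + 1) ≤ C.card), C.card +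
          2 * ∑ C ∈ 𝒞.filter (fun C => C.card < D * (k + 1)), C.card ^ D : ℕ) : ℝ)) := by
    intro f hf
    rw [Finset.mem_filter] at hf ⊢
    refine ⟨hf.1, ?_⟩
    obtain ⟨𝒞, h𝒞⟩ := gcomp_exists (univ.filter fun s : Gr D (2 ^ k) => bad c (bk s) f)
    refine ⟨𝒞, h𝒞, ?_⟩
    by_contra hcon
    rw [not_lt] at hcon
    apply hf.2
    obtain ⟨ℓ, hℓ⟩ := gtopo hD3 (univ.filter fun s : Gr D (2 ^ k) => bad c (bk s) f) 𝒞 h𝒞
      (D * (k + 1)) (hk₃ k hk3) (fun s => if lab1 f (bk s) c then 1 else 0) (by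
        intro j s s' hj hs hs'
        have hb : ¬ bad c (bk s) f := fun h =>
          hs (Finset.mem_filter.2 ⟨Finset.mem_univ _, h⟩)
        have hb' : ¬ bad c (bk s') f := fun h =>
          hs' (Finset.mem_filter.2 ⟨Finset.mem_univ _, h⟩)
        rw [LabF_bk_nxt j s s' hj] at hb'
        have h5 := lab_adj (by omega) (by omega) hq1 c f (bk s) j hb hb'
        rw [← LabF_bk_nxt j s s' hj] at h5
        by_cases h6 : lab1 f (bk s) c
        · simp only [h6, h5.1 h6, if_true]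
        · have h7 : ¬ lab1 f (bk s') c := fun h => h6 (h5.2 h)
          simp only [h6, h7, if_false])
    obtain ⟨P, hP⟩ : ∃ P : Prop, (P ↔ ℓ = 1) := ⟨_, Iff.rfl⟩
    refine ⟨P, le_trans ?_ hcon⟩
    rw [Nat.cast_le]
    refine le_trans (Finset.card_le_card ?_) hℓ
    intro s hs
    rw [Finset.mem_filter] at hs ⊢
    refine ⟨hs.1, ?_⟩
    rcases hs.2 with h | h
    · exact Or.inl (Finset.mem_filter.2 ⟨Finset.mem_univ _, h⟩)
    · right
      intro h8
      apply h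
      rw [hP, ← h8]
      by_cases h6 : lab1 f (bk s) c
      · simp only [h6, if_true]
      · simp only [h6, if_false, false_iff]
        decide
  exact_mod_cast Finset.card_le_card hsub

end Pool.Agent.LO
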