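import Mathlib

/-!
# Weighted union bound for disjoint families (piece LD)

`X * 1[∃ W …] ≤ ∑_{W ⊆ K disjoint, inside Bf ω} ∏ y`; sum over `ω`: `∑_W (∏ y) N r^|∪ W| = N ∑_W ∏ (y r^|C|)`
`≤ N ∏_{C ∈ K} (1 + y r^|C|) ≤ N exp (∑ y r^|C|)` (`Finset.prod_one_add` or `Finset.prod_add`).
-/

set_option autoImplicit false

open Finset

namespace Pool.Agent.LO

open scoped Classical in
theorem gld {Ω V : Type} [Fintype V] (Om : Finset Ω) (Bf : Ω → Finset V) (N r : ℝ) (hN : 0 ≤ N) (hr : 0 ≤ r)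
    (h : ∀ Γ : Finset V, ((Om.filter fun ω => Γ ⊆ Bf ω).card : ℝ) ≤ N * r ^ Γ.card)
    (𝒦 : Finset (Finset V)) (y : Finset V → ℝ) (hy : ∀ C, 0 ≤ y C) (X : ℝ) (hX : 0 ≤ X) :
    ((Om.filter fun ω => ∃ W : Finset (Finset V), W ⊆ 𝒦 ∧ (W : Set (Finset V)).PairwiseDisjoint id ∧
      (∀ C ∈ W, C ⊆ Bf ω) ∧ X ≤ ∏ C ∈ W, y C).card : ℝ) * X ≤
      N * Real.exp (∑ C ∈ 𝒦, y C * r ^ C.card) := by
  have hpr : ∀ W : Finset (Finset V), 0 ≤ ∏ C ∈ W, y C := fun W => prod_nonneg fun C _ => hy C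
  -- the families
  have h1 : ((Om.filter fun ω => ∃ W : Finset (Finset V), W ⊆ 𝒦 ∧
      (W : Set (Finset V)).PairwiseDisjoint id ∧
      (∀ C ∈ W, C ⊆ Bf ω) ∧ X ≤ ∏ C ∈ W, y C).card : ℝ) * X ≤
      ∑ ω ∈ Om, ∑ W ∈ 𝒦.powerset,
        if (W : Set (Finset V)).PairwiseDisjoint id ∧ (∀ C ∈ W, C ⊆ Bf ω) then ∏ C ∈ W, y C
        else 0 := by
    rw [← nsmul_eq_mul, ← sum_const, sum_filter]
    refine sum_le_sum fun ω _ => ?_
    have hnn : ∀ W ∈ 𝒦.powerset, (0 : ℝ) ≤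
        if (W : Set (Finset V)).PairwiseDisjoint id ∧ (∀ C ∈ W, C ⊆ Bf ω) then ∏ C ∈ W, y C
        else 0 := fun W _ => by
      split_ifs
      · exact hpr W
      · exact le_rfl
    split_ifs with hW
    · obtain ⟨W, hWK, hWd, hWB, hWX⟩ := hW
      have h2 := single_le_sum hnn (mem_powerset.2 hWK)
      refine hWX.trans (le_trans (le_of_eq ?_) h2)
      exact (if_pos ⟨hWd, hWB⟩).symm
    · exact sum_nonneg hnn
  refine h1.trans ?_
  rw [sum_comm]
  -- the sum over the configurations for a fixed family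
  have h2 : ∀ W ∈ 𝒦.powerset, (∑ ω ∈ Om,
      if (W : Set (Finset V)).PairwiseDisjoint id ∧ (∀ C ∈ W, C ⊆ Bf ω) then ∏ C ∈ W, y C
        else 0) ≤ N * ∏ C ∈ W, (y C * r ^ C.card) := by
    intro W _
    have hR : 0 ≤ N * ∏ C ∈ W, (y C * r ^ C.card) :=
      mul_nonneg hN (prod_nonneg fun C _ => mul_nonneg (hy C) (pow_nonneg hr _))
    by_cases hd : (W : Set (Finset V)).PairwiseDisjoint id
    · have h3 := h (W.biUnion id)
      have hcard : (W.biUnion id).card = ∑ C ∈ W, C.card := by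
        rw [card_biUnion]
        · rfl
        · intro a ha b hb hab
          exact hd ha hb hab
      have h4 : (∑ ω ∈ Om, if (W : Set (Finset V)).PairwiseDisjoint id ∧ (∀ C ∈ W, C ⊆ Bf ω) then
          ∏ C ∈ W, y C else 0) =
          ((Om.filter fun ω => W.biUnion id ⊆ Bf ω).card : ℝ) * ∏ C ∈ W, y C := by
        rw [← nsmul_eq_mul, ← sum_const, sum_filter]
        refine sum_congr rfl fun ω _ => ?_
        have h5 : ((W : Set (Finset V)).PairwiseDisjoint id ∧ (∀ C ∈ W, C ⊆ Bf ω)) ↔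
            W.biUnion id ⊆ Bf ω := by
          rw [biUnion_subset]
          exact ⟨fun h => h.2, fun h => ⟨hd, h⟩⟩
        by_cases h6 : W.biUnion id ⊆ Bf ω
        · rw [if_pos h6, if_pos (h5.2 h6)]
        · rw [if_neg h6, if_neg fun h7 => h6 (h5.1 h7)]
      rw [h4]
      refine (mul_le_mul_of_nonneg_right h3 (hpr W)).trans (le_of_eq ?_)
      rw [hcard, ← prod_pow_eq_pow_sum, prod_mul_distrib]
      ring
    · refine le_trans (le_of_eq ?_) hR
      refine sum_eq_zero fun ω _ => ?_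
      exact if_neg fun h => hd h.1
  refine (sum_le_sum h2).trans ?_
  rw [← mul_sum]
  refine mul_le_mul_of_nonneg_left ?_ hN
  rw [← prod_one_add, Real.exp_sum]
  refine prod_le_prod (fun C _ => ?_) fun C _ => ?_
  · have := mul_nonneg (hy C) (pow_nonneg hr C.card)
    linarith
  · have := Real.add_one_le_exp (y C * r ^ C.card)
    linarith

end Pool.Agent.LO
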