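import Pool.Agent.Lib_MP_2c424f_fb.Mir
import Pool.Agent.Lib_MP_2c424f_lo.BSum
import Pool.Agent.Lib_MP_2c424f_pr.Defs

/-!
# From symmetric colourings to colourings of the box (piece TRB)

`inc : Bx D (2^(k+1)) → Site D (k+2)` the inclusion, `f ↦ f ∘ inc` is a bijection from `sys univ` onto the proper
colourings of the box (inverse: `g ↦ g ∘` folding, `fld_sys`-like; adjacent sites of the box are adjacent sites of the
torus and conversely for two sites of the orthant).
`trB_sum`: `∑_{x,y odd} #{f x = f y} = ∑_f ∑_c n_c^2`, `n_c` = number of the odd sites of the box with colour `c`, and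
`∑_s Mb f (bk s) c = (2/4^D) ∑_{s,a,b odd} 1(f (pt (bk s) a b) = c) ≤ (2/4^D) 2^D n_c`: every site of the box is
`pt (bk s) a b` for at most `2^D` triples.
-/

set_option autoImplicit false

open Finset

namespace Pool.Agent.LO

open Pool.Agent.QC

variable {D k q : ℕ}

/-- odd sites of the box -/
noncomputable def obx (D n : ℕ) : Finset (Bx D n) := univ.filter fun x => Odd (∑ i, (x i).val)

/-- the inclusion of the box -/
private def TrB_inc (x : Bx D (2 ^ (k + 1))) : Site D (k + 2) :=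
  fun j => (((x j).val : ℕ) : ZMod (2 ^ (k + 2)))

/-- the folding onto the box -/
private def TrB_fold (x : Site D (k + 2)) : Bx D (2 ^ (k + 1)) :=
  fun j => ⟨(ph (k := k + 1) true (x j)).val, Nat.lt_succ_of_le (ph_true_le (k := k + 1) (x j))⟩

private theorem TrB_inc_val (x : Bx D (2 ^ (k + 1))) (j : Fin D) :
    (TrB_inc x j).val = (x j).val := by
  unfold TrB_inc
  rw [ZMod.val_natCast, Nat.mod_eq_of_lt]
  have h1 := (x j).isLt
  have h2 : 2 ^ (k + 2) = 2 * 2 ^ (k + 1) := by ring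
  have h3 : 0 < 2 ^ k := by positivity
  have h4 : 2 ^ (k + 1) = 2 * 2 ^ k := by ring
  omega

private theorem TrB_fold_inc (x : Bx D (2 ^ (k + 1))) : TrB_fold (TrB_inc x) = x := by
  funext j
  apply Fin.ext
  have h1 : (TrB_inc x j).val ≤ 2 ^ (k + 1) := by
    rw [TrB_inc_val]
    exact Nat.lt_succ_iff.1 (x j).isLt
  show (ph (k := k + 1) true (TrB_inc x j)).val = (x j).val
  rw [ph_true_of_le (k := k + 1) h1, TrB_inc_val]

private theorem TrB_inc_fold (x : Site D (k + 2)) :
    TrB_inc (TrB_fold x) = fld (k := k + 1) (fun _ => true) x := by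
  funext j
  show (((ph (k := k + 1) true (x j)).val : ℕ) : ZMod (2 ^ (k + 2))) = ph (k := k + 1) true (x j)
  exact ZMod.natCast_zmod_val _

private theorem TrB_adj {u v : Bx D (2 ^ (k + 1))} (h : bd u v = 1) :
    ∃ σ : Stp D, TrB_inc u = TrB_inc v + sv σ := by
  classical
  unfold bd at h
  have hex : ∃ i, ((u i : ℤ) - (v i : ℤ)).natAbs ≠ 0 := by
    by_contra hcon
    push Not at hcon
    rw [Finset.sum_eq_zero fun i _ => hcon i] at h
    exact zero_ne_one h
  obtain ⟨i, hi⟩ := hex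
  rw [← Finset.add_sum_erase _ _ (Finset.mem_univ i)] at h
  have hi1 : ((u i : ℤ) - (v i : ℤ)).natAbs = 1 := by omega
  have hrest : ∑ x ∈ univ.erase i, ((u x : ℤ) - (v x : ℤ)).natAbs = 0 := by omega
  have hne : ∀ j, j ≠ i → u j = v j := by
    intro j hj
    have h1 := (Finset.sum_eq_zero_iff.1 hrest) j (Finset.mem_erase.2 ⟨hj, Finset.mem_univ _⟩)
    apply Fin.ext
    omega
  rcases (show (u i).val = (v i).val + 1 ∨ (v i).val = (u i).val + 1 by omega) with h1 | h1
  · refine ⟨(i, true), funext fun j => ?_⟩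
    by_cases hj : j = i
    · subst hj
      simp [TrB_inc, sv, h1]
    · simp [TrB_inc, sv, hne j hj, Pi.single_eq_of_ne hj]
  · refine ⟨(i, false), funext fun j => ?_⟩
    by_cases hj : j = i
    · subst hj
      simp [TrB_inc, sv, h1]
    · simp [TrB_inc, sv, hne j hj, Pi.single_eq_of_ne hj]

private theorem TrB_val_succ {p p' : ZMod (2 ^ (k + 2))} (h : p' = p + 1)
    (hp : p.val ≤ 2 ^ (k + 1)) : p'.val = p.val + 1 := by
  have h1 : p' = ((p.val + 1 : ℕ) : ZMod (2 ^ (k + 2))) := by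
    rw [h]
    push_cast
    rw [ZMod.natCast_zmod_val]
  rw [h1, ZMod.val_natCast, Nat.mod_eq_of_lt]
  have h2 : 2 ^ (k + 2) = 2 * 2 ^ (k + 1) := by ring
  have h3 : 0 < 2 ^ k := by positivity
  have h4 : 2 ^ (k + 1) = 2 * 2 ^ k := by ring
  omega

private theorem TrB_diff {p p' : ZMod (2 ^ (k + 2))} (h : p' = p + 1 ∨ p' = p - 1)
    (hp : p.val ≤ 2 ^ (k + 1)) (hp' : p'.val ≤ 2 ^ (k + 1)) :
    ((p'.val : ℤ) - (p.val : ℤ)).natAbs = 1 := by
  rcases h with h | h
  · rw [TrB_val_succ h hp]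
    push_cast
    omega
  · have h1 : p = p' + 1 := by rw [h]; ring
    rw [TrB_val_succ h1 hp']
    push_cast
    omega

private theorem TrB_fold_adj (x : Site D (k + 2)) (σ : Stp D) :
    bd (TrB_fold (x + sv σ)) (TrB_fold x) = 1 := by
  classical
  obtain ⟨j, b⟩ := σ
  obtain ⟨y, hy⟩ : ∃ y : Site D (k + 2), y = x + sv (j, b) := ⟨_, rfl⟩
  rw [← hy]
  have hyj : y j = x j + (if b then 1 else -1) := by
    rw [hy]
    simp [sv]
  have hyi : ∀ i, i ≠ j → y i = x i := by
    intro i hi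
    rw [hy]
    simp [sv, Pi.single_eq_of_ne hi]
  unfold bd
  rw [Finset.sum_eq_single j]
  · have hphs : ph (k := k + 1) true (y j) = ph (k := k + 1) true (x j) + 1 ∨
        ph (k := k + 1) true (y j) = ph (k := k + 1) true (x j) - 1 := by
      cases b with
      | true =>
        have h1 : y j = x j + 1 := by rw [hyj]; simp
        rw [h1]
        exact ph_step (k := k + 1) true (x j)
      | false =>
        have h1 : x j = y j + 1 := by rw [hyj]; simp
        have h2 := ph_step (k := k + 1) true (y j)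
        rw [← h1] at h2
        rcases h2 with h2 | h2
        · right; rw [h2]; ring
        · left; rw [h2]; ring
    exact TrB_diff hphs (ph_true_le (k := k + 1) _) (ph_true_le (k := k + 1) _)
  · intro i _ hi
    have h1 : TrB_fold y i = TrB_fold x i := by
      apply Fin.ext
      show (ph (k := k + 1) true (y i)).val = (ph (k := k + 1) true (x i)).val
      rw [hyi i hi]
    rw [h1]
    simp
  · intro h
    exact absurd (Finset.mem_univ _) h

private theorem TrB_fold_th (j : Fin D) (x : Site D (k + 2)) : TrB_fold (th j x) = TrB_fold x := by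
  funext i
  apply Fin.ext
  show (ph (k := k + 1) true (th j x i)).val = (ph (k := k + 1) true (x i)).val
  by_cases hi : i = j
  · subst hi
    have : th i x i = -(x i) := by simp [th]
    rw [this, ph_neg]
  · have : th j x i = x i := by simp [th, hi]
    rw [this]

private theorem TrB_mem {f : Site D (k + 2) → Fin q} : f ∈ sys D (k + 2) q univ ↔
    Prp f ∧ ∀ j x, f (th j x) = f x := by
  classical
  simp [sys, prps]

private theorem TrB_proper {f : Site D (k + 2) → Fin q} (hf : f ∈ sys D (k + 2) q univ) :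
    Proper (BG D (2 ^ (k + 1))) (fun x => f (TrB_inc x)) := by
  intro u v huv
  obtain ⟨σ, hσ⟩ := TrB_adj huv
  show f (TrB_inc u) ≠ f (TrB_inc v)
  rw [hσ]
  exact (TrB_mem.1 hf).1 _ σ

private theorem TrB_sys {g : Bx D (2 ^ (k + 1)) → Fin q} (hg : Proper (BG D (2 ^ (k + 1))) g) :
    (fun x => g (TrB_fold x)) ∈ sys D (k + 2) q univ := by
  rw [TrB_mem]
  refine ⟨fun x σ => hg _ _ (TrB_fold_adj x σ), fun j x => ?_⟩
  show g (TrB_fold (th j x)) = g (TrB_fold x)
  rw [TrB_fold_th]

private theorem TrB_back {f : Site D (k + 2) → Fin q} (hf : f ∈ sys D (k + 2) q univ)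
    (x : Site D (k + 2)) : f (TrB_inc (TrB_fold x)) = f x := by
  rw [TrB_inc_fold]
  exact sys_fld_true (k := k + 1) hf _ x

open scoped Classical in
/-- counting with a property -/
private theorem TrB_cnt (p : (Bx D (2 ^ (k + 1)) → Fin q) → Prop) :
    cnt (fun f : Bx D (2 ^ (k + 1)) → Fin q => Proper (BG D (2 ^ (k + 1))) f ∧ p f) =
      ((sys D (k + 2) q univ).filter fun f => p (fun x => f (TrB_inc x))).card := by
  rw [cnt_eq]
  refine Finset.card_bij' (fun g _ => fun x => g (TrB_fold x)) (fun f _ => fun x => f (TrB_inc x))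
    ?_ ?_ ?_ ?_
  · intro g hg
    have hg' := ((@Finset.mem_filter _ _ (_) _ _).1 hg).2
    refine (@Finset.mem_filter _ _ (_) _ _).2 ⟨TrB_sys hg'.1, ?_⟩
    simp only [TrB_fold_inc]
    exact hg'.2
  · intro f hf
    have hf' := (@Finset.mem_filter _ _ (_) _ _).1 hf
    exact (@Finset.mem_filter _ _ (_) _ _).2 ⟨Finset.mem_univ _, TrB_proper hf'.1, hf'.2⟩
  · intro g _
    simp only [TrB_fold_inc]
  · intro f hf
    have hf' := (@Finset.mem_filter _ _ (_) _ _).1 hf
    funext x
    exact TrB_back hf'.1 x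

theorem trB_card : (cnt (fun f : Bx D (2 ^ (k + 1)) → Fin q => Proper (BG D (2 ^ (k + 1))) f) : ℝ) =
    NB D (k + 2) q := by
  classical
  have h1 := TrB_cnt (D := D) (k := k) (q := q) (fun _ => True)
  simp only [and_true, Finset.filter_true] at h1
  unfold NB
  rw [h1]

/-- the point of the box -/
private def TrB_Y (s : Gr D (2 ^ k)) (a b : Bt D) : Bx D (2 ^ (k + 1)) := fun j =>
  ⟨2 * (s j).val + (if a j then 1 else 0) + (if b j then 1 else 0), by
    have h1 := (s j).isLt
    have h2 : 2 ^ (k + 1) = 2 * 2 ^ k := by ring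
    split_ifs <;> omega⟩

private theorem TrB_pt (s : Gr D (2 ^ k)) (a b : Bt D) :
    pt (bk s) a b = TrB_inc (TrB_Y s a b) := by
  funext j
  simp only [pt, bas, bv, Pi.add_apply, TrB_inc, TrB_Y, bk_val]
  push_cast
  rfl

private theorem TrB_Y_inj {s s' : Gr D (2 ^ k)} {a a' b : Bt D}
    (h : TrB_Y s a b = TrB_Y s' a' b) : s = s' ∧ a = a' := by
  have key : ∀ j, (s j).val = (s' j).val ∧ a j = a' j := by
    intro j
    have h1 := congrArg Fin.val (congrFun h j)
    simp only [TrB_Y] at h1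
    cases ha : a j <;> cases ha' : a' j <;> cases hb : b j <;>
      simp [ha, ha', hb] at h1 ⊢ <;> omega
  exact ⟨funext fun j => Fin.ext (key j).1, funext fun j => (key j).2⟩

private theorem TrB_Y_odd (s : Gr D (2 ^ k)) (a b : Bt D) (h : od a b) :
    TrB_Y s a b ∈ obx D (2 ^ (k + 1)) := by
  classical
  unfold obx
  rw [Finset.mem_filter]
  refine ⟨Finset.mem_univ _, ?_⟩
  unfold od at h
  rw [← Nat.not_even_iff_odd, Finset.even_sum_iff_even_card_odd, Nat.not_even_iff_odd]
  have h1 : (univ.filter fun i => Odd ((TrB_Y s a b i).val)) = univ.filter fun i => a i ≠ b i := by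
    refine Finset.filter_congr fun i _ => ?_
    simp only [TrB_Y]
    cases a i <;> cases b i <;> simp [parity_simps]
  rw [h1]
  convert h

open scoped Classical in
private theorem TrB_Mb (f : Site D (k + 2) → Fin q) (c : Fin q) :
    ∑ s : Gr D (2 ^ k), Mb f (bk s) c ≤ 2 / 4 ^ D * (2 ^ D *
      (((obx D (2 ^ (k + 1))).filter fun x => f (TrB_inc x) = c).card : ℝ)) := by
  have h1 : ∑ s : Gr D (2 ^ k), Mb f (bk s) c = 2 / 4 ^ D *
      ((((univ : Finset (Gr D (2 ^ k) × Bt D × Bt D)).filter fun z =>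
        od z.2.1 z.2.2 ∧ f (TrB_inc (TrB_Y z.1 z.2.1 z.2.2)) = c).card : ℕ) : ℝ) := by
    rw [Finset.card_filter]
    push_cast
    rw [← Finset.univ_product_univ, Finset.sum_product, Finset.mul_sum]
    refine Finset.sum_congr rfl fun s _ => ?_
    unfold Mb EB
    rw [mul_div_right_comm, ← Finset.univ_product_univ, Finset.sum_product]
    congr 1
    refine Finset.sum_congr rfl fun a _ => Finset.sum_congr rfl fun b _ => ?_
    simp only [TrB_pt]
    by_cases h2 : od a b
    · simp [h2]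
    · simp [h2]
  rw [h1]
  refine mul_le_mul_of_nonneg_left ?_ (by positivity)
  have h2 : ((univ : Finset (Gr D (2 ^ k) × Bt D × Bt D)).filter fun z =>
        od z.2.1 z.2.2 ∧ f (TrB_inc (TrB_Y z.1 z.2.1 z.2.2)) = c).card ≤
      (((obx D (2 ^ (k + 1))).filter fun x => f (TrB_inc x) = c) ×ˢ
        (univ : Finset (Bt D))).card := by
    refine Finset.card_le_card_of_injOn (fun z => (TrB_Y z.1 z.2.1 z.2.2, z.2.2)) ?_ ?_
    · intro z hz
      have hz' := (Finset.mem_filter.1 hz).2
      rw [Finset.mem_coe, Finset.mem_product, Finset.mem_filter]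
      exact ⟨⟨TrB_Y_odd _ _ _ hz'.1, hz'.2⟩, Finset.mem_univ _⟩
    · rintro ⟨s, a, b⟩ _ ⟨s', a', b'⟩ _ h
      have hb : b = b' := congrArg Prod.snd h
      subst hb
      have h3 : TrB_Y s a b = TrB_Y s' a' b := congrArg Prod.fst h
      obtain ⟨h4, h5⟩ := TrB_Y_inj h3
      rw [h4, h5]
  rw [Finset.card_product, Finset.card_univ, Fintype.card_fun, Fintype.card_bool,
    Fintype.card_fin] at h2
  calc _ ≤ ((((obx D (2 ^ (k + 1))).filter fun x => f (TrB_inc x) = c).card * 2 ^ D : ℕ) : ℝ) := by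
        exact_mod_cast h2
    _ = _ := by push_cast; ring

theorem trB_sum (hD : 1 ≤ D) :
    4 ^ D / 4 * ∑ f ∈ sys D (k + 2) q univ, ∑ c, (∑ s : Gr D (2 ^ k), Mb f (bk s) c) ^ 2 ≤
      ∑ x ∈ obx D (2 ^ (k + 1)), ∑ y ∈ obx D (2 ^ (k + 1)),
        (cnt (fun f : Bx D (2 ^ (k + 1)) → Fin q => Proper (BG D (2 ^ (k + 1))) f ∧ f x = f y) : ℝ) := by
  classical
  have hR : ∑ x ∈ obx D (2 ^ (k + 1)), ∑ y ∈ obx D (2 ^ (k + 1)),
        (cnt (fun f : Bx D (2 ^ (k + 1)) → Fin q => Proper (BG D (2 ^ (k + 1))) f ∧ f x = f y) : ℝ) =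
      ∑ f ∈ sys D (k + 2) q univ, ∑ c,
        (((obx D (2 ^ (k + 1))).filter fun x => f (TrB_inc x) = c).card : ℝ) ^ 2 := by
    have e1 : ∀ x y : Bx D (2 ^ (k + 1)),
        (cnt (fun f : Bx D (2 ^ (k + 1)) → Fin q => Proper (BG D (2 ^ (k + 1))) f ∧ f x = f y) : ℝ) =
        ∑ f ∈ sys D (k + 2) q univ, if f (TrB_inc x) = f (TrB_inc y) then (1 : ℝ) else 0 := by
      intro x y
      rw [TrB_cnt (fun f => f x = f y), Finset.card_filter]
      push_cast
      rfl
    simp only [e1]
    have e2 : ∀ x : Bx D (2 ^ (k + 1)), ∑ y ∈ obx D (2 ^ (k + 1)),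
        ∑ f ∈ sys D (k + 2) q univ, (if f (TrB_inc x) = f (TrB_inc y) then (1 : ℝ) else 0) =
        ∑ f ∈ sys D (k + 2) q univ, ∑ y ∈ obx D (2 ^ (k + 1)),
          if f (TrB_inc x) = f (TrB_inc y) then (1 : ℝ) else 0 := fun x => Finset.sum_comm
    simp only [e2]
    rw [Finset.sum_comm]
    refine Finset.sum_congr rfl fun f _ => ?_
    have e3 : ∀ c : Fin q, (((obx D (2 ^ (k + 1))).filter fun x => f (TrB_inc x) = c).card : ℝ) =
        ∑ x ∈ obx D (2 ^ (k + 1)), if f (TrB_inc x) = c then (1 : ℝ) else 0 := by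
      intro c
      rw [Finset.card_filter]
      push_cast
      rfl
    simp only [e3, sq, Finset.sum_mul_sum]
    symm
    rw [Finset.sum_comm]
    refine Finset.sum_congr rfl fun x _ => ?_
    rw [Finset.sum_comm]
    refine Finset.sum_congr rfl fun y _ => ?_
    rw [Finset.sum_eq_single (f (TrB_inc x))]
    · rw [if_pos rfl, one_mul]
      by_cases h : f (TrB_inc x) = f (TrB_inc y)
      · rw [if_pos h, if_pos h.symm]
      · rw [if_neg h, if_neg (Ne.symm h)]
    · intro c _ hc
      rw [if_neg (Ne.symm hc), zero_mul]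
    · intro h
      exact absurd (Finset.mem_univ _) h
  rw [hR, Finset.mul_sum]
  refine Finset.sum_le_sum fun f _ => ?_
  rw [Finset.mul_sum]
  refine Finset.sum_le_sum fun c _ => ?_
  have h1 := TrB_Mb f c
  have h0 : 0 ≤ ∑ s : Gr D (2 ^ k), Mb f (bk s) c := by
    refine Finset.sum_nonneg fun s _ => ?_
    unfold Mb EB
    refine div_nonneg (mul_nonneg (by norm_num) (Finset.sum_nonneg fun a _ =>
      Finset.sum_nonneg fun b _ => ?_)) (by positivity)
    by_cases h5 : od a b
    · rw [if_pos h5]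
      beta_reduce
      by_cases h6 : f (pt (bk s) a b) = c
      · rw [if_pos h6]
        exact zero_le_one
      · rw [if_neg h6]
    · rw [if_neg h5]
  have h2 := pow_le_pow_left₀ h0 h1 2
  have h4 : (4 : ℝ) ^ D = 2 ^ D * 2 ^ D := by
    rw [← mul_pow]; norm_num
  calc 4 ^ D / 4 * (∑ s : Gr D (2 ^ k), Mb f (bk s) c) ^ 2
      ≤ 4 ^ D / 4 * (2 / 4 ^ D * (2 ^ D *
        (((obx D (2 ^ (k + 1))).filter fun x => f (TrB_inc x) = c).card : ℝ))) ^ 2 :=
        mul_le_mul_of_nonneg_left h2 (by positivity)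
    _ = _ := by
        rw [h4]
        field_simp
        ring

/-- twice the number of odd sites of the box is at most the number of sites (an even number of steps per side) -/
theorem obx_card : 2 * (obx D (2 ^ (k + 1))).card ≤ (2 ^ (k + 1) + 1) ^ D := by
  classical
  have h1 : ∑ x : Bx D (2 ^ (k + 1)), ∏ i, ((-1 : ℤ)) ^ (x i).val = 1 := by
    have h2 := Finset.prod_univ_sum (fun _ : Fin D => (univ : Finset (Fin (2 ^ (k + 1) + 1))))
      (fun _ v => (-1 : ℤ) ^ v.val)
    rw [Fintype.piFinset_univ] at h2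
    rw [← h2]
    refine Finset.prod_eq_one fun i _ => ?_
    rw [Fin.sum_univ_eq_sum_range (fun v => (-1 : ℤ) ^ v), Finset.sum_range_succ]
    have h3 : ∀ m : ℕ, ∑ v ∈ range (2 * m), (-1 : ℤ) ^ v = 0 := by
      intro m
      induction m with
      | zero => simp
      | succ m ih =>
        rw [show 2 * (m + 1) = 2 * m + 1 + 1 by ring, Finset.sum_range_succ,
          Finset.sum_range_succ, ih, pow_succ]
        ring
    rw [show 2 ^ (k + 1) = 2 * 2 ^ k by ring, h3, zero_add, pow_mul]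
    norm_num
  have h2 : ∀ x : Bx D (2 ^ (k + 1)), ∏ i, ((-1 : ℤ)) ^ (x i).val =
      1 - 2 * (if Odd (∑ i, (x i).val) then 1 else 0) := by
    intro x
    rw [Finset.prod_pow_eq_pow_sum]
    by_cases hx : Odd (∑ i, (x i).val)
    · rw [if_pos hx, hx.neg_one_pow]
      norm_num
    · rw [if_neg hx, (Nat.not_odd_iff_even.1 hx).neg_one_pow]
      norm_num
  simp only [h2] at h1
  rw [Finset.sum_sub_distrib, ← Finset.mul_sum, ← Finset.sum_filter, Finset.sum_const,
    Finset.sum_const, Finset.card_univ, Fintype.card_fun, Fintype.card_fin, Fintype.card_fin,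
    nsmul_eq_mul, nsmul_eq_mul, mul_one, mul_one] at h1
  have h3 : ((2 * (obx D (2 ^ (k + 1))).card : ℕ) : ℤ) ≤ (((2 ^ (k + 1) + 1) ^ D : ℕ) : ℤ) := by
    unfold obx
    have h4 : ((univ.filter fun x : Bx D (2 ^ (k + 1)) => Odd (∑ i, (x i).val)).card : ℤ) =
        ((univ.filter fun x : Bx D (2 ^ (k + 1)) => Odd (∑ i, (x i).val)).card : ℤ) := rfl
    push_cast at h1 ⊢
    linarith
  exact_mod_cast h3

end Pool.Agent.LO
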