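import Pool.Agent.Lib_MP_2c424f_fb.Conc
import Pool.Agent.Lib_MP_2c424f_fb.TrB

/-!
# Long-range order in the free boxes (piece MAINF)

`conc`, `trB_sum`, `obx_card`: with `M = 2^(k+1)` the mean is at least `183/(100q) (M/(M+1))^(2D)`, and
`(M/(M+1))^(2D) ≥ 180/183` for large `k` (Bernoulli: `(M/(M+1))^(2D) ≥ 1 - 2D/(M+1)`).
-/

set_option autoImplicit false

open Finset

namespace Pool.Agent.LO

open Pool.Agent.QC

/-- neighbours in the box have different parities -/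
private theorem mainF_par {D n : ℕ} {x y : Bx D n} (h : (BG D n).Adj x y) :
    (Even (∑ i, (x i).val) ↔ ¬ Even (∑ i, (y i).val)) := by
  have h1 : bd x y = 1 := h
  have h2 : ∀ a b : ℕ, (((a : ℤ) - (b : ℤ)).natAbs + (a + b)) % 2 = 0 := by
    intro a b; omega
  have h3 : (∑ i, (((x i : ℤ) - (y i : ℤ)).natAbs + ((x i).val + (y i).val))) % 2 = 0 := by
    refine Nat.mod_eq_zero_of_dvd (Finset.dvd_sum fun i _ => ?_)
    exact Nat.dvd_of_mod_eq_zero (h2 _ _)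
  rw [Finset.sum_add_distrib, Finset.sum_add_distrib] at h3
  have h4 : (∑ i, ((x i : ℤ) - (y i : ℤ)).natAbs) = 1 := h1
  rw [h4] at h3
  rw [Nat.even_iff, Nat.even_iff]
  omega

private theorem mainF_pos {D n q : ℕ} (hq : 2 ≤ q) :
    0 < cnt (fun f : Bx D n → Fin q => Proper (BG D n) f) := by
  classical
  rw [cnt_eq, Finset.card_pos]
  refine ⟨fun x => if Even (∑ i, (x i).val) then ⟨0, by omega⟩ else ⟨1, by omega⟩, ?_⟩
  simp only [mem_filter, mem_univ, true_and]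
  intro u v huv
  have h := mainF_par huv
  by_cases hu : Even (∑ i, (u i).val)
  · have hv := h.1 hu
    simp [hu, hv]
  · have hv : Even (∑ i, (v i).val) := by
      by_contra hv
      exact hu (h.2 hv)
    simp [hu, hv]

private theorem mainF_obx {D n : ℕ} (hD : 1 ≤ D) (hn : 1 ≤ n) : 0 < (obx D n).card := by
  classical
  rw [Finset.card_pos]
  refine ⟨fun i => if i = (⟨0, by omega⟩ : Fin D) then ⟨1, by omega⟩ else ⟨0, by omega⟩, ?_⟩
  unfold obx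
  simp only [mem_filter, mem_univ, true_and]
  have h : (∑ i : Fin D, ((if i = (⟨0, by omega⟩ : Fin D) then (⟨1, by omega⟩ : Fin (n + 1)) else
      ⟨0, by omega⟩) : Fin (n + 1)).val) = 1 := by
    rw [Finset.sum_eq_single (⟨0, by omega⟩ : Fin D)]
    · simp
    · intro b _ hb
      simp [hb]
    · intro h
      exact absurd (mem_univ _) h
  rw [h]
  exact odd_one

/-- Bernoulli -/
private theorem mainF_bern {D : ℕ} {M : ℝ} (hM : 0 ≤ M) (h : 122 * (D : ℝ) ≤ M + 1) :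
    180 / 183 * ((M + 1) ^ D) ^ 2 ≤ (M ^ D) ^ 2 := by
  have hM1 : 0 < M + 1 := by linarith
  have h1 : 1 + ((2 * D : ℕ) : ℝ) * (-(1 / (M + 1))) ≤ (1 + (-(1 / (M + 1)))) ^ (2 * D) := by
    apply one_add_mul_le_pow
    have : 1 / (M + 1) ≤ 1 := by
      rw [div_le_one hM1]; linarith
    linarith
  have h2 : (180 : ℝ) / 183 ≤ 1 + ((2 * D : ℕ) : ℝ) * (-(1 / (M + 1))) := by
    have h3 : ((2 * D : ℕ) : ℝ) * (1 / (M + 1)) ≤ 1 / 61 := by
      rw [mul_one_div, div_le_div_iff₀ hM1 (by norm_num)]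
      push_cast
      linarith
    have h4 : ((2 * D : ℕ) : ℝ) * (-(1 / (M + 1))) = -(((2 * D : ℕ) : ℝ) * (1 / (M + 1))) := by ring
    rw [h4]
    linarith
  have h5 : (1 + (-(1 / (M + 1)))) ^ (2 * D) = (M ^ D) ^ 2 / ((M + 1) ^ D) ^ 2 := by
    have : (1 + (-(1 / (M + 1)))) = M / (M + 1) := by
      field_simp
      ring
    rw [this, div_pow, ← pow_mul, ← pow_mul, mul_comm 2 D]
  rw [h5] at h1
  have h6 := h2.trans h1
  have h7 : 0 < ((M + 1) ^ D) ^ 2 := by positivity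
  rw [le_div_iff₀ h7] at h6
  exact h6

theorem mainF : ∃ D₀ : ℕ, ∀ D : ℕ, D₀ ≤ D → ∀ q : ℕ, Adm4 D q → ∃ k₀ : ℕ, ∀ k : ℕ, k₀ ≤ k →
    9 / (5 * (q : ℝ)) ≤
      (∑ x ∈ obx D (2 ^ (k + 1)), ∑ y ∈ obx D (2 ^ (k + 1)),
        (cnt (fun f : Bx D (2 ^ (k + 1)) → Fin q => Proper (BG D (2 ^ (k + 1))) f ∧ f x = f y) : ℝ) /
          cnt (fun f : Bx D (2 ^ (k + 1)) → Fin q => Proper (BG D (2 ^ (k + 1))) f)) /
        ((obx D (2 ^ (k + 1))).card : ℝ) ^ 2 := by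
  obtain ⟨D₁, hconc⟩ := conc
  refine ⟨max D₁ 1, fun D hD q hq => ?_⟩
  obtain ⟨k₁, hk₁⟩ := hconc D ((le_max_left _ _).trans hD) q hq
  have hD1 : 1 ≤ D := (le_max_right _ _).trans hD
  refine ⟨max k₁ (122 * D), fun k hk => ?_⟩
  have h1 := hk₁ k ((le_max_left _ _).trans hk)
  have hk2 : 122 * D ≤ k := (le_max_right _ _).trans hk
  have hq2 : 2 ≤ q := hq.1
  have hq0 : (0 : ℝ) < q := by
    have : 0 < q := by omega
    exact_mod_cast this
  have hC : 0 < (cnt (fun f : Bx D (2 ^ (k + 1)) → Fin q => Proper (BG D (2 ^ (k + 1))) f) : ℝ) := by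
    exact_mod_cast mainF_pos hq2
  have hNB := trB_card (D := D) (k := k) (q := q)
  have hNBpos : 0 < NB D (k + 2) q := by rw [← hNB]; exact hC
  have hS := trB_sum (D := D) (k := k) (q := q) hD1
  have hcard0 : 0 < ((obx D (2 ^ (k + 1))).card : ℝ) := by
    exact_mod_cast mainF_obx hD1 (Nat.one_le_two_pow)
  have hcard : 2 * ((obx D (2 ^ (k + 1))).card : ℝ) ≤ ((2 : ℝ) ^ (k + 1) + 1) ^ D := by
    exact_mod_cast obx_card (D := D) (k := k)
  simp only [← Finset.sum_div]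
  rw [hNB]
  set S : ℝ := ∑ x ∈ obx D (2 ^ (k + 1)), ∑ y ∈ obx D (2 ^ (k + 1)),
        (cnt (fun f : Bx D (2 ^ (k + 1)) → Fin q => Proper (BG D (2 ^ (k + 1))) f ∧ f x = f y) : ℝ)
    with hSdef
  set T : ℝ := ∑ f ∈ sys D (k + 2) q univ, ∑ c, (∑ s : Gr D (2 ^ k), Mb f (bk s) c) ^ 2 with hTdef
  set c : ℝ := ((obx D (2 ^ (k + 1))).card : ℝ) with hcdef
  set N : ℝ := NB D (k + 2) q with hNdef
  clear_value S T c N
  -- Bernoulli
  have hM : (122 : ℝ) * (D : ℝ) ≤ (2 : ℝ) ^ (k + 1) + 1 := by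
    have h2 : k < 2 ^ k := Nat.lt_two_pow_self
    have h3 : 2 ^ k ≤ 2 ^ (k + 1) := Nat.pow_le_pow_right (by norm_num) (by omega)
    have h4 : 122 * D ≤ 2 ^ (k + 1) + 1 := by omega
    exact_mod_cast h4
  have hB := mainF_bern (D := D) (M := (2 : ℝ) ^ (k + 1)) (by positivity) hM
  -- card square
  have hc2 : c ^ 2 ≤ (((2 : ℝ) ^ (k + 1) + 1) ^ D) ^ 2 / 4 := by
    have h5 : (2 * c) ^ 2 ≤ (((2 : ℝ) ^ (k + 1) + 1) ^ D) ^ 2 :=
      pow_le_pow_left₀ (by positivity) hcard 2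
    have h6 : (2 * c) ^ 2 = 4 * c ^ 2 := by ring
    rw [h6] at h5
    linarith
  have hpow : ((2 : ℝ) ^ (k + 1)) ^ D = 2 ^ D * ((2 : ℝ) ^ k) ^ D := by
    rw [← mul_pow]
    congr 1
    ring
  have hMM : (((2 : ℝ) ^ (k + 1)) ^ D) ^ 2 = 4 ^ D * (((2 : ℝ) ^ k) ^ D) ^ 2 := by
    rw [hpow, mul_pow]
    congr 1
    rw [← pow_mul, mul_comm D 2, pow_mul]
    norm_num
  -- the chain
  have h7 : 4 ^ D / 4 * (183 / (100 * (q : ℝ)) * (((2 : ℝ) ^ k) ^ D) ^ 2 * N) ≤ S :=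
    (mul_le_mul_of_nonneg_left h1 (by positivity)).trans hS
  have h8 : 9 / (5 * (q : ℝ)) * (c ^ 2 * N) ≤ S := by
    refine le_trans ?_ h7
    have h9 : 9 / (5 * (q : ℝ)) * (c ^ 2 * N) ≤
        9 / (5 * (q : ℝ)) * ((183 / 180 * (((2 : ℝ) ^ (k + 1)) ^ D) ^ 2) / 4 * N) := by
      refine mul_le_mul_of_nonneg_left (mul_le_mul_of_nonneg_right ?_ hNBpos.le) (by positivity)
      refine hc2.trans ?_
      linarith
    refine h9.trans (le_of_eq ?_)
    rw [hMM]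
    field_simp
    ring
  rw [div_div, le_div_iff₀ (by positivity)]
  refine le_trans (le_of_eq ?_) h8
  ring

end Pool.Agent.LO
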