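import Pool.Agent.Lib_MP_2c424f_fb.TrB
import Pool.Agent.Lib_MP_2c424f_fb.EvB

/-!
# From symmetric colourings to colourings of the box, both parities (piece TRG)

As `TrB.lean`.  `U_c = ∑_s Mb f (bk s) c = (2/4^D) #{(s,a,b) odd : colour c}`: every site of the box comes from at
most `2^D` triples and every interior site (no coordinate `0` or `M`) from exactly `2^D`.  So
`2^(D-1) U_c ≤ n_c ≤ 2^(D-1) U_c + b_c`, `b_c` = number of the odd boundary sites with colour `c`; the same for the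
even sites and `W_c = ∑_s Me f (bk s) c`.  `trG_oe`: `n n' ≤ 4^(D-1) U W + b n' + b' n`, sum over the colours.
`obx_eq`, `ebx_eq`: `#even - #odd = ∏ 1 = 1` (product of the alternating sums over `{0..M}`, `M` even).
-/

set_option autoImplicit false

open Finset

namespace Pool.Agent.LO

open Pool.Agent.QC

variable {D k q : ℕ}

/-- even sites of the box -/
noncomputable def ebx (D n : ℕ) : Finset (Bx D n) := univ.filter fun x => Even (∑ i, (x i).val)

/-- sum over pairs of sites of the number of the proper colourings with equal colours -/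
noncomputable def prN (D n q : ℕ) (A B : Finset (Bx D n)) : ℝ :=
  ∑ x ∈ A, ∑ y ∈ B, (cnt (fun f : Bx D n → Fin q => Proper (BG D n) f ∧ f x = f y) : ℝ)

/-- the inclusion of the box -/
private def TrG_inc (x : Bx D (2 ^ (k + 1))) : Site D (k + 2) :=
  fun j => (((x j).val : ℕ) : ZMod (2 ^ (k + 2)))

/-- the folding onto the box -/
private def TrG_fold (x : Site D (k + 2)) : Bx D (2 ^ (k + 1)) :=
  fun j => ⟨(ph (k := k + 1) true (x j)).val, Nat.lt_succ_of_le (ph_true_le (k := k + 1) (x j))⟩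

private theorem TrG_inc_val (x : Bx D (2 ^ (k + 1))) (j : Fin D) :
    (TrG_inc x j).val = (x j).val := by
  unfold TrG_inc
  rw [ZMod.val_natCast, Nat.mod_eq_of_lt]
  have h1 := (x j).isLt
  have h2 : 2 ^ (k + 2) = 2 * 2 ^ (k + 1) := by ring
  have h3 : 0 < 2 ^ k := by positivity
  have h4 : 2 ^ (k + 1) = 2 * 2 ^ k := by ring
  omega

private theorem TrG_fold_inc (x : Bx D (2 ^ (k + 1))) : TrG_fold (TrG_inc x) = x := by
  funext j
  apply Fin.ext
  have h1 : (TrG_inc x j).val ≤ 2 ^ (k + 1) := by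
    rw [TrG_inc_val]
    exact Nat.lt_succ_iff.1 (x j).isLt
  show (ph (k := k + 1) true (TrG_inc x j)).val = (x j).val
  rw [ph_true_of_le (k := k + 1) h1, TrG_inc_val]

private theorem TrG_inc_fold (x : Site D (k + 2)) :
    TrG_inc (TrG_fold x) = fld (k := k + 1) (fun _ => true) x := by
  funext j
  show (((ph (k := k + 1) true (x j)).val : ℕ) : ZMod (2 ^ (k + 2))) = ph (k := k + 1) true (x j)
  exact ZMod.natCast_zmod_val _

private theorem TrG_adj {u v : Bx D (2 ^ (k + 1))} (h : bd u v = 1) :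
    ∃ σ : Stp D, TrG_inc u = TrG_inc v + sv σ := by
  classical
  unfold bd at h
  have hex : ∃ i, ((u i : ℤ) - (v i : ℤ)).natAbs ≠ 0 := by
    by_contra hcon
    push Not at hcon
    rw [Finset.sum_eq_zero fun i _ => hcon i] at h
    exact zero_ne_one h
  obtain ⟨i, hi⟩ := hex
  rw [← Finset.add_sum_erase _ _ (Finset.mem_univ i)] at h
  have hi1 : ((u i : ℤ) - (v i : ℤ)).natAbs = 1 := by omega
  have hrest : ∑ x ∈ univ.erase i, ((u x : ℤ) - (v x : ℤ)).natAbs = 0 := by omega
  have hne : ∀ j, j ≠ i → u j = v j := by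
    intro j hj
    have h1 := (Finset.sum_eq_zero_iff.1 hrest) j (Finset.mem_erase.2 ⟨hj, Finset.mem_univ _⟩)
    apply Fin.ext
    omega
  rcases (show (u i).val = (v i).val + 1 ∨ (v i).val = (u i).val + 1 by omega) with h1 | h1
  · refine ⟨(i, true), funext fun j => ?_⟩
    by_cases hj : j = i
    · subst hj
      simp [TrG_inc, sv, h1]
    · simp [TrG_inc, sv, hne j hj, Pi.single_eq_of_ne hj]
  · refine ⟨(i, false), funext fun j => ?_⟩
    by_cases hj : j = i
    · subst hj
      simp [TrG_inc, sv, h1]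
    · simp [TrG_inc, sv, hne j hj, Pi.single_eq_of_ne hj]

private theorem TrG_val_succ {p p' : ZMod (2 ^ (k + 2))} (h : p' = p + 1)
    (hp : p.val ≤ 2 ^ (k + 1)) : p'.val = p.val + 1 := by
  have h1 : p' = ((p.val + 1 : ℕ) : ZMod (2 ^ (k + 2))) := by
    rw [h]
    push_cast
    rw [ZMod.natCast_zmod_val]
  rw [h1, ZMod.val_natCast, Nat.mod_eq_of_lt]
  have h2 : 2 ^ (k + 2) = 2 * 2 ^ (k + 1) := by ring
  have h3 : 0 < 2 ^ k := by positivity
  have h4 : 2 ^ (k + 1) = 2 * 2 ^ k := by ring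
  omega

private theorem TrG_diff {p p' : ZMod (2 ^ (k + 2))} (h : p' = p + 1 ∨ p' = p - 1)
    (hp : p.val ≤ 2 ^ (k + 1)) (hp' : p'.val ≤ 2 ^ (k + 1)) :
    ((p'.val : ℤ) - (p.val : ℤ)).natAbs = 1 := by
  rcases h with h | h
  · rw [TrG_val_succ h hp]
    push_cast
    omega
  · have h1 : p = p' + 1 := by rw [h]; ring
    rw [TrG_val_succ h1 hp']
    push_cast
    omega

private theorem TrG_fold_adj (x : Site D (k + 2)) (σ : Stp D) :
    bd (TrG_fold (x + sv σ)) (TrG_fold x) = 1 := by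
  classical
  obtain ⟨j, b⟩ := σ
  obtain ⟨y, hy⟩ : ∃ y : Site D (k + 2), y = x + sv (j, b) := ⟨_, rfl⟩
  rw [← hy]
  have hyj : y j = x j + (if b then 1 else -1) := by
    rw [hy]
    simp [sv]
  have hyi : ∀ i, i ≠ j → y i = x i := by
    intro i hi
    rw [hy]
    simp [sv, Pi.single_eq_of_ne hi]
  unfold bd
  rw [Finset.sum_eq_single j]
  · have hphs : ph (k := k + 1) true (y j) = ph (k := k + 1) true (x j) + 1 ∨
        ph (k := k + 1) true (y j) = ph (k := k + 1) true (x j) - 1 := by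
      cases b with
      | true =>
        have h1 : y j = x j + 1 := by rw [hyj]; simp
        rw [h1]
        exact ph_step (k := k + 1) true (x j)
      | false =>
        have h1 : x j = y j + 1 := by rw [hyj]; simp
        have h2 := ph_step (k := k + 1) true (y j)
        rw [← h1] at h2
        rcases h2 with h2 | h2
        · right; rw [h2]; ring
        · left; rw [h2]; ring
    exact TrG_diff hphs (ph_true_le (k := k + 1) _) (ph_true_le (k := k + 1) _)
  · intro i _ hi
    have h1 : TrG_fold y i = TrG_fold x i := by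
      apply Fin.ext
      show (ph (k := k + 1) true (y i)).val = (ph (k := k + 1) true (x i)).val
      rw [hyi i hi]
    rw [h1]
    simp
  · intro h
    exact absurd (Finset.mem_univ _) h

private theorem TrG_fold_th (j : Fin D) (x : Site D (k + 2)) : TrG_fold (th j x) = TrG_fold x := by
  funext i
  apply Fin.ext
  show (ph (k := k + 1) true (th j x i)).val = (ph (k := k + 1) true (x i)).val
  by_cases hi : i = j
  · subst hi
    have : th i x i = -(x i) := by simp [th]
    rw [this, ph_neg]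
  · have : th j x i = x i := by simp [th, hi]
    rw [this]

private theorem TrG_mem {f : Site D (k + 2) → Fin q} : f ∈ sys D (k + 2) q univ ↔
    Prp f ∧ ∀ j x, f (th j x) = f x := by
  classical
  simp [sys, prps]

private theorem TrG_proper {f : Site D (k + 2) → Fin q} (hf : f ∈ sys D (k + 2) q univ) :
    Proper (BG D (2 ^ (k + 1))) (fun x => f (TrG_inc x)) := by
  intro u v huv
  obtain ⟨σ, hσ⟩ := TrG_adj huv
  show f (TrG_inc u) ≠ f (TrG_inc v)
  rw [hσ]
  exact (TrG_mem.1 hf).1 _ σ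

private theorem TrG_sys {g : Bx D (2 ^ (k + 1)) → Fin q} (hg : Proper (BG D (2 ^ (k + 1))) g) :
    (fun x => g (TrG_fold x)) ∈ sys D (k + 2) q univ := by
  rw [TrG_mem]
  refine ⟨fun x σ => hg _ _ (TrG_fold_adj x σ), fun j x => ?_⟩
  show g (TrG_fold (th j x)) = g (TrG_fold x)
  rw [TrG_fold_th]

private theorem TrG_back {f : Site D (k + 2) → Fin q} (hf : f ∈ sys D (k + 2) q univ)
    (x : Site D (k + 2)) : f (TrG_inc (TrG_fold x)) = f x := by
  rw [TrG_inc_fold]
  exact sys_fld_true (k := k + 1) hf _ x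

open scoped Classical in
/-- counting with a property -/
private theorem TrG_cnt (p : (Bx D (2 ^ (k + 1)) → Fin q) → Prop) :
    cnt (fun f : Bx D (2 ^ (k + 1)) → Fin q => Proper (BG D (2 ^ (k + 1))) f ∧ p f) =
      ((sys D (k + 2) q univ).filter fun f => p (fun x => f (TrG_inc x))).card := by
  rw [cnt_eq]
  refine Finset.card_bij' (fun g _ => fun x => g (TrG_fold x)) (fun f _ => fun x => f (TrG_inc x))
    ?_ ?_ ?_ ?_
  · intro g hg
    have hg' := ((@Finset.mem_filter _ _ (_) _ _).1 hg).2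
    refine (@Finset.mem_filter _ _ (_) _ _).2 ⟨TrG_sys hg'.1, ?_⟩
    simp only [TrG_fold_inc]
    exact hg'.2
  · intro f hf
    have hf' := (@Finset.mem_filter _ _ (_) _ _).1 hf
    exact (@Finset.mem_filter _ _ (_) _ _).2 ⟨Finset.mem_univ _, TrG_proper hf'.1, hf'.2⟩
  · intro g _
    simp only [TrG_fold_inc]
  · intro f hf
    have hf' := (@Finset.mem_filter _ _ (_) _ _).1 hf
    funext x
    exact TrG_back hf'.1 x

/-- the point of the box -/
private def TrG_Y (s : Gr D (2 ^ k)) (a b : Bt D) : Bx D (2 ^ (k + 1)) := fun j =>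
  ⟨2 * (s j).val + (if a j then 1 else 0) + (if b j then 1 else 0), by
    have h1 := (s j).isLt
    have h2 : 2 ^ (k + 1) = 2 * 2 ^ k := by ring
    split_ifs <;> omega⟩

private theorem TrG_pt (s : Gr D (2 ^ k)) (a b : Bt D) :
    pt (bk s) a b = TrG_inc (TrG_Y s a b) := by
  funext j
  simp only [pt, bas, bv, Pi.add_apply, TrG_inc, TrG_Y, bk_val]
  push_cast
  rfl

private theorem TrG_Y_inj {s s' : Gr D (2 ^ k)} {a a' b : Bt D}
    (h : TrG_Y s a b = TrG_Y s' a' b) : s = s' ∧ a = a' := by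
  have key : ∀ j, (s j).val = (s' j).val ∧ a j = a' j := by
    intro j
    have h1 := congrArg Fin.val (congrFun h j)
    simp only [TrG_Y] at h1
    cases ha : a j <;> cases ha' : a' j <;> cases hb : b j <;>
      simp [ha, ha', hb] at h1 ⊢ <;> omega
  exact ⟨funext fun j => Fin.ext (key j).1, funext fun j => (key j).2⟩

/-- sites of the box of given parity -/
private noncomputable def TrG_A (D n : ℕ) (e : Prop) : Finset (Bx D n) := by
  classical
  exact univ.filter fun x => (Odd (∑ i, (x i).val) ↔ e)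

private theorem TrG_Y_odd (s : Gr D (2 ^ k)) (a b : Bt D) :
    Odd (∑ i, (TrG_Y s a b i).val) ↔ od a b := by
  classical
  unfold od
  rw [← Nat.not_even_iff_odd, Finset.even_sum_iff_even_card_odd, Nat.not_even_iff_odd]
  have h1 : (univ.filter fun i => Odd ((TrG_Y s a b i).val)) = univ.filter fun i => a i ≠ b i := by
    refine Finset.filter_congr fun i _ => ?_
    simp only [TrG_Y]
    cases a i <;> cases b i <;> simp [parity_simps]
  rw [h1]

open scoped Classical in
/-- triples of given parity and colour -/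
private noncomputable def TrG_T (f : Site D (k + 2) → Fin q) (e : Prop) (c : Fin q) :
    Finset (Gr D (2 ^ k) × Bt D × Bt D) :=
  univ.filter fun z => (od z.2.1 z.2.2 ↔ e) ∧ f (TrG_inc (TrG_Y z.1 z.2.1 z.2.2)) = c

open scoped Classical in
/-- sites of given parity and colour -/
private noncomputable def TrG_N (f : Site D (k + 2) → Fin q) (e : Prop) (c : Fin q) :
    Finset (Bx D (2 ^ (k + 1))) :=
  (TrG_A D (2 ^ (k + 1)) e).filter fun x => f (TrG_inc x) = c

/-- interior sites -/
private def TrG_in (x : Bx D (2 ^ (k + 1))) : Prop := ∀ j, 0 < (x j).val ∧ (x j).val < 2 ^ (k + 1)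

open scoped Classical in
private theorem TrG_Mb (f : Site D (k + 2) → Fin q) (c : Fin q) :
    ∑ s : Gr D (2 ^ k), Mb f (bk s) c = 2 / 4 ^ D * ((TrG_T f True c).card : ℝ) := by
  unfold TrG_T
  rw [Finset.card_filter]
  push_cast
  rw [← Finset.univ_product_univ, Finset.sum_product, Finset.mul_sum]
  refine Finset.sum_congr rfl fun s _ => ?_
  unfold Mb EB
  rw [mul_div_right_comm, ← Finset.univ_product_univ, Finset.sum_product]
  congr 1
  refine Finset.sum_congr rfl fun a _ => Finset.sum_congr rfl fun b _ => ?_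
  simp only [TrG_pt]
  by_cases h2 : od a b
  · simp [h2]
  · simp [h2]

open scoped Classical in
private theorem TrG_Me (f : Site D (k + 2) → Fin q) (c : Fin q) :
    ∑ s : Gr D (2 ^ k), Me f (bk s) c = 2 / 4 ^ D * ((TrG_T f False c).card : ℝ) := by
  unfold TrG_T
  rw [Finset.card_filter]
  push_cast
  rw [← Finset.univ_product_univ, Finset.sum_product, Finset.mul_sum]
  refine Finset.sum_congr rfl fun s _ => ?_
  unfold Me EBe
  rw [mul_div_right_comm, ← Finset.univ_product_univ, Finset.sum_product]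
  congr 1
  refine Finset.sum_congr rfl fun a _ => Finset.sum_congr rfl fun b _ => ?_
  simp only [TrG_pt]
  by_cases h2 : od a b
  · simp [h2]
  · simp [h2]

private theorem TrG_up (f : Site D (k + 2) → Fin q) (e : Prop) (c : Fin q) :
    (TrG_T f e c).card ≤ (TrG_N f e c).card * 2 ^ D := by
  classical
  have h2 : (TrG_T f e c).card ≤ ((TrG_N f e c) ×ˢ (univ : Finset (Bt D))).card := by
    refine Finset.card_le_card_of_injOn (fun z => (TrG_Y z.1 z.2.1 z.2.2, z.2.2)) ?_ ?_
    · intro z hz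
      unfold TrG_T at hz
      have hz' := (Finset.mem_filter.1 hz).2
      unfold TrG_N TrG_A
      rw [Finset.mem_coe, Finset.mem_product, Finset.mem_filter, Finset.mem_filter]
      exact ⟨⟨⟨Finset.mem_univ _, (TrG_Y_odd _ _ _).trans hz'.1⟩, hz'.2⟩, Finset.mem_univ _⟩
    · rintro ⟨s, a, b⟩ _ ⟨s', a', b'⟩ _ h
      have hb : b = b' := congrArg Prod.snd h
      subst hb
      have h3 : TrG_Y s a b = TrG_Y s' a' b := congrArg Prod.fst h
      obtain ⟨h4, h5⟩ := TrG_Y_inj h3
      rw [h4, h5]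
  rwa [Finset.card_product, Finset.card_univ, Fintype.card_fun, Fintype.card_bool,
    Fintype.card_fin] at h2

/-- the block of a site with given second corner -/
private def TrG_s (x : Bx D (2 ^ (k + 1))) (b : Bt D) : Gr D (2 ^ k) := fun j =>
  ⟨((x j).val - (if b j then 1 else 0)) / 2 % 2 ^ k, Nat.mod_lt _ (by positivity)⟩

/-- the first corner -/
private def TrG_a (x : Bx D (2 ^ (k + 1))) (b : Bt D) : Bt D := fun j =>
  decide (((x j).val - (if b j then 1 else 0)) % 2 = 1)

private theorem TrG_Y_s {x : Bx D (2 ^ (k + 1))} (hx : TrG_in x) (b : Bt D) :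
    TrG_Y (TrG_s x b) (TrG_a x b) b = x := by
  funext j
  apply Fin.ext
  obtain ⟨h1, h2⟩ := hx j
  have h3 : 2 ^ (k + 1) = 2 * 2 ^ k := by ring
  have h5 : ((x j).val - (if b j then 1 else 0)) / 2 < 2 ^ k := by
    split_ifs <;> omega
  simp only [TrG_Y, TrG_s, TrG_a, Nat.mod_eq_of_lt h5, decide_eq_true_eq]
  by_cases hb : b j = true
  · simp only [if_pos hb]
    split_ifs <;> omega
  · simp only [if_neg hb]
    split_ifs <;> omega

open scoped Classical in
private theorem TrG_lo (f : Site D (k + 2) → Fin q) (e : Prop) (c : Fin q) :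
    ((TrG_N f e c).filter fun x => TrG_in x).card * 2 ^ D ≤ (TrG_T f e c).card := by
  have h2 : (((TrG_N f e c).filter fun x => TrG_in x) ×ˢ (univ : Finset (Bt D))).card ≤
      (TrG_T f e c).card := by
    refine Finset.card_le_card_of_injOn (fun z => (TrG_s z.1 z.2, TrG_a z.1 z.2, z.2)) ?_ ?_
    · intro z hz
      rw [Finset.mem_coe, Finset.mem_product, Finset.mem_filter] at hz
      obtain ⟨⟨h1, h3⟩, _⟩ := hz
      unfold TrG_N TrG_A at h1
      rw [Finset.mem_filter, Finset.mem_filter] at h1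
      unfold TrG_T
      rw [Finset.mem_coe, Finset.mem_filter]
      have h4 := TrG_Y_s h3 z.2
      refine ⟨Finset.mem_univ _, ?_, ?_⟩
      · show od (TrG_a z.1 z.2) z.2 ↔ e
        rw [← TrG_Y_odd (TrG_s z.1 z.2), h4]
        exact h1.1.2
      · show f (TrG_inc (TrG_Y (TrG_s z.1 z.2) (TrG_a z.1 z.2) z.2)) = c
        rw [h4]
        exact h1.2
    · rintro ⟨x, b⟩ hx ⟨x', b'⟩ hx' h
      rw [Finset.mem_coe, Finset.mem_product, Finset.mem_filter] at hx hx'
      simp only [Prod.mk.injEq] at h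
      obtain ⟨h1, h3, h4⟩ := h
      subst h4
      have h5 := TrG_Y_s hx.1.2 b
      have h6 := TrG_Y_s hx'.1.2 b
      simp only at h5 h6
      rw [h1, h3, h6] at h5
      rw [h5]
  rwa [Finset.card_product, Finset.card_univ, Fintype.card_fun, Fintype.card_bool,
    Fintype.card_fin] at h2

/-- the pair numbers through the symmetric colourings -/
private theorem TrG_prN (e e' : Prop) :
    prN D (2 ^ (k + 1)) q (TrG_A D (2 ^ (k + 1)) e) (TrG_A D (2 ^ (k + 1)) e') =
      ∑ f ∈ sys D (k + 2) q univ, ∑ c,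
        ((TrG_N f e c).card : ℝ) * ((TrG_N f e' c).card : ℝ) := by
  classical
  unfold prN
  have e1 : ∀ x y : Bx D (2 ^ (k + 1)),
      (cnt (fun f : Bx D (2 ^ (k + 1)) → Fin q => Proper (BG D (2 ^ (k + 1))) f ∧ f x = f y) : ℝ) =
      ∑ f ∈ sys D (k + 2) q univ, if f (TrG_inc x) = f (TrG_inc y) then (1 : ℝ) else 0 := by
    intro x y
    rw [TrG_cnt (fun f => f x = f y), Finset.card_filter]
    push_cast
    rfl
  simp only [e1]
  have e2 : ∀ x : Bx D (2 ^ (k + 1)), ∑ y ∈ TrG_A D (2 ^ (k + 1)) e',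
      ∑ f ∈ sys D (k + 2) q univ, (if f (TrG_inc x) = f (TrG_inc y) then (1 : ℝ) else 0) =
      ∑ f ∈ sys D (k + 2) q univ, ∑ y ∈ TrG_A D (2 ^ (k + 1)) e',
        if f (TrG_inc x) = f (TrG_inc y) then (1 : ℝ) else 0 := fun x => Finset.sum_comm
  simp only [e2]
  rw [Finset.sum_comm]
  refine Finset.sum_congr rfl fun f _ => ?_
  have e3 : ∀ (e : Prop) (c : Fin q), ((TrG_N f e c).card : ℝ) =
      ∑ x ∈ TrG_A D (2 ^ (k + 1)) e, if f (TrG_inc x) = c then (1 : ℝ) else 0 := by
    intro e c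
    unfold TrG_N
    rw [Finset.card_filter]
    push_cast
    rfl
  simp only [e3, Finset.sum_mul_sum]
  symm
  rw [Finset.sum_comm]
  refine Finset.sum_congr rfl fun x _ => ?_
  rw [Finset.sum_comm]
  refine Finset.sum_congr rfl fun y _ => ?_
  rw [Finset.sum_eq_single (f (TrG_inc x))]
  · rw [if_pos rfl, one_mul]
    by_cases h : f (TrG_inc x) = f (TrG_inc y)
    · rw [if_pos h, if_pos h.symm]
    · rw [if_neg h, if_neg (Ne.symm h)]
  · intro c _ hc
    rw [if_neg (Ne.symm hc), zero_mul]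
  · intro h
    exact absurd (Finset.mem_univ _) h

private theorem TrG_obx (n : ℕ) : obx D n = TrG_A D n True := by
  classical
  unfold obx TrG_A
  ext x
  simp

private theorem TrG_ebx (n : ℕ) : ebx D n = TrG_A D n False := by
  classical
  unfold ebx TrG_A
  ext x
  simp

/-- scaled number of the triples -/
private noncomputable def TrG_u (f : Site D (k + 2) → Fin q) (e : Prop) (c : Fin q) : ℝ :=
  ((TrG_T f e c).card : ℝ) / 2 ^ D

private theorem TrG_u_le (f : Site D (k + 2) → Fin q) (e : Prop) (c : Fin q) :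
    TrG_u f e c ≤ (TrG_N f e c).card := by
  unfold TrG_u
  rw [div_le_iff₀ (by positivity)]
  exact_mod_cast TrG_up f e c

private theorem TrG_u_nonneg (f : Site D (k + 2) → Fin q) (e : Prop) (c : Fin q) :
    0 ≤ TrG_u f e c := by
  unfold TrG_u
  positivity

open scoped Classical in
private theorem TrG_le_u (f : Site D (k + 2) → Fin q) (e : Prop) (c : Fin q) :
    ((TrG_N f e c).card : ℝ) ≤
      TrG_u f e c + (((TrG_N f e c).filter fun x => ¬ TrG_in x).card : ℝ) := by
  have h1 := TrG_lo f e c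
  have h2 := Finset.card_filter_add_card_filter_not (s := TrG_N f e c) (fun x => TrG_in x)
  have h3 : (((TrG_N f e c).filter fun x => TrG_in x).card : ℝ) ≤ TrG_u f e c := by
    unfold TrG_u
    rw [le_div_iff₀ (by positivity)]
    exact_mod_cast h1
  have h4 : ((TrG_N f e c).card : ℝ) = (((TrG_N f e c).filter fun x => TrG_in x).card : ℝ) +
      (((TrG_N f e c).filter fun x => ¬ TrG_in x).card : ℝ) := by
    exact_mod_cast h2.symm
  linarith

private theorem TrG_UMb (f : Site D (k + 2) → Fin q) (c : Fin q) :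
    ∑ s : Gr D (2 ^ k), Mb f (bk s) c = 2 / 2 ^ D * TrG_u f True c := by
  rw [TrG_Mb]
  unfold TrG_u
  have h4 : (4 : ℝ) ^ D = 2 ^ D * 2 ^ D := by
    rw [← mul_pow]; norm_num
  rw [h4]
  field_simp

private theorem TrG_UMe (f : Site D (k + 2) → Fin q) (c : Fin q) :
    ∑ s : Gr D (2 ^ k), Me f (bk s) c = 2 / 2 ^ D * TrG_u f False c := by
  rw [TrG_Me]
  unfold TrG_u
  have h4 : (4 : ℝ) ^ D = 2 ^ D * 2 ^ D := by
    rw [← mul_pow]; norm_num
  rw [h4]
  field_simp

private theorem TrG_scale (u w : ℝ) :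
    (4 : ℝ) ^ D / 4 * ((2 / 2 ^ D * u) * (2 / 2 ^ D * w)) = u * w := by
  have h4 : (4 : ℝ) ^ D = 2 ^ D * 2 ^ D := by
    rw [← mul_pow]; norm_num
  rw [h4]
  field_simp
  ring

theorem trG_oo (hD : 1 ≤ D) :
    4 ^ D / 4 * ∑ f ∈ sys D (k + 2) q univ, ∑ c, (∑ s : Gr D (2 ^ k), Mb f (bk s) c) ^ 2 ≤
      prN D (2 ^ (k + 1)) q (obx D (2 ^ (k + 1))) (obx D (2 ^ (k + 1))) := by
  unfold prN
  exact trB_sum hD

theorem trG_ee (hD : 1 ≤ D) :
    4 ^ D / 4 * ∑ f ∈ sys D (k + 2) q univ, ∑ c, (∑ s : Gr D (2 ^ k), Me f (bk s) c) ^ 2 ≤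
      prN D (2 ^ (k + 1)) q (ebx D (2 ^ (k + 1))) (ebx D (2 ^ (k + 1))) := by
  rw [TrG_ebx, TrG_prN, Finset.mul_sum]
  refine Finset.sum_le_sum fun f _ => ?_
  rw [Finset.mul_sum]
  refine Finset.sum_le_sum fun c _ => ?_
  rw [TrG_UMe, sq, TrG_scale]
  exact mul_le_mul (TrG_u_le f False c) (TrG_u_le f False c) (TrG_u_nonneg f False c)
    (Nat.cast_nonneg _)

private theorem TrG_alg {u w n n' b b' : ℝ} (h1 : n ≤ u + b) (h2 : w ≤ n') (h3 : n' ≤ w + b')
    (h4 : 0 ≤ w) (h5 : 0 ≤ b) (h6 : 0 ≤ n) : n * n' ≤ u * w + (n * b' + n' * b) := by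
  have e1 : n * n' ≤ n * (w + b') := mul_le_mul_of_nonneg_left h3 h6
  have e2 : n * w ≤ (u + b) * w := mul_le_mul_of_nonneg_right h1 h4
  have e3 : b * w ≤ b * n' := mul_le_mul_of_nonneg_left h2 h5
  nlinarith

private theorem TrG_sum_card {α : Type} [DecidableEq α] (A : Finset α) (g : α → Fin q) :
    ∑ c, ((A.filter fun x => g x = c).card : ℝ) = A.card := by
  have h := Finset.card_eq_sum_card_fiberwise (f := g) (s := A) (t := univ)
    (fun x _ => Finset.mem_coe.2 (Finset.mem_univ _))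
  rw [h]
  push_cast
  rfl

private theorem TrG_sum_mul {x y : Fin q → ℝ} (hx : ∀ c, 0 ≤ x c) (hy : ∀ c, 0 ≤ y c) :
    ∑ c, x c * y c ≤ (∑ c, x c) * ∑ c, y c := by
  rw [Finset.sum_mul]
  refine Finset.sum_le_sum fun c _ => ?_
  exact mul_le_mul_of_nonneg_left
    (Finset.single_le_sum (fun c _ => hy c) (Finset.mem_univ c)) (hx c)

private theorem TrG_card_A (n : ℕ) :
    ((TrG_A D n True).card : ℝ) + ((TrG_A D n False).card : ℝ) = (n + 1) ^ D := by
  classical
  have h := Finset.card_filter_add_card_filter_not (s := (univ : Finset (Bx D n)))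
    (fun x => Odd (∑ i, (x i).val))
  rw [Finset.card_univ, Fintype.card_fun, Fintype.card_fin, Fintype.card_fin] at h
  have h1 : TrG_A D n True = univ.filter fun x => Odd (∑ i, (x i).val) := by
    unfold TrG_A
    ext x
    simp
  have h2 : TrG_A D n False = univ.filter fun x => ¬ Odd (∑ i, (x i).val) := by
    unfold TrG_A
    ext x
    simp
  rw [h1, h2]
  exact_mod_cast h

open scoped Classical in
private theorem TrG_card_in :
    ((univ : Finset (Bx D (2 ^ (k + 1)))).filter fun x => TrG_in x).card =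
      (2 ^ (k + 1) - 1) ^ D := by
  have h1 : ((univ : Finset (Bx D (2 ^ (k + 1)))).filter fun x => TrG_in x) =
      Fintype.piFinset (fun _ : Fin D => (univ : Finset (Fin (2 ^ (k + 1) + 1))).filter
        fun v => 0 < v.val ∧ v.val < 2 ^ (k + 1)) := by
    ext x
    simp only [Finset.mem_filter, Finset.mem_univ, true_and, Fintype.mem_piFinset]
    rfl
  rw [h1, Fintype.card_piFinset]
  rw [Finset.prod_const, Finset.card_univ, Fintype.card_fin]
  congr 1
  have h2 : (((univ : Finset (Fin (2 ^ (k + 1) + 1))).filter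
        fun v => 0 < v.val ∧ v.val < 2 ^ (k + 1)).map Fin.valEmbedding) =
      Finset.Ioo 0 (2 ^ (k + 1)) := by
    ext v
    simp only [Finset.mem_map, Finset.mem_filter, Finset.mem_univ, true_and, Finset.mem_Ioo,
      Fin.valEmbedding_apply]
    constructor
    · rintro ⟨w, hw, rfl⟩
      exact hw
    · intro hv
      exact ⟨⟨v, by omega⟩, hv, rfl⟩
  rw [← Finset.card_map, h2, Nat.card_Ioo]
  omega

open scoped Classical in
private theorem TrG_card_bd :
    (((TrG_A D (2 ^ (k + 1)) True).filter fun x => ¬ TrG_in x).card : ℝ) +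
      (((TrG_A D (2 ^ (k + 1)) False).filter fun x => ¬ TrG_in x).card : ℝ) =
      (2 ^ (k + 1) + 1) ^ D - (2 ^ (k + 1) - 1) ^ D := by
  have h := Finset.card_filter_add_card_filter_not
    (s := (univ : Finset (Bx D (2 ^ (k + 1))))) (fun x => TrG_in x)
  rw [Finset.card_univ, Fintype.card_fun, Fintype.card_fin, Fintype.card_fin, TrG_card_in] at h
  have h' := Finset.card_filter_add_card_filter_not
    (s := (univ : Finset (Bx D (2 ^ (k + 1)))).filter fun x => ¬ TrG_in x)
    (fun x => Odd (∑ i, (x i).val))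
  have h1 : ((TrG_A D (2 ^ (k + 1)) True).filter fun x => ¬ TrG_in x) =
      (((univ : Finset (Bx D (2 ^ (k + 1)))).filter fun x => ¬ TrG_in x).filter
        fun x => Odd (∑ i, (x i).val)) := by
    unfold TrG_A
    ext x
    simp only [Finset.mem_filter, Finset.mem_univ, true_and, iff_true]
    exact and_comm
  have h2 : ((TrG_A D (2 ^ (k + 1)) False).filter fun x => ¬ TrG_in x) =
      (((univ : Finset (Bx D (2 ^ (k + 1)))).filter fun x => ¬ TrG_in x).filter
        fun x => ¬ Odd (∑ i, (x i).val)) := by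
    unfold TrG_A
    ext x
    simp only [Finset.mem_filter, Finset.mem_univ, true_and, iff_false]
    exact and_comm
  rw [h1, h2]
  have h3 : ((((2 ^ (k + 1) - 1) ^ D : ℕ)) : ℝ) = (2 ^ (k + 1) - 1) ^ D := by
    rw [Nat.cast_pow, Nat.cast_sub Nat.one_le_two_pow]
    push_cast
    rfl
  rw [← h3]
  have h4 : (((2 ^ (k + 1) - 1) ^ D : ℕ) : ℝ) +
      (((univ : Finset (Bx D (2 ^ (k + 1)))).filter fun x => ¬ TrG_in x).card : ℝ) =
      (2 ^ (k + 1) + 1) ^ D := by
    exact_mod_cast h
  have h5 : ((((univ : Finset (Bx D (2 ^ (k + 1)))).filter fun x => ¬ TrG_in x).filter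
        fun x => Odd (∑ i, (x i).val)).card : ℝ) +
      ((((univ : Finset (Bx D (2 ^ (k + 1)))).filter fun x => ¬ TrG_in x).filter
        fun x => ¬ Odd (∑ i, (x i).val)).card : ℝ) =
      (((univ : Finset (Bx D (2 ^ (k + 1)))).filter fun x => ¬ TrG_in x).card : ℝ) := by
    exact_mod_cast h'
  linarith

theorem trG_oe (hD : 1 ≤ D) :
    prN D (2 ^ (k + 1)) q (obx D (2 ^ (k + 1))) (ebx D (2 ^ (k + 1))) ≤
      4 ^ D / 4 * ∑ f ∈ sys D (k + 2) q univ, ∑ c,
        (∑ s : Gr D (2 ^ k), Mb f (bk s) c) * (∑ s : Gr D (2 ^ k), Me f (bk s) c) +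
      NB D (k + 2) q * ((2 ^ (k + 1) + 1) ^ D * ((2 ^ (k + 1) + 1) ^ D - (2 ^ (k + 1) - 1) ^ D)) := by
  classical
  rw [TrG_ebx, TrG_obx, TrG_prN, Finset.mul_sum]
  unfold NB
  rw [← nsmul_eq_mul, ← Finset.sum_const, ← Finset.sum_add_distrib]
  refine Finset.sum_le_sum fun f _ => ?_
  rw [Finset.mul_sum]
  have h1 : ∀ c, ((TrG_N f True c).card : ℝ) * ((TrG_N f False c).card : ℝ) ≤
      4 ^ D / 4 * ((∑ s : Gr D (2 ^ k), Mb f (bk s) c) * (∑ s : Gr D (2 ^ k), Me f (bk s) c)) +
      (((TrG_N f True c).card : ℝ) * (((TrG_N f False c).filter fun x => ¬ TrG_in x).card : ℝ) +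
      ((TrG_N f False c).card : ℝ) * (((TrG_N f True c).filter fun x => ¬ TrG_in x).card : ℝ)) := by
    intro c
    rw [TrG_UMb, TrG_UMe, TrG_scale]
    exact TrG_alg (TrG_le_u f True c) (TrG_u_le f False c) (TrG_le_u f False c)
      (TrG_u_nonneg f False c) (Nat.cast_nonneg _) (Nat.cast_nonneg _)
  refine (Finset.sum_le_sum fun c _ => h1 c).trans ?_
  rw [Finset.sum_add_distrib]
  refine add_le_add le_rfl ?_
  rw [Finset.sum_add_distrib]
  have s1 := TrG_sum_mul (x := fun c => ((TrG_N f True c).card : ℝ))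
    (y := fun c => (((TrG_N f False c).filter fun x => ¬ TrG_in x).card : ℝ))
    (fun _ => Nat.cast_nonneg _) (fun _ => Nat.cast_nonneg _)
  have s2 := TrG_sum_mul (x := fun c => ((TrG_N f False c).card : ℝ))
    (y := fun c => (((TrG_N f True c).filter fun x => ¬ TrG_in x).card : ℝ))
    (fun _ => Nat.cast_nonneg _) (fun _ => Nat.cast_nonneg _)
  have s3 : ∀ e : Prop, ∑ c, ((TrG_N f e c).card : ℝ) = ((TrG_A D (2 ^ (k + 1)) e).card : ℝ) := by
    intro e
    exact TrG_sum_card _ _
  have s4 : ∀ e : Prop, ∑ c, (((TrG_N f e c).filter fun x => ¬ TrG_in x).card : ℝ) =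
      (((TrG_A D (2 ^ (k + 1)) e).filter fun x => ¬ TrG_in x).card : ℝ) := by
    intro e
    have h5 := TrG_sum_card (((TrG_A D (2 ^ (k + 1)) e).filter fun x => ¬ TrG_in x))
      (fun x => f (TrG_inc x))
    rw [← h5]
    refine Finset.sum_congr rfl fun c _ => ?_
    unfold TrG_N
    rw [Finset.filter_filter, Finset.filter_filter]
    congr 2
    ext x
    simp only [Finset.mem_filter]
    tauto
  simp only [s3, s4] at s1 s2
  have c1 := TrG_card_A (D := D) (2 ^ (k + 1))
  have c2 := TrG_card_bd (D := D) (k := k)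
  push_cast at c1
  rw [← c2, ← c1]
  have n1 : (0 : ℝ) ≤ ((TrG_A D (2 ^ (k + 1)) True).card : ℝ) := Nat.cast_nonneg _
  have n2 : (0 : ℝ) ≤ ((TrG_A D (2 ^ (k + 1)) False).card : ℝ) := Nat.cast_nonneg _
  have n3 : (0 : ℝ) ≤ (((TrG_A D (2 ^ (k + 1)) True).filter fun x => ¬ TrG_in x).card : ℝ) :=
    Nat.cast_nonneg _
  have n4 : (0 : ℝ) ≤ (((TrG_A D (2 ^ (k + 1)) False).filter fun x => ¬ TrG_in x).card : ℝ) :=
    Nat.cast_nonneg _
  have m1 := mul_nonneg n1 n3
  have m2 := mul_nonneg n2 n4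
  nlinarith

private theorem TrG_signed : ∑ x : Bx D (2 ^ (k + 1)), ∏ i, ((-1 : ℤ)) ^ (x i).val = 1 := by
  have h2 := Finset.prod_univ_sum (fun _ : Fin D => (univ : Finset (Fin (2 ^ (k + 1) + 1))))
    (fun _ v => (-1 : ℤ) ^ v.val)
  rw [Fintype.piFinset_univ] at h2
  rw [← h2]
  refine Finset.prod_eq_one fun i _ => ?_
  rw [Fin.sum_univ_eq_sum_range (fun v => (-1 : ℤ) ^ v), Finset.sum_range_succ]
  have h3 : ∀ m : ℕ, ∑ v ∈ range (2 * m), (-1 : ℤ) ^ v = 0 := by
    intro m
    induction m with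
    | zero => simp
    | succ m ih =>
      rw [show 2 * (m + 1) = 2 * m + 1 + 1 by ring, Finset.sum_range_succ,
        Finset.sum_range_succ, ih, pow_succ]
      ring
  rw [show 2 ^ (k + 1) = 2 * 2 ^ k by ring, h3, zero_add, pow_mul]
  norm_num

theorem obx_eq : 2 * (obx D (2 ^ (k + 1))).card + 1 = (2 ^ (k + 1) + 1) ^ D := by
  classical
  have h1 := TrG_signed (D := D) (k := k)
  have h2 : ∀ x : Bx D (2 ^ (k + 1)), ∏ i, ((-1 : ℤ)) ^ (x i).val =
      1 - 2 * (if Odd (∑ i, (x i).val) then 1 else 0) := by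
    intro x
    rw [Finset.prod_pow_eq_pow_sum]
    by_cases hx : Odd (∑ i, (x i).val)
    · rw [if_pos hx, hx.neg_one_pow]
      norm_num
    · rw [if_neg hx, (Nat.not_odd_iff_even.1 hx).neg_one_pow]
      norm_num
  simp only [h2] at h1
  rw [Finset.sum_sub_distrib, ← Finset.mul_sum, ← Finset.sum_filter, Finset.sum_const,
    Finset.sum_const, Finset.card_univ, Fintype.card_fun, Fintype.card_fin, Fintype.card_fin,
    nsmul_eq_mul, nsmul_eq_mul, mul_one, mul_one] at h1
  have h3 : ((2 * (obx D (2 ^ (k + 1))).card + 1 : ℕ) : ℤ) = (((2 ^ (k + 1) + 1) ^ D : ℕ) : ℤ) := by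
    unfold obx
    have h4 : ((univ.filter fun x : Bx D (2 ^ (k + 1)) => Odd (∑ i, (x i).val)).card : ℤ) =
        ((univ.filter fun x : Bx D (2 ^ (k + 1)) => Odd (∑ i, (x i).val)).card : ℤ) := rfl
    push_cast at h1 ⊢
    linarith
  exact_mod_cast h3

theorem ebx_eq : 2 * (ebx D (2 ^ (k + 1))).card = (2 ^ (k + 1) + 1) ^ D + 1 := by
  classical
  have h1 := obx_eq (D := D) (k := k)
  have h2 := TrG_card_A (D := D) (2 ^ (k + 1))
  rw [← TrG_obx, ← TrG_ebx] at h2
  have h3 : (obx D (2 ^ (k + 1))).card + (ebx D (2 ^ (k + 1))).card = (2 ^ (k + 1) + 1) ^ D := by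
    exact_mod_cast h2
  omega

end Pool.Agent.LO
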