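import Pool.Agent.Lib_MP_2c424f_fb.ConG
import Pool.Agent.Lib_MP_2c424f_fb.TrG

/-!
# Long-range order in the free boxes, sharp form (piece MAING)

`conG` (with a small `ε`), `trG_oo`, `trG_ee`, `trG_oe`, `obx_eq`, `ebx_eq`, `trB_card`; off the exceptional set use
`∑_c U_c W_c ≤ n^2` (`0 ≤ U_c ≤ n`, `∑ W_c = n`).  `(M/(M+1))^(2D) → 1`, `1 - ((M-1)/(M+1))^D → 0` as `k → ∞`.
`0.97 → 19/20` and `1/(40 q) → 1/(20 q)`.
-/

set_option autoImplicit false

open Finset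

namespace Pool.Agent.LO

open Pool.Agent.QC

/-- mean over the pairs `x ∈ A`, `y ∈ B` of `P(f x = f y)`, uniform proper `q`-colouring of the free box -/
noncomputable def mnP (D n q : ℕ) (A B : Finset (Bx D n)) : ℝ :=
  (∑ x ∈ A, ∑ y ∈ B, (cnt (fun f : Bx D n → Fin q => Proper (BG D n) f ∧ f x = f y) : ℝ) /
    cnt (fun f : Bx D n → Fin q => Proper (BG D n) f)) / ((A.card : ℝ) * B.card)

/-- neighbours in the box have different parities -/
private theorem mainG_par {D n : ℕ} {x y : Bx D n} (h : (BG D n).Adj x y) :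
    (Even (∑ i, (x i).val) ↔ ¬ Even (∑ i, (y i).val)) := by
  have h1 : bd x y = 1 := h
  have h2 : ∀ a b : ℕ, (((a : ℤ) - (b : ℤ)).natAbs + (a + b)) % 2 = 0 := by
    intro a b; omega
  have h3 : (∑ i, (((x i : ℤ) - (y i : ℤ)).natAbs + ((x i).val + (y i).val))) % 2 = 0 := by
    refine Nat.mod_eq_zero_of_dvd (Finset.dvd_sum fun i _ => ?_)
    exact Nat.dvd_of_mod_eq_zero (h2 _ _)
  rw [Finset.sum_add_distrib, Finset.sum_add_distrib] at h3
  have h4 : (∑ i, ((x i : ℤ) - (y i : ℤ)).natAbs) = 1 := h1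
  rw [h4] at h3
  rw [Nat.even_iff, Nat.even_iff]
  omega

private theorem mainG_pos {D n q : ℕ} (hq : 2 ≤ q) :
    0 < cnt (fun f : Bx D n → Fin q => Proper (BG D n) f) := by
  classical
  rw [cnt_eq, Finset.card_pos]
  refine ⟨fun x => if Even (∑ i, (x i).val) then ⟨0, by omega⟩ else ⟨1, by omega⟩, ?_⟩
  simp only [mem_filter, mem_univ, true_and]
  intro u v huv
  have h := mainG_par huv
  by_cases hu : Even (∑ i, (u i).val)
  · have hv := h.1 hu
    simp [hu, hv]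
  · have hv : Even (∑ i, (v i).val) := by
      by_contra hv
      exact hu (h.2 hv)
    simp [hu, hv]

/-- Bernoulli -/
private theorem mainG_bern {n : ℕ} {M a δ : ℝ} (ha : 0 < a) (hM : a ≤ M) (h : (n : ℝ) * a ≤ δ * (M + a)) :
    (1 - δ) * (M + a) ^ n ≤ M ^ n := by
  have hM1 : 0 < M + a := by linarith
  have h1 : 1 + (n : ℝ) * (-(a / (M + a))) ≤ (1 + (-(a / (M + a)))) ^ n := by
    apply one_add_mul_le_pow
    have : a / (M + a) ≤ 1 := by
      rw [div_le_one hM1]; linarith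
    linarith
  have h2 : 1 - δ ≤ 1 + (n : ℝ) * (-(a / (M + a))) := by
    have h3 : (n : ℝ) * (a / (M + a)) ≤ δ := by
      rw [mul_div_assoc', div_le_iff₀ hM1]
      exact h
    linarith
  have h5 : (1 + (-(a / (M + a)))) ^ n = M ^ n / (M + a) ^ n := by
    have : (1 + (-(a / (M + a)))) = M / (M + a) := by
      field_simp
      ring
    rw [this, div_pow]
  rw [h5] at h1
  have h6 := h2.trans h1
  rwa [le_div_iff₀ (by positivity)] at h6

private theorem mainG_four (D : ℕ) (P : ℝ) : (2 ^ D * P) ^ 2 = 4 ^ D * P ^ 2 := by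
  rw [mul_pow, ← pow_mul, mul_comm D 2, pow_mul]
  norm_num

/-- the lower bound, one parity class -/
private theorem mainG_low {D : ℕ} {N S T P a R r : ℝ} (hr : 0 < r) (hN : 0 < N) (ha : 0 < a)
    (hS : 4 ^ D / 4 * T ≤ S)
    (hT : (999 / 1000) * N * (97 / (100 * r) * P ^ 2) ≤ T) (haR : 2 * a ≤ R)
    (hRP : 99 / 100 * R ^ 2 ≤ (2 ^ D * P) ^ 2) : 19 / (20 * r) ≤ S / N / (a * a) := by
  rw [div_div, le_div_iff₀ (by positivity)]
  have h1 : 4 ^ D / 4 * ((999 / 1000) * N * (97 / (100 * r) * P ^ 2)) ≤ S :=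
    (mul_le_mul_of_nonneg_left hT (by positivity)).trans hS
  refine le_trans ?_ h1
  rw [mainG_four] at hRP
  have h2 : (2 * a) ^ 2 ≤ R ^ 2 := pow_le_pow_left₀ (by positivity) haR 2
  have h3 : 99 / 100 * (4 * a ^ 2) ≤ 4 ^ D * P ^ 2 := by nlinarith
  have h4 : 4 ^ D / 4 * ((999 / 1000) * N * (97 / (100 * r) * P ^ 2)) =
      N / r * (999 / 1000 * (97 / 100) / 4) * (4 ^ D * P ^ 2) := by
    field_simp
  rw [h4]
  refine le_trans ?_ (mul_le_mul_of_nonneg_left h3 (by positivity))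
  have h5 : N / r * (999 / 1000 * (97 / 100) / 4) * (99 / 100 * (4 * a ^ 2)) =
      (N / r * a ^ 2) * (999 / 1000 * (97 / 100) * (99 / 100)) := by ring
  have h6 : 19 / (20 * r) * (N * (a * a)) = (N / r * a ^ 2) * (19 / 20) := by
    field_simp
  rw [h5, h6]
  exact mul_le_mul_of_nonneg_left (by norm_num) (by positivity)

/-- the upper bound -/
private theorem mainG_up {D : ℕ} {N S T P a b M q ε : ℝ} (hq : 0 < q) (hN : 0 < N) (ha : 0 < a)
    (hb : 0 < b) (hM : 1 ≤ M) (hMP : M ^ D = 2 ^ D * P) (hD : 1 ≤ D)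
    (hS : S ≤ 4 ^ D / 4 * T + N * ((M + 1) ^ D * ((M + 1) ^ D - (M - 1) ^ D)))
    (hT : T ≤ N * (1 / (40 * q) * P ^ 2) + ε * N * P ^ 2) (hε0 : 0 ≤ ε) (hε : ε ≤ 1 / (80 * q))
    (hab : 4 * (a * b) = ((M + 1) ^ D) ^ 2 - 1)
    (hB : (1 - 1 / (640 * q)) * (M + 1) ^ D ≤ (M - 1) ^ D) :
    S / N / (a * b) ≤ 1 / (20 * q) := by
  rw [div_div, div_le_iff₀ (by positivity)]
  refine hS.trans ?_
  set R : ℝ := (M + 1) ^ D with hRdef
  have hR2 : 2 ≤ R := by
    have h1 : (2 : ℝ) ≤ M + 1 := by linarith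
    calc (2 : ℝ) ≤ M + 1 := h1
      _ = (M + 1) ^ 1 := (pow_one _).symm
      _ ≤ (M + 1) ^ D := pow_le_pow_right₀ (by linarith) hD
  have hMR : M ^ D + 1 ≤ R := by
    have h1 := pow_add_pow_le (x := M) (y := 1) (by linarith) (by norm_num) (n := D) (by omega)
    rw [one_pow] at h1
    exact h1
  have hMD : 0 ≤ M ^ D := by positivity
  have h2 : 4 ^ D * P ^ 2 ≤ R ^ 2 - 1 := by
    rw [← mainG_four, ← hMP]
    nlinarith
  have h3 : 4 ^ D / 4 * T ≤ N / 4 * ((1 / (40 * q) + ε) * (R ^ 2 - 1)) := by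
    have h4 : 4 ^ D / 4 * T ≤ 4 ^ D / 4 * (N * (1 / (40 * q) * P ^ 2) + ε * N * P ^ 2) :=
      mul_le_mul_of_nonneg_left hT (by positivity)
    refine h4.trans ?_
    have h5 : 4 ^ D / 4 * (N * (1 / (40 * q) * P ^ 2) + ε * N * P ^ 2) =
        N / 4 * ((1 / (40 * q) + ε) * (4 ^ D * P ^ 2)) := by ring
    rw [h5]
    exact mul_le_mul_of_nonneg_left (mul_le_mul_of_nonneg_left h2 (by positivity)) (by positivity)
  have h6 : N * (R * (R - (M - 1) ^ D)) ≤ N * (R * (1 / (640 * q) * R)) := by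
    refine mul_le_mul_of_nonneg_left (mul_le_mul_of_nonneg_left ?_ (by linarith)) hN.le
    linarith
  have h7 : N * (R * (1 / (640 * q) * R)) ≤ N / 4 * (1 / (80 * q) * (R ^ 2 - 1)) := by
    have h8 : N * (R * (1 / (640 * q) * R)) = N / q * (R ^ 2 / 640) := by
      field_simp
    have h9 : N / 4 * (1 / (80 * q) * (R ^ 2 - 1)) = N / q * ((R ^ 2 - 1) / 320) := by
      field_simp
      ring
    rw [h8, h9]
    refine mul_le_mul_of_nonneg_left ?_ (by positivity)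
    nlinarith
  have h10 : (1 / (40 * q) + ε) ≤ 1 / (40 * q) + 1 / (80 * q) := by linarith
  have h11 : N / 4 * ((1 / (40 * q) + ε) * (R ^ 2 - 1)) ≤
      N / 4 * ((1 / (40 * q) + 1 / (80 * q)) * (R ^ 2 - 1)) :=
    mul_le_mul_of_nonneg_left (mul_le_mul_of_nonneg_right h10 (by nlinarith)) (by positivity)
  have h12 : 1 / (20 * q) * (N * (a * b)) = N / 4 * (1 / (20 * q) * (4 * (a * b))) := by ring
  rw [h12, hab]
  have h13 : N / 4 * (1 / (20 * q) * (R ^ 2 - 1)) =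
      N / 4 * ((1 / (40 * q) + 1 / (80 * q)) * (R ^ 2 - 1)) + N / 4 * (1 / (80 * q) * (R ^ 2 - 1)) := by
    field_simp
    ring
  rw [h13]
  linarith

private theorem mainG_Gr (D m : ℕ) : ((univ : Finset (Gr D m)).card : ℝ) = (m : ℝ) ^ D := by
  rw [Finset.card_univ, Fintype.card_fun, Fintype.card_fin, Fintype.card_fin]
  push_cast
  rfl

/-- a sum bounded from below off an exceptional set -/
private theorem mainG_sum_low {α : Type*} (s : Finset α) (p : α → Prop) [DecidablePred p] (F : α → ℝ) {B ε : ℝ}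
    (hB : 0 ≤ B) (hF : ∀ x ∈ s, 0 ≤ F x) (hp : ∀ x ∈ s, p x → B ≤ F x)
    (hc : ((s.filter fun x => ¬ p x).card : ℝ) ≤ ε * s.card) : (1 - ε) * s.card * B ≤ ∑ x ∈ s, F x := by
  have h1 : ((s.filter p).card : ℝ) + ((s.filter fun x => ¬ p x).card : ℝ) = s.card := by
    exact_mod_cast Finset.card_filter_add_card_filter_not (s := s) p
  have h2 : ∑ x ∈ s.filter p, F x ≤ ∑ x ∈ s, F x :=
    Finset.sum_le_sum_of_subset_of_nonneg (Finset.filter_subset _ _) fun x hx _ => hF x hx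
  have h3 : ((s.filter p).card : ℝ) * B ≤ ∑ x ∈ s.filter p, F x := by
    rw [← nsmul_eq_mul]
    exact Finset.card_nsmul_le_sum _ _ _ fun x hx => hp x (Finset.mem_filter.1 hx).1 (Finset.mem_filter.1 hx).2
  refine le_trans ?_ (h3.trans h2)
  refine mul_le_mul_of_nonneg_right ?_ hB
  linarith

/-- a sum bounded from above off an exceptional set -/
private theorem mainG_sum_up {α : Type*} (s : Finset α) (p : α → Prop) [DecidablePred p] (F : α → ℝ) {B C ε : ℝ}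
    (hB : 0 ≤ B) (hC : 0 ≤ C) (hF : ∀ x ∈ s, F x ≤ C) (hp : ∀ x ∈ s, p x → F x ≤ B)
    (hc : ((s.filter fun x => ¬ p x).card : ℝ) ≤ ε * s.card) :
    ∑ x ∈ s, F x ≤ s.card * B + ε * s.card * C := by
  rw [← Finset.sum_filter_add_sum_filter_not s p]
  have h1 : ∑ x ∈ s.filter p, F x ≤ s.card * B := by
    refine (Finset.sum_le_card_nsmul _ _ _ fun x hx =>
      hp x (Finset.mem_filter.1 hx).1 (Finset.mem_filter.1 hx).2).trans ?_
    rw [nsmul_eq_mul]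
    refine mul_le_mul_of_nonneg_right ?_ hB
    exact_mod_cast Finset.card_filter_le _ _
  have h2 : ∑ x ∈ s.filter (fun x => ¬ p x), F x ≤ ε * s.card * C := by
    refine (Finset.sum_le_card_nsmul _ _ _ fun x hx => hF x (Finset.mem_filter.1 hx).1).trans ?_
    rw [nsmul_eq_mul]
    exact mul_le_mul_of_nonneg_right hc hC
  exact add_le_add h1 h2

private theorem mainG_mnP (D k q : ℕ) (A B : Finset (Bx D (2 ^ (k + 1)))) :
    mnP D (2 ^ (k + 1)) q A B =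
      prN D (2 ^ (k + 1)) q A B / NB D (k + 2) q / ((A.card : ℝ) * B.card) := by
  unfold mnP prN
  simp only [← Finset.sum_div]
  rw [trB_card]

theorem mainG : ∃ D₀ : ℕ, ∀ D : ℕ, D₀ ≤ D → ∀ q : ℕ, Adm4 D q → ∃ k₀ : ℕ, ∀ k : ℕ, k₀ ≤ k →
    19 / (20 * (q2 q : ℝ)) ≤ mnP D (2 ^ (k + 1)) q (obx D (2 ^ (k + 1))) (obx D (2 ^ (k + 1))) ∧
    19 / (20 * (q2 q : ℝ)) ≤ mnP D (2 ^ (k + 1)) q (ebx D (2 ^ (k + 1))) (ebx D (2 ^ (k + 1))) ∧
    mnP D (2 ^ (k + 1)) q (obx D (2 ^ (k + 1))) (ebx D (2 ^ (k + 1))) ≤ 1 / (20 * (q : ℝ)) := by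
  classical
  obtain ⟨D₁, hcon⟩ := conG
  refine ⟨max D₁ 1, fun D hD q hq => ?_⟩
  have hD1 : 1 ≤ D := (le_max_right _ _).trans hD
  have hq2 : 2 ≤ q := hq.1
  have hq0 : (0 : ℝ) < q := by
    have : 0 < q := by omega
    exact_mod_cast this
  have hqq : (2 : ℝ) ≤ q := by exact_mod_cast hq2
  have hr0 : (0 : ℝ) < (q2 q : ℝ) := by
    have : 0 < q2 q := by unfold q2; omega
    exact_mod_cast this
  obtain ⟨k₁, hk₁⟩ := hcon D ((le_max_left _ _).trans hD) q hq (1 / (1000 * q)) (by positivity)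
  refine ⟨max k₁ (1280 * D * q), fun k hk => ?_⟩
  have h1 := hk₁ k ((le_max_left _ _).trans hk)
  have hk2 : 1280 * D * q ≤ k := (le_max_right _ _).trans hk
  have hNB : 0 < NB D (k + 2) q := by
    rw [← trB_card (D := D) (k := k) (q := q)]
    exact_mod_cast mainG_pos hq2
  -- the size of `M`
  have hMk : 1280 * D * q ≤ 2 ^ (k + 1) := by
    have h2 : k < 2 ^ k := Nat.lt_two_pow_self
    have h3 : 2 ^ k ≤ 2 ^ (k + 1) := Nat.pow_le_pow_right (by norm_num) (by omega)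
    omega
  have hMr : 1280 * (D : ℝ) * q ≤ (2 : ℝ) ^ (k + 1) := by exact_mod_cast hMk
  have hDr : (1 : ℝ) ≤ (D : ℝ) := by exact_mod_cast hD1
  have hM1 : (2 : ℝ) ≤ (2 : ℝ) ^ (k + 1) := by nlinarith
  have hMP : ((2 : ℝ) ^ (k + 1)) ^ D = 2 ^ D * ((2 : ℝ) ^ k) ^ D := by
    rw [← mul_pow]
    congr 1
    ring
  -- the cards
  have hobx : 2 * ((obx D (2 ^ (k + 1))).card : ℝ) + 1 = ((2 : ℝ) ^ (k + 1) + 1) ^ D := by
    exact_mod_cast obx_eq (D := D) (k := k)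
  have hebx : 2 * ((ebx D (2 ^ (k + 1))).card : ℝ) = ((2 : ℝ) ^ (k + 1) + 1) ^ D + 1 := by
    exact_mod_cast ebx_eq (D := D) (k := k)
  have hpow : (3 : ℝ) ≤ ((2 : ℝ) ^ (k + 1) + 1) ^ D := by
    calc (3 : ℝ) ≤ (2 : ℝ) ^ (k + 1) + 1 := by linarith
      _ = ((2 : ℝ) ^ (k + 1) + 1) ^ 1 := (pow_one _).symm
      _ ≤ ((2 : ℝ) ^ (k + 1) + 1) ^ D := pow_le_pow_right₀ (by linarith) hD1
  have hpow2 : ((2 : ℝ) ^ (k + 1) + 1) ^ D + 1 ≤ ((2 : ℝ) ^ (k + 1) + 2) ^ D := by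
    have h2 := pow_add_pow_le (x := (2 : ℝ) ^ (k + 1) + 1) (y := 1) (by positivity) (by norm_num)
      (n := D) (by omega)
    rw [one_pow] at h2
    refine h2.trans (le_of_eq ?_)
    congr 1
    ring
  have ho0 : 0 < ((obx D (2 ^ (k + 1))).card : ℝ) := by linarith
  have he0 : 0 < ((ebx D (2 ^ (k + 1))).card : ℝ) := by linarith
  have hb1 : 99 / 100 * (((2 : ℝ) ^ (k + 1) + 2) ^ D) ^ 2 ≤ (2 ^ D * ((2 : ℝ) ^ k) ^ D) ^ 2 := by
    rw [← hMP, ← pow_mul, ← pow_mul]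
    have h2 := mainG_bern (n := D * 2) (M := (2 : ℝ) ^ (k + 1)) (a := 2) (δ := 1 / 100) (by norm_num)
      hM1 (by push_cast; nlinarith)
    refine le_trans (le_of_eq ?_) h2
    norm_num
  have hb2 : (1 - 1 / (640 * (q : ℝ))) * ((2 : ℝ) ^ (k + 1) + 1) ^ D ≤ ((2 : ℝ) ^ (k + 1) - 1) ^ D := by
    have h2 := mainG_bern (n := D) (M := (2 : ℝ) ^ (k + 1) - 1) (a := 2) (δ := 1 / (640 * (q : ℝ)))
      (by norm_num) (by nlinarith) (by
        rw [div_mul_eq_mul_div, le_div_iff₀ (by positivity)]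
        nlinarith)
    refine le_trans (le_of_eq ?_) h2
    congr 2
    ring
  have hP0 : 0 < ((2 : ℝ) ^ k) ^ D := by positivity
  -- the exceptional set
  set Pr : (Site D (k + 2) → Fin q) → Prop := fun f =>
      97 / (100 * (q2 q : ℝ)) * (((2 : ℝ) ^ k) ^ D) ^ 2 ≤ ∑ c, (∑ s : Gr D (2 ^ k), Mb f (bk s) c) ^ 2 ∧
      97 / (100 * (q2 q : ℝ)) * (((2 : ℝ) ^ k) ^ D) ^ 2 ≤ ∑ c, (∑ s : Gr D (2 ^ k), Me f (bk s) c) ^ 2 ∧
      ∑ c, (∑ s : Gr D (2 ^ k), Mb f (bk s) c) * (∑ s : Gr D (2 ^ k), Me f (bk s) c) ≤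
        1 / (40 * (q : ℝ)) * (((2 : ℝ) ^ k) ^ D) ^ 2 with hPr
  have hex : (((sys D (k + 2) q univ).filter fun f => ¬ Pr f).card : ℝ) ≤
      1 / (1000 * (q : ℝ)) * ((sys D (k + 2) q univ).card : ℝ) := by
    have h2 : NB D (k + 2) q = ((sys D (k + 2) q univ).card : ℝ) := rfl
    rw [← h2]
    convert h1 using 3
  have hε : 1 / (1000 * (q : ℝ)) ≤ 1 / 1000 := by
    apply one_div_le_one_div_of_le (by norm_num)
    linarith
  have hlow : ∀ F : (Site D (k + 2) → Fin q) → ℝ, (∀ f, 0 ≤ F f) →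
      (∀ f, Pr f → 97 / (100 * (q2 q : ℝ)) * (((2 : ℝ) ^ k) ^ D) ^ 2 ≤ F f) →
      999 / 1000 * NB D (k + 2) q * (97 / (100 * (q2 q : ℝ)) * (((2 : ℝ) ^ k) ^ D) ^ 2) ≤
        ∑ f ∈ sys D (k + 2) q univ, F f := by
    intro F hF hFp
    refine le_trans ?_ (mainG_sum_low (sys D (k + 2) q univ) Pr F (by positivity)
      (fun f _ => hF f) (fun f _ hf => hFp f hf) hex)
    refine mul_le_mul_of_nonneg_right ?_ (by positivity)
    have h2 : NB D (k + 2) q = ((sys D (k + 2) q univ).card : ℝ) := rfl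
    rw [← h2]
    exact mul_le_mul_of_nonneg_right (by linarith) hNB.le
  rw [mainG_mnP, mainG_mnP, mainG_mnP]
  refine ⟨?_, ?_, ?_⟩
  · refine mainG_low (D := D) (P := ((2 : ℝ) ^ k) ^ D) (R := ((2 : ℝ) ^ (k + 1) + 2) ^ D) hr0 hNB ho0
      (trG_oo (q := q) hD1) ?_ (by linarith) hb1
    exact hlow _ (fun f => Finset.sum_nonneg fun c _ => sq_nonneg _) fun f hf => hf.1
  · refine mainG_low (D := D) (P := ((2 : ℝ) ^ k) ^ D) (R := ((2 : ℝ) ^ (k + 1) + 2) ^ D) hr0 hNB he0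
      (trG_ee (q := q) hD1) ?_ (by linarith) hb1
    exact hlow _ (fun f => Finset.sum_nonneg fun c _ => sq_nonneg _) fun f hf => hf.2.1
  · refine mainG_up (D := D) (P := ((2 : ℝ) ^ k) ^ D) (M := (2 : ℝ) ^ (k + 1))
      (ε := 1 / (1000 * (q : ℝ))) hq0 hNB ho0 he0 (by linarith) hMP hD1 (trG_oe (q := q) hD1)
      ?_ (by positivity) ?_ ?_ hb2
    · have h2 := mainG_sum_up (sys D (k + 2) q univ) Pr
        (fun f => ∑ c, (∑ s : Gr D (2 ^ k), Mb f (bk s) c) * (∑ s : Gr D (2 ^ k), Me f (bk s) c))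
        (B := 1 / (40 * (q : ℝ)) * (((2 : ℝ) ^ k) ^ D) ^ 2) (C := (((2 : ℝ) ^ k) ^ D) ^ 2)
        (by positivity) (by positivity) ?_ (fun f _ hf => hf.2.2) hex
      · exact h2
      · intro f _
        have hG := mainG_Gr D (2 ^ k)
        push_cast at hG
        have hU : ∀ c, ∑ s : Gr D (2 ^ k), Mb f (bk s) c ≤ ((2 : ℝ) ^ k) ^ D := by
          intro c
          refine (Finset.sum_le_card_nsmul _ _ 1 fun s _ => Mb_le_one hD1 f (bk s) c).trans ?_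
          rw [nsmul_eq_mul, mul_one, hG]
        have hW0 : ∀ c, 0 ≤ ∑ s : Gr D (2 ^ k), Me f (bk s) c := fun c =>
          Finset.sum_nonneg fun s _ => Me_nonneg f (bk s) c
        have hW : ∑ c, ∑ s : Gr D (2 ^ k), Me f (bk s) c = ((2 : ℝ) ^ k) ^ D := by
          rw [Finset.sum_comm]
          rw [Finset.sum_congr rfl fun s _ => sum_Me hD1 f (bk s)]
          rw [Finset.sum_const, nsmul_eq_mul, mul_one, hG]
        calc ∑ c, (∑ s : Gr D (2 ^ k), Mb f (bk s) c) * (∑ s : Gr D (2 ^ k), Me f (bk s) c)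
            ≤ ∑ c, ((2 : ℝ) ^ k) ^ D * (∑ s : Gr D (2 ^ k), Me f (bk s) c) :=
              Finset.sum_le_sum fun c _ => mul_le_mul_of_nonneg_right (hU c) (hW0 c)
          _ = (((2 : ℝ) ^ k) ^ D) ^ 2 := by
              rw [← Finset.mul_sum, hW, sq]
    · apply one_div_le_one_div_of_le (by positivity)
      linarith
    · have h2 : 4 * (((obx D (2 ^ (k + 1))).card : ℝ) * ((ebx D (2 ^ (k + 1))).card : ℝ)) =
          (2 * ((obx D (2 ^ (k + 1))).card : ℝ)) * (2 * ((ebx D (2 ^ (k + 1))).card : ℝ)) := by ring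
      rw [h2, hebx]
      have h3 : 2 * ((obx D (2 ^ (k + 1))).card : ℝ) = ((2 : ℝ) ^ (k + 1) + 1) ^ D - 1 := by linarith
      rw [h3]
      ring

end Pool.Agent.LO
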