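import Pool.Agent.Lib_MP_2c424f_fb.Cnt

/-!
# Erasing a small component (piece RAY)

`C` is a star-component of `B`, `|C| < m`, `lam` takes equal values at adjacent points off `B`.
Let `e s s' = lam s + lam s'` if `s ∈ C` or `s' ∈ C`, and `0` otherwise, for adjacent `s, s'` (values in `ZMod 2`).
Plaquettes: for a unit square with corners `s, s+e_i, s+e_j, s+e_i+e_j` the sum of `e` over the four edges is `0`: the
corners are pairwise star-adjacent, so if one corner is in `C` then every corner in `B` is in `C`, and `e = δ lam` on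
the square; otherwise `e = 0`.
Fix the direction `i₀ = 0`.  The coordinate `j` takes at most `|C| < m` values on `C`; so some layer `{s i₀ = t}`
does not meet `C`.  Let `φ s` be the sum of `e` over the
edges between `s` and this layer on the line of direction `i₀` through `s`.
Telescoping over the plaquettes of the strip between two
neighbouring lines gives `φ s + φ s' = e s s'`.  `φ s = 0` if some coordinate `j ≠ i₀` of `s` is not a value on
`C` (no edge of the line meets `C`); if the coordinate `i₀` of `s` is not a value on `C`, then `φ` is constant on the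
line of direction `j` through `s`, for `j ≠ i₀`, and there is a point of this line whose coordinate `j` is not a value
on `C`.  So the support of `φ` is in the product of the sets of values, at most `|C|^D` points.
(The hypotheses `gcn C` and `C ⊆ B` are not used.)
-/

set_option autoImplicit false

open Finset

namespace Pool.Agent.LO

variable {D m : ℕ}

/-- change the coordinate `i₀` to `n` -/
private def ray_up (i₀ : Fin D) (s : Gr D m) (n : ℕ) : Gr D m :=
  fun i => if h : i = i₀ ∧ n < m then ⟨n, h.2⟩ else s i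

open scoped Classical in
/-- the cochain -/
private noncomputable def ray_e (C : Finset (Gr D m)) (lam : Gr D m → ZMod 2) (s s' : Gr D m) : ZMod 2 :=
  if s ∈ C ∨ s' ∈ C then lam s + lam s' else 0

/-- sum over a line -/
private noncomputable def ray_G (i₀ : Fin D) (C : Finset (Gr D m)) (lam : Gr D m → ZMod 2) (s : Gr D m)
    (n : ℕ) : ZMod 2 :=
  ∑ i ∈ range n, ray_e C lam (ray_up i₀ s i) (ray_up i₀ s (i + 1))

private theorem ray_up_at (i₀ : Fin D) (s : Gr D m) {n : ℕ} (hn : n < m) :
    (ray_up i₀ s n i₀).val = n := by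
  unfold ray_up
  rw [dif_pos ⟨rfl, hn⟩]

private theorem ray_up_ne (i₀ : Fin D) (s : Gr D m) (n : ℕ) {i : Fin D} (hi : i ≠ i₀) :
    ray_up i₀ s n i = s i := by
  unfold ray_up
  rw [dif_neg (fun h => hi h.1)]

private theorem ray_up_self (i₀ : Fin D) (s : Gr D m) : ray_up i₀ s (s i₀).val = s := by
  funext i
  by_cases hi : i = i₀
  · subst hi
    exact Fin.ext (ray_up_at i s (s i).2)
  · exact ray_up_ne i₀ s _ hi

private theorem ray_up_gnb (i₀ : Fin D) (s : Gr D m) {n : ℕ} (hn : n + 1 < m) :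
    gnb i₀ (ray_up i₀ s n) (ray_up i₀ s (n + 1)) := by
  refine ⟨?_, fun i hi => ?_⟩
  · rw [ray_up_at i₀ s hn, ray_up_at i₀ s (by omega)]
  · rw [ray_up_ne i₀ s _ hi, ray_up_ne i₀ s _ hi]

private theorem ray_up_gnb' (i₀ : Fin D) {j : Fin D} (hj : j ≠ i₀) {s s' : Gr D m} (h : gnb j s s') {n : ℕ}
    (hn : n < m) : gnb j (ray_up i₀ s n) (ray_up i₀ s' n) := by
  refine ⟨?_, fun i hi => ?_⟩
  · rw [ray_up_ne i₀ s _ hj, ray_up_ne i₀ s' _ hj]
    exact h.1
  · by_cases hi0 : i = i₀
    · subst hi0
      apply Fin.ext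
      rw [ray_up_at i s hn, ray_up_at i s' hn]
    · rw [ray_up_ne i₀ s _ hi0, ray_up_ne i₀ s' _ hi0]
      exact h.2 i hi

private theorem ray_up_congr (i₀ : Fin D) {s s' : Gr D m} (h : ∀ i, i ≠ i₀ → s' i = s i) {n : ℕ} (hn : n < m) :
    ray_up i₀ s' n = ray_up i₀ s n := by
  funext i
  by_cases hi : i = i₀
  · subst hi
    apply Fin.ext
    rw [ray_up_at i s hn, ray_up_at i s' hn]
  · rw [ray_up_ne i₀ s _ hi, ray_up_ne i₀ s' _ hi, h i hi]

/-- two corners of a plaquette are star-adjacent -/
private theorem ray_gst (i₀ : Fin D) {j : Fin D} {s s' x y : Gr D m} (h : gnb j s s') {n : ℕ}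
    (hn : n + 1 < m)
    (hx : x = ray_up i₀ s n ∨ x = ray_up i₀ s (n + 1) ∨ x = ray_up i₀ s' n ∨ x = ray_up i₀ s' (n + 1))
    (hy : y = ray_up i₀ s n ∨ y = ray_up i₀ s (n + 1) ∨ y = ray_up i₀ s' n ∨ y = ray_up i₀ s' (n + 1)) :
    gst x y := by
  intro i
  have hn' : n < m := by omega
  by_cases hi : i = i₀
  · subst hi
    have h1 := ray_up_at i s hn
    have h2 := ray_up_at i s' hn
    have h3 := ray_up_at i s hn'
    have h4 := ray_up_at i s' hn'
    rcases hx with rfl | rfl | rfl | rfl <;> rcases hy with rfl | rfl | rfl | rfl <;> omega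
  · have h1 : (s i).val ≤ (s' i).val + 1 ∧ (s' i).val ≤ (s i).val + 1 := by
      by_cases hij : i = j
      · subst hij
        have := h.1
        omega
      · rw [h.2 i hij]
        omega
    have h2 := fun (t : Gr D m) (n : ℕ) => ray_up_ne i₀ t n hi
    rcases hx with rfl | rfl | rfl | rfl <;> rcases hy with rfl | rfl | rfl | rfl <;>
      simp only [h2] <;> omega

section

variable {B C : Finset (Gr D m)} {lam : Gr D m → ZMod 2}

private theorem ray_e_zero {s s' : Gr D m} (h : s ∉ C) (h' : s' ∉ C) : ray_e C lam s s' = 0 := by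
  unfold ray_e
  rw [if_neg]
  rintro (h1 | h1)
  · exact h h1
  · exact h' h1

/-- near `C` the cochain is the coboundary of `lam` -/
private theorem ray_e_eq (hsep : ∀ s ∈ C, ∀ s' ∈ B, gst s s' → s' ∈ C)
    (hlam : ∀ (j : Fin D) (s s' : Gr D m), gnb j s s' → s ∉ B → s' ∉ B → lam s = lam s')
    {c x y : Gr D m} (hc : c ∈ C) (hx : gst c x) (hy : gst c y) {j : Fin D} (h : gnb j x y) :
    ray_e C lam x y = lam x + lam y := by
  by_cases h1 : x ∈ C ∨ y ∈ C
  · unfold ray_e
    rw [if_pos h1]
  · have hxC : x ∉ C := fun h2 => h1 (Or.inl h2)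
    have hyC : y ∉ C := fun h2 => h1 (Or.inr h2)
    rw [ray_e_zero hxC hyC, hlam j x y h (fun h2 => hxC (hsep c hc x h2 hx))
      (fun h2 => hyC (hsep c hc y h2 hy))]
    exact (CharTwo.add_self_eq_zero (lam y)).symm

private theorem ray_alg1 (a b c d : ZMod 2) : (a + b) + (c + d) = (a + c) + (b + d) := by ring

/-- the plaquettes -/
private theorem ray_plaq (hsep : ∀ s ∈ C, ∀ s' ∈ B, gst s s' → s' ∈ C)
    (hlam : ∀ (j : Fin D) (s s' : Gr D m), gnb j s s' → s ∉ B → s' ∉ B → lam s = lam s')
    (i₀ : Fin D) {j : Fin D} (hj : j ≠ i₀) {s s' : Gr D m} (h : gnb j s s') {n : ℕ} (hn : n + 1 < m) :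
    ray_e C lam (ray_up i₀ s n) (ray_up i₀ s (n + 1)) + ray_e C lam (ray_up i₀ s' n) (ray_up i₀ s' (n + 1)) =
      ray_e C lam (ray_up i₀ s n) (ray_up i₀ s' n) +
        ray_e C lam (ray_up i₀ s (n + 1)) (ray_up i₀ s' (n + 1)) := by
  by_cases hc : ∃ c ∈ C, c = ray_up i₀ s n ∨ c = ray_up i₀ s (n + 1) ∨ c = ray_up i₀ s' n ∨
      c = ray_up i₀ s' (n + 1)
  · obtain ⟨c, hcC, hc⟩ := hc
    have g1 := ray_gst i₀ h hn hc (Or.inl rfl)
    have g2 := ray_gst i₀ h hn hc (Or.inr (Or.inl rfl))
    have g3 := ray_gst i₀ h hn hc (Or.inr (Or.inr (Or.inl rfl)))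
    have g4 := ray_gst i₀ h hn hc (Or.inr (Or.inr (Or.inr rfl)))
    rw [ray_e_eq hsep hlam hcC g1 g2 (ray_up_gnb i₀ s hn),
      ray_e_eq hsep hlam hcC g3 g4 (ray_up_gnb i₀ s' hn),
      ray_e_eq hsep hlam hcC g1 g3 (ray_up_gnb' i₀ hj h (by omega)),
      ray_e_eq hsep hlam hcC g2 g4 (ray_up_gnb' i₀ hj h hn)]
    exact ray_alg1 _ _ _ _
  · have hC : ∀ c, (c = ray_up i₀ s n ∨ c = ray_up i₀ s (n + 1) ∨ c = ray_up i₀ s' n ∨
        c = ray_up i₀ s' (n + 1)) → c ∉ C := fun c h1 h2 => hc ⟨c, h2, h1⟩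
    have g1 := hC _ (Or.inl rfl)
    have g2 := hC _ (Or.inr (Or.inl rfl))
    have g3 := hC _ (Or.inr (Or.inr (Or.inl rfl)))
    have g4 := hC _ (Or.inr (Or.inr (Or.inr rfl)))
    rw [ray_e_zero g1 g2, ray_e_zero g3 g4, ray_e_zero g1 g3, ray_e_zero g2 g4]

private theorem ray_alg3 : ∀ a b c d x y z : ZMod 2, a + b = x + z → c + d = x + y →
    a + c + (b + d) = y + z := by
  decide

/-- telescoping -/
private theorem ray_tel (hsep : ∀ s ∈ C, ∀ s' ∈ B, gst s s' → s' ∈ C)
    (hlam : ∀ (j : Fin D) (s s' : Gr D m), gnb j s s' → s ∉ B → s' ∉ B → lam s = lam s')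
    (i₀ : Fin D) {j : Fin D} (hj : j ≠ i₀) {s s' : Gr D m} (h : gnb j s s') (n : ℕ) (hn : n < m) :
    ray_G i₀ C lam s n + ray_G i₀ C lam s' n =
      ray_e C lam (ray_up i₀ s n) (ray_up i₀ s' n) + ray_e C lam (ray_up i₀ s 0) (ray_up i₀ s' 0) := by
  induction n with
  | zero =>
    unfold ray_G
    rw [Finset.sum_range_zero, Finset.sum_range_zero, add_zero]
    exact (CharTwo.add_self_eq_zero _).symm
  | succ n ih =>
    have h1 := ih (by omega)
    have h2 := ray_plaq hsep hlam i₀ hj h hn
    unfold ray_G at h1 ⊢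
    rw [Finset.sum_range_succ, Finset.sum_range_succ]
    generalize ∑ i ∈ range n, ray_e C lam (ray_up i₀ s i) (ray_up i₀ s (i + 1)) = a at *
    generalize ∑ i ∈ range n, ray_e C lam (ray_up i₀ s' i) (ray_up i₀ s' (i + 1)) = b at *
    generalize ray_e C lam (ray_up i₀ s n) (ray_up i₀ s (n + 1)) = c at *
    generalize ray_e C lam (ray_up i₀ s' n) (ray_up i₀ s' (n + 1)) = d at *
    generalize ray_e C lam (ray_up i₀ s n) (ray_up i₀ s' n) = x at *
    generalize ray_e C lam (ray_up i₀ s (n + 1)) (ray_up i₀ s' (n + 1)) = y at *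
    generalize ray_e C lam (ray_up i₀ s 0) (ray_up i₀ s' 0) = z at *
    clear ih
    exact ray_alg3 a b c d x y z h1 h2

private theorem ray_alg4 : ∀ a b e : ZMod 2, a + b + (a + e + b) = e := by
  decide

private theorem ray_alg5 : ∀ a b c d e z : ZMod 2, a + b = e + z → c + d = 0 + z →
    a + c + (b + d) = e := by
  decide

private theorem ray_alg6 : ∀ a b : ZMod 2, a + b = 0 → b = a := by
  decide

end

open scoped Classical in
theorem ray (hD : 2 ≤ D) (B C : Finset (Gr D m)) (hC : gcn C) (hCB : C ⊆ B) (hm : C.card < m)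
    (hsep : ∀ s ∈ C, ∀ s' ∈ B, gst s s' → s' ∈ C)
    (lam : Gr D m → ZMod 2)
    (hlam : ∀ (j : Fin D) (s s' : Gr D m), gnb j s s' → s ∉ B → s' ∉ B → lam s = lam s') :
    ∃ φ : Gr D m → ZMod 2,
      (∀ (j : Fin D) (s s' : Gr D m), gnb j s s' →
        φ s + φ s' = if s ∈ C ∨ s' ∈ C then lam s + lam s' else 0) ∧
      (univ.filter fun s => φ s ≠ 0).card ≤ C.card ^ D := by
  -- the values of the coordinates on `C`
  let I : Fin D → Finset (Fin m) := fun j => C.image fun s => s j
  have hI : ∀ j, (I j).card ≤ C.card := fun j => Finset.card_image_le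
  have hmem : ∀ (j : Fin D) (s : Gr D m), s j ∉ I j → s ∉ C := fun j s h1 h2 =>
    h1 (Finset.mem_image_of_mem _ h2)
  have hout : ∀ j, ∃ x : Fin m, x ∉ I j := by
    intro j
    by_contra hcon
    push Not at hcon
    have h1 : (univ : Finset (Fin m)).card ≤ (I j).card :=
      Finset.card_le_card fun x _ => hcon x
    rw [Finset.card_univ, Fintype.card_fin] at h1
    have := hI j
    omega
  have hD0 : 0 < D := by omega
  let i₀ : Fin D := ⟨0, hD0⟩
  let j₀ : Fin D := ⟨1, by omega⟩
  have hj₀ : j₀ ≠ i₀ := by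
    intro h
    have := congrArg Fin.val h
    simp [i₀, j₀] at this
  obtain ⟨t, ht⟩ := hout i₀
  let φ : Gr D m → ZMod 2 := fun s => ray_G i₀ C lam s (s i₀).val + ray_G i₀ C lam s t.val
  have hφ : ∀ (j : Fin D) (s s' : Gr D m), gnb j s s' → φ s + φ s' = ray_e C lam s s' := by
    intro j s s' h
    by_cases hj : j = i₀
    · subst hj
      have h1 : (s' i₀).val = (s i₀).val + 1 := h.1
      have h2 : (s' i₀).val < m := (s' i₀).2
      have hG : ∀ n, n < m → ray_G i₀ C lam s' n = ray_G i₀ C lam s n := by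
        intro n hn
        unfold ray_G
        apply Finset.sum_congr rfl
        intro i hi
        have hi' := Finset.mem_range.mp hi
        rw [ray_up_congr i₀ h.2 (show i < m by omega), ray_up_congr i₀ h.2 (show i + 1 < m by omega)]
      have h3 : ray_G i₀ C lam s' (s' i₀).val = ray_G i₀ C lam s (s i₀).val + ray_e C lam s s' := by
        rw [hG _ h2, h1]
        have h4 : ray_e C lam s s' = ray_e C lam (ray_up i₀ s (s i₀).val) (ray_up i₀ s ((s i₀).val + 1)) := by
          rw [ray_up_self]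
          congr 1
          rw [← h1, ← ray_up_congr i₀ h.2 h2, ray_up_self]
        rw [h4]
        unfold ray_G
        rw [Finset.sum_range_succ]
      show ray_G i₀ C lam s (s i₀).val + ray_G i₀ C lam s t.val +
        (ray_G i₀ C lam s' (s' i₀).val + ray_G i₀ C lam s' t.val) = ray_e C lam s s'
      rw [h3, hG _ t.2]
      exact ray_alg4 _ _ _
    · have h1 := ray_tel hsep hlam i₀ hj h (s i₀).val (s i₀).2
      have h2 := ray_tel hsep hlam i₀ hj h t.val t.2
      have h3 : (s' i₀) = s i₀ := h.2 i₀ (fun h => hj h.symm)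
      have h4 : ray_e C lam (ray_up i₀ s t.val) (ray_up i₀ s' t.val) = 0 := by
        apply ray_e_zero
        · apply hmem i₀
          have : ray_up i₀ s t.val i₀ = t := Fin.ext (ray_up_at i₀ s t.2)
          rw [this]
          exact ht
        · apply hmem i₀
          have : ray_up i₀ s' t.val i₀ = t := Fin.ext (ray_up_at i₀ s' t.2)
          rw [this]
          exact ht
      rw [h4] at h2
      have h5 : ray_up i₀ s (s i₀).val = s := ray_up_self i₀ s
      have h6 : ray_up i₀ s' (s i₀).val = s' := by rw [← h3]; exact ray_up_self i₀ s'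
      rw [h5, h6] at h1
      show ray_G i₀ C lam s (s i₀).val + ray_G i₀ C lam s t.val +
        (ray_G i₀ C lam s' (s' i₀).val + ray_G i₀ C lam s' t.val) = ray_e C lam s s'
      rw [h3]
      exact ray_alg5 _ _ _ _ _ _ h1 h2
  -- `φ` vanishes if a coordinate `j ≠ i₀` is outside the range
  have hA : ∀ (j : Fin D) (s : Gr D m), j ≠ i₀ → s j ∉ I j → φ s = 0 := by
    intro j s hj hs
    have h1 : ∀ n, ray_G i₀ C lam s n = 0 := by
      intro n
      unfold ray_G
      apply Finset.sum_eq_zero
      intro i _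
      apply ray_e_zero
      · apply hmem j
        rw [ray_up_ne i₀ s _ hj]
        exact hs
      · apply hmem j
        rw [ray_up_ne i₀ s _ hj]
        exact hs
    show ray_G i₀ C lam s (s i₀).val + ray_G i₀ C lam s t.val = 0
    rw [h1, h1, add_zero]
  -- `φ` vanishes if the coordinate `i₀` is outside the range
  have hB : ∀ s : Gr D m, s i₀ ∉ I i₀ → φ s = 0 := by
    intro s hs
    have h0 : 0 < m := (s i₀).pos
    have h1 : ∀ (n : ℕ) (hn : n < m), φ (Function.update s j₀ ⟨n, hn⟩) =
        φ (Function.update s j₀ ⟨0, h0⟩) := by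
      intro n
      induction n with
      | zero => intro hn; rfl
      | succ n ih =>
        intro hn
        rw [← ih (by omega)]
        have h2 : gnb j₀ (Function.update s j₀ ⟨n, by omega⟩) (Function.update s j₀ ⟨n + 1, hn⟩) := by
          refine ⟨?_, fun i hi => ?_⟩
          · rw [Function.update_self, Function.update_self]
          · rw [Function.update_of_ne hi, Function.update_of_ne hi]
        have h3 := hφ _ _ _ h2
        have h4 : ∀ x, (Function.update s j₀ x) ∉ C := by
          intro x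
          apply hmem i₀
          rw [Function.update_of_ne (fun h => hj₀ h.symm)]
          exact hs
        rw [ray_e_zero (h4 _) (h4 _)] at h3
        exact ray_alg6 _ _ h3
    obtain ⟨x, hx⟩ := hout j₀
    have h2 : φ (Function.update s j₀ x) = 0 := by
      apply hA j₀ _ hj₀
      rw [Function.update_self]
      exact hx
    have h3 := h1 x.val x.2
    have h4 := h1 (s j₀).val (s j₀).2
    have h5 : Function.update s j₀ ⟨(s j₀).val, (s j₀).2⟩ = s := Function.update_eq_self j₀ s
    rw [h5] at h4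
    rw [h4, ← h3]
    exact h2
  refine ⟨φ, fun j s s' h => hφ j s s' h, ?_⟩
  have hsub : (univ.filter fun s => φ s ≠ 0) ⊆ Fintype.piFinset I := by
    intro s hs
    have hs' := (Finset.mem_filter.mp hs).2
    rw [Fintype.mem_piFinset]
    intro j
    by_contra hcon
    by_cases hj : j = i₀
    · subst hj
      exact hs' (hB s hcon)
    · exact hs' (hA j s hj hcon)
  refine (Finset.card_le_card hsub).trans ?_
  rw [Fintype.card_piFinset]
  calc ∏ j, (I j).card ≤ ∏ _j : Fin D, C.card := Finset.prod_le_prod' fun j _ => hI j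
    _ = C.card ^ D := by rw [Finset.prod_const, Finset.card_univ, Fintype.card_fin]

end Pool.Agent.LO
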