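import Pool.Agent.Lib_MP_2c424f_fb.Ld
import Pool.Agent.Lib_MP_2c424f_fb.Cnt
import Pool.Agent.Lib_MP_2c424f_fb.FF
import Pool.Agent.Lib_MP_2c424f_lo.PBad

/-!
# Few blocks near large components (piece TAIL)

`r = rr D = exp (-2^D/D^3)`, `m = 2^k`, `s₀ = D (k+1)`, `N' = N exp (SF)`.
Large components: `gld` with `𝒦` = the `gcn` sets with at least `s₀` elements, `y C = w^|C|`,
`w = exp (-2) / (9^D r)`, so `∑_𝒦 y r^|C| ≤ m^D ∑_{n ≥ s₀} e^{-2n} ≤ 1` (`gcn_card`; `m^D ≤ e^{kD}`); with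
`X = w^(m^(D-1)/D^3)`, `log w ≥ 2^D/(2D^3)`: the proportion of `n_large ≥ m^(D-1)/D^3` is at most
`exp (SF + 1 - 2^D m^(D-1)/(2 D^6))`, and `SF = 3 2^D m^(D-1)/D^7`.
Small ones: for `1 ≤ i < s₀`, `𝒦` = the `gcn` sets with `i` elements, `y = e^2`, `X = e^(2 n_i)`,
`n_i = m^D/(2 D^2 i^(D+2))`; `e^2 m^D (9^D r)^i ≤ n_i` for `D ≥ D₀`; the proportion of `N_i ≥ n_i` is at most
`exp (SF - n_i)`, sum over `i < s₀` tends to `0`.  On the complement `∑_small |C|^D ≤ ∑_i i^D n_i ≤ m^D/D^2`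
(`∑ 1/i^2 ≤ 2`), `3 D m n_large ≤ 3 m^D/D^2`, total at most `5 m^D/D^2`.
-/

set_option autoImplicit false

open Finset

namespace Pool.Agent.LO

/-- the cut-off for the number of components with `i` elements -/
private noncomputable def Tail_n (D k i : ℕ) : ℝ :=
  ((2 : ℝ) ^ k) ^ D / (2 * (D : ℝ) ^ 2 * (i : ℝ) ^ (D + 2))

private theorem Tail_two_pow : ∀ D : ℕ, 22 ≤ D → D ^ 3 * (10 * D + 20) ≤ 2 ^ D := by
  intro D hD
  induction D, hD using Nat.le_induction with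
  | base => norm_num
  | succ n hn ih =>
    have h1 : (n + 1) ^ 3 * (10 * (n + 1) + 20) ≤ 2 * (n ^ 3 * (10 * n + 20)) := by
      obtain ⟨t, rfl⟩ := Nat.exists_eq_add_of_le hn
      nlinarith [Nat.zero_le t, Nat.zero_le (t ^ 2), Nat.zero_le (t ^ 3), Nat.zero_le (t ^ 4)]
    calc (n + 1) ^ 3 * (10 * (n + 1) + 20) ≤ 2 * (n ^ 3 * (10 * n + 20)) := h1
      _ ≤ 2 * 2 ^ n := Nat.mul_le_mul_left 2 ih
      _ = 2 ^ (n + 1) := by ring

/-- the exponent of `rr` is large -/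
private theorem Tail_A {D : ℕ} (hD : 22 ≤ D) : 10 * (D : ℝ) + 20 ≤ (2 : ℝ) ^ D / (D : ℝ) ^ 3 := by
  have hD0 : (0 : ℝ) < D := by
    have : 0 < D := by omega
    exact_mod_cast this
  rw [le_div_iff₀ (by positivity)]
  have := Tail_two_pow D hD
  have h2 : (D : ℝ) ^ 3 * (10 * D + 20) ≤ 2 ^ D := by exact_mod_cast this
  linarith

private theorem Tail_nine (D : ℕ) : (9 : ℝ) ^ D ≤ Real.exp (3 * D) := by
  have h1 : (9 : ℝ) ≤ Real.exp 3 := by
    have h2 : Real.exp 3 = (Real.exp 1) ^ 3 := by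
      rw [← Real.exp_nat_mul]; norm_num
    have h3 := Real.exp_one_gt_d9
    rw [h2]
    calc (9 : ℝ) ≤ 2.7 ^ 3 := by norm_num
      _ ≤ (Real.exp 1) ^ 3 := pow_le_pow_left₀ (by norm_num) (by linarith) 3
  calc (9 : ℝ) ^ D ≤ (Real.exp 3) ^ D := pow_le_pow_left₀ (by norm_num) h1 D
    _ = Real.exp (3 * D) := by rw [← Real.exp_nat_mul]; congr 1; ring

/-- the weight of the large components -/
private noncomputable def Tail_w (D : ℕ) : ℝ := Real.exp (-2) / (9 ^ D * rr D)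

private theorem Tail_w_pos (D : ℕ) : 0 < Tail_w D := by
  unfold Tail_w rr
  positivity

private theorem Tail_w_rr (D : ℕ) : Tail_w D * rr D = Real.exp (-2) / 9 ^ D := by
  have h : 0 < rr D := Real.exp_pos _
  unfold Tail_w
  field_simp

private theorem Tail_w_le {D : ℕ} (hD : 22 ≤ D) : Real.exp ((2 : ℝ) ^ D / (2 * (D : ℝ) ^ 3)) ≤ Tail_w D := by
  have hA := Tail_A hD
  have hD0 : (0 : ℝ) < D := by
    have : 0 < D := by omega
    exact_mod_cast this
  have hA2 : (2 : ℝ) ^ D / (2 * (D : ℝ) ^ 3) = ((2 : ℝ) ^ D / (D : ℝ) ^ 3) / 2 := by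
    field_simp
  unfold Tail_w rr
  rw [hA2, le_div_iff₀ (by positivity)]
  set A := (2 : ℝ) ^ D / (D : ℝ) ^ 3
  have h9 := Tail_nine D
  calc Real.exp (A / 2) * (9 ^ D * Real.exp (-A)) ≤
      Real.exp (A / 2) * (Real.exp (3 * D) * Real.exp (-A)) := by
        apply mul_le_mul_of_nonneg_left _ (Real.exp_pos _).le
        exact mul_le_mul_of_nonneg_right h9 (Real.exp_pos _).le
    _ = Real.exp (A / 2 + (3 * D + -A)) := by rw [← Real.exp_add, ← Real.exp_add]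
    _ ≤ Real.exp (-2) := by
        apply Real.exp_le_exp.2
        linarith

open scoped Classical in
/-- the generating function of the large components -/
private theorem Tail_large_sum {D k : ℕ} (hD : 22 ≤ D) :
    ∑ C ∈ (univ : Finset (Finset (Gr D (2 ^ k)))).filter (fun C => gcn C ∧ D * (k + 1) ≤ C.card),
      Tail_w D ^ C.card * rr D ^ C.card ≤ 1 := by
  set P := Fintype.card (Gr D (2 ^ k)) with hP
  have h1 : ∑ C ∈ (univ : Finset (Finset (Gr D (2 ^ k)))).filter (fun C => gcn C ∧ D * (k + 1) ≤ C.card),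
      Tail_w D ^ C.card * rr D ^ C.card =
      ∑ n ∈ Finset.Ico (D * (k + 1)) (P + 1),
        ∑ C ∈ ((univ : Finset (Finset (Gr D (2 ^ k)))).filter
          (fun C => gcn C ∧ D * (k + 1) ≤ C.card)).filter (fun C => C.card = n),
          Tail_w D ^ C.card * rr D ^ C.card := by
    symm
    apply Finset.sum_fiberwise_of_maps_to
    intro C hC
    rw [Finset.mem_filter] at hC
    rw [Finset.mem_Ico]
    refine ⟨hC.2.2, ?_⟩
    have : C.card ≤ P := Finset.card_le_univ C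
    omega
  rw [h1]
  have hx0 : (0 : ℝ) ≤ Real.exp (-2) := (Real.exp_pos _).le
  have hx1 : Real.exp (-2) < 1 := by
    rw [Real.exp_lt_one_iff]; norm_num
  have h2 : ∀ n ∈ Finset.Ico (D * (k + 1)) (P + 1),
      ∑ C ∈ ((univ : Finset (Finset (Gr D (2 ^ k)))).filter
          (fun C => gcn C ∧ D * (k + 1) ≤ C.card)).filter (fun C => C.card = n),
          Tail_w D ^ C.card * rr D ^ C.card ≤ (((2 : ℕ) ^ k : ℕ) : ℝ) ^ D * Real.exp (-2) ^ n := by
    intro n hn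
    have h3 : ∀ C ∈ ((univ : Finset (Finset (Gr D (2 ^ k)))).filter
          (fun C => gcn C ∧ D * (k + 1) ≤ C.card)).filter (fun C => C.card = n),
          Tail_w D ^ C.card * rr D ^ C.card = (Real.exp (-2) / 9 ^ D) ^ n := by
      intro C hC
      rw [(Finset.mem_filter.1 hC).2, ← mul_pow, Tail_w_rr]
    rw [Finset.sum_congr rfl h3, Finset.sum_const, nsmul_eq_mul]
    have h4 : ((((univ : Finset (Finset (Gr D (2 ^ k)))).filter
          (fun C => gcn C ∧ D * (k + 1) ≤ C.card)).filter (fun C => C.card = n)).card : ℝ) ≤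
          (((2 : ℕ) ^ k : ℕ) : ℝ) ^ D * ((9 : ℝ) ^ D) ^ n := by
      refine le_trans ?_ (gcn_card (D := D) (m := 2 ^ k) n)
      have : ((univ : Finset (Finset (Gr D (2 ^ k)))).filter
          (fun C => gcn C ∧ D * (k + 1) ≤ C.card)).filter (fun C => C.card = n) ⊆
          (univ : Finset (Finset (Gr D (2 ^ k)))).filter fun C => gcn C ∧ C.card = n := by
        intro C hC
        simp only [Finset.mem_filter, Finset.mem_univ, true_and] at hC ⊢
        exact ⟨hC.1.1, hC.2⟩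
      exact_mod_cast Finset.card_le_card this
    calc _ ≤ (((2 : ℕ) ^ k : ℕ) : ℝ) ^ D * ((9 : ℝ) ^ D) ^ n * (Real.exp (-2) / 9 ^ D) ^ n :=
          mul_le_mul_of_nonneg_right h4 (by positivity)
      _ = (((2 : ℕ) ^ k : ℕ) : ℝ) ^ D * Real.exp (-2) ^ n := by
          rw [mul_assoc, ← mul_pow, mul_div_cancel₀ _ (by positivity)]
  refine le_trans (Finset.sum_le_sum h2) ?_
  rw [← Finset.mul_sum]
  have h5 := geom_sum_Ico_le_of_lt_one (m := D * (k + 1)) (n := P + 1) hx0 hx1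
  have h6 : (((2 : ℕ) ^ k : ℕ) : ℝ) ^ D ≤ Real.exp (D * k) := by
    have h7 : (2 : ℝ) ≤ Real.exp 1 := by
      have := Real.exp_one_gt_d9
      linarith
    push_cast
    calc ((2 : ℝ) ^ k) ^ D ≤ ((Real.exp 1) ^ k) ^ D :=
          pow_le_pow_left₀ (by positivity) (pow_le_pow_left₀ (by norm_num) h7 k) D
      _ = Real.exp (D * k) := by
          rw [← pow_mul, ← Real.exp_nat_mul]
          congr 1
          push_cast
          ring
  have hD' : (22 : ℝ) ≤ D := by exact_mod_cast hD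
  have hk' : (0 : ℝ) ≤ k := Nat.cast_nonneg k
  have h8 : Real.exp (-2) ^ (D * (k + 1)) = Real.exp (-2 * (D * (k + 1))) := by
    rw [← Real.exp_nat_mul]
    congr 1
    push_cast
    ring
  have h9 : Real.exp (-2) ≤ 1 / 2 := by
    have h10 : (2 : ℝ) ≤ Real.exp 2 := by
      have := Real.add_one_le_exp (2 : ℝ)
      linarith
    rw [Real.exp_neg, inv_eq_one_div]
    exact one_div_le_one_div_of_le (by norm_num) h10
  have h11 : (1 : ℝ) / 2 ≤ 1 - Real.exp (-2) := by linarith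
  calc (((2 : ℕ) ^ k : ℕ) : ℝ) ^ D * ∑ i ∈ Finset.Ico (D * (k + 1)) (P + 1), Real.exp (-2) ^ i ≤
      Real.exp (D * k) * (Real.exp (-2) ^ (D * (k + 1)) / (1 - Real.exp (-2))) := by
        apply mul_le_mul h6 h5 (Finset.sum_nonneg fun i _ => by positivity) (Real.exp_pos _).le
    _ ≤ Real.exp (D * k) * (Real.exp (-2 * (D * (k + 1))) / (1 / 2)) := by
        rw [h8]
        apply mul_le_mul_of_nonneg_left _ (Real.exp_pos _).le
        exact div_le_div_of_nonneg_left (Real.exp_pos _).le (by norm_num) h11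
    _ = 2 * Real.exp (D * k + -2 * (D * (k + 1))) := by
        rw [Real.exp_add]; ring
    _ ≤ 2 * Real.exp (-1) := by
        apply mul_le_mul_of_nonneg_left _ (by norm_num)
        apply Real.exp_le_exp.2
        nlinarith
    _ ≤ 1 := by
        have h12 : (2 : ℝ) ≤ Real.exp 1 := by
          have := Real.exp_one_gt_d9
          linarith
        rw [Real.exp_neg]
        rw [← div_eq_mul_inv, div_le_one (Real.exp_pos _)]
        exact h12

/-- the generating function of the components with `i` elements -/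
private theorem Tail_small_aux {D i : ℕ} (hD : 22 ≤ D) (hi : 1 ≤ i) :
    Real.exp 2 * ((9 : ℝ) ^ D * rr D) ^ i ≤ 1 / (2 * (D : ℝ) ^ 2 * (i : ℝ) ^ (D + 2)) := by
  have hA := Tail_A hD
  have hD0 : (0 : ℝ) < D := by
    have : 0 < D := by omega
    exact_mod_cast this
  have hi0 : (1 : ℝ) ≤ i := by exact_mod_cast hi
  have hi1 : (0 : ℝ) < i := by linarith
  rw [le_div_iff₀ (by positivity)]
  unfold rr
  set A := (2 : ℝ) ^ D / (D : ℝ) ^ 3
  have h9 := Tail_nine D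
  have h1 : ((9 : ℝ) ^ D * Real.exp (-A)) ^ i ≤ Real.exp (i * (3 * D - A)) := by
    rw [Real.exp_nat_mul]
    apply pow_le_pow_left₀ (by positivity)
    rw [sub_eq_add_neg, Real.exp_add]
    exact mul_le_mul_of_nonneg_right h9 (Real.exp_pos _).le
  have h2 : (i : ℝ) ^ (D + 2) ≤ Real.exp ((D + 2) * (i - 1)) := by
    have h3 : (i : ℝ) ≤ Real.exp (i - 1) := by
      have := Real.add_one_le_exp ((i : ℝ) - 1)
      linarith
    calc (i : ℝ) ^ (D + 2) ≤ (Real.exp (i - 1)) ^ (D + 2) := pow_le_pow_left₀ hi1.le h3 _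
      _ = Real.exp ((D + 2) * (i - 1)) := by
        rw [← Real.exp_nat_mul]
        congr 1
        push_cast
        ring
  have h4 : 2 * (D : ℝ) ^ 2 ≤ Real.exp (1 + 2 * D) := by
    have h5 : (2 : ℝ) ≤ Real.exp 1 := by
      have := Real.exp_one_gt_d9
      linarith
    have h6 : (D : ℝ) ≤ Real.exp D := by
      have := Real.add_one_le_exp (D : ℝ)
      linarith
    rw [Real.exp_add]
    have h7 : Real.exp (2 * (D : ℝ)) = Real.exp D ^ 2 := by
      rw [← Real.exp_nat_mul]; norm_num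
    rw [h7]
    exact mul_le_mul h5 (pow_le_pow_left₀ hD0.le h6 2) (by positivity) (Real.exp_pos _).le
  calc Real.exp 2 * ((9 : ℝ) ^ D * Real.exp (-A)) ^ i * (2 * (D : ℝ) ^ 2 * (i : ℝ) ^ (D + 2)) ≤
      Real.exp 2 * Real.exp (i * (3 * D - A)) * (Real.exp (1 + 2 * D) * Real.exp ((D + 2) * (i - 1))) := by
        apply mul_le_mul _ _ (by positivity) (by positivity)
        · exact mul_le_mul_of_nonneg_left h1 (Real.exp_pos _).le
        · exact mul_le_mul h4 h2 (by positivity) (Real.exp_pos _).le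
    _ = Real.exp (2 + i * (3 * D - A) + (1 + 2 * D + (D + 2) * (i - 1))) := by
        rw [← Real.exp_add, ← Real.exp_add, ← Real.exp_add]
    _ ≤ Real.exp 0 := by
        apply Real.exp_le_exp.2
        nlinarith
    _ = 1 := Real.exp_zero

open scoped Classical in
private theorem Tail_small_sum {D k i : ℕ} (hD : 22 ≤ D) (hi : 1 ≤ i) :
    ∑ C ∈ (univ : Finset (Finset (Gr D (2 ^ k)))).filter (fun C => gcn C ∧ C.card = i),
      Real.exp 2 * rr D ^ C.card ≤ Tail_n D k i := by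
  have h3 : ∀ C ∈ (univ : Finset (Finset (Gr D (2 ^ k)))).filter (fun C => gcn C ∧ C.card = i),
      Real.exp 2 * rr D ^ C.card = Real.exp 2 * rr D ^ i := by
    intro C hC
    rw [(Finset.mem_filter.1 hC).2.2]
  rw [Finset.sum_congr rfl h3, Finset.sum_const, nsmul_eq_mul]
  have h4 := gcn_card (D := D) (m := 2 ^ k) i
  have hr : 0 < rr D := Real.exp_pos _
  calc _ ≤ (((2 : ℕ) ^ k : ℕ) : ℝ) ^ D * ((9 : ℝ) ^ D) ^ i * (Real.exp 2 * rr D ^ i) :=
        mul_le_mul_of_nonneg_right h4 (by positivity)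
    _ = ((2 : ℝ) ^ k) ^ D * (Real.exp 2 * ((9 : ℝ) ^ D * rr D) ^ i) := by
        push_cast
        rw [mul_pow ((9 : ℝ) ^ D)]
        ring
    _ ≤ ((2 : ℝ) ^ k) ^ D * (1 / (2 * (D : ℝ) ^ 2 * (i : ℝ) ^ (D + 2))) :=
        mul_le_mul_of_nonneg_left (Tail_small_aux hD hi) (by positivity)
    _ = Tail_n D k i := by
        unfold Tail_n
        ring

/-- the choice of `k₀` for the large components -/
private theorem Tail_k1 {D : ℕ} (hD : 22 ≤ D) {ε : ℝ} (hε : 0 < ε) : ∃ k₀ : ℕ, ∀ k : ℕ, k₀ ≤ k →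
    Real.exp (SF D k + 1 - (2 : ℝ) ^ D / (2 * (D : ℝ) ^ 3) * (((2 : ℝ) ^ k) ^ (D - 1) / (D : ℝ) ^ 3)) ≤
      ε / 2 := by
  have hD' : (22 : ℝ) ≤ D := by exact_mod_cast hD
  have hD0 : (0 : ℝ) < D := by linarith
  set c : ℝ := (2 : ℝ) ^ D / (4 * (D : ℝ) ^ 6) with hc
  have hc0 : 0 < c := by positivity
  obtain ⟨k₀, hk₀⟩ := exists_nat_ge ((1 - Real.log (ε / 2)) / c)
  refine ⟨k₀, fun k hk => ?_⟩
  have h1 : SF D k + 1 - (2 : ℝ) ^ D / (2 * (D : ℝ) ^ 3) * (((2 : ℝ) ^ k) ^ (D - 1) / (D : ℝ) ^ 3) ≤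
      1 - c * ((2 : ℝ) ^ k) ^ (D - 1) := by
    unfold SF
    have h2 : 3 * 2 ^ D * ((2 : ℝ) ^ k) ^ (D - 1) / (D : ℝ) ^ 7 ≤ c * ((2 : ℝ) ^ k) ^ (D - 1) := by
      have h3 : 3 * 2 ^ D * ((2 : ℝ) ^ k) ^ (D - 1) / (D : ℝ) ^ 7 =
          (3 * 2 ^ D / (D : ℝ) ^ 7) * ((2 : ℝ) ^ k) ^ (D - 1) := by ring
      rw [h3]
      apply mul_le_mul_of_nonneg_right _ (by positivity)
      rw [hc, div_le_div_iff₀ (by positivity) (by positivity)]
      have h4 : (D : ℝ) ^ 7 = D * (D : ℝ) ^ 6 := by ring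
      rw [h4]
      have h5 : (0 : ℝ) < 2 ^ D * (D : ℝ) ^ 6 := by positivity
      nlinarith
    have h6 : (2 : ℝ) ^ D / (2 * (D : ℝ) ^ 3) * (((2 : ℝ) ^ k) ^ (D - 1) / (D : ℝ) ^ 3) =
        2 * c * ((2 : ℝ) ^ k) ^ (D - 1) := by
      rw [hc]
      field_simp
      ring
    rw [h6]
    linarith
  have h7 : (k : ℝ) ≤ ((2 : ℝ) ^ k) ^ (D - 1) := by
    have h8 : (k : ℝ) ≤ (2 : ℝ) ^ k := by
      have := Nat.lt_two_pow_self (n := k)
      exact_mod_cast this.le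
    have h9 : (1 : ℝ) ≤ (2 : ℝ) ^ k := one_le_pow₀ (by norm_num)
    calc (k : ℝ) ≤ (2 : ℝ) ^ k := h8
      _ = ((2 : ℝ) ^ k) ^ 1 := (pow_one _).symm
      _ ≤ ((2 : ℝ) ^ k) ^ (D - 1) := pow_le_pow_right₀ h9 (by omega)
  have hkk : (k₀ : ℝ) ≤ k := by exact_mod_cast hk
  have h10 : 1 - Real.log (ε / 2) ≤ c * k := by
    have : (1 - Real.log (ε / 2)) / c ≤ k := le_trans hk₀ hkk
    rw [div_le_iff₀ hc0] at this
    linarith
  have h11 : 1 - c * ((2 : ℝ) ^ k) ^ (D - 1) ≤ Real.log (ε / 2) := by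
    have := mul_le_mul_of_nonneg_left h7 hc0.le
    linarith
  calc _ ≤ Real.exp (Real.log (ε / 2)) := Real.exp_le_exp.2 (le_trans h1 h11)
    _ = ε / 2 := Real.exp_log (by positivity)

/-- the choice of `k₀` for the small components -/
private theorem Tail_k2 {D : ℕ} (hD : 22 ≤ D) {ε : ℝ} (hε : 0 < ε) : ∃ k₀ : ℕ, ∀ k : ℕ, k₀ ≤ k →
    (D * (k + 1) : ℝ) * Real.exp (SF D k - Tail_n D k (D * (k + 1))) ≤ ε / 2 := by
  have hD' : (22 : ℝ) ≤ D := by exact_mod_cast hD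
  have hD0 : (0 : ℝ) < D := by linarith
  set K : ℝ := 3 * 2 ^ D / (D : ℝ) ^ 7 + 1 with hK
  have hK0 : 0 < K := by positivity
  set δ : ℝ := 1 / (4 * (D : ℝ) ^ 2 * (D : ℝ) ^ (D + 2) * K) with hδ
  have hδ0 : 0 < δ := by positivity
  have ht := tendsto_pow_const_div_const_pow_of_one_lt (D + 2) (r := (2 : ℝ)) (by norm_num)
  have he : ∀ᶠ n : ℕ in Filter.atTop, (n : ℝ) ^ (D + 2) / 2 ^ n < δ :=
    (tendsto_order.1 ht).2 δ hδ0
  obtain ⟨n₀, hn₀⟩ := Filter.eventually_atTop.1 he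
  obtain ⟨k₁, hk₁⟩ := exists_nat_ge (Real.log D - Real.log (ε / 2))
  refine ⟨max (max n₀ k₁) 2, fun k hk => ?_⟩
  have hk2 : 2 ≤ k := le_trans (le_max_right _ _) hk
  have hkn : n₀ ≤ k := le_trans (le_trans (le_max_left _ _) (le_max_left _ _)) hk
  have hkk : k₁ ≤ k := le_trans (le_trans (le_max_right _ _) (le_max_left _ _)) hk
  have h1 := hn₀ (k + 1) (by omega)
  rw [div_lt_iff₀ (by positivity)] at h1
  have hk0 : (0 : ℝ) < (k : ℝ) + 1 := by positivity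
  push_cast at h1
  have h2 : K * ((2 : ℝ) ^ k) ^ (D - 1) ≤ Tail_n D k (D * (k + 1)) := by
    unfold Tail_n
    push_cast
    rw [le_div_iff₀ (by positivity)]
    have h3 : ((2 : ℝ) ^ k) ^ D = ((2 : ℝ) ^ k) ^ (D - 1) * 2 ^ k := by
      rw [← pow_succ]
      congr 1
      omega
    rw [h3, mul_pow]
    have h4 : K * (2 * (D : ℝ) ^ 2 * ((D : ℝ) ^ (D + 2) * ((k : ℝ) + 1) ^ (D + 2))) ≤ 2 ^ k := by
      have h5 : (4 * (D : ℝ) ^ 2 * (D : ℝ) ^ (D + 2) * K) * ((k : ℝ) + 1) ^ (D + 2) ≤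
          (4 * (D : ℝ) ^ 2 * (D : ℝ) ^ (D + 2) * K) * (δ * 2 ^ (k + 1)) :=
        mul_le_mul_of_nonneg_left h1.le (by positivity)
      have h6 : (4 * (D : ℝ) ^ 2 * (D : ℝ) ^ (D + 2) * K) * (δ * 2 ^ (k + 1)) = 2 ^ (k + 1) := by
        rw [hδ]
        field_simp
      rw [h6] at h5
      have h7 : (2 : ℝ) ^ (k + 1) = 2 * 2 ^ k := by ring
      rw [h7] at h5
      linarith
    calc K * ((2 : ℝ) ^ k) ^ (D - 1) * (2 * (D : ℝ) ^ 2 * ((D : ℝ) ^ (D + 2) * ((k : ℝ) + 1) ^ (D + 2))) =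
        ((2 : ℝ) ^ k) ^ (D - 1) *
          (K * (2 * (D : ℝ) ^ 2 * ((D : ℝ) ^ (D + 2) * ((k : ℝ) + 1) ^ (D + 2)))) := by ring
      _ ≤ ((2 : ℝ) ^ k) ^ (D - 1) * 2 ^ k := mul_le_mul_of_nonneg_left h4 (by positivity)
  have h8 : SF D k - Tail_n D k (D * (k + 1)) ≤ -((2 : ℝ) ^ k) := by
    have h9 : SF D k + ((2 : ℝ) ^ k) ^ (D - 1) = K * ((2 : ℝ) ^ k) ^ (D - 1) := by
      unfold SF
      rw [hK]
      ring
    have h10 : (2 : ℝ) ^ k ≤ ((2 : ℝ) ^ k) ^ (D - 1) := by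
      have h9 : (1 : ℝ) ≤ (2 : ℝ) ^ k := one_le_pow₀ (by norm_num)
      calc (2 : ℝ) ^ k = ((2 : ℝ) ^ k) ^ 1 := (pow_one _).symm
        _ ≤ ((2 : ℝ) ^ k) ^ (D - 1) := pow_le_pow_right₀ h9 (by omega)
    linarith
  have h11 : 2 * (k : ℝ) ≤ (2 : ℝ) ^ k := by
    have h12 : ∀ n : ℕ, 2 ≤ n → 2 * n ≤ 2 ^ n := by
      intro n hn
      induction n, hn using Nat.le_induction with
      | base => norm_num
      | succ n hn ih => rw [pow_succ]; omega
    exact_mod_cast h12 k hk2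
  have h13 : (k : ℝ) + 1 ≤ Real.exp k := Real.add_one_le_exp _
  have hkk' : (k₁ : ℝ) ≤ k := by exact_mod_cast hkk
  calc (D * (k + 1) : ℝ) * Real.exp (SF D k - Tail_n D k (D * (k + 1))) ≤
      (Real.exp (Real.log D) * Real.exp k) * Real.exp (-((2 : ℝ) ^ k)) := by
        rw [Real.exp_log hD0]
        apply mul_le_mul _ (Real.exp_le_exp.2 h8) (Real.exp_pos _).le (by positivity)
        exact mul_le_mul_of_nonneg_left h13 hD0.le
    _ = Real.exp (Real.log D + k + -((2 : ℝ) ^ k)) := by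
        rw [Real.exp_add, Real.exp_add]
    _ ≤ Real.exp (Real.log (ε / 2)) := by
        apply Real.exp_le_exp.2
        linarith
    _ = ε / 2 := Real.exp_log (by positivity)

/-- the events of `gld` -/
private def Tail_E {Ω V : Type} (Bf : Ω → Finset V) (𝒦 : Finset (Finset V)) (y : Finset V → ℝ) (X : ℝ)
    (ω : Ω) : Prop :=
  ∃ W : Finset (Finset V), W ⊆ 𝒦 ∧ (W : Set (Finset V)).PairwiseDisjoint id ∧
      (∀ C ∈ W, C ⊆ Bf ω) ∧ X ≤ ∏ C ∈ W, y C

open scoped Classical in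
private theorem Tail_gld {Ω V : Type} [Fintype V] [DecidableEq V] (Om : Finset Ω) (Bf : Ω → Finset V)
    (N r : ℝ) (hN : 0 ≤ N) (hr : 0 ≤ r)
    (h : ∀ Γ : Finset V, ((Om.filter fun ω => Γ ⊆ Bf ω).card : ℝ) ≤ N * r ^ Γ.card)
    (𝒦 : Finset (Finset V)) (y : Finset V → ℝ) (hy : ∀ C, 0 ≤ y C) (X : ℝ) (hX : 0 ≤ X) :
    ((Om.filter fun ω => Tail_E Bf 𝒦 y X ω).card : ℝ) * X ≤
      N * Real.exp (∑ C ∈ 𝒦, y C * r ^ C.card) := by
  have h1 := gld Om Bf N r hN hr (fun Γ => by convert h Γ) 𝒦 y hy X hX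
  unfold Tail_E
  convert h1

/-- components are pairwise disjoint -/
private theorem Tail_disj {D m : ℕ} {B : Finset (Gr D m)} {𝒞 : Finset (Finset (Gr D m))} (h : GComp B 𝒞)
    (W : Finset (Finset (Gr D m))) (hW : W ⊆ 𝒞) : (W : Set (Finset (Gr D m))).PairwiseDisjoint id := by
  intro C hC C' hC' hne
  rw [Function.onFun, id, id, Finset.disjoint_left]
  intro s hs hs'
  exact hne (h.sep C (hW hC) C' (hW hC') s hs s hs' (gst_refl s))

open scoped Classical in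
/-- the deterministic part -/
private theorem Tail_det {D k : ℕ} (hD : 22 ≤ D) {B : Finset (Gr D (2 ^ k))}
    {𝒞 : Finset (Finset (Gr D (2 ^ k)))} (h : GComp B 𝒞)
    (hL : ((∑ C ∈ 𝒞.filter (fun C => D * (k + 1) ≤ C.card), C.card : ℕ) : ℝ) ≤
      ((2 : ℝ) ^ k) ^ (D - 1) / (D : ℝ) ^ 3)
    (hS : ∀ i ∈ Finset.Ico 1 (D * (k + 1)), ((𝒞.filter (fun C => C.card = i)).card : ℝ) ≤ Tail_n D k i) :
    ((3 * D * 2 ^ k * ∑ C ∈ 𝒞.filter (fun C => D * (k + 1) ≤ C.card), C.card +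
        2 * ∑ C ∈ 𝒞.filter (fun C => C.card < D * (k + 1)), C.card ^ D : ℕ) : ℝ) ≤
      5 * ((2 : ℝ) ^ k) ^ D / (D : ℝ) ^ 2 := by
  have hD' : (22 : ℝ) ≤ D := by exact_mod_cast hD
  have hD0 : (0 : ℝ) < D := by linarith
  have h1 : ∑ C ∈ 𝒞.filter (fun C => C.card < D * (k + 1)), C.card ^ D =
      ∑ i ∈ Finset.Ico 1 (D * (k + 1)), (𝒞.filter (fun C => C.card = i)).card * i ^ D := by
    rw [← Finset.sum_fiberwise_of_maps_to (s := 𝒞.filter (fun C => C.card < D * (k + 1)))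
      (t := Finset.Ico 1 (D * (k + 1))) (g := Finset.card)]
    · apply Finset.sum_congr rfl
      intro i hi
      rw [Finset.mem_Ico] at hi
      have h2 : (𝒞.filter (fun C => C.card < D * (k + 1))).filter (fun C => C.card = i) =
          𝒞.filter (fun C => C.card = i) := by
        ext C
        simp only [Finset.mem_filter]
        constructor
        · rintro ⟨⟨h1, _⟩, h3⟩
          exact ⟨h1, h3⟩
        · rintro ⟨h1, h3⟩
          exact ⟨⟨h1, by omega⟩, h3⟩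
      rw [h2, Finset.sum_congr rfl (fun C hC => by rw [(Finset.mem_filter.1 hC).2]), Finset.sum_const,
        smul_eq_mul]
    · intro C hC
      rw [Finset.mem_filter] at hC
      rw [Finset.mem_Ico]
      exact ⟨Finset.card_pos.2 (gcn_nonempty (h.cn C hC.1)), hC.2⟩
  have h2 : ((∑ C ∈ 𝒞.filter (fun C => C.card < D * (k + 1)), C.card ^ D : ℕ) : ℝ) ≤
      ((2 : ℝ) ^ k) ^ D / (D : ℝ) ^ 2 := by
    rw [h1]
    push_cast
    calc ∑ i ∈ Finset.Ico 1 (D * (k + 1)), ((𝒞.filter (fun C => C.card = i)).card : ℝ) * (i : ℝ) ^ D ≤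
        ∑ i ∈ Finset.Ico 1 (D * (k + 1)), (((2 : ℝ) ^ k) ^ D / (2 * (D : ℝ) ^ 2)) * ((i : ℝ) ^ 2)⁻¹ := by
          apply Finset.sum_le_sum
          intro i hi
          have h3 := hS i hi
          rw [Finset.mem_Ico] at hi
          have hi0 : (0 : ℝ) < i := by exact_mod_cast hi.1
          calc ((𝒞.filter (fun C => C.card = i)).card : ℝ) * (i : ℝ) ^ D ≤ Tail_n D k i * (i : ℝ) ^ D :=
                mul_le_mul_of_nonneg_right h3 (by positivity)
            _ = (((2 : ℝ) ^ k) ^ D / (2 * (D : ℝ) ^ 2)) * ((i : ℝ) ^ 2)⁻¹ := by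
                unfold Tail_n
                rw [pow_add]
                field_simp
      _ = (((2 : ℝ) ^ k) ^ D / (2 * (D : ℝ) ^ 2)) * ∑ i ∈ Finset.Ico 1 (D * (k + 1)), ((i : ℝ) ^ 2)⁻¹ := by
          rw [Finset.mul_sum]
      _ ≤ (((2 : ℝ) ^ k) ^ D / (2 * (D : ℝ) ^ 2)) * 2 := by
          apply mul_le_mul_of_nonneg_left _ (by positivity)
          have h4 := sum_Ioo_inv_sq_le (α := ℝ) 0 (D * (k + 1))
          have h5 : Finset.Ico 1 (D * (k + 1)) = Finset.Ioo 0 (D * (k + 1)) := by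
            ext i
            simp only [Finset.mem_Ico, Finset.mem_Ioo]
            omega
          rw [h5]
          simpa using h4
      _ = ((2 : ℝ) ^ k) ^ D / (D : ℝ) ^ 2 := by
          field_simp
  have h3 : ((2 : ℝ) ^ k) ^ D = ((2 : ℝ) ^ k) ^ (D - 1) * 2 ^ k := by
    rw [← pow_succ]
    congr 1
    omega
  have h4 : 3 * (D : ℝ) * 2 ^ k * ((∑ C ∈ 𝒞.filter (fun C => D * (k + 1) ≤ C.card), C.card : ℕ) : ℝ) ≤
      3 * ((2 : ℝ) ^ k) ^ D / (D : ℝ) ^ 2 := by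
    calc _ ≤ 3 * (D : ℝ) * 2 ^ k * (((2 : ℝ) ^ k) ^ (D - 1) / (D : ℝ) ^ 3) :=
          mul_le_mul_of_nonneg_left hL (by positivity)
      _ = 3 * ((2 : ℝ) ^ k) ^ D / (D : ℝ) ^ 2 := by
          rw [h3]
          field_simp
  have h5 : ((3 * D * 2 ^ k * ∑ C ∈ 𝒞.filter (fun C => D * (k + 1) ≤ C.card), C.card +
        2 * ∑ C ∈ 𝒞.filter (fun C => C.card < D * (k + 1)), C.card ^ D : ℕ) : ℝ) =
      3 * (D : ℝ) * 2 ^ k * ((∑ C ∈ 𝒞.filter (fun C => D * (k + 1) ≤ C.card), C.card : ℕ) : ℝ) +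
        2 * ((∑ C ∈ 𝒞.filter (fun C => C.card < D * (k + 1)), C.card ^ D : ℕ) : ℝ) := by
    push_cast
    ring
  rw [h5]
  have h6 : 5 * ((2 : ℝ) ^ k) ^ D / (D : ℝ) ^ 2 =
      3 * ((2 : ℝ) ^ k) ^ D / (D : ℝ) ^ 2 + 2 * (((2 : ℝ) ^ k) ^ D / (D : ℝ) ^ 2) := by ring
  rw [h6]
  linarith

open scoped Classical in
theorem gtail : ∃ D₀ : ℕ, ∀ D : ℕ, D₀ ≤ D → ∀ ε : ℝ, 0 < ε → ∃ k₀ : ℕ, ∀ k : ℕ, k₀ ≤ k →
    ∀ {Ω : Type} (Om : Finset Ω) (Bf : Ω → Finset (Gr D (2 ^ k))) (N : ℝ), 0 ≤ N →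
    (∀ Γ : Finset (Gr D (2 ^ k)),
      ((Om.filter fun ω => Γ ⊆ Bf ω).card : ℝ) ≤ N * Real.exp (SF D k) * rr D ^ Γ.card) →
    ((Om.filter fun ω => ∃ 𝒞, GComp (Bf ω) 𝒞 ∧ 5 * ((2 : ℝ) ^ k) ^ D / (D : ℝ) ^ 2 <
      ((3 * D * 2 ^ k * ∑ C ∈ 𝒞.filter (fun C => D * (k + 1) ≤ C.card), C.card +
        2 * ∑ C ∈ 𝒞.filter (fun C => C.card < D * (k + 1)), C.card ^ D : ℕ) : ℝ)).card : ℝ) ≤ ε * N := by
  refine ⟨22, fun D hD ε hε => ?_⟩
  obtain ⟨k₁, hk₁⟩ := Tail_k1 hD hε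
  obtain ⟨k₂, hk₂⟩ := Tail_k2 hD hε
  refine ⟨max k₁ k₂, ?_⟩
  intro k hk Ω Om Bf N hN h
  have hE1 := hk₁ k (le_trans (le_max_left _ _) hk)
  have hE2 := hk₂ k (le_trans (le_max_right _ _) hk)
  have hD' : (22 : ℝ) ≤ D := by exact_mod_cast hD
  have hD0 : (0 : ℝ) < D := by linarith
  have hr : 0 < rr D := Real.exp_pos _
  have hN' : 0 ≤ N * Real.exp (SF D k) := mul_nonneg hN (Real.exp_pos _).le
  set 𝒦 : Finset (Finset (Gr D (2 ^ k))) :=
    (univ : Finset (Finset (Gr D (2 ^ k)))).filter (fun C => gcn C ∧ D * (k + 1) ≤ C.card) with h𝒦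
  set L : ℝ := (2 : ℝ) ^ D / (2 * (D : ℝ) ^ 3) with hLdef
  have hL0 : 0 ≤ L := by positivity
  set nL : ℝ := ((2 : ℝ) ^ k) ^ (D - 1) / (D : ℝ) ^ 3 with hnL
  have hAL := Tail_gld Om Bf (N * Real.exp (SF D k)) (rr D) hN' hr.le h 𝒦
    (fun C => Tail_w D ^ C.card) (fun C => pow_nonneg (Tail_w_pos D).le _) (Real.exp (L * nL))
    (Real.exp_pos _).le
  have hAS := fun i : ℕ => Tail_gld Om Bf (N * Real.exp (SF D k)) (rr D) hN' hr.le h
    ((univ : Finset (Finset (Gr D (2 ^ k)))).filter (fun C => gcn C ∧ C.card = i))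
    (fun _ => Real.exp 2) (fun _ => (Real.exp_pos _).le) (Real.exp (2 * Tail_n D k i)) (Real.exp_pos _).le
  set AL := Om.filter fun ω => Tail_E Bf 𝒦 (fun C => Tail_w D ^ C.card) (Real.exp (L * nL)) ω with hALdef
  set AS := fun i : ℕ => Om.filter fun ω => Tail_E Bf
    ((univ : Finset (Finset (Gr D (2 ^ k)))).filter (fun C => gcn C ∧ C.card = i))
    (fun _ => Real.exp 2) (Real.exp (2 * Tail_n D k i)) ω with hASdef
  -- bound for the large ones
  have hbL : (AL.card : ℝ) ≤ ε / 2 * N := by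
    have h1 : (AL.card : ℝ) * Real.exp (L * nL) ≤ N * Real.exp (SF D k) * Real.exp 1 := by
      refine le_trans hAL ?_
      apply mul_le_mul_of_nonneg_left _ hN'
      exact Real.exp_le_exp.2 (Tail_large_sum hD)
    have h2 : (AL.card : ℝ) = (AL.card : ℝ) * Real.exp (L * nL) * Real.exp (-(L * nL)) := by
      rw [mul_assoc, ← Real.exp_add]
      simp
    rw [h2]
    calc (AL.card : ℝ) * Real.exp (L * nL) * Real.exp (-(L * nL)) ≤
        N * Real.exp (SF D k) * Real.exp 1 * Real.exp (-(L * nL)) :=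
          mul_le_mul_of_nonneg_right h1 (Real.exp_pos _).le
      _ = N * Real.exp (SF D k + 1 - L * nL) := by
          rw [sub_eq_add_neg, Real.exp_add, Real.exp_add]
          ring
      _ ≤ N * (ε / 2) := mul_le_mul_of_nonneg_left hE1 hN
      _ = ε / 2 * N := by ring
  -- bound for the small ones
  have hbS : ∀ i ∈ Finset.Ico 1 (D * (k + 1)), ((AS i).card : ℝ) ≤
      N * Real.exp (SF D k - Tail_n D k (D * (k + 1))) := by
    intro i hi
    rw [Finset.mem_Ico] at hi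
    have h1 : ((AS i).card : ℝ) * Real.exp (2 * Tail_n D k i) ≤
        N * Real.exp (SF D k) * Real.exp (Tail_n D k i) := by
      refine le_trans (hAS i) ?_
      apply mul_le_mul_of_nonneg_left _ hN'
      exact Real.exp_le_exp.2 (Tail_small_sum hD hi.1)
    have h2 : ((AS i).card : ℝ) =
        ((AS i).card : ℝ) * Real.exp (2 * Tail_n D k i) * Real.exp (-(2 * Tail_n D k i)) := by
      rw [mul_assoc, ← Real.exp_add]
      simp
    rw [h2]
    have hi0 : (0 : ℝ) < i := by exact_mod_cast hi.1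
    have h3 : Tail_n D k (D * (k + 1)) ≤ Tail_n D k i := by
      unfold Tail_n
      apply div_le_div_of_nonneg_left (by positivity) (by positivity)
      apply mul_le_mul_of_nonneg_left _ (by positivity)
      apply pow_le_pow_left₀ hi0.le
      exact_mod_cast hi.2.le
    calc ((AS i).card : ℝ) * Real.exp (2 * Tail_n D k i) * Real.exp (-(2 * Tail_n D k i)) ≤
        N * Real.exp (SF D k) * Real.exp (Tail_n D k i) * Real.exp (-(2 * Tail_n D k i)) :=
          mul_le_mul_of_nonneg_right h1 (Real.exp_pos _).le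
      _ = N * Real.exp (SF D k + Tail_n D k i + -(2 * Tail_n D k i)) := by
          rw [Real.exp_add, Real.exp_add]
          ring
      _ ≤ N * Real.exp (SF D k - Tail_n D k (D * (k + 1))) := by
          apply mul_le_mul_of_nonneg_left _ hN
          apply Real.exp_le_exp.2
          linarith
  -- inclusion
  have hsub : (Om.filter fun ω => ∃ 𝒞, GComp (Bf ω) 𝒞 ∧ 5 * ((2 : ℝ) ^ k) ^ D / (D : ℝ) ^ 2 <
      ((3 * D * 2 ^ k * ∑ C ∈ 𝒞.filter (fun C => D * (k + 1) ≤ C.card), C.card +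
        2 * ∑ C ∈ 𝒞.filter (fun C => C.card < D * (k + 1)), C.card ^ D : ℕ) : ℝ)) ⊆
      AL ∪ (Finset.Ico 1 (D * (k + 1))).biUnion AS := by
    intro ω hω
    rw [Finset.mem_filter] at hω
    obtain ⟨hωO, 𝒞, hG, hlt⟩ := hω
    by_contra hcon
    rw [Finset.mem_union, not_or] at hcon
    obtain ⟨hc1, hc2⟩ := hcon
    refine absurd (Tail_det hD hG ?_ ?_) (not_le.2 hlt)
    · by_contra hc
      rw [not_le] at hc
      apply hc1
      rw [hALdef, Finset.mem_filter]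
      refine ⟨hωO, 𝒞.filter (fun C => D * (k + 1) ≤ C.card), ?_, Tail_disj hG _ (Finset.filter_subset _ _),
        fun C hC => hG.sub C (Finset.mem_filter.1 hC).1, ?_⟩
      · intro C hC
        rw [Finset.mem_filter] at hC
        rw [h𝒦, Finset.mem_filter]
        exact ⟨Finset.mem_univ _, hG.cn C hC.1, hC.2⟩
      · rw [Finset.prod_pow_eq_pow_sum]
        set n := ∑ C ∈ 𝒞.filter (fun C => D * (k + 1) ≤ C.card), C.card
        calc Real.exp (L * nL) ≤ Real.exp (L * n) := by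
              apply Real.exp_le_exp.2
              exact mul_le_mul_of_nonneg_left hc.le hL0
          _ = Real.exp L ^ n := by
              rw [← Real.exp_nat_mul]
              congr 1
              ring
          _ ≤ Tail_w D ^ n := pow_le_pow_left₀ (Real.exp_pos _).le (Tail_w_le hD) n
    · intro i hi
      by_contra hc
      rw [not_le] at hc
      apply hc2
      rw [Finset.mem_biUnion]
      refine ⟨i, hi, ?_⟩
      rw [hASdef]
      simp only
      rw [Finset.mem_filter]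
      refine ⟨hωO, 𝒞.filter (fun C => C.card = i), ?_, Tail_disj hG _ (Finset.filter_subset _ _),
        fun C hC => hG.sub C (Finset.mem_filter.1 hC).1, ?_⟩
      · intro C hC
        rw [Finset.mem_filter] at hC
        rw [Finset.mem_filter]
        exact ⟨Finset.mem_univ _, hG.cn C hC.1, hC.2⟩
      · rw [Finset.prod_const, ← Real.exp_nat_mul]
        apply Real.exp_le_exp.2
        linarith
  have hcard := Finset.card_le_card hsub
  have h1 : ((Om.filter fun ω => ∃ 𝒞, GComp (Bf ω) 𝒞 ∧ 5 * ((2 : ℝ) ^ k) ^ D / (D : ℝ) ^ 2 <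
      ((3 * D * 2 ^ k * ∑ C ∈ 𝒞.filter (fun C => D * (k + 1) ≤ C.card), C.card +
        2 * ∑ C ∈ 𝒞.filter (fun C => C.card < D * (k + 1)), C.card ^ D : ℕ) : ℝ)).card : ℝ) ≤
      (AL.card : ℝ) + ∑ i ∈ Finset.Ico 1 (D * (k + 1)), ((AS i).card : ℝ) := by
    have h2 := le_trans hcard (Finset.card_union_le _ _)
    have h3 := Finset.card_biUnion_le (s := Finset.Ico 1 (D * (k + 1))) (t := AS)
    have h4 := le_trans h2 (Nat.add_le_add_left h3 _)
    exact_mod_cast h4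
  refine le_trans h1 ?_
  have h5 : ∑ i ∈ Finset.Ico 1 (D * (k + 1)), ((AS i).card : ℝ) ≤ ε / 2 * N := by
    calc ∑ i ∈ Finset.Ico 1 (D * (k + 1)), ((AS i).card : ℝ) ≤
        ∑ _i ∈ Finset.Ico 1 (D * (k + 1)), N * Real.exp (SF D k - Tail_n D k (D * (k + 1))) :=
          Finset.sum_le_sum hbS
      _ = ((D * (k + 1) - 1 : ℕ) : ℝ) * (N * Real.exp (SF D k - Tail_n D k (D * (k + 1)))) := by
          rw [Finset.sum_const, Nat.card_Ico, nsmul_eq_mul]
      _ ≤ (D * (k + 1) : ℝ) * (N * Real.exp (SF D k - Tail_n D k (D * (k + 1)))) := by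
          apply mul_le_mul_of_nonneg_right _ (mul_nonneg hN (Real.exp_pos _).le)
          have : D * (k + 1) - 1 ≤ D * (k + 1) := Nat.sub_le _ _
          exact_mod_cast this
      _ = N * ((D * (k + 1) : ℝ) * Real.exp (SF D k - Tail_n D k (D * (k + 1)))) := by ring
      _ ≤ N * (ε / 2) := mul_le_mul_of_nonneg_left hE2 hN
      _ = ε / 2 * N := by ring
  linarith

end Pool.Agent.LO
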